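import Mathlib

/-!
# Definitions: the theta function and the Epstein zeta function of a ternary lattice
-/

set_option autoImplicit false

open Matrix MeasureTheory Set

namespace Pool.Agent.H999.Ep3

/-- the squared norm of the lattice vector `A z` -/
noncomputable def nm (A : Matrix (Fin 3) (Fin 3) ℝ) (z : Fin 3 → ℤ) : ℝ :=
  ∑ i, (A.mulVec (fun j => (z j : ℝ)) i) ^ 2

/-- the theta function of the lattice `A ℤ³` -/
noncomputable def th (A : Matrix (Fin 3) (Fin 3) ℝ) (t : ℝ) : ℝ :=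
  ∑' z : Fin 3 → ℤ, Real.exp (-Real.pi * t * nm A z)

/-- a basis of the face-centred cubic lattice of covolume one -/
noncomputable def AF : Matrix (Fin 3) (Fin 3) ℝ :=
  (2:ℝ) ^ (-(1:ℝ)/3) • !![0, 1, 1; 1, 0, 1; 1, 1, 0]

/-- a basis of the body-centred cubic lattice of covolume one -/
noncomputable def AB : Matrix (Fin 3) (Fin 3) ℝ :=
  (2:ℝ) ^ ((1:ℝ)/3) • !![(1:ℝ), 0, 1/2; 0, 1, 1/2; 0, 0, 1/2]

/-- a basis of the dual lattice -/
noncomputable def dl (A : Matrix (Fin 3) (Fin 3) ℝ) : Matrix (Fin 3) (Fin 3) ℝ := (A⁻¹)ᵀ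

/-- `Z` is the analytic continuation of the Epstein zeta function of the lattice `A ℤ³` -/
def IsEpstein (A : Matrix (Fin 3) (Fin 3) ℝ) (Z : ℂ → ℂ) : Prop :=
  DifferentiableOn ℂ Z {3}ᶜ ∧ ∀ s : ℂ, 3 < s.re →
    Z s = ∑' z : {z : Fin 3 → ℤ // z ≠ 0}, ((Real.sqrt (nm A z.1) : ℝ) : ℂ) ^ (-s)

/-- the completed zeta function -/
noncomputable def La (A : Matrix (Fin 3) (Fin 3) ℝ) (σ : ℝ) : ℝ :=
  (∫ t in Ioi (1:ℝ), ((th A t - 1) * t ^ (σ - 1) + (th (dl A) t - 1) * t ^ (1 / 2 - σ))) -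
    1 / σ - 1 / (3 / 2 - σ)

/-- the sum of the theta functions of the lattice and its dual, minus the sum for the cubic lattices -/
noncomputable def UU (A : Matrix (Fin 3) (Fin 3) ℝ) (t : ℝ) : ℝ :=
  th A t + th (dl A) t - th AF t - th AB t

/-- the face-centred cubic lattice minimises the theta function at all scales `t ≥ 1` -/
def TT : Prop := ∀ A : Matrix (Fin 3) (Fin 3) ℝ, |A.det| = 1 → ∀ t : ℝ, 1 ≤ t → th AF t ≤ th A t

/-- positivity on the interval `[1, 819 / 256]` -/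
def U1 (A : Matrix (Fin 3) (Fin 3) ℝ) : Prop := ∀ t : ℝ, 1 ≤ t → t ≤ 819 / 256 → 0 ≤ UU A t

/-- quantitative information -/
def U2 (A : Matrix (Fin 3) (Fin 3) ℝ) : Prop :=
  (∀ t : ℝ, 1 ≤ t → t ≤ 3 / 2 → 9 / 1000000 ≤ UU A t) ∨
  ∃ ε : ℝ, 0 ≤ ε ∧ (∀ t : ℝ, 1 ≤ t → t ≤ 3 / 2 → ε / 1000 ≤ UU A t) ∧
    ∀ t : ℝ, 819 / 256 ≤ t → th AB (t * (1 + ε)) ≤ th AB t + UU A t

/-- bases of the dual lattices -/
def DualFacts : Prop :=
  |AF.det| = 1 ∧ |AB.det| = 1 ∧ (∀ t, th (dl AF) t = th AB t) ∧ (∀ t, th (dl AB) t = th AF t) ∧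
    ∀ A : Matrix (Fin 3) (Fin 3) ℝ, |A.det| = 1 → |(dl A).det| = 1 ∧ dl (dl A) = A

/-- integrability and decay of the theta function, functional equation -/
def ThetaFacts : Prop := ∀ A : Matrix (Fin 3) (Fin 3) ℝ, |A.det| = 1 →
    (∀ t : ℝ, 0 < t → Summable fun z : Fin 3 → ℤ => Real.exp (-Real.pi * t * nm A z)) ∧
    ContinuousOn (th A) (Ioi 0) ∧
    (∀ t : ℝ, 0 < t → th A t = t ^ (-(3 / 2) : ℝ) * th (dl A) (1 / t)) ∧
    (∃ C c : ℝ, 0 < C ∧ 0 < c ∧ ∀ t : ℝ, 1 ≤ t → 0 ≤ th A t - 1 ∧ th A t - 1 ≤ C * Real.exp (-c * t)) ∧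
    (∀ r : ℝ, IntegrableOn (fun t => (th A t - 1) * t ^ r) (Ioi 1))

/-- existence of the continuation, with an integral representation on the real axis -/
def ExistsEp : Prop := ∀ A : Matrix (Fin 3) (Fin 3) ℝ, |A.det| = 1 →
    ∃ Z : ℂ → ℂ, IsEpstein A Z ∧ ∀ σ : ℝ, 0 < σ → σ ≠ 3 / 2 →
      Z (((2 * σ : ℝ)) : ℂ) = ((Real.pi ^ σ / Real.Gamma σ * La A σ : ℝ) : ℂ)

/-- the comparison of completed zeta functions -/
def LaLe : Prop := ∀ A : Matrix (Fin 3) (Fin 3) ℝ, |A.det| = 1 → ∀ σ : ℝ, 3 / 4 ≤ σ → σ ≠ 3 / 2 →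
    La AF σ ≤ La A σ

/-- the first tail bound -/
def Tail1 : Prop := ∫ t in Ioi (819 / 256 : ℝ), (th AB t - th AF t) ≤ 45 / 10000000

/-- the second tail bound -/
def Tail2 : Prop := 819 / 256 * (th AB (819 / 256) - 1) + ∫ t in Ioi (819 / 256 : ℝ), (th AB t - 1) ≤ 5 / 10000

end Pool.Agent.H999.Ep3
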