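import Pool.Agent.H999.Theta3.Base
import Pool.Agent.H999.Ep3.Chk
import Pool.Agent.H999.Ep3.Def

/-!
# Basic definitions: the sum of the theta functions of a lattice and its dual
-/

set_option autoImplicit false

open Matrix

namespace Pool.Agent.H999.Ep3

open Pool.Agent.K1H99.FCC (N0 rv nsq qf af dt PD rad Fp Qm pp tot al be sd)
open Pool.Agent.H999.Theta3 (W Th RF RB Bp bb tF InF InB2 InB sc wv Val ZZ Line psi dx leafB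
  rent lo RFb frc frz detN mid vt)

/-- the polarisation of the adjugate form: `qe p p = 2 af p` -/
noncomputable def qe (p q : Fin 6 → ℝ) (y : Fin 3 → ℝ) : ℝ := af (p + q) y - af p y - af q y

/-- the theta series of the dual form, scaled to the same `rad`, without the constant term -/
noncomputable def Td (p : Fin 6 → ℝ) : ℝ :=
  ∑' n : N0, Real.exp (-(Real.pi * (af p (rv n.1) / rad p)))

/-- the polynomial bounding the theta series of the body-centred cubic form, `v = exp (-be s)` -/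
noncomputable def RBb (v : ℝ) : ℝ := 8 * v ^ 3 + 6 * v ^ 4 + 12 * v ^ 8 + 24 * v ^ 11 + 9 * v ^ 12

/-- the correction -/
noncomputable def ee (s : ℝ) : ℝ := if s ≤ 3 / 2 then 9 / 1000000 else 0

/-- the local region at the face-centred cubic form -/
def InG (p : Fin 6 → ℝ) : Prop :=
  400 * (p 2 + p 3) ≤ 11 * tF p ∧
  800 * p 3 ≤ 11 * tF p + 400 * p 2 ∧ 400 * p 2 ≤ 11 * tF p + 800 * p 3 ∧
  800 * p 2 ≤ 11 * tF p + 400 * p 3 ∧ 400 * p 3 ≤ 11 * tF p + 800 * p 2 ∧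
  300 * (p 0 + p 4) ≤ 7 * tF p + 300 * (p 1 + p 5) ∧ 300 * (p 1 + p 5) ≤ 7 * tF p + 300 * (p 0 + p 4) ∧
  300 * (p 0 + p 1) ≤ 7 * tF p + 300 * (p 4 + p 5) ∧ 300 * (p 4 + p 5) ≤ 7 * tF p + 300 * (p 0 + p 1) ∧
  300 * (p 0 + p 5) ≤ 7 * tF p + 300 * (p 1 + p 4) ∧ 300 * (p 1 + p 4) ≤ 7 * tF p + 300 * (p 0 + p 5)

/-- one pair of opposite parameters in the local region at the body-centred cubic form -/
def InH2 (S x y : ℝ) : Prop :=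
  15 * (x + y) ≤ 6 * S ∧ 4 * S ≤ 15 * (x + y) ∧ 300 * x ≤ 11 * S + 300 * y ∧ 300 * y ≤ 11 * S + 300 * x

/-- the local region at the body-centred cubic form -/
def InH (p : Fin 6 → ℝ) : Prop :=
  InH2 (tot p) (p 0) (p 5) ∧ InH2 (tot p) (p 1) (p 4) ∧ InH2 (tot p) (p 2) (p 3)

/-- the conclusion of the certificate -/
def Con (p : Fin 6 → ℝ) : Prop := RF (rad p) + RB (rad p) + ee (rad p) ≤ Th p + Td p ∨ InG p ∨ InH p

/-- the conclusion holds on the cone over the vertices, for forms with `rad` between the scale `j` and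
the last scale -/
def Good (j : ℕ) (v : Fin 6 → W) : Prop := ∀ l : Fin 6 → ℝ, (∀ i, 0 ≤ l i) →
  PD (∑ i, l i • wv (v i)) → sc j ≤ rad (∑ i, l i • wv (v i)) →
  rad (∑ i, l i • wv (v i)) ≤ 819 / 256 → Con (∑ i, l i • wv (v i))

/-- the dual vectors used by the tests -/
def YY : Fin 25 → Fin 3 → ℤ :=
  ![![0, 0, 1], ![0, 1, -1], ![0, 1, 0], ![1, -1, 0], ![1, 0, -1], ![1, 0, 0], ![1, -1, -1],
    ![1, -1, 1], ![1, 1, -1], ![0, 1, -2], ![0, 1, 1], ![0, 2, -1], ![1, -2, 0], ![1, -2, 1],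
    ![1, 0, -2], ![1, 0, 1], ![1, 1, -2], ![1, 1, 0], ![2, -1, -1], ![2, -1, 0], ![2, 0, -1],
    ![1, 2, -2], ![1, 2, -1], ![2, 1, -2], ![2, 1, -1]]

/-- data extracted from a successful test `tA`: `a z - b z x` are the lines used for the vector `ZZ z`,
`τ / 2 ^ 20` is the threshold -/
structure TDA (j J : ℕ) (v : Fin 6 → W) (a b : Fin 25 → ℕ) (τ : ℕ) : Prop where
  line : ∀ z, Line (a z) (b z)
  pos : 1 ≤ τ
  h1 : τ * ((256 + j) * 314159266) ≤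
    (2 * ∑ z, a z - (rent tabA j + e9 j)) * 13421772800000000
  h3 : τ * ((256 + J) * 314159266) ≤
    ((2 * ∑ z, a z + ((J - j) * (∑ z, b z)) * 33462733507 / 2 ^ 40) -
      ((rent tabA J + e9 j) * rent tabE (J - j) / 2 ^ 24 + 1)) * 13421772800000000
  vert : ∀ i, 1048576 * ∑ z, (b z : ℝ) * qf (wv (v i)) (rv (ZZ z)) ≤ τ * ((v i).g : ℝ)

/-- data extracted from a successful test `tU` -/
structure TDU (j J : ℕ) (v : Fin 6 → W) (a b a' b' : Fin 25 → ℕ) (τ : ℕ) : Prop where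
  line : ∀ z, Line (a z) (b z)
  line' : ∀ z, Line (a' z) (b' z)
  pos : 1 ≤ τ
  h1 : τ * ((256 + j) * 314159266) ≤
    (2 * (∑ z, a z + ∑ z, a' z) - (rent tabU j + e9 j)) * 13421772800000000
  h3 : τ * ((256 + J) * 314159266) ≤
    ((2 * (∑ z, a z + ∑ z, a' z) + ((J - j) * (∑ z, b z + ∑ z, b' z)) * 33462733507 / 2 ^ 40) -
      ((rent tabU J + e9 j) * rent tabE (J - j) / 2 ^ 24 + 1)) * 13421772800000000
  vert : ∀ i, 1048576 * ∑ z, (b z : ℝ) * qf (wv (v i)) (rv (ZZ z)) ≤ 2 * τ * ((v i).g : ℝ)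
  pair : ∀ i k, 1048576 * (((v k).g : ℝ) * ∑ z, (b z : ℝ) * qf (wv (v i)) (rv (ZZ z)) +
      ((v i).g : ℝ) * ∑ z, (b z : ℝ) * qf (wv (v k)) (rv (ZZ z)) +
      ∑ z, (b' z : ℝ) * qe (wv (v i)) (wv (v k)) (rv (YY z))) ≤ 2 * τ * ((v i).g : ℝ) * ((v k).g : ℝ)

/-- the linear form of the tests -/
def lf (B0 B1 B2 B3 B4 B5 : ℕ) (v : W) : ℕ :=
  v.a * B0 + v.b * B1 + v.c * B2 + v.d * B3 + v.e * B4 + v.f * B5

/-- the bilinear form of the tests -/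
def bf (W0 W1 W2 W3 W4 W5 W6 : ℕ) (v w : W) : ℕ :=
  W0 * (v.b * w.c + v.c * w.b + (v.b * w.f + v.f * w.b) + (v.c * w.f + v.f * w.c)) +
  W1 * (v.a * w.c + v.c * w.a + (v.a * w.e + v.e * w.a) + (v.c * w.e + v.e * w.c)) +
  W2 * (v.a * w.b + v.b * w.a + (v.a * w.d + v.d * w.a) + (v.b * w.d + v.d * w.b)) +
  W3 * (v.c * w.d + v.d * w.c) + W4 * (v.b * w.e + v.e * w.b) + W5 * (v.a * w.f + v.f * w.a) +
  W6 * (v.d * w.e + v.e * w.d + (v.d * w.f + v.f * w.d) + (v.e * w.f + v.f * w.e))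

/-- all coordinates are small -/
def Sm (v : W) : Prop := v.a < 2 ^ 34 ∧ v.b < 2 ^ 34 ∧ v.c < 2 ^ 34 ∧ v.d < 2 ^ 34 ∧ v.e < 2 ^ 34 ∧
  v.f < 2 ^ 34 ∧ v.g < 2 ^ 34

/-- the conclusion of the form-level theorem for a form with `rad p = 1` -/
def FLc (p : Fin 6 → ℝ) : Prop :=
  (∀ t : ℝ, 1 ≤ t → t ≤ 819 / 256 → RF t + RB t ≤ Th (t • p) + Td (t • p)) ∧
  ((∀ t : ℝ, 1 ≤ t → t ≤ 3 / 2 → RF t + RB t + 9 / 1000000 ≤ Th (t • p) + Td (t • p)) ∨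
    ∃ ε : ℝ, 0 ≤ ε ∧
      (∀ t : ℝ, 1 ≤ t → t ≤ 3 / 2 → RF t + RB t + ε / 1000 ≤ Th (t • p) + Td (t • p)) ∧
      ∀ t : ℝ, 819 / 256 ≤ t → RF t + RB (t * (1 + ε)) ≤ Th (t • p) + Td (t • p))

/-- every value of the look-up in the table is a valid line -/
def LKok : Prop := ∀ Q s : ℕ, Line ((lk Q s / 2 ^ 48 : ℕ) : ℝ) ((lk Q s % 2 ^ 48 : ℕ) : ℝ) ∧
  lk Q s / 2 ^ 48 ≤ 2 ^ 41 ∧ lk Q s % 2 ^ 48 ≤ 2 ^ 41

/-- the meaning of the packed sums -/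
def SPok : Prop := ∀ Q X : ℕ, X = sP13 Q ∨ X = sP25 Q → ∃ a b : Fin 25 → ℕ,
  (∀ z, Line (a z) (b z)) ∧ Nat.shiftRight X 816 = ∑ z, a z ∧ ∑ z, a z ≤ 2 ^ 46 ∧
  lo (fld X 6) = ∑ z, b z ∧
  ∀ v : W, ∑ z, (b z : ℝ) * qf (wv v) (rv (ZZ z)) =
    ((lf (lo X) (lo (fld X 1)) (lo (fld X 2)) (lo (fld X 3)) (lo (fld X 4)) (lo (fld X 5)) v : ℕ) : ℝ)

/-- the meaning of the packed sums for the dual form -/
def SDok : Prop := ∀ Q Y : ℕ, Y = sD10 Q ∨ Y = sD25 Q → ∃ a b : Fin 25 → ℕ,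
  (∀ z, Line (a z) (b z)) ∧ Nat.shiftRight Y 944 = ∑ z, a z ∧ ∑ z, a z ≤ 2 ^ 46 ∧
  lo (fld Y 7) = ∑ z, b z ∧
  ∀ v w : W, ∑ z, (b z : ℝ) * qe (wv v) (wv w) (rv (YY z)) =
    ((bf (lo Y) (lo (fld Y 1)) (lo (fld Y 2)) (lo (fld Y 3)) (lo (fld Y 4)) (lo (fld Y 5))
      (lo (fld Y 6)) v w : ℕ) : ℝ)

/-- the meaning of the test of all pairs of vertices -/
def PAok : Prop := ∀ (B0 B1 B2 B3 B4 B5 W0 W1 W2 W3 W4 W5 W6 τ : ℕ) (v0 v1 v2 v3 v4 v5 : W),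
  (B0 < 2 ^ 48 ∧ B1 < 2 ^ 48 ∧ B2 < 2 ^ 48 ∧ B3 < 2 ^ 48 ∧ B4 < 2 ^ 48 ∧ B5 < 2 ^ 48) →
  (W0 < 2 ^ 48 ∧ W1 < 2 ^ 48 ∧ W2 < 2 ^ 48 ∧ W3 < 2 ^ 48 ∧ W4 < 2 ^ 48 ∧ W5 < 2 ^ 48 ∧ W6 < 2 ^ 48) →
  τ < 2 ^ 80 → (∀ i, Sm ((![v0, v1, v2, v3, v4, v5] : Fin 6 → W) i)) →
  pall B0 B1 B2 B3 B4 B5 W0 W1 W2 W3 W4 W5 W6 τ v0 v1 v2 v3 v4 v5 = true →
  1 ≤ τ ∧ ∀ i k : Fin 6,
    1048576 * lf B0 B1 B2 B3 B4 B5 ((![v0, v1, v2, v3, v4, v5] : Fin 6 → W) i) ≤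
      2 * τ * ((![v0, v1, v2, v3, v4, v5] : Fin 6 → W) i).g ∧
    1048576 * (((![v0, v1, v2, v3, v4, v5] : Fin 6 → W) k).g *
          lf B0 B1 B2 B3 B4 B5 ((![v0, v1, v2, v3, v4, v5] : Fin 6 → W) i) +
        ((![v0, v1, v2, v3, v4, v5] : Fin 6 → W) i).g *
          lf B0 B1 B2 B3 B4 B5 ((![v0, v1, v2, v3, v4, v5] : Fin 6 → W) k) +
        bf W0 W1 W2 W3 W4 W5 W6 ((![v0, v1, v2, v3, v4, v5] : Fin 6 → W) i)
          ((![v0, v1, v2, v3, v4, v5] : Fin 6 → W) k)) ≤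
      2 * τ * ((![v0, v1, v2, v3, v4, v5] : Fin 6 → W) i).g * ((![v0, v1, v2, v3, v4, v5] : Fin 6 → W) k).g

/-- the tables are correct -/
def TabsOK : Prop :=
  (∀ j : ℕ, j ≤ 563 → 2 ^ 40 * RBb (Real.exp (-(be * sc j))) ≤ (rent tabA j : ℝ)) ∧
  (∀ j : ℕ, j ≤ 563 → 2 ^ 40 * (RFb (Real.exp (-(2 * al * sc j))) + RBb (Real.exp (-(be * sc j)))) ≤
    (rent tabU j : ℝ)) ∧
  ∀ w : ℕ, w ≤ 563 → 2 ^ 24 * Real.exp (Real.pi * (31 / 25) * ((w : ℝ) / 256)) ≤ (rent tabE w : ℝ)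

/-- upper bound of the energy of the body-centred cubic lattice -/
def RBle : Prop := ∀ s : ℝ, 1 ≤ s → RB s ≤ RBb (Real.exp (-(be * s)))

/-- antitonicity and chord property, used for the energies -/
def Chd (R : ℝ → ℝ) : Prop := (∀ s t : ℝ, 1 ≤ s → s ≤ t → R t ≤ R s) ∧
  ∀ s1 s2 s : ℝ, 1 ≤ s1 → s1 < s2 → s1 ≤ s → s ≤ s2 →
    R s * Real.exp (Real.pi * (31 / 25) * (s - s1)) ≤ ((s2 - s) * R s1 + (s - s1) *
      (R s2 * Real.exp (Real.pi * (31 / 25) * (s2 - s1)))) / (s2 - s1)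

/-- the two energies with a constant added have the chord property -/
def ChdOK : Prop := ∀ e : ℝ, 0 ≤ e → Chd (fun s => RB s + e) ∧ Chd (fun s => RF s + RB s + e)

/-- the face-centred cubic lattice minimises the dual theta series -/
def TdOK : Prop := ∀ p : Fin 6 → ℝ, PD p → 1 ≤ rad p → RF (rad p) ≤ Td p

/-- soundness of a test on the interval from `j` to `J` -/
def StepOK (t : ℕ → ℕ → ℕ → W → W → W → W → W → W → Bool) : Prop :=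
  ∀ (z j J : ℕ) (v0 v1 v2 v3 v4 v5 : W), Val v0 → Val v1 → Val v2 → Val v3 → Val v4 → Val v5 →
    j + 1 ≤ J → J ≤ 563 → t z j J v0 v1 v2 v3 v4 v5 = true →
    (J = 563 ∨ Good J ![v0, v1, v2, v3, v4, v5]) → Good j ![v0, v1, v2, v3, v4, v5]

end Pool.Agent.H999.Ep3
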