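import Pool.Agent.H999.Ep3.Base
import Pool.Agent.H999.Theta3.Final

set_option autoImplicit false

open Matrix

namespace Pool.Agent.H999.Ep3

open Pool.Agent.K1H99.FCC (N0 rv nsq qf af dt PD rad Fp Qm pp tot al be sd)
open Pool.Agent.H999.Theta3 (W Th RF RB Bp bb tF InF InB2 InB sc wv Val ZZ Line psi dx inF inB2 leafB
  rent lo RFb frc frz detN mid vt)

open Pool.Agent.K1H99.FCC (rm rm_mul rm_one rm_det Rep uact nsq_mul_rm rv_mulVec nsq_eq det_sq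
  rad_cube rad_pos dt_pos summable_gauss exists_reduced nsq_dual rad_Fp rad_Fp_pos)
open Pool.Agent.H999.Theta3 (fin_split fin_nsq_smul fin_basis fin_Qm_smul)

/-! ### Scaling of the forms -/

lemma g13_qf_smul (k : ℝ) (p : Fin 6 → ℝ) (x : Fin 3 → ℝ) : qf (k • p) x = k * qf p x := by
  unfold qf
  simp only [Pi.smul_apply, smul_eq_mul]
  ring

lemma g13_af_smul (k : ℝ) (p : Fin 6 → ℝ) (x : Fin 3 → ℝ) : af (k • p) x = k ^ 2 * af p x := by
  unfold af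
  simp only [Pi.smul_apply, smul_eq_mul]
  ring

lemma g13_dt_smul (k : ℝ) (p : Fin 6 → ℝ) : dt (k • p) = k ^ 3 * dt p := by
  unfold dt
  simp only [Pi.smul_apply, smul_eq_mul]
  ring

lemma g13_rad_smul {k : ℝ} (hk : 0 < k) {p : Fin 6 → ℝ} (hp : 0 < dt p) :
    rad (k • p) = k * rad p := by
  have h1 : 0 < dt (k • p) := by
    rw [g13_dt_smul]
    positivity
  refine (pow_left_inj₀ (rad_pos h1).le (mul_pos hk (rad_pos hp)).le three_ne_zero).1 ?_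
  rw [rad_cube h1.le, mul_pow, rad_cube hp.le, g13_dt_smul]

lemma g13_PD_smul {k : ℝ} (hk : 0 < k) {p : Fin 6 → ℝ} (hp : PD p) : PD (k • p) := by
  obtain ⟨A, hA, hd⟩ := hp
  refine ⟨Real.sqrt k • A, ?_, ?_⟩
  · rw [Matrix.transpose_smul, Matrix.smul_mul, Matrix.mul_smul, smul_smul, Real.mul_self_sqrt hk.le,
      hA, fin_Qm_smul]
  · rw [Matrix.det_smul]
    exact mul_ne_zero (pow_ne_zero _ (Real.sqrt_pos.2 hk).ne') hd

/-! ### The theta function as a sum over nonzero vectors -/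

lemma g13_th {A B : Matrix (Fin 3) (Fin 3) ℝ} (hBA : Bᵀ * A = 1) {t : ℝ} (ht : 0 < t) :
    th A t = 1 + ∑' n : N0, Real.exp (-(Real.pi * (t * nsq A (rv n.1)))) := by
  have h1 : th A t = ∑' z : Fin 3 → ℤ, Real.exp (-(Real.pi * t) * nsq A (rv z)) := by
    unfold th
    refine tsum_congr fun z => ?_
    have : nm A z = nsq A (rv z) := rfl
    rw [this]
    congr 1
    ring
  rw [h1, fin_split (summable_gauss hBA (c := Real.pi * t) (mul_pos Real.pi_pos ht))]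
  congr 1
  · have h0 : rv (0 : Fin 3 → ℤ) = 0 := by
      funext i
      simp [rv]
    rw [h0]
    unfold nsq
    simp
  · refine tsum_congr fun n => ?_
    congr 1
    ring

lemma g13_unit {A : Matrix (Fin 3) (Fin 3) ℝ} (hA : |A.det| = 1) : IsUnit A.det := by
  rw [isUnit_iff_ne_zero]
  intro h
  rw [h, abs_zero] at hA
  norm_num at hA

lemma g13_dl {A : Matrix (Fin 3) (Fin 3) ℝ} (hA : |A.det| = 1) :
    (dl A)ᵀ * A = 1 ∧ Aᵀ * dl A = 1 ∧ |(dl A).det| = 1 := by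
  have h1 : (dl A)ᵀ * A = 1 := by
    unfold dl
    rw [Matrix.transpose_transpose, Matrix.nonsing_inv_mul _ (g13_unit hA)]
  have h2 : Aᵀ * dl A = 1 := by
    have := congrArg Matrix.transpose h1
    rwa [Matrix.transpose_mul, Matrix.transpose_transpose, Matrix.transpose_one] at this
  refine ⟨h1, h2, ?_⟩
  have h3 := congrArg Matrix.det h1
  rw [Matrix.det_mul, Matrix.det_transpose, Matrix.det_one] at h3
  have h4 := congrArg abs h3
  rwa [abs_mul, hA, mul_one, abs_one] at h4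

/-- reindexing by a unimodular matrix -/
lemma g13_reindex (A : Matrix (Fin 3) (Fin 3) ℝ) (U : Matrix (Fin 3) (Fin 3) ℤ)
    (hU : IsUnit U.det) (t : ℝ) :
    ∑' n : N0, Real.exp (-(Real.pi * (t * nsq A (rv n.1)))) =
      ∑' n : N0, Real.exp (-(Real.pi * (t * nsq (A * rm U) (rv n.1)))) := by
  rw [← (uact U hU).tsum_eq fun n : N0 => Real.exp (-(Real.pi * (t * nsq A (rv n.1))))]
  refine tsum_congr fun n => ?_
  rw [nsq_mul_rm]
  rfl

/-- the theta functions of a lattice and its dual in terms of the form of a basis -/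
lemma g13_main {A : Matrix (Fin 3) (Fin 3) ℝ} (hA : |A.det| = 1) {p : Fin 6 → ℝ}
    {U : Matrix (Fin 3) (Fin 3) ℤ} (hU : IsUnit U.det) (e : (A * rm U)ᵀ * (A * rm U) = Qm p) :
    PD p ∧ rad p = 1 ∧ (∀ t : ℝ, 0 < t → th A t = 1 + Th (t • p)) ∧
      ∀ t : ℝ, 0 < t → th (dl A) t = 1 + Td (t • p) := by
  obtain ⟨h1, h2, h3⟩ := g13_dl hA
  have hX : (A * rm U).det ^ 2 = 1 := by
    rw [Matrix.det_mul, rm_det, mul_pow, ← sq_abs A.det, hA]
    rcases Int.isUnit_iff.1 hU with h | h <;> rw [h] <;> norm_num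
  have hX0 : (A * rm U).det ≠ 0 := by
    intro h
    rw [h] at hX
    norm_num at hX
  have hpd : PD p := ⟨_, e, hX0⟩
  have hdt : dt p = 1 := by rw [← det_sq e, hX]
  have hrad : rad p = 1 := by
    unfold rad
    rw [hdt, Real.one_rpow]
  refine ⟨hpd, hrad, ?_, ?_⟩
  · intro t ht
    rw [g13_th h1 ht, g13_reindex A U hU]
    unfold Th
    congr 1
    refine tsum_congr fun n => ?_
    rw [nsq_eq e, g13_qf_smul]
  · intro t ht
    have hV : IsUnit (U⁻¹ᵀ).det := by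
      rw [Matrix.det_transpose]
      exact Matrix.isUnit_nonsing_inv_det _ hU
    have h4 : (dl A * rm U⁻¹ᵀ)ᵀ * (A * rm U) = 1 := by
      have h5 : (rm U⁻¹ᵀ)ᵀ = rm U⁻¹ := by
        unfold rm
        rw [Matrix.transpose_map, Matrix.transpose_transpose]
      rw [Matrix.transpose_mul, h5, Matrix.mul_assoc, ← Matrix.mul_assoc (dl A)ᵀ, h1,
        Matrix.one_mul, ← rm_mul, Matrix.nonsing_inv_mul _ hU, rm_one]
    rw [g13_th h2 ht, g13_reindex (dl A) U⁻¹ᵀ hV]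
    unfold Td
    congr 1
    refine tsum_congr fun n => ?_
    have h6 := nsq_dual e h4 (rv n.1)
    rw [hdt, mul_one] at h6
    rw [h6, g13_af_smul, g13_rad_smul ht (dt_pos hpd), hrad, mul_one]
    congr 3
    field_simp

/-- every form comes from a lattice -/
theorem bridge_form {p : Fin 6 → ℝ} (hp : PD p) (hr : rad p = 1) :
    ∃ A : Matrix (Fin 3) (Fin 3) ℝ, |A.det| = 1 ∧ (∀ t : ℝ, 0 < t → th A t = 1 + Th (t • p)) ∧
      ∀ t : ℝ, 0 < t → th (dl A) t = 1 + Td (t • p) := by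
  have hdt : dt p = 1 := by
    rw [← rad_cube (dt_pos hp).le, hr, one_pow]
  obtain ⟨A, hA, hd⟩ := hp
  have hdet : |A.det| = 1 := by
    have h1 : |A.det| ^ 2 = 1 ^ 2 := by
      rw [sq_abs, det_sq hA, hdt, one_pow]
    exact (pow_left_inj₀ (abs_nonneg _) zero_le_one two_ne_zero).1 h1
  have hm := g13_main hdet (p := p) (U := 1) (by rw [Matrix.det_one]; exact isUnit_one)
    (by rw [rm_one, Matrix.mul_one]; exact hA)
  exact ⟨A, hdet, hm.2.2⟩

/-- every lattice comes from a reduced form -/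
theorem bridge_red {A : Matrix (Fin 3) (Fin 3) ℝ} (hA : |A.det| = 1) :
    ∃ s1 d1 s2 d2 s3 d3 : ℝ, s2 ≤ s1 ∧ s3 ≤ s2 ∧ 0 ≤ d1 ∧ d1 ≤ s1 ∧ 0 ≤ d2 ∧ d2 ≤ s2 ∧ d3 ≤ s3 ∧
      -d3 ≤ s3 ∧ PD (sd s1 d1 s2 d2 s3 d3) ∧ rad (sd s1 d1 s2 d2 s3 d3) = 1 ∧
      (∀ t : ℝ, 0 < t → th A t = 1 + Th (t • sd s1 d1 s2 d2 s3 d3)) ∧
      ∀ t : ℝ, 0 < t → th (dl A) t = 1 + Td (t • sd s1 d1 s2 d2 s3 d3) := by
  obtain ⟨s1, d1, s2, d2, s3, d3, ⟨U, hU, e⟩, c1, c2, c3, c4, c5, c6, c7, c8⟩ :=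
    exists_reduced A (g13_unit hA).ne_zero
  exact ⟨s1, d1, s2, d2, s3, d3, c1, c2, c3, c4, c5, c6, c7, c8, g13_main hA hU e⟩

/-! ### The cubic lattices -/

lemma g13_cube : ((2:ℝ) ^ ((1:ℝ)/3)) ^ 3 = 2 := by
  rw [← Real.rpow_natCast, ← Real.rpow_mul (by norm_num)]
  norm_num

lemma g13_inv : (2:ℝ) ^ (-(1:ℝ)/3) = ((2:ℝ) ^ ((1:ℝ)/3))⁻¹ := by
  rw [← Real.rpow_neg (by norm_num)]
  norm_num

lemma g13_pos : 0 < (2:ℝ) ^ ((1:ℝ)/3) := Real.rpow_pos_of_pos (by norm_num) _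

lemma g13_detF : |AF.det| = 1 := by
  unfold AF
  rw [Matrix.det_smul, Fintype.card_fin, g13_inv, inv_pow, g13_cube, Matrix.det_fin_three]
  simp
  norm_num

lemma g13_detB : |AB.det| = 1 := by
  unfold AB
  rw [Matrix.det_smul, Fintype.card_fin, g13_cube, Matrix.det_fin_three]
  simp

/-- the face-centred cubic lattice without the scalar -/
def g13_MF : Matrix (Fin 3) (Fin 3) ℝ := !![0, 1, 1; 1, 0, 1; 1, 1, 0]

/-- the body-centred cubic lattice without the scalar -/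
noncomputable def g13_MB : Matrix (Fin 3) (Fin 3) ℝ := !![(1:ℝ), 0, 1/2; 0, 1, 1/2; 0, 0, 1/2]

def g13_UF : Matrix (Fin 3) (Fin 3) ℤ := !![0, -1, 1; 0, 1, 0; 1, 0, -1]

def g13_UB : Matrix (Fin 3) (Fin 3) ℤ := !![-1, 0, 1; 0, -1, 1; 1, 1, -1]

lemma g13_UF_det : IsUnit g13_UF.det := by
  unfold g13_UF
  decide

lemma g13_UB_det : IsUnit g13_UB.det := by
  unfold g13_UB
  decide

lemma g13_rmUF : rm g13_UF = !![(0:ℝ), -1, 1; 0, 1, 0; 1, 0, -1] := by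
  unfold rm g13_UF
  ext i j
  fin_cases i <;> fin_cases j <;> simp

lemma g13_rmUB : rm g13_UB = !![(-1:ℝ), 0, 1; 0, -1, 1; 1, 1, -1] := by
  unfold rm g13_UB
  ext i j
  fin_cases i <;> fin_cases j <;> simp

lemma g13_gramF : (g13_MF * rm g13_UF)ᵀ * (g13_MF * rm g13_UF) = Qm Fp := by
  rw [g13_rmUF]
  unfold g13_MF Qm Fp
  ext i j
  fin_cases i <;> fin_cases j <;>
    simp [Matrix.mul_apply, Fin.sum_univ_three]

lemma g13_gramB : (g13_MB * rm g13_UB)ᵀ * (g13_MB * rm g13_UB) = Qm ((1 / 4 : ℝ) • Bp) := by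
  rw [g13_rmUB]
  unfold g13_MB Qm Bp
  ext i j
  fin_cases i <;> fin_cases j <;>
    simp [Matrix.mul_apply, Fin.sum_univ_three] <;> norm_num

lemma g13_radF : rad Fp = ((2:ℝ) ^ ((1:ℝ)/3)) ^ 2 := by
  refine (pow_left_inj₀ rad_Fp_pos.le (pow_pos g13_pos 2).le three_ne_zero).1 ?_
  rw [rad_Fp, ← pow_mul, mul_comm 2 3, pow_mul, g13_cube]
  norm_num

lemma g13_radB : rad Bp = 2 * (2:ℝ) ^ ((1:ℝ)/3) := by
  have hd : dt Bp = 16 := by
    unfold dt Bp
    norm_num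
  refine (pow_left_inj₀ (rad_pos (by rw [hd]; norm_num)).le
    (mul_pos two_pos g13_pos).le three_ne_zero).1 ?_
  rw [rad_cube (by rw [hd]; norm_num), hd, mul_pow, g13_cube]
  norm_num

/-- the face-centred cubic lattice -/
theorem bridge_F : ∀ t : ℝ, 0 < t → th AF t = 1 + RF t := by
  intro t ht
  obtain ⟨h1, _, _⟩ := g13_dl g13_detF
  rw [g13_th h1 ht, g13_reindex AF g13_UF g13_UF_det]
  unfold RF
  congr 1
  refine tsum_congr fun n => ?_
  have e : AF * rm g13_UF = ((2:ℝ) ^ ((1:ℝ)/3))⁻¹ • (g13_MF * rm g13_UF) := by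
    unfold AF
    rw [Matrix.smul_mul, g13_inv]
    rfl
  have hp := g13_pos
  rw [e, fin_nsq_smul, nsq_eq g13_gramF, g13_radF]
  congr 4
  field_simp

/-- the body-centred cubic lattice -/
theorem bridge_B : ∀ t : ℝ, 0 < t → th AB t = 1 + RB t := by
  intro t ht
  obtain ⟨h1, _, _⟩ := g13_dl g13_detB
  rw [g13_th h1 ht, g13_reindex AB g13_UB g13_UB_det]
  unfold RB
  congr 1
  refine tsum_congr fun n => ?_
  have e : AB * rm g13_UB = (2:ℝ) ^ ((1:ℝ)/3) • (g13_MB * rm g13_UB) := by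
    unfold AB
    rw [Matrix.smul_mul]
    rfl
  have hp := g13_pos
  have h3 := g13_cube
  rw [e, fin_nsq_smul, nsq_eq g13_gramB, g13_qf_smul, g13_radB]
  congr 4
  rw [eq_div_iff (mul_pos two_pos hp).ne']
  generalize (2:ℝ) ^ ((1:ℝ)/3) = c at *
  calc c ^ 2 * (1 / 4 * qf Bp (rv n.1)) * (2 * c) = c ^ 3 * (qf Bp (rv n.1) / 2) := by ring
    _ = qf Bp (rv n.1) := by rw [h3]; ring

/-- the face-centred cubic lattice minimises the dual theta series -/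
theorem td_ok (hTT : TT) : TdOK := by
  intro p hp hr
  have hr0 : 0 < rad p := by linarith
  have hd := dt_pos hp
  have h1 : PD ((rad p)⁻¹ • p) := g13_PD_smul (inv_pos.2 hr0) hp
  have h2 : rad ((rad p)⁻¹ • p) = 1 := by
    rw [g13_rad_smul (inv_pos.2 hr0) hd, inv_mul_cancel₀ hr0.ne']
  obtain ⟨A, hA, _, h3⟩ := bridge_form h1 h2
  have h4 := h3 (rad p) hr0
  rw [smul_smul, mul_inv_cancel₀ hr0.ne', one_smul] at h4
  have h5 := hTT (dl A) (g13_dl hA).2.2 (rad p) hr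
  rw [h4, bridge_F _ hr0] at h5
  linarith

/-- from forms to lattices -/
theorem U_of_FL (hFL : ∀ s1 d1 s2 d2 s3 d3 : ℝ, s2 ≤ s1 → s3 ≤ s2 → 0 ≤ d1 → d1 ≤ s1 → 0 ≤ d2 →
      d2 ≤ s2 → d3 ≤ s3 → -d3 ≤ s3 → PD (sd s1 d1 s2 d2 s3 d3) → rad (sd s1 d1 s2 d2 s3 d3) = 1 →
      FLc (sd s1 d1 s2 d2 s3 d3)) (A : Matrix (Fin 3) (Fin 3) ℝ) (hA : |A.det| = 1) :
    U1 A ∧ U2 A := by
  obtain ⟨s1, d1, s2, d2, s3, d3, c1, c2, c3, c4, c5, c6, c7, c8, hpd, hrad, e1, e2⟩ :=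
    bridge_red hA
  obtain ⟨f1, f2⟩ := hFL s1 d1 s2 d2 s3 d3 c1 c2 c3 c4 c5 c6 c7 c8 hpd hrad
  have hUU : ∀ t : ℝ, 0 < t → UU A t = Th (t • sd s1 d1 s2 d2 s3 d3) +
      Td (t • sd s1 d1 s2 d2 s3 d3) - RF t - RB t := by
    intro t ht
    unfold UU
    rw [e1 t ht, e2 t ht, bridge_F t ht, bridge_B t ht]
    ring
  refine ⟨?_, ?_⟩
  · intro t ht ht'
    rw [hUU t (by linarith)]
    linarith [f1 t ht ht']
  · rcases f2 with f2 | ⟨ε, hε, f2, f3⟩
    · left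
      intro t ht ht'
      rw [hUU t (by linarith)]
      linarith [f2 t ht ht']
    · right
      refine ⟨ε, hε, ?_, ?_⟩
      · intro t ht ht'
        rw [hUU t (by linarith)]
        linarith [f2 t ht ht']
      · intro t ht
        have ht0 : 0 < t := by linarith
        have ht1 : 0 < t * (1 + ε) := by positivity
        rw [hUU t ht0, bridge_B t ht0, bridge_B _ ht1]
        linarith [f3 t ht]

end Pool.Agent.H999.Ep3
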