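import Pool.Agent.H999.Ep3.Base
import Pool.Agent.H999.Theta3.Cell

set_option autoImplicit false

open Matrix

namespace Pool.Agent.H999.Ep3

open Pool.Agent.K1H99.FCC (N0 rv nsq qf af dt PD rad Fp Qm pp tot al be sd)
open Pool.Agent.H999.Theta3 (W Th RF RB Bp bb tF InF InB2 InB sc wv Val ZZ Line psi dx inF inB2 leafB
  rent lo RFb frc frz detN mid vt)

open Pool.Agent.K1H99.FCC (rad_sum rad_pos dt_pos normalise nsq_nonneg summable_gauss two_sum_le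
  sgv af_neg)
open Pool.Agent.H999.Theta3 (cl_core cl_sum_first cl_qf_sum cl_Th cl_wv_nonneg cl_rad_wv)

theorem g6_fin (R : ℝ → ℝ) (hR : Chd R) (A B s1 s2 τ R1 R2 s r T : ℝ) (h1 : 1 ≤ s1) (h12 : s1 < s2)
    (hτ : 0 ≤ τ) (hR1 : 2 ^ 40 * R s1 ≤ R1) (hL1 : R1 ≤ 2 * A - 2 * Real.pi * τ * s1)
    (hR2 : 2 ^ 40 * (R s2 * Real.exp (Real.pi * (31 / 25) * (s2 - s1))) ≤ R2)
    (hL2 : R2 ≤ 2 * A - 2 * Real.pi * τ * s2 + 2 * Real.pi * (31 / 25) * (s2 - s1) * B)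
    (hs : s ≤ r) (hr : s1 ≤ r)
    (hc : ∀ c : ℝ, 2 * A - 2 * Real.pi * τ * s + 2 * c * B ≤ 2 ^ 40 * Real.exp c * T) :
    R r ≤ T ∨ s2 < r := by
  have hpi := Real.pi_pos
  have hpt : 0 ≤ Real.pi * τ := mul_nonneg hpi.le hτ
  rcases le_or_gt s s1 with h3 | h3
  · left
    have h4 := hc 0
    have h5 := hR.1 s1 r h1 hr
    have h6 := mul_le_mul_of_nonneg_left h3 hpt
    rw [Real.exp_zero] at h4
    linarith
  rcases lt_or_ge s2 s with h4 | h4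
  · right
    linarith
  left
  have h5 := hc (Real.pi * (31 / 25) * (s - s1))
  have h6 := hR.2 s1 s2 s h1 h12 h3.le h4
  set E := Real.exp (Real.pi * (31 / 25) * (s - s1)) with hE
  have hE0 : 0 < E := Real.exp_pos _
  rw [le_div_iff₀ (by linarith)] at h6
  have h7 := hR.1 s r (by linarith) hs
  have e1 := mul_le_mul_of_nonneg_left (hR1.trans hL1) (sub_nonneg.2 h4)
  have e2 := mul_le_mul_of_nonneg_left (hR2.trans hL2) (sub_pos.2 h3).le
  have e3 := mul_le_mul_of_nonneg_left h5 (sub_pos.2 h12).le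
  have e4 : (s2 - s1) * (2 ^ 40 * E * R s) ≤ (s2 - s1) * (2 ^ 40 * E * T) := by
    nlinarith
  have e5 : R s ≤ T := by
    have e6 := le_of_mul_le_mul_left e4 (sub_pos.2 h12)
    exact le_of_mul_le_mul_left e6 (by positivity)
  linarith

theorem g6_YY0 : ∀ s, sgv YY s ≠ 0 := by decide +kernel

theorem g6_YYi : Function.Injective (sgv YY) := by decide +kernel

theorem g6_af_nonneg {p : Fin 6 → ℝ} (h : PD p) (y : Fin 3 → ℝ) : 0 ≤ af p y := by
  obtain ⟨A, hA, hd⟩ := h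
  have hr := rad_pos (dt_pos ⟨A, hA, hd⟩)
  obtain ⟨A', B', h1, h2, h3, h4⟩ := normalise hA hd
  have h5 := h4 y
  rw [eq_div_iff (by positivity)] at h5
  rw [← h5]
  exact mul_nonneg (nsq_nonneg _ _) (by positivity)

theorem g6_summable {p : Fin 6 → ℝ} (h : PD p) :
    Summable fun n : N0 => Real.exp (-(Real.pi * (af p (rv n.1) / rad p))) := by
  obtain ⟨A, hA, hd⟩ := h
  have hr := rad_pos (dt_pos ⟨A, hA, hd⟩)
  obtain ⟨A', B', h1, h2, h3, h4⟩ := normalise hA hd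
  have h5 : A'ᵀ * B' = 1 := by
    have := congrArg Matrix.transpose h1
    rwa [Matrix.transpose_mul, Matrix.transpose_transpose, Matrix.transpose_one] at this
  refine ((summable_gauss h5 (c := Real.pi * rad p) (mul_pos Real.pi_pos hr)).subtype
    {n : Fin 3 → ℤ | n ≠ 0}).congr fun k => ?_
  show Real.exp (-(Real.pi * rad p) * nsq B' (rv k.1)) = _
  rw [h4]
  congr 1
  field_simp

theorem g6_Td {p : Fin 6 → ℝ} (h : PD p) :
    2 * ∑ z, Real.exp (-(Real.pi * (af p (rv (YY z)) / rad p))) ≤ Td p :=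
  two_sum_le YY g6_YY0 g6_YYi (fun n => Real.exp (-(Real.pi * (af p (rv n) / rad p))))
    (fun n => by simp only [af_neg]) (fun n => (Real.exp_pos _).le) (g6_summable h)

theorem g6_qe_sum (l : Fin 6 → ℝ) (w : Fin 6 → Fin 6 → ℝ) (q : Fin 6 → ℝ) (y : Fin 3 → ℝ) :
    qe (∑ i, l i • w i) q y = ∑ i, l i * qe (w i) q y :=
  cl_sum_first (fun p => qe p q y)
    (fun p p' => by simp only [qe, af, Pi.add_apply]; ring)
    (fun c p => by simp only [qe, af, Pi.add_apply, Pi.smul_apply, smul_eq_mul]; ring) _ l w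

theorem g6_qe_comm (p q : Fin 6 → ℝ) (y : Fin 3 → ℝ) : qe p q y = qe q p y := by
  unfold qe
  rw [add_comm p q]
  ring

theorem g6_qe_self (p : Fin 6 → ℝ) (y : Fin 3 → ℝ) : qe p p y = 2 * af p y := by
  simp only [qe, af, Pi.add_apply]
  ring

theorem g6_qe_double (l : Fin 6 → ℝ) (w : Fin 6 → Fin 6 → ℝ) (y : Fin 3 → ℝ) :
    2 * af (∑ i, l i • w i) y = ∑ i, ∑ k, l i * l k * qe (w i) (w k) y := by
  rw [← g6_qe_self, g6_qe_sum]
  refine Finset.sum_congr rfl fun i _ => ?_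
  rw [g6_qe_comm, g6_qe_sum, Finset.mul_sum]
  refine Finset.sum_congr rfl fun k _ => ?_
  rw [g6_qe_comm (w k) (w i)]
  ring

/-- the quadratic estimate -/
theorem g6_quad (b b' : Fin 25 → ℝ) (v : Fin 6 → W) (τ : ℝ)
    (hpair : ∀ i k, ((v k).g : ℝ) * ∑ z, b z * qf (wv (v i)) (rv (ZZ z)) +
      ((v i).g : ℝ) * ∑ z, b z * qf (wv (v k)) (rv (ZZ z)) +
      ∑ z, b' z * qe (wv (v i)) (wv (v k)) (rv (YY z)) ≤ 2 * τ * ((v i).g : ℝ) * ((v k).g : ℝ))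
    (l : Fin 6 → ℝ) (h0 : ∀ i, 0 ≤ l i) :
    (∑ i, l i * ((v i).g : ℝ)) * ∑ z, b z * qf (∑ i, l i • wv (v i)) (rv (ZZ z)) +
      ∑ z, b' z * af (∑ i, l i • wv (v i)) (rv (YY z)) ≤
      τ * (∑ i, l i * ((v i).g : ℝ)) ^ 2 := by
  have h1 : ∑ i, ∑ k, l i * l k * (((v k).g : ℝ) * ∑ z, b z * qf (wv (v i)) (rv (ZZ z)) +
      ((v i).g : ℝ) * ∑ z, b z * qf (wv (v k)) (rv (ZZ z)) +
      ∑ z, b' z * qe (wv (v i)) (wv (v k)) (rv (YY z))) ≤
      ∑ i, ∑ k, l i * l k * (2 * τ * ((v i).g : ℝ) * ((v k).g : ℝ)) :=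
    Finset.sum_le_sum fun i _ => Finset.sum_le_sum fun k _ =>
      mul_le_mul_of_nonneg_left (hpair i k) (mul_nonneg (h0 i) (h0 k))
  have e1 : ∑ z, b z * qf (∑ i, l i • wv (v i)) (rv (ZZ z)) =
      ∑ i, l i * ∑ z, b z * qf (wv (v i)) (rv (ZZ z)) := by
    simp_rw [cl_qf_sum, Finset.mul_sum]
    rw [Finset.sum_comm]
    refine Finset.sum_congr rfl fun i _ => Finset.sum_congr rfl fun z _ => by ring
  have e2 : 2 * ∑ z, b' z * af (∑ i, l i • wv (v i)) (rv (YY z)) =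
      ∑ i, ∑ k, l i * l k * ∑ z, b' z * qe (wv (v i)) (wv (v k)) (rv (YY z)) := by
    have e3 : 2 * ∑ z, b' z * af (∑ i, l i • wv (v i)) (rv (YY z)) =
        ∑ z, ∑ i, ∑ k, b' z * (l i * l k * qe (wv (v i)) (wv (v k)) (rv (YY z))) := by
      rw [Finset.mul_sum]
      refine Finset.sum_congr rfl fun z _ => ?_
      have := g6_qe_double l (fun i => wv (v i)) (rv (YY z))
      calc 2 * (b' z * af (∑ i, l i • wv (v i)) (rv (YY z))) =
          b' z * (2 * af (∑ i, l i • wv (v i)) (rv (YY z))) := by ring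
        _ = _ := by
            rw [this, Finset.mul_sum]
            refine Finset.sum_congr rfl fun i _ => ?_
            rw [Finset.mul_sum]
    rw [e3, Finset.sum_comm]
    refine Finset.sum_congr rfl fun i _ => ?_
    rw [Finset.sum_comm]
    refine Finset.sum_congr rfl fun k _ => ?_
    rw [Finset.mul_sum]
    refine Finset.sum_congr rfl fun z _ => ?_
    ring
  have e4 : ∑ i, ∑ k, l i * l k * (2 * τ * ((v i).g : ℝ) * ((v k).g : ℝ)) =
      2 * (τ * (∑ i, l i * ((v i).g : ℝ)) ^ 2) := by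
    rw [sq, Finset.sum_mul_sum, Finset.mul_sum, Finset.mul_sum]
    refine Finset.sum_congr rfl fun i _ => ?_
    rw [Finset.mul_sum, Finset.mul_sum]
    refine Finset.sum_congr rfl fun k _ => ?_
    ring
  set S : Fin 6 → ℝ := fun i => ∑ z, b z * qf (wv (v i)) (rv (ZZ z)) with hS
  have e5 : ∑ i, ∑ k, l i * l k * (((v k).g : ℝ) * S i + ((v i).g : ℝ) * S k +
      ∑ z, b' z * qe (wv (v i)) (wv (v k)) (rv (YY z))) =
      2 * ((∑ i, l i * ((v i).g : ℝ)) * ∑ i, l i * S i) +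
      ∑ i, ∑ k, l i * l k * ∑ z, b' z * qe (wv (v i)) (wv (v k)) (rv (YY z)) := by
    have f1 : (∑ i, l i * ((v i).g : ℝ)) * ∑ i, l i * S i =
        ∑ i, ∑ k, l i * l k * (((v i).g : ℝ) * S k) := by
      rw [Finset.sum_mul_sum]
      refine Finset.sum_congr rfl fun i _ => Finset.sum_congr rfl fun k _ => ?_
      ring
    have f2 : (∑ i, l i * ((v i).g : ℝ)) * ∑ i, l i * S i =
        ∑ i, ∑ k, l i * l k * (((v k).g : ℝ) * S i) := by
      rw [mul_comm, Finset.sum_mul_sum]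
      refine Finset.sum_congr rfl fun i _ => Finset.sum_congr rfl fun k _ => ?_
      ring
    rw [two_mul]
    nth_rw 1 [f2]
    rw [f1, ← Finset.sum_add_distrib, ← Finset.sum_add_distrib]
    refine Finset.sum_congr rfl fun i _ => ?_
    rw [← Finset.sum_add_distrib, ← Finset.sum_add_distrib]
    refine Finset.sum_congr rfl fun k _ => ?_
    ring
  rw [e5, ← e2, e4] at h1
  rw [e1]
  linarith

/-- the main estimate -/
theorem g6_core (a b a' b' : Fin 25 → ℝ) (v : Fin 6 → W) (τ : ℝ)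
    (hl : ∀ z, Line (a z) (b z)) (hl' : ∀ z, Line (a' z) (b' z)) (hb' : ∀ z, 0 ≤ b' z)
    (hv : ∀ i, Val (v i))
    (hvert : ∀ i, ∑ z, b z * qf (wv (v i)) (rv (ZZ z)) ≤ 2 * τ * ((v i).g : ℝ))
    (hpair : ∀ i k, ((v k).g : ℝ) * ∑ z, b z * qf (wv (v i)) (rv (ZZ z)) +
      ((v i).g : ℝ) * ∑ z, b z * qf (wv (v k)) (rv (ZZ z)) +
      ∑ z, b' z * qe (wv (v i)) (wv (v k)) (rv (YY z)) ≤ 2 * τ * ((v i).g : ℝ) * ((v k).g : ℝ))
    (l : Fin 6 → ℝ) (h0 : ∀ i, 0 ≤ l i) (hp : PD (∑ i, l i • wv (v i))) :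
    ∃ s : ℝ, s ≤ rad (∑ i, l i • wv (v i)) ∧ ∀ c : ℝ,
      2 * (∑ z, a z + ∑ z, a' z) - 2 * Real.pi * τ * s + 2 * c * (∑ z, b z + ∑ z, b' z) ≤
        2 ^ 40 * Real.exp c * (Th (∑ i, l i • wv (v i)) + Td (∑ i, l i • wv (v i))) := by
  have hG : ∑ i, l i * ((v i).g : ℝ) ≤ rad (∑ i, l i • wv (v i)) := by
    refine le_trans ?_ (rad_sum Finset.univ l (fun i => wv (v i)) h0 fun i => cl_wv_nonneg _)
    exact Finset.sum_le_sum fun i _ => mul_le_mul_of_nonneg_left (cl_rad_wv (hv i)) (h0 i)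
  have hG0 : 0 ≤ ∑ i, l i * ((v i).g : ℝ) :=
    Finset.sum_nonneg fun i _ => mul_nonneg (h0 i) (Nat.cast_nonneg _)
  have hq := g6_quad b b' v τ hpair l h0
  have hH : ∑ z, b z * qf (∑ i, l i • wv (v i)) (rv (ZZ z)) ≤
      2 * τ * ∑ i, l i * ((v i).g : ℝ) := by
    have e1 : ∑ z, b z * qf (∑ i, l i • wv (v i)) (rv (ZZ z)) =
        ∑ i, l i * ∑ z, b z * qf (wv (v i)) (rv (ZZ z)) := by
      simp_rw [cl_qf_sum, Finset.mul_sum]
      rw [Finset.sum_comm]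
      refine Finset.sum_congr rfl fun i _ => Finset.sum_congr rfl fun z _ => by ring
    rw [e1, Finset.mul_sum]
    refine Finset.sum_le_sum fun i _ => ?_
    have := mul_le_mul_of_nonneg_left (hvert i) (h0 i)
    linarith
  set p := ∑ i, l i • wv (v i) with hpd
  set G := ∑ i, l i * ((v i).g : ℝ) with hGd
  have hr := rad_pos (dt_pos hp)
  have hD0 : 0 ≤ ∑ z, b' z * af p (rv (YY z)) :=
    Finset.sum_nonneg fun z _ => mul_nonneg (hb' z) (g6_af_nonneg hp _)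
  set L := ∑ z, b z * qf p (rv (ZZ z)) with hL
  set D := ∑ z, b' z * af p (rv (YY z)) with hD
  have hmain : L + D / rad p ≤ τ * G := by
    rcases hG0.lt_or_eq with hG1 | hG1
    · have h1 : D / rad p ≤ D / G := div_le_div_of_nonneg_left hD0 hG1 hG
      have h2 : L + D / G ≤ τ * G := by
        have h3 : L + D / G = (G * L + D) / G := by field_simp
        rw [h3, div_le_iff₀ hG1]
        nlinarith
      linarith
    · rw [← hG1] at hq hH ⊢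
      have h1 : D ≤ 0 := by nlinarith
      have h2 : D / rad p ≤ 0 := div_nonpos_of_nonpos_of_nonneg h1 hr.le
      linarith
  refine ⟨G, hG, fun c => ?_⟩
  have h1 := cl_Th hp
  have h1' := g6_Td hp
  have h2 : ∑ z, (a z - b z * (Real.pi * qf p (rv (ZZ z)) - c)) ≤
      ∑ z, 2 ^ 40 * Real.exp (-(Real.pi * qf p (rv (ZZ z)) - c)) :=
    Finset.sum_le_sum fun z _ => hl z _
  have h2' : ∑ z, (a' z - b' z * (Real.pi * (af p (rv (YY z)) / rad p) - c)) ≤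
      ∑ z, 2 ^ 40 * Real.exp (-(Real.pi * (af p (rv (YY z)) / rad p) - c)) :=
    Finset.sum_le_sum fun z _ => hl' z _
  have h3 : ∑ z, 2 ^ 40 * Real.exp (-(Real.pi * qf p (rv (ZZ z)) - c)) =
      2 ^ 40 * Real.exp c * ∑ z, Real.exp (-(Real.pi * qf p (rv (ZZ z)))) := by
    rw [Finset.mul_sum]
    refine Finset.sum_congr rfl fun z _ => ?_
    rw [mul_assoc, ← Real.exp_add]
    congr 2
    ring
  have h3' : ∑ z, 2 ^ 40 * Real.exp (-(Real.pi * (af p (rv (YY z)) / rad p) - c)) =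
      2 ^ 40 * Real.exp c * ∑ z, Real.exp (-(Real.pi * (af p (rv (YY z)) / rad p))) := by
    rw [Finset.mul_sum]
    refine Finset.sum_congr rfl fun z _ => ?_
    rw [mul_assoc, ← Real.exp_add]
    congr 2
    ring
  have h4 : ∑ z, (a z - b z * (Real.pi * qf p (rv (ZZ z)) - c)) =
      ∑ z, a z - Real.pi * L + c * ∑ z, b z := by
    rw [hL, Finset.mul_sum, Finset.mul_sum, ← Finset.sum_sub_distrib, ← Finset.sum_add_distrib]
    refine Finset.sum_congr rfl fun z _ => ?_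
    ring
  have h4' : ∑ z, (a' z - b' z * (Real.pi * (af p (rv (YY z)) / rad p) - c)) =
      ∑ z, a' z - Real.pi * (D / rad p) + c * ∑ z, b' z := by
    rw [hD, Finset.sum_div, Finset.mul_sum, Finset.mul_sum, ← Finset.sum_sub_distrib,
      ← Finset.sum_add_distrib]
    refine Finset.sum_congr rfl fun z _ => ?_
    ring
  rw [h3, h4] at h2
  rw [h3', h4'] at h2'
  have h5 : 0 ≤ 2 ^ 40 * Real.exp c := by positivity
  have h6 := mul_le_mul_of_nonneg_left h1 h5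
  have h6' := mul_le_mul_of_nonneg_left h1' h5
  have h7 := mul_le_mul_of_nonneg_left hmain Real.pi_pos.le
  linarith

/-- the analytic lemma for a cell and the theta function of the lattice: `s1 ≤ s2` are the two ends of
the interval of scales -/
theorem cellA (R : ℝ → ℝ) (hR : Chd R)
    (a b : Fin 25 → ℝ) (v : Fin 6 → W) (s1 s2 τ R1 R2 : ℝ)
    (hl : ∀ z, Line (a z) (b z)) (hb : ∀ z, 0 ≤ b z) (hv : ∀ i, Val (v i)) (h1 : 1 ≤ s1) (h12 : s1 < s2)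
    (hτ : 0 ≤ τ) (hvert : ∀ i, ∑ z, b z * qf (wv (v i)) (rv (ZZ z)) ≤ τ * ((v i).g : ℝ))
    (hR1 : 2 ^ 40 * R s1 ≤ R1) (hL1 : R1 ≤ 2 * ∑ z, a z - 2 * Real.pi * τ * s1)
    (hR2 : 2 ^ 40 * (R s2 * Real.exp (Real.pi * (31 / 25) * (s2 - s1))) ≤ R2)
    (hL2 : R2 ≤ 2 * ∑ z, a z - 2 * Real.pi * τ * s2 +
      2 * Real.pi * (31 / 25) * (s2 - s1) * ∑ z, b z)
    (l : Fin 6 → ℝ) (h0 : ∀ i, 0 ≤ l i) (hp : PD (∑ i, l i • wv (v i)))
    (hr : s1 ≤ rad (∑ i, l i • wv (v i))) :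
    R (rad (∑ i, l i • wv (v i))) ≤ Th (∑ i, l i • wv (v i)) ∨
      s2 < rad (∑ i, l i • wv (v i)) := by
  obtain ⟨s, hs, hc⟩ := cl_core a b v τ hl hv hvert l h0 hp
  exact g6_fin R hR _ _ s1 s2 τ R1 R2 s _ _ h1 h12 hτ hR1 hL1 hR2 hL2 hs hr hc

/-- the analytic lemma for a cell and the sum of the theta functions of the lattice and its dual -/
theorem cellU (R : ℝ → ℝ) (hR : Chd R)
    (a b a' b' : Fin 25 → ℝ) (v : Fin 6 → W) (s1 s2 τ R1 R2 : ℝ)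
    (hl : ∀ z, Line (a z) (b z)) (hb : ∀ z, 0 ≤ b z)
    (hl' : ∀ z, Line (a' z) (b' z)) (hb' : ∀ z, 0 ≤ b' z)
    (hv : ∀ i, Val (v i)) (h1 : 1 ≤ s1) (h12 : s1 < s2)
    (hτ : 0 ≤ τ) (hvert : ∀ i, ∑ z, b z * qf (wv (v i)) (rv (ZZ z)) ≤ 2 * τ * ((v i).g : ℝ))
    (hpair : ∀ i k, ((v k).g : ℝ) * ∑ z, b z * qf (wv (v i)) (rv (ZZ z)) +
      ((v i).g : ℝ) * ∑ z, b z * qf (wv (v k)) (rv (ZZ z)) +
      ∑ z, b' z * qe (wv (v i)) (wv (v k)) (rv (YY z)) ≤ 2 * τ * ((v i).g : ℝ) * ((v k).g : ℝ))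
    (hR1 : 2 ^ 40 * R s1 ≤ R1) (hL1 : R1 ≤ 2 * (∑ z, a z + ∑ z, a' z) - 2 * Real.pi * τ * s1)
    (hR2 : 2 ^ 40 * (R s2 * Real.exp (Real.pi * (31 / 25) * (s2 - s1))) ≤ R2)
    (hL2 : R2 ≤ 2 * (∑ z, a z + ∑ z, a' z) - 2 * Real.pi * τ * s2 +
      2 * Real.pi * (31 / 25) * (s2 - s1) * (∑ z, b z + ∑ z, b' z))
    (l : Fin 6 → ℝ) (h0 : ∀ i, 0 ≤ l i) (hp : PD (∑ i, l i • wv (v i)))
    (hr : s1 ≤ rad (∑ i, l i • wv (v i))) :
    R (rad (∑ i, l i • wv (v i))) ≤ Th (∑ i, l i • wv (v i)) + Td (∑ i, l i • wv (v i)) ∨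
      s2 < rad (∑ i, l i • wv (v i)) := by
  obtain ⟨s, hs, hc⟩ := g6_core a b a' b' v τ hl hl' hb' hv hvert hpair l h0 hp
  exact g6_fin R hR _ _ s1 s2 τ R1 R2 s _ _ h1 h12 hτ hR1 hL1 hR2 hL2 hs hr hc

end Pool.Agent.H999.Ep3
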