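import Pool.Agent.H999.Ep3.Base
import Pool.Agent.H999.Theta3.RFa

set_option autoImplicit false

open Matrix

namespace Pool.Agent.H999.Ep3

open Pool.Agent.K1H99.FCC (N0 rv nsq qf af dt PD rad Fp Qm pp tot al be sd)
open Pool.Agent.H999.Theta3 (W Th RF RB Bp bb tF InF InB2 InB sc wv Val ZZ Line psi dx inF inB2 leafB
  rent lo RFb frc frz detN mid vt)

lemma g10_series {p : Fin 6 → ℝ} (hp : PD p) :
    Chd (fun s => ∑' n : N0, Real.exp (-(Real.pi * (s * (qf p (rv n.1) / rad p))))) := by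
  refine ⟨fun s t hs hst => Pool.Agent.H999.Theta3.ra_anti hp (by linarith) hst, ?_⟩
  intro s1 s2 s h1' h12 h h'
  have h1 : 0 < s1 := by linarith
  have hs0 : 0 < s := h1.trans_le h
  have hs2 : 0 < s2 := h1.trans h12
  have e0 := (Pool.Agent.H999.Theta3.ra_summable hp hs0).mul_right
    (Real.exp (Real.pi * (31 / 25) * (s - s1)))
  have e1 := (Pool.Agent.H999.Theta3.ra_summable hp h1).mul_left (s2 - s)
  have e2 := ((Pool.Agent.H999.Theta3.ra_summable hp hs2).mul_right
    (Real.exp (Real.pi * (31 / 25) * (s2 - s1)))).mul_left (s - s1)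
  have e3 := (e1.add e2).div_const (s2 - s1)
  show (∑' n : N0, Real.exp (-(Real.pi * (s * (qf p (rv n.1) / rad p))))) *
      Real.exp (Real.pi * (31 / 25) * (s - s1)) ≤
    ((s2 - s) * (∑' n : N0, Real.exp (-(Real.pi * (s1 * (qf p (rv n.1) / rad p))))) +
      (s - s1) * ((∑' n : N0, Real.exp (-(Real.pi * (s2 * (qf p (rv n.1) / rad p))))) *
        Real.exp (Real.pi * (31 / 25) * (s2 - s1)))) / (s2 - s1)
  rw [← tsum_mul_right, ← tsum_mul_right, ← tsum_mul_left, ← tsum_mul_left,
    ← e1.tsum_add e2, ← tsum_div_const]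
  refine Summable.tsum_le_tsum (fun n => ?_) e0 e3
  have hc := Pool.Agent.H999.Theta3.ra_conv (a := -(Real.pi * (s1 * (31 / 25))))
    (b := Real.pi * (31 / 25) - Real.pi * (qf p (rv n.1) / rad p)) h12 h h'
  set q : ℝ := qf p (rv n.1) / rad p with hq
  have key : ∀ z : ℝ, Real.exp (-(Real.pi * (z * q))) *
      Real.exp (Real.pi * (31 / 25) * (z - s1)) =
      Real.exp (-(Real.pi * (s1 * (31 / 25))) +
        (Real.pi * (31 / 25) - Real.pi * q) * z) := by
    intro z
    rw [← Real.exp_add]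
    congr 1
    ring
  rw [key s, key s2]
  have k1 : Real.exp (-(Real.pi * (s1 * q))) =
      Real.exp (-(Real.pi * (s1 * (31 / 25))) +
        (Real.pi * (31 / 25) - Real.pi * q) * s1) := by
    congr 1
    ring
  rw [k1]
  exact hc

lemma g10_const {e : ℝ} (he : 0 ≤ e) : Chd (fun _ => e) := by
  refine ⟨fun s t _ _ => le_refl e, ?_⟩
  intro s1 s2 s _ h12 h h'
  have hc := Pool.Agent.H999.Theta3.ra_conv (a := -(Real.pi * (31 / 25) * s1))
    (b := Real.pi * (31 / 25)) h12 h h'
  have k : ∀ z : ℝ, Real.exp (-(Real.pi * (31 / 25) * s1) + Real.pi * (31 / 25) * z) =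
      Real.exp (Real.pi * (31 / 25) * (z - s1)) := by
    intro z
    congr 1
    ring
  rw [k, k, k] at hc
  have k0 : Real.exp (Real.pi * (31 / 25) * (s1 - s1)) = 1 := by
    rw [sub_self, mul_zero, Real.exp_zero]
  rw [k0] at hc
  have h3 := mul_le_mul_of_nonneg_left hc he
  refine h3.trans (le_of_eq ?_)
  ring

lemma g10_add {R S : ℝ → ℝ} (hR : Chd R) (hS : Chd S) : Chd (fun s => R s + S s) := by
  refine ⟨fun s t hs hst => add_le_add (hR.1 s t hs hst) (hS.1 s t hs hst), ?_⟩
  intro s1 s2 s h1 h12 h h'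
  have a := hR.2 s1 s2 s h1 h12 h h'
  have b := hS.2 s1 s2 s h1 h12 h h'
  have c := add_le_add a b
  refine le_trans (le_of_eq ?_) (c.trans (le_of_eq ?_))
  · ring
  · ring

lemma g10_RB : Chd RB := g10_series Pool.Agent.H999.Theta3.ra_PD_Bp

lemma g10_RF : Chd RF := g10_series Pool.Agent.H999.Theta3.ra_PD_Fp

/-- the two energies with a constant added have the chord property -/
theorem chd_ok : ChdOK := by
  intro e he
  exact ⟨g10_add g10_RB (g10_const he), g10_add (g10_add g10_RF g10_RB) (g10_const he)⟩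

end Pool.Agent.H999.Ep3
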