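import Pool.Agent.H999.Ep3.Base
import Pool.Agent.H999.Theta3.Go

set_option autoImplicit false

open Matrix

namespace Pool.Agent.H999.Ep3

open Pool.Agent.K1H99.FCC (N0 rv nsq qf af dt PD rad Fp Qm pp tot al be sd)
open Pool.Agent.H999.Theta3 (W Th RF RB Bp bb tF InF InB2 InB sc wv Val ZZ Line psi dx leafB
  rent lo RFb frc frz detN mid vt)

/-- splitting a cell -/
theorem good_split (j : ℕ) (v : Fin 6 → W) (i k : Fin 6) (hik : i ≠ k) (m : W)
    (hm : (2 : ℝ) • wv m = wv (v i) + wv (v k)) (h1 : Good j (Function.update v i m))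
    (h2 : Good j (Function.update v k m)) : Good j v := by
  have key : ∀ (i j : Fin 6) (_ : i ≠ j) (_ : (2:ℝ) • wv m = wv (v i) + wv (v j))
      (l : Fin 6 → ℝ), (∀ k, 0 ≤ l k) → l i ≤ l j → ∃ l' : Fin 6 → ℝ, (∀ k, 0 ≤ l' k) ∧
      ∑ k, l' k • wv (Function.update v i m k) = ∑ k, l k • wv (v k) := by
    intro i j hij hm l hl hle
    refine ⟨Function.update (Function.update l i (2 * l i)) j (l j - l i), fun k => ?_, ?_⟩
    · by_cases hkj : k = j
      · subst hkj
        rw [Function.update_self]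
        linarith
      · rw [Function.update_of_ne hkj]
        by_cases hki : k = i
        · subst hki
          rw [Function.update_self]
          linarith [hl k]
        · rw [Function.update_of_ne hki]
          exact hl k
    · have hji : j ∈ Finset.univ.erase i := Finset.mem_erase.2 ⟨hij.symm, Finset.mem_univ j⟩
      rw [← Finset.add_sum_erase _ _ (Finset.mem_univ i), ← Finset.add_sum_erase _ _ hji,
        ← Finset.add_sum_erase (a := i) _ (fun k => l k • wv (v k)) (Finset.mem_univ i),
        ← Finset.add_sum_erase _ (fun k => l k • wv (v k)) hji]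
      rw [Function.update_self, Function.update_self, Function.update_of_ne hij.symm,
        Function.update_of_ne hij, Function.update_self]
      have e1 : ∑ x ∈ (Finset.univ.erase i).erase j,
          Function.update (Function.update l i (2 * l i)) j (l j - l i) x •
            wv (Function.update v i m x) = ∑ x ∈ (Finset.univ.erase i).erase j, l x • wv (v x) := by
        refine Finset.sum_congr rfl fun x hx => ?_
        have hxj : x ≠ j := (Finset.mem_erase.1 hx).1
        have hxi : x ≠ i := (Finset.mem_erase.1 (Finset.mem_erase.1 hx).2).1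
        rw [Function.update_of_ne hxj, Function.update_of_ne hxi, Function.update_of_ne hxi]
      rw [e1, ← add_assoc, ← add_assoc]
      congr 1
      rw [mul_comm 2 (l i), mul_smul, hm, smul_add, sub_smul]
      abel
  intro l hl hp hs hs'
  rcases le_total (l i) (l k) with h | h
  · obtain ⟨l', hl', e⟩ := key i k hik hm l hl h
    rw [← e] at hp hs hs' ⊢
    exact h1 l' hl' hp hs hs'
  · obtain ⟨l', hl', e⟩ := key k i hik.symm (by rw [hm, add_comm]) l hl h
    rw [← e] at hp hs hs' ⊢
    exact h2 l' hl' hp hs hs'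

/-- the last scale -/
theorem g12_J {J0 J : ℕ} (h : (bif Nat.ble J0 563 then J0 else 563) = J) : J ≤ 563 := by
  subst h
  cases hb : Nat.ble J0 563 with
  | true => exact Nat.le_of_ble_eq_true hb
  | false => exact le_rfl

/-- one slab -/
theorem g12_slab {t : ℕ → ℕ → ℕ → W → W → W → W → W → W → Bool} (hA : StepOK t)
    {f : ℕ → W → W → W → W → W → W → ℕ → ℕ} {z j J r : ℕ} {v0 v1 v2 v3 v4 v5 : W}
    (h0 : Val v0) (h1 : Val v1) (h2 : Val v2) (h3 : Val v3) (h4 : Val v4) (h5 : Val v5)
    (hJ : J ≤ 563) (hb : (Nat.ble (Nat.add j 1) J && t z j J v0 v1 v2 v3 v4 v5) = true)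
    (h : (bif Nat.ble 563 J then r else f J v0 v1 v2 v3 v4 v5 r) ≠ 0)
    (ih : f J v0 v1 v2 v3 v4 v5 r ≠ 0 → Good J ![v0, v1, v2, v3, v4, v5]) :
    Good j ![v0, v1, v2, v3, v4, v5] := by
  rw [Bool.and_eq_true] at hb
  refine hA z j J _ _ _ _ _ _ h0 h1 h2 h3 h4 h5 (Nat.le_of_ble_eq_true hb.1) hJ hb.2 ?_
  cases hc : Nat.ble 563 J with
  | true => exact Or.inl (le_antisymm hJ (Nat.le_of_ble_eq_true hc))
  | false =>
    rw [hc] at h
    exact Or.inr (ih h)

/-- soundness of the checker -/
theorem go_sound (hA : StepOK tA) (hU : StepOK tU)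
    (hB : ∀ (s : ℕ), s ≤ 6 → ∀ (j : ℕ) (v0 v1 v2 v3 v4 v5 : W), Val v0 → Val v1 → Val v2 → Val v3 →
      Val v4 → Val v5 → leafB s v0 v1 v2 v3 v4 v5 = true → Good j ![v0, v1, v2, v3, v4, v5])
    (hF : ∀ (j : ℕ) (v0 v1 v2 v3 v4 v5 : W), inG v0 = true → inG v1 = true → inG v2 = true →
      inG v3 = true → inG v4 = true → inG v5 = true → Good j ![v0, v1, v2, v3, v4, v5])
    (hBB : ∀ (j : ℕ) (v0 v1 v2 v3 v4 v5 : W), inH v0 = true → inH v1 = true → inH v2 = true →
      inH v3 = true → inH v4 = true → inH v5 = true → Good j ![v0, v1, v2, v3, v4, v5]) :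
    ∀ (n j : ℕ) (v0 v1 v2 v3 v4 v5 : W) (code : ℕ), Val v0 → Val v1 → Val v2 → Val v3 → Val v4 →
      Val v5 → go n j v0 v1 v2 v3 v4 v5 code ≠ 0 → Good j ![v0, v1, v2, v3, v4, v5] := by
  intro n
  induction n with
  | zero => intro j v0 v1 v2 v3 v4 v5 code _ _ _ _ _ _ h; exact absurd rfl h
  | succ n ih =>
    intro j v0 v1 v2 v3 v4 v5 code h0 h1 h2 h3 h4 h5 h
    replace h : stp (go n) j v0 v1 v2 v3 v4 v5 code ≠ 0 := h
    unfold stp at h
    simp only [Pool.Agent.H999.Theta3.go_frc_eq] at h
    split at h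
    · split at h
      · obtain ⟨m, hm, e1, e2⟩ := Pool.Agent.H999.Theta3.go_mid_spec _ _ _ _ h0 h1 h
        rw [e2] at h
        obtain ⟨g1, h⟩ := Pool.Agent.H999.Theta3.go_frz_ne h
        refine good_split j _ 0 1 (by decide) m e1 ?_ ?_
        · have e3 : Function.update ![v0, v1, v2, v3, v4, v5] 0 m = ![m, v1, v2, v3, v4, v5] := by
            funext t
            fin_cases t <;> rfl
          rw [e3]
          exact ih _ _ _ _ _ _ _ _ hm h1 h2 h3 h4 h5 g1
        · have e3 : Function.update ![v0, v1, v2, v3, v4, v5] 1 m = ![v0, m, v2, v3, v4, v5] := by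
            funext t
            fin_cases t <;> rfl
          rw [e3]
          exact ih _ _ _ _ _ _ _ _ h0 hm h2 h3 h4 h5 h
      · obtain ⟨m, hm, e1, e2⟩ := Pool.Agent.H999.Theta3.go_mid_spec _ _ _ _ h0 h2 h
        rw [e2] at h
        obtain ⟨g1, h⟩ := Pool.Agent.H999.Theta3.go_frz_ne h
        refine good_split j _ 0 2 (by decide) m e1 ?_ ?_
        · have e3 : Function.update ![v0, v1, v2, v3, v4, v5] 0 m = ![m, v1, v2, v3, v4, v5] := by
            funext t
            fin_cases t <;> rfl
          rw [e3]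
          exact ih _ _ _ _ _ _ _ _ hm h1 h2 h3 h4 h5 g1
        · have e3 : Function.update ![v0, v1, v2, v3, v4, v5] 2 m = ![v0, v1, m, v3, v4, v5] := by
            funext t
            fin_cases t <;> rfl
          rw [e3]
          exact ih _ _ _ _ _ _ _ _ h0 h1 hm h3 h4 h5 h
      · obtain ⟨m, hm, e1, e2⟩ := Pool.Agent.H999.Theta3.go_mid_spec _ _ _ _ h0 h3 h
        rw [e2] at h
        obtain ⟨g1, h⟩ := Pool.Agent.H999.Theta3.go_frz_ne h
        refine good_split j _ 0 3 (by decide) m e1 ?_ ?_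
        · have e3 : Function.update ![v0, v1, v2, v3, v4, v5] 0 m = ![m, v1, v2, v3, v4, v5] := by
            funext t
            fin_cases t <;> rfl
          rw [e3]
          exact ih _ _ _ _ _ _ _ _ hm h1 h2 h3 h4 h5 g1
        · have e3 : Function.update ![v0, v1, v2, v3, v4, v5] 3 m = ![v0, v1, v2, m, v4, v5] := by
            funext t
            fin_cases t <;> rfl
          rw [e3]
          exact ih _ _ _ _ _ _ _ _ h0 h1 h2 hm h4 h5 h
      · obtain ⟨m, hm, e1, e2⟩ := Pool.Agent.H999.Theta3.go_mid_spec _ _ _ _ h0 h4 h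
        rw [e2] at h
        obtain ⟨g1, h⟩ := Pool.Agent.H999.Theta3.go_frz_ne h
        refine good_split j _ 0 4 (by decide) m e1 ?_ ?_
        · have e3 : Function.update ![v0, v1, v2, v3, v4, v5] 0 m = ![m, v1, v2, v3, v4, v5] := by
            funext t
            fin_cases t <;> rfl
          rw [e3]
          exact ih _ _ _ _ _ _ _ _ hm h1 h2 h3 h4 h5 g1
        · have e3 : Function.update ![v0, v1, v2, v3, v4, v5] 4 m = ![v0, v1, v2, v3, m, v5] := by
            funext t
            fin_cases t <;> rfl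
          rw [e3]
          exact ih _ _ _ _ _ _ _ _ h0 h1 h2 h3 hm h5 h
      · obtain ⟨m, hm, e1, e2⟩ := Pool.Agent.H999.Theta3.go_mid_spec _ _ _ _ h0 h5 h
        rw [e2] at h
        obtain ⟨g1, h⟩ := Pool.Agent.H999.Theta3.go_frz_ne h
        refine good_split j _ 0 5 (by decide) m e1 ?_ ?_
        · have e3 : Function.update ![v0, v1, v2, v3, v4, v5] 0 m = ![m, v1, v2, v3, v4, v5] := by
            funext t
            fin_cases t <;> rfl
          rw [e3]
          exact ih _ _ _ _ _ _ _ _ hm h1 h2 h3 h4 h5 g1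
        · have e3 : Function.update ![v0, v1, v2, v3, v4, v5] 5 m = ![v0, v1, v2, v3, v4, m] := by
            funext t
            fin_cases t <;> rfl
          rw [e3]
          exact ih _ _ _ _ _ _ _ _ h0 h1 h2 h3 h4 hm h
      · obtain ⟨m, hm, e1, e2⟩ := Pool.Agent.H999.Theta3.go_mid_spec _ _ _ _ h1 h2 h
        rw [e2] at h
        obtain ⟨g1, h⟩ := Pool.Agent.H999.Theta3.go_frz_ne h
        refine good_split j _ 1 2 (by decide) m e1 ?_ ?_
        · have e3 : Function.update ![v0, v1, v2, v3, v4, v5] 1 m = ![v0, m, v2, v3, v4, v5] := by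
            funext t
            fin_cases t <;> rfl
          rw [e3]
          exact ih _ _ _ _ _ _ _ _ h0 hm h2 h3 h4 h5 g1
        · have e3 : Function.update ![v0, v1, v2, v3, v4, v5] 2 m = ![v0, v1, m, v3, v4, v5] := by
            funext t
            fin_cases t <;> rfl
          rw [e3]
          exact ih _ _ _ _ _ _ _ _ h0 h1 hm h3 h4 h5 h
      · obtain ⟨m, hm, e1, e2⟩ := Pool.Agent.H999.Theta3.go_mid_spec _ _ _ _ h1 h3 h
        rw [e2] at h
        obtain ⟨g1, h⟩ := Pool.Agent.H999.Theta3.go_frz_ne h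
        refine good_split j _ 1 3 (by decide) m e1 ?_ ?_
        · have e3 : Function.update ![v0, v1, v2, v3, v4, v5] 1 m = ![v0, m, v2, v3, v4, v5] := by
            funext t
            fin_cases t <;> rfl
          rw [e3]
          exact ih _ _ _ _ _ _ _ _ h0 hm h2 h3 h4 h5 g1
        · have e3 : Function.update ![v0, v1, v2, v3, v4, v5] 3 m = ![v0, v1, v2, m, v4, v5] := by
            funext t
            fin_cases t <;> rfl
          rw [e3]
          exact ih _ _ _ _ _ _ _ _ h0 h1 h2 hm h4 h5 h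
      · obtain ⟨m, hm, e1, e2⟩ := Pool.Agent.H999.Theta3.go_mid_spec _ _ _ _ h1 h4 h
        rw [e2] at h
        obtain ⟨g1, h⟩ := Pool.Agent.H999.Theta3.go_frz_ne h
        refine good_split j _ 1 4 (by decide) m e1 ?_ ?_
        · have e3 : Function.update ![v0, v1, v2, v3, v4, v5] 1 m = ![v0, m, v2, v3, v4, v5] := by
            funext t
            fin_cases t <;> rfl
          rw [e3]
          exact ih _ _ _ _ _ _ _ _ h0 hm h2 h3 h4 h5 g1
        · have e3 : Function.update ![v0, v1, v2, v3, v4, v5] 4 m = ![v0, v1, v2, v3, m, v5] := by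
            funext t
            fin_cases t <;> rfl
          rw [e3]
          exact ih _ _ _ _ _ _ _ _ h0 h1 h2 h3 hm h5 h
      · obtain ⟨m, hm, e1, e2⟩ := Pool.Agent.H999.Theta3.go_mid_spec _ _ _ _ h1 h5 h
        rw [e2] at h
        obtain ⟨g1, h⟩ := Pool.Agent.H999.Theta3.go_frz_ne h
        refine good_split j _ 1 5 (by decide) m e1 ?_ ?_
        · have e3 : Function.update ![v0, v1, v2, v3, v4, v5] 1 m = ![v0, m, v2, v3, v4, v5] := by
            funext t
            fin_cases t <;> rfl
          rw [e3]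
          exact ih _ _ _ _ _ _ _ _ h0 hm h2 h3 h4 h5 g1
        · have e3 : Function.update ![v0, v1, v2, v3, v4, v5] 5 m = ![v0, v1, v2, v3, v4, m] := by
            funext t
            fin_cases t <;> rfl
          rw [e3]
          exact ih _ _ _ _ _ _ _ _ h0 h1 h2 h3 h4 hm h
      · obtain ⟨m, hm, e1, e2⟩ := Pool.Agent.H999.Theta3.go_mid_spec _ _ _ _ h2 h3 h
        rw [e2] at h
        obtain ⟨g1, h⟩ := Pool.Agent.H999.Theta3.go_frz_ne h
        refine good_split j _ 2 3 (by decide) m e1 ?_ ?_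
        · have e3 : Function.update ![v0, v1, v2, v3, v4, v5] 2 m = ![v0, v1, m, v3, v4, v5] := by
            funext t
            fin_cases t <;> rfl
          rw [e3]
          exact ih _ _ _ _ _ _ _ _ h0 h1 hm h3 h4 h5 g1
        · have e3 : Function.update ![v0, v1, v2, v3, v4, v5] 3 m = ![v0, v1, v2, m, v4, v5] := by
            funext t
            fin_cases t <;> rfl
          rw [e3]
          exact ih _ _ _ _ _ _ _ _ h0 h1 h2 hm h4 h5 h
      · obtain ⟨m, hm, e1, e2⟩ := Pool.Agent.H999.Theta3.go_mid_spec _ _ _ _ h2 h4 h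
        rw [e2] at h
        obtain ⟨g1, h⟩ := Pool.Agent.H999.Theta3.go_frz_ne h
        refine good_split j _ 2 4 (by decide) m e1 ?_ ?_
        · have e3 : Function.update ![v0, v1, v2, v3, v4, v5] 2 m = ![v0, v1, m, v3, v4, v5] := by
            funext t
            fin_cases t <;> rfl
          rw [e3]
          exact ih _ _ _ _ _ _ _ _ h0 h1 hm h3 h4 h5 g1
        · have e3 : Function.update ![v0, v1, v2, v3, v4, v5] 4 m = ![v0, v1, v2, v3, m, v5] := by
            funext t
            fin_cases t <;> rfl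
          rw [e3]
          exact ih _ _ _ _ _ _ _ _ h0 h1 h2 h3 hm h5 h
      · obtain ⟨m, hm, e1, e2⟩ := Pool.Agent.H999.Theta3.go_mid_spec _ _ _ _ h2 h5 h
        rw [e2] at h
        obtain ⟨g1, h⟩ := Pool.Agent.H999.Theta3.go_frz_ne h
        refine good_split j _ 2 5 (by decide) m e1 ?_ ?_
        · have e3 : Function.update ![v0, v1, v2, v3, v4, v5] 2 m = ![v0, v1, m, v3, v4, v5] := by
            funext t
            fin_cases t <;> rfl
          rw [e3]
          exact ih _ _ _ _ _ _ _ _ h0 h1 hm h3 h4 h5 g1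
        · have e3 : Function.update ![v0, v1, v2, v3, v4, v5] 5 m = ![v0, v1, v2, v3, v4, m] := by
            funext t
            fin_cases t <;> rfl
          rw [e3]
          exact ih _ _ _ _ _ _ _ _ h0 h1 h2 h3 h4 hm h
      · obtain ⟨m, hm, e1, e2⟩ := Pool.Agent.H999.Theta3.go_mid_spec _ _ _ _ h3 h4 h
        rw [e2] at h
        obtain ⟨g1, h⟩ := Pool.Agent.H999.Theta3.go_frz_ne h
        refine good_split j _ 3 4 (by decide) m e1 ?_ ?_
        · have e3 : Function.update ![v0, v1, v2, v3, v4, v5] 3 m = ![v0, v1, v2, m, v4, v5] := by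
            funext t
            fin_cases t <;> rfl
          rw [e3]
          exact ih _ _ _ _ _ _ _ _ h0 h1 h2 hm h4 h5 g1
        · have e3 : Function.update ![v0, v1, v2, v3, v4, v5] 4 m = ![v0, v1, v2, v3, m, v5] := by
            funext t
            fin_cases t <;> rfl
          rw [e3]
          exact ih _ _ _ _ _ _ _ _ h0 h1 h2 h3 hm h5 h
      · obtain ⟨m, hm, e1, e2⟩ := Pool.Agent.H999.Theta3.go_mid_spec _ _ _ _ h3 h5 h
        rw [e2] at h
        obtain ⟨g1, h⟩ := Pool.Agent.H999.Theta3.go_frz_ne h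
        refine good_split j _ 3 5 (by decide) m e1 ?_ ?_
        · have e3 : Function.update ![v0, v1, v2, v3, v4, v5] 3 m = ![v0, v1, v2, m, v4, v5] := by
            funext t
            fin_cases t <;> rfl
          rw [e3]
          exact ih _ _ _ _ _ _ _ _ h0 h1 h2 hm h4 h5 g1
        · have e3 : Function.update ![v0, v1, v2, v3, v4, v5] 5 m = ![v0, v1, v2, v3, v4, m] := by
            funext t
            fin_cases t <;> rfl
          rw [e3]
          exact ih _ _ _ _ _ _ _ _ h0 h1 h2 h3 h4 hm h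
      · obtain ⟨m, hm, e1, e2⟩ := Pool.Agent.H999.Theta3.go_mid_spec _ _ _ _ h4 h5 h
        rw [e2] at h
        obtain ⟨g1, h⟩ := Pool.Agent.H999.Theta3.go_frz_ne h
        refine good_split j _ 4 5 (by decide) m e1 ?_ ?_
        · have e3 : Function.update ![v0, v1, v2, v3, v4, v5] 4 m = ![v0, v1, v2, v3, m, v5] := by
            funext t
            fin_cases t <;> rfl
          rw [e3]
          exact ih _ _ _ _ _ _ _ _ h0 h1 h2 h3 hm h5 g1
        · have e3 : Function.update ![v0, v1, v2, v3, v4, v5] 5 m = ![v0, v1, v2, v3, v4, m] := by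
            funext t
            fin_cases t <;> rfl
          rw [e3]
          exact ih _ _ _ _ _ _ _ _ h0 h1 h2 h3 h4 hm h
    · generalize hJ : (bif Nat.ble (Nat.add j (Nat.land (Nat.shiftRight tabW
        (Nat.mul 16 (Nat.land (Nat.shiftRight code 2) 15))) 65535)) 563 then
        (Nat.add j (Nat.land (Nat.shiftRight tabW
        (Nat.mul 16 (Nat.land (Nat.shiftRight code 2) 15))) 65535)) else 563) = J at h
      obtain ⟨hb, h⟩ := Pool.Agent.H999.Theta3.go_bif h
      exact g12_slab hA h0 h1 h2 h3 h4 h5 (g12_J hJ) hb h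
        (fun h => ih _ _ _ _ _ _ _ _ h0 h1 h2 h3 h4 h5 h)
    · generalize hJ : (bif Nat.ble (Nat.add j (Nat.land (Nat.shiftRight tabW
        (Nat.mul 16 (Nat.land (Nat.shiftRight code 2) 15))) 65535)) 563 then
        (Nat.add j (Nat.land (Nat.shiftRight tabW
        (Nat.mul 16 (Nat.land (Nat.shiftRight code 2) 15))) 65535)) else 563) = J at h
      obtain ⟨hb, h⟩ := Pool.Agent.H999.Theta3.go_bif h
      exact g12_slab hU h0 h1 h2 h3 h4 h5 (g12_J hJ) hb h
        (fun h => ih _ _ _ _ _ _ _ _ h0 h1 h2 h3 h4 h5 h)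
    · generalize Nat.land (Nat.shiftRight code 2) 15 = k at h
      cases hk : Nat.ble k 6 with
      | true =>
        rw [hk] at h
        exact hB k (Nat.le_of_ble_eq_true hk) j _ _ _ _ _ _ h0 h1 h2 h3 h4 h5
          (Pool.Agent.H999.Theta3.go_bif h).1
      | false =>
        rw [hk] at h
        cases hk7 : Nat.beq k 7 with
        | true =>
          rw [hk7] at h
          have hb := (Pool.Agent.H999.Theta3.go_bif h).1
          simp only [Bool.and_eq_true] at hb
          obtain ⟨⟨⟨⟨⟨b0, b1⟩, b2⟩, b3⟩, b4⟩, b5⟩ := hb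
          exact hF j _ _ _ _ _ _ b0 b1 b2 b3 b4 b5
        | false =>
          rw [hk7] at h
          have hb := (Pool.Agent.H999.Theta3.go_bif h).1
          simp only [Bool.and_eq_true] at hb
          obtain ⟨⟨⟨⟨⟨b0, b1⟩, b2⟩, b3⟩, b4⟩, b5⟩ := hb
          exact hBB j _ _ _ _ _ _ b0 b1 b2 b3 b4 b5

end Pool.Agent.H999.Ep3
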