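import Pool.Agent.H999.Ep3.Base
import Pool.Agent.H999.Theta3.Thin
import Pool.Agent.H999.Theta3.InFB

set_option autoImplicit false

open Matrix

namespace Pool.Agent.H999.Ep3

open Pool.Agent.K1H99.FCC (N0 rv nsq qf af dt PD rad Fp Qm pp tot al be sd)
open Pool.Agent.H999.Theta3 (W Th RF RB Bp bb tF InF InB2 InB sc wv Val ZZ Line psi dx inF inB2 leafB
  rent lo RFb frc frz detN mid vt)

theorem g11_exp1 : 489 / 100 ≤ Real.exp (1588 / 1000) := by
  refine le_trans ?_ (Real.sum_le_exp_of_nonneg (by norm_num) 14)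
  norm_num [Finset.sum_range_succ, Nat.factorial]

theorem g11_exp2 : 17 ≤ Real.exp (28349 / 10000) := by
  refine le_trans ?_ (Real.sum_le_exp_of_nonneg (by norm_num) 16)
  norm_num [Finset.sum_range_succ, Nat.factorial]

theorem g11_exp3 : 1000 / 7 ≤ Real.exp (498 / 100) := by
  refine le_trans ?_ (Real.sum_le_exp_of_nonneg (by norm_num) 20)
  norm_num [Finset.sum_range_succ, Nat.factorial]

theorem g11_exp4 : 1000 / 24 ≤ Real.exp (374 / 100) := by
  refine le_trans ?_ (Real.sum_le_exp_of_nonneg (by norm_num) 16)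
  norm_num [Finset.sum_range_succ, Nat.factorial]

theorem g11_exp5 : Real.exp 4 ≤ 55 := by
  have h := Real.exp_one_lt_d9
  have e : Real.exp 4 = Real.exp 1 ^ 4 := by
    rw [← Real.exp_nat_mul]; norm_num
  rw [e]
  have h0 := (Real.exp_pos 1).le
  have h2 : Real.exp 1 ^ 4 ≤ (272 / 100) ^ 4 := pow_le_pow_left₀ h0 (by linarith) 4
  refine h2.trans ?_
  norm_num

/-- the energy of the body-centred cubic lattice is small -/
theorem g11_num {s : ℝ} (hs : 1 ≤ s) (hRB : RBle) :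
    RB s + ee s ≤ 2 * Real.exp (-(Real.pi * (685 / 1000 * s))) := by
  have hR := hRB s hs
  obtain ⟨hb1, hb2⟩ := Pool.Agent.K1H99.FCC.be_bounds
  have hpi : Real.pi ≤ 3141593 / 1000000 := by
    have := Real.pi_lt_d6
    linarith
  have hpp := Real.pi_pos
  have hpis : Real.pi * s ≤ 3141593 / 1000000 * s := mul_le_mul_of_nonneg_right hpi (by linarith)
  have hbes : 12467418 / 10000000 * s ≤ be * s := mul_le_mul_of_nonneg_right hb1 (by linarith)
  set y := Real.exp (-(Real.pi * (685 / 1000 * s))) with hy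
  have hy0 : 0 < y := Real.exp_pos _
  set v := Real.exp (-(be * s)) with hv
  have hv0 : 0 < v := Real.exp_pos _
  have e3 : v ^ 3 = Real.exp (3 * (-(be * s))) := by
    rw [hv, ← Real.exp_nat_mul]; norm_num
  have e4 : v ^ 4 = Real.exp (4 * (-(be * s))) := by
    rw [hv, ← Real.exp_nat_mul]; norm_num
  have k3 : v ^ 3 * (489 / 100) ≤ y := by
    refine (mul_le_mul_of_nonneg_left g11_exp1 (pow_pos hv0 3).le).trans ?_
    rw [e3, ← Real.exp_add, hy]
    apply Real.exp_le_exp.2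
    nlinarith
  have k4 : v ^ 4 * 17 ≤ y := by
    refine (mul_le_mul_of_nonneg_left g11_exp2 (pow_pos hv0 4).le).trans ?_
    rw [e4, ← Real.exp_add, hy]
    apply Real.exp_le_exp.2
    nlinarith
  have m4 : v ^ 4 ≤ 7 / 1000 := by
    have h1 : v ^ 4 * (1000 / 7) ≤ 1 := by
      refine (mul_le_mul_of_nonneg_left g11_exp3 (pow_pos hv0 4).le).trans ?_
      rw [e4, ← Real.exp_add, ← Real.exp_zero]
      apply Real.exp_le_exp.2
      nlinarith
    linarith
  have m3 : v ^ 3 ≤ 24 / 1000 := by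
    have h1 : v ^ 3 * (1000 / 24) ≤ 1 := by
      refine (mul_le_mul_of_nonneg_left g11_exp4 (pow_pos hv0 3).le).trans ?_
      rw [e3, ← Real.exp_add, ← Real.exp_zero]
      apply Real.exp_le_exp.2
      nlinarith
    linarith
  have p3 : 0 < v ^ 3 := pow_pos hv0 3
  have p4 : 0 < v ^ 4 := pow_pos hv0 4
  have m8 : v ^ 8 ≤ 7 / 1000 * v ^ 4 := by
    have : v ^ 8 = v ^ 4 * v ^ 4 := by ring
    rw [this]
    exact mul_le_mul_of_nonneg_right m4 p4.le
  have p8 : 0 < v ^ 8 := pow_pos hv0 8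
  have m11 : v ^ 11 ≤ 24 / 1000 * v ^ 8 := by
    have : v ^ 11 = v ^ 3 * v ^ 8 := by ring
    rw [this]
    exact mul_le_mul_of_nonneg_right m3 p8.le
  have m12 : v ^ 12 ≤ 7 / 1000 * v ^ 8 := by
    have : v ^ 12 = v ^ 4 * v ^ 8 := by ring
    rw [this]
    exact mul_le_mul_of_nonneg_right m4 p8.le
  have hee : ee s ≤ y / 1000 := by
    unfold ee
    split
    · rename_i hs2
      have h1 : 1 ≤ y * Real.exp 4 := by
        rw [hy, ← Real.exp_add, ← Real.exp_zero]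
        apply Real.exp_le_exp.2
        nlinarith
      have h2 : y * Real.exp 4 ≤ y * 55 := mul_le_mul_of_nonneg_left g11_exp5 hy0.le
      linarith
    · positivity
  unfold RBb at hR
  linarith

/-- degenerate cells -/
theorem leafB_sound (hRB : RBle) (hTd : TdOK) (s : ℕ) (hs : s ≤ 6) (j : ℕ) (v0 v1 v2 v3 v4 v5 : W)
    (c0 : Val v0) (c1 : Val v1) (c2 : Val v2) (c3 : Val v3) (c4 : Val v4) (c5 : Val v5)
    (h : leafB s v0 v1 v2 v3 v4 v5 = true) : Good j ![v0, v1, v2, v3, v4, v5] := by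
  intro l hl hp hsc _
  set p := ∑ i, l i • wv (![v0, v1, v2, v3, v4, v5] i) with hpdef
  have h1 : 0 ≤ Theta3.th_E3 s p p p :=
    Theta3.th_E3_sum s l _ hl (Theta3.th_leafB_spec s v0 v1 v2 v3 v4 v5 h)
  unfold Theta3.th_E3 at h1
  rw [Theta3.th_D6_self] at h1
  have hd := Pool.Agent.K1H99.FCC.dt_pos hp
  have hr := Pool.Agent.K1H99.FCC.rad_pos hd
  have hr3 := Pool.Agent.K1H99.FCC.rad_cube hd.le
  obtain ⟨z, hz, hi⟩ := Theta3.th_cq_qf s hs
  have hq : qf p (rv z) ≤ 685 / 1000 * rad p := by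
    refine le_of_pow_le_pow_left₀ (three_ne_zero) (by positivity) ?_
    rw [mul_pow, hr3, ← hi]
    nlinarith
  have h2 : 1 ≤ rad p := by
    refine le_trans ?_ hsc
    unfold sc
    rw [le_div_iff₀ (by norm_num)]
    have : (0 : ℝ) ≤ j := Nat.cast_nonneg j
    linarith
  have hT := Theta3.th_Th hp z hz
  have hD := hTd p hp h2
  have hN := g11_num h2 hRB
  have hE : Real.exp (-(Real.pi * (685 / 1000 * rad p))) ≤ Real.exp (-(Real.pi * qf p (rv z))) := by
    apply Real.exp_le_exp.2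
    have := mul_le_mul_of_nonneg_left hq Real.pi_pos.le
    linarith
  left
  linarith

lemma g11_G_zero : InG 0 := by
  unfold InG tF
  simp

lemma g11_G_add {p q : Fin 6 → ℝ} (hp : InG p) (hq : InG q) : InG (p + q) := by
  unfold InG tF at *
  simp only [Pi.add_apply]
  obtain ⟨a0, a1, a2, a3, a4, a5, a6, a7, a8, a9, a10⟩ := hp
  obtain ⟨b0, b1, b2, b3, b4, b5, b6, b7, b8, b9, b10⟩ := hq
  refine ⟨?_, ?_, ?_, ?_, ?_, ?_, ?_, ?_, ?_, ?_, ?_⟩ <;> linarith

lemma g11_G_smul {c : ℝ} (hc : 0 ≤ c) {p : Fin 6 → ℝ} (hp : InG p) : InG (c • p) := by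
  unfold InG tF at *
  simp only [Pi.smul_apply, smul_eq_mul]
  obtain ⟨a0, a1, a2, a3, a4, a5, a6, a7, a8, a9, a10⟩ := hp
  have a0 := mul_le_mul_of_nonneg_left a0 hc
  have a1 := mul_le_mul_of_nonneg_left a1 hc
  have a2 := mul_le_mul_of_nonneg_left a2 hc
  have a3 := mul_le_mul_of_nonneg_left a3 hc
  have a4 := mul_le_mul_of_nonneg_left a4 hc
  have a5 := mul_le_mul_of_nonneg_left a5 hc
  have a6 := mul_le_mul_of_nonneg_left a6 hc
  have a7 := mul_le_mul_of_nonneg_left a7 hc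
  have a8 := mul_le_mul_of_nonneg_left a8 hc
  have a9 := mul_le_mul_of_nonneg_left a9 hc
  have a10 := mul_le_mul_of_nonneg_left a10 hc
  refine ⟨?_, ?_, ?_, ?_, ?_, ?_, ?_, ?_, ?_, ?_, ?_⟩ <;> linarith

lemma g11_G_sum (l : Fin 6 → ℝ) (v : Fin 6 → Fin 6 → ℝ) (hl : ∀ i, 0 ≤ l i)
    (hv : ∀ i, InG (v i)) : InG (∑ i, l i • v i) :=
  Finset.sum_induction _ InG (fun _ _ => g11_G_add) g11_G_zero
    (fun i _ => g11_G_smul (hl i) (hv i))

lemma g11_H2_add {S T x y z w : ℝ} (h : InH2 S x y) (k : InH2 T z w) :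
    InH2 (S + T) (x + z) (y + w) := by
  unfold InH2 at *
  obtain ⟨a0, a1, a2, a3⟩ := h
  obtain ⟨b0, b1, b2, b3⟩ := k
  refine ⟨?_, ?_, ?_, ?_⟩ <;> linarith

lemma g11_H2_smul {c S x y : ℝ} (hc : 0 ≤ c) (h : InH2 S x y) :
    InH2 (c * S) (c * x) (c * y) := by
  unfold InH2 at *
  obtain ⟨a0, a1, a2, a3⟩ := h
  have a0 := mul_le_mul_of_nonneg_left a0 hc
  have a1 := mul_le_mul_of_nonneg_left a1 hc
  have a2 := mul_le_mul_of_nonneg_left a2 hc
  have a3 := mul_le_mul_of_nonneg_left a3 hc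
  refine ⟨?_, ?_, ?_, ?_⟩ <;> linarith

lemma g11_H_zero : InH 0 := by
  unfold InH InH2
  rw [Theta3.ifb_tot_zero]
  simp

lemma g11_H_add {p q : Fin 6 → ℝ} (hp : InH p) (hq : InH q) : InH (p + q) := by
  unfold InH at *
  rw [Theta3.ifb_tot_add]
  simp only [Pi.add_apply]
  exact ⟨g11_H2_add hp.1 hq.1, g11_H2_add hp.2.1 hq.2.1, g11_H2_add hp.2.2 hq.2.2⟩

lemma g11_H_smul {c : ℝ} (hc : 0 ≤ c) {p : Fin 6 → ℝ} (hp : InH p) : InH (c • p) := by
  unfold InH at *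
  rw [Theta3.ifb_tot_smul]
  simp only [Pi.smul_apply, smul_eq_mul]
  exact ⟨g11_H2_smul hc hp.1, g11_H2_smul hc hp.2.1, g11_H2_smul hc hp.2.2⟩

lemma g11_H_sum (l : Fin 6 → ℝ) (v : Fin 6 → Fin 6 → ℝ) (hl : ∀ i, 0 ≤ l i)
    (hv : ∀ i, InH (v i)) : InH (∑ i, l i • v i) :=
  Finset.sum_induction _ InH (fun _ _ => g11_H_add) g11_H_zero
    (fun i _ => g11_H_smul (hl i) (hv i))

lemma g11_inG_spec {v : W} (h : inG v = true) : InG (wv v) := by
  unfold inG at h
  simp only [Theta3.ifb_frc_eq, Bool.and_eq_true, Nat.add_eq, Nat.mul_eq] at h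
  obtain ⟨⟨⟨⟨⟨⟨⟨⟨⟨⟨h0, h1⟩, h2⟩, h3⟩, h4⟩, h5⟩, h6⟩, h7⟩, h8⟩, h9⟩, h10⟩ := h
  have h0 := Nat.le_of_ble_eq_true h0
  have h1 := Nat.le_of_ble_eq_true h1
  have h2 := Nat.le_of_ble_eq_true h2
  have h3 := Nat.le_of_ble_eq_true h3
  have h4 := Nat.le_of_ble_eq_true h4
  have h5 := Nat.le_of_ble_eq_true h5
  have h6 := Nat.le_of_ble_eq_true h6
  have h7 := Nat.le_of_ble_eq_true h7
  have h8 := Nat.le_of_ble_eq_true h8
  have h9 := Nat.le_of_ble_eq_true h9
  have h10 := Nat.le_of_ble_eq_true h10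
  rify at h0 h1 h2 h3 h4 h5 h6 h7 h8 h9 h10
  unfold InG tF wv
  simp only [Fin.isValue, Matrix.cons_val_zero, Matrix.cons_val_one, Matrix.cons_val]
  refine ⟨?_, ?_, ?_, ?_, ?_, ?_, ?_, ?_, ?_, ?_, ?_⟩ <;> linarith

lemma g11_inH2_spec {S x y : Nat} (h : inH2 S x y = true) : InH2 (S : ℝ) (x : ℝ) (y : ℝ) := by
  unfold inH2 at h
  simp only [Bool.and_eq_true, Nat.add_eq, Nat.mul_eq] at h
  obtain ⟨⟨⟨h0, h1⟩, h2⟩, h3⟩ := h
  have h0 := Nat.le_of_ble_eq_true h0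
  have h1 := Nat.le_of_ble_eq_true h1
  have h2 := Nat.le_of_ble_eq_true h2
  have h3 := Nat.le_of_ble_eq_true h3
  rify at h0 h1 h2 h3
  unfold InH2
  refine ⟨?_, ?_, ?_, ?_⟩ <;> linarith

theorem g11_inH_spec {v : W} (h : inH v = true) : InH (wv v) := by
  unfold inH at h
  simp only [Theta3.ifb_frc_eq, Bool.and_eq_true, Nat.add_eq] at h
  obtain ⟨⟨h0, h1⟩, h2⟩ := h
  have h0 := g11_inH2_spec h0
  have h1 := g11_inH2_spec h1
  have h2 := g11_inH2_spec h2
  rw [← Theta3.ifb_tot_wv] at h0 h1 h2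
  refine ⟨?_, ?_, ?_⟩
  · unfold wv at *
    simpa only [Fin.isValue, Matrix.cons_val_zero, Matrix.cons_val_one, Matrix.cons_val] using h0
  · unfold wv at *
    simpa only [Fin.isValue, Matrix.cons_val_zero, Matrix.cons_val_one, Matrix.cons_val] using h1
  · unfold wv at *
    simpa only [Fin.isValue, Matrix.cons_val_zero, Matrix.cons_val_one, Matrix.cons_val] using h2

/-- the local region at the face-centred cubic form -/
theorem leafF_sound (j : ℕ) (v0 v1 v2 v3 v4 v5 : W) (h0 : inG v0 = true) (h1 : inG v1 = true)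
    (h2 : inG v2 = true) (h3 : inG v3 = true) (h4 : inG v4 = true) (h5 : inG v5 = true) :
    Good j ![v0, v1, v2, v3, v4, v5] := by
  intro l hl _ _ _
  refine Or.inr (Or.inl (g11_G_sum l _ hl fun i => g11_inG_spec ?_))
  exact Theta3.ifb_six (P := fun v => inG v = true) h0 h1 h2 h3 h4 h5 i

/-- the local region at the body-centred cubic form -/
theorem leafBB_sound (j : ℕ) (v0 v1 v2 v3 v4 v5 : W) (h0 : inH v0 = true) (h1 : inH v1 = true)
    (h2 : inH v2 = true) (h3 : inH v3 = true) (h4 : inH v4 = true) (h5 : inH v5 = true) :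
    Good j ![v0, v1, v2, v3, v4, v5] := by
  intro l hl _ _ _
  refine Or.inr (Or.inr (g11_H_sum l _ hl fun i => g11_inH_spec ?_))
  exact Theta3.ifb_six (P := fun v => inH v = true) h0 h1 h2 h3 h4 h5 i

end Pool.Agent.H999.Ep3
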