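import Pool.Agent.H999.Ep3.Base

set_option autoImplicit false

open Matrix

namespace Pool.Agent.H999.Ep3

open Pool.Agent.K1H99.FCC (N0 rv nsq qf af dt PD rad Fp Qm pp tot al be sd)
open Pool.Agent.H999.Theta3 (W Th RF RB Bp bb tF InF InB2 InB sc wv Val ZZ Line psi dx inF inB2 leafB
  rent lo RFb frc frz detN mid vt)

theorem g4_frc {α : Type} (n : Nat) (k : Nat → α) : frc n k = k n := by
  cases n <;> rfl

/-- six fields -/
def g4_p (P : ℕ) (x : Fin 6 → ℕ) : ℕ :=
  x 0 + P * (x 1 + P * (x 2 + P * (x 3 + P * (x 4 + P * x 5))))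

theorem g4_add (P : ℕ) (x y : Fin 6 → ℕ) :
    g4_p P x + g4_p P y = g4_p P (fun i => x i + y i) := by
  unfold g4_p; ring

theorem g4_mul (P k : ℕ) (x : Fin 6 → ℕ) : k * g4_p P x = g4_p P (fun i => k * x i) := by
  unfold g4_p; ring

theorem g4_prod (P Q : ℕ) (x y : Fin 6 → ℕ) :
    g4_p Q x * g4_p P y = g4_p P (fun j => g4_p Q (fun i => x i * y j)) := by
  rw [g4_mul]
  refine congrArg (g4_p _) (funext fun j => ?_)
  rw [mul_comm, g4_mul]
  refine congrArg (g4_p _) (funext fun i => ?_)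
  ring

theorem g4_split {n a b c d : ℕ} (ha : a < 2 ^ n) (hc : c < 2 ^ n)
    (h : (a + 2 ^ n * b) &&& (c + 2 ^ n * d) = c + 2 ^ n * d) : a &&& c = c ∧ b &&& d = d := by
  have h1 := congrArg (fun z => z % 2 ^ n) h
  have h2 := congrArg (fun z => z / 2 ^ n) h
  simp only [Nat.and_mod_two_pow, Nat.and_div_two_pow, Nat.add_mul_mod_self_left,
    Nat.mod_eq_of_lt ha, Nat.mod_eq_of_lt hc] at h1 h2
  rw [Nat.add_mul_div_left _ _ (by positivity), Nat.add_mul_div_left _ _ (by positivity),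
    Nat.div_eq_of_lt ha, Nat.div_eq_of_lt hc, zero_add, zero_add] at h2
  exact ⟨h1, h2⟩

theorem g4_land {n : ℕ} {x y : Fin 6 → ℕ} (hx : ∀ i, x i < 2 ^ n) (hy : ∀ i, y i < 2 ^ n)
    (h : g4_p (2 ^ n) x &&& g4_p (2 ^ n) y = g4_p (2 ^ n) y) : ∀ i, x i &&& y i = y i := by
  unfold g4_p at h
  obtain ⟨h0, h⟩ := g4_split (hx 0) (hy 0) h
  obtain ⟨h1, h⟩ := g4_split (hx 1) (hy 1) h
  obtain ⟨h2, h⟩ := g4_split (hx 2) (hy 2) h
  obtain ⟨h3, h⟩ := g4_split (hx 3) (hy 3) h
  obtain ⟨h4, h⟩ := g4_split (hx 4) (hy 4) h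
  intro i
  fin_cases i
  · exact h0
  · exact h1
  · exact h2
  · exact h3
  · exact h4
  · exact h

theorem g4_le {a b : ℕ} (h : a &&& b = b) : b ≤ a := h ▸ Nat.and_le_left

theorem g4_step {P N x y : ℕ} (hx : x < P) (hy : y < N) : x + P * y < P * N := by
  calc x + P * y < P + P * y := by omega
    _ = P * (y + 1) := by ring
    _ ≤ P * N := Nat.mul_le_mul_left _ hy

theorem g4_lt {n k : ℕ} (hk : k = 6 * n) {x : Fin 6 → ℕ} (hx : ∀ i, x i < 2 ^ n) :
    g4_p (2 ^ n) x < 2 ^ k := by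
  have h := g4_step (hx 0) (g4_step (hx 1) (g4_step (hx 2) (g4_step (hx 3)
    (g4_step (hx 4) (hx 5)))))
  have e : 2 ^ k = 2 ^ n * (2 ^ n * (2 ^ n * (2 ^ n * (2 ^ n * 2 ^ n)))) := by
    rw [hk]; ring
  rw [e]
  exact h

/-- the comparison of six fields -/
theorem g4_test1 {m n : ℕ} (hn : n = m + 1) {a c : Fin 6 → ℕ} (ha : ∀ j, a j < 2 ^ m)
    (hc : ∀ j, c j ≤ 2 ^ m)
    (h : (g4_p (2 ^ n) (fun _ => 2 ^ m) + g4_p (2 ^ n) a - g4_p (2 ^ n) c) &&&
      g4_p (2 ^ n) (fun _ => 2 ^ m) = g4_p (2 ^ n) (fun _ => 2 ^ m)) : ∀ j, c j ≤ a j := by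
  have hd : g4_p (2 ^ n) (fun j => 2 ^ m + a j - c j) + g4_p (2 ^ n) c =
      g4_p (2 ^ n) (fun _ => 2 ^ m) + g4_p (2 ^ n) a := by
    rw [g4_add, g4_add]
    refine congrArg (g4_p _) (funext fun j => ?_)
    have := hc j
    omega
  have hs : g4_p (2 ^ n) (fun _ => 2 ^ m) + g4_p (2 ^ n) a - g4_p (2 ^ n) c =
      g4_p (2 ^ n) (fun j => 2 ^ m + a j - c j) := by
    omega
  rw [hs] at h
  have hP : 2 ^ n = 2 ^ m + 2 ^ m := by rw [hn, pow_succ]; ring
  have h1 := g4_land (n := n) (x := fun j => 2 ^ m + a j - c j) (y := fun _ => 2 ^ m)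
    (fun j => by
      have := ha j
      show 2 ^ m + a j - c j < 2 ^ n
      omega)
    (fun j => by
      have h0 : 0 < 2 ^ m := by positivity
      show 2 ^ m < 2 ^ n
      omega) h
  intro j
  have h2 : 2 ^ m ≤ 2 ^ m + a j - c j := g4_le (h1 j)
  have h3 := hc j
  omega

/-- the comparison of 36 fields -/
theorem g4_test2 {m n k : ℕ} (hn : n = m + 1) (hk : k = 6 * n) {a c : Fin 6 → Fin 6 → ℕ}
    (ha : ∀ j i, a j i < 2 ^ m) (hc : ∀ j i, c j i ≤ 2 ^ m)
    (h : (g4_p (2 ^ k) (fun _ => g4_p (2 ^ n) (fun _ => 2 ^ m)) +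
        g4_p (2 ^ k) (fun j => g4_p (2 ^ n) (a j)) - g4_p (2 ^ k) (fun j => g4_p (2 ^ n) (c j))) &&&
      g4_p (2 ^ k) (fun _ => g4_p (2 ^ n) (fun _ => 2 ^ m)) =
        g4_p (2 ^ k) (fun _ => g4_p (2 ^ n) (fun _ => 2 ^ m))) : ∀ j i, c j i ≤ a j i := by
  have hd : g4_p (2 ^ k) (fun j => g4_p (2 ^ n) (fun i => 2 ^ m + a j i - c j i)) +
      g4_p (2 ^ k) (fun j => g4_p (2 ^ n) (c j)) =
      g4_p (2 ^ k) (fun _ => g4_p (2 ^ n) (fun _ => 2 ^ m)) +
        g4_p (2 ^ k) (fun j => g4_p (2 ^ n) (a j)) := by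
    rw [g4_add, g4_add]
    refine congrArg (g4_p _) (funext fun j => ?_)
    rw [g4_add, g4_add]
    refine congrArg (g4_p _) (funext fun i => ?_)
    have := hc j i
    omega
  have hs : g4_p (2 ^ k) (fun _ => g4_p (2 ^ n) (fun _ => 2 ^ m)) +
      g4_p (2 ^ k) (fun j => g4_p (2 ^ n) (a j)) - g4_p (2 ^ k) (fun j => g4_p (2 ^ n) (c j)) =
      g4_p (2 ^ k) (fun j => g4_p (2 ^ n) (fun i => 2 ^ m + a j i - c j i)) := by
    omega
  rw [hs] at h
  have hP : 2 ^ n = 2 ^ m + 2 ^ m := by rw [hn, pow_succ]; ring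
  have hx : ∀ j i, 2 ^ m + a j i - c j i < 2 ^ n := fun j i => by
    have := ha j i
    omega
  have hy : (2 : ℕ) ^ m < 2 ^ n := by
    have h0 : 0 < 2 ^ m := by positivity
    omega
  have h1 := g4_land (n := k) (x := fun j => g4_p (2 ^ n) (fun i => 2 ^ m + a j i - c j i))
    (y := fun _ => g4_p (2 ^ n) (fun _ => 2 ^ m)) (fun j => g4_lt hk (hx j))
    (fun j => g4_lt hk (fun _ => hy)) h
  intro j i
  have h2 := g4_land (n := n) (x := fun i => 2 ^ m + a j i - c j i) (y := fun _ => 2 ^ m) (hx j)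
    (fun _ => hy) (h1 j)
  have h3 : 2 ^ m ≤ 2 ^ m + a j i - c j i := g4_le (h2 i)
  have h4 := hc j i
  omega

theorem g4_lf {B0 B1 B2 B3 B4 B5 : ℕ}
    (hB : B0 < 2 ^ 48 ∧ B1 < 2 ^ 48 ∧ B2 < 2 ^ 48 ∧ B3 < 2 ^ 48 ∧ B4 < 2 ^ 48 ∧ B5 < 2 ^ 48)
    {v : W} (hv : Sm v) : lf B0 B1 B2 B3 B4 B5 v ≤ 2 ^ 85 := by
  obtain ⟨b0, b1, b2, b3, b4, b5⟩ := hB
  obtain ⟨h0, h1, h2, h3, h4, h5, h6⟩ := hv
  unfold lf
  have k0 := Nat.mul_le_mul h0.le b0.le
  have k1 := Nat.mul_le_mul h1.le b1.le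
  have k2 := Nat.mul_le_mul h2.le b2.le
  have k3 := Nat.mul_le_mul h3.le b3.le
  have k4 := Nat.mul_le_mul h4.le b4.le
  have k5 := Nat.mul_le_mul h5.le b5.le
  norm_num at k0 k1 k2 k3 k4 k5 ⊢
  omega

theorem g4_bf {W0 W1 W2 W3 W4 W5 W6 : ℕ}
    (hW : W0 < 2 ^ 48 ∧ W1 < 2 ^ 48 ∧ W2 < 2 ^ 48 ∧ W3 < 2 ^ 48 ∧ W4 < 2 ^ 48 ∧ W5 < 2 ^ 48 ∧
      W6 < 2 ^ 48)
    {v w : W} (hv : Sm v) (hw : Sm w) : bf W0 W1 W2 W3 W4 W5 W6 v w ≤ 2 ^ 121 := by
  obtain ⟨b0, b1, b2, b3, b4, b5, b6⟩ := hW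
  obtain ⟨h0, h1, h2, h3, h4, h5, h6⟩ := hv
  obtain ⟨k0, k1, k2, k3, k4, k5, k6⟩ := hw
  unfold bf
  calc _ ≤ 2 ^ 48 * (2 ^ 34 * 2 ^ 34 + 2 ^ 34 * 2 ^ 34 + (2 ^ 34 * 2 ^ 34 + 2 ^ 34 * 2 ^ 34) +
          (2 ^ 34 * 2 ^ 34 + 2 ^ 34 * 2 ^ 34)) +
        2 ^ 48 * (2 ^ 34 * 2 ^ 34 + 2 ^ 34 * 2 ^ 34 + (2 ^ 34 * 2 ^ 34 + 2 ^ 34 * 2 ^ 34) +
          (2 ^ 34 * 2 ^ 34 + 2 ^ 34 * 2 ^ 34)) +
        2 ^ 48 * (2 ^ 34 * 2 ^ 34 + 2 ^ 34 * 2 ^ 34 + (2 ^ 34 * 2 ^ 34 + 2 ^ 34 * 2 ^ 34) +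
          (2 ^ 34 * 2 ^ 34 + 2 ^ 34 * 2 ^ 34)) +
        2 ^ 48 * (2 ^ 34 * 2 ^ 34 + 2 ^ 34 * 2 ^ 34) + 2 ^ 48 * (2 ^ 34 * 2 ^ 34 + 2 ^ 34 * 2 ^ 34) +
        2 ^ 48 * (2 ^ 34 * 2 ^ 34 + 2 ^ 34 * 2 ^ 34) +
        2 ^ 48 * (2 ^ 34 * 2 ^ 34 + 2 ^ 34 * 2 ^ 34 + (2 ^ 34 * 2 ^ 34 + 2 ^ 34 * 2 ^ 34) +
          (2 ^ 34 * 2 ^ 34 + 2 ^ 34 * 2 ^ 34)) := by gcongr
    _ ≤ 2 ^ 121 := by norm_num

theorem g4_pk (x : Fin 6 → ℕ) : pk6 (x 0) (x 1) (x 2) (x 3) (x 4) (x 5) = g4_p (2 ^ 192) x := by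
  unfold pk6 g4_p
  have h : (6277101735386680763835789423207666416102355444464034512896 : ℕ) = 2 ^ 192 := by decide +kernel
  rw [h]
  rfl

theorem g4_pl (x : Fin 6 → ℕ) : pl6 (x 0) (x 1) (x 2) (x 3) (x 4) (x 5) = g4_p (2 ^ 1152) x := by
  unfold pl6 g4_p
  have h : (61172327492847069472032393719205726809135813743440799050195397570919697796091958321786863938157971792315844506873509046544459008355036150650333616890210625686064472971480622053109783197015954399612052812141827922088117778074833698589048132156300022844899841969874763871624802603515651998113045708569927237462546233168834543264678118409417047146496 : ℕ) = 2 ^ 1152 := by decide +kernel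
  rw [h]
  rfl

theorem g4_b1 : (261999241352327719463029450821422676463612876111838588881058781410971462845167998310422079356642330396504790002539129049227716424757316235708140644162537813640927113390530599999030259781367293232176793862892597164196836709486460238121411848756819455639685774971799902095954496851766147449615949506265602118845312841976403947610935539050460637800283234502063064470497697986003682001536030225259581956671335425464614808459919337727597193727467373041472704902451433566342331584844431210109217960579849197114686536193823572853282269908540968892288845211120132217425497997127654940264412885249698261369717561715425528837012029638061702825031155847354112213332515933823542126824593361725816581588659819812029445395424927372434316192300308402174232004759480113993935519513403609457322128965116612270805334009446548019769498049478444904243232747735258572069315567175942530567177571635298072662798743095570749325560079257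62335743155370631682262809459300824455834921689034769693787363703691925605686773362876630010177313951371653073121001081428105758502809518253805681419144590918494058002980792021212028070563270854837427044977709858080143333585521403563439338531169913316093935747712792093011718526974108281306727198081601476429562797068124619427066474731347424356945165879616336595390963250978742126499806117862278554685602538695894480117853737228818803322381120461800503169086157169126405660324171017548108298816226500363828295695898048742746731966911790143524732468742114820738522192328639822716110948456608338074923090566924677604335004320250002136779000234785345697418422906057396000674277945293754824223115885799185017499605469840500263000384816745557678436591479844916888012315885522374378386045000846172924033729180941733212905131570715115534130106708331461494116048443703604625006529383931987724353147154430551134699301198787736893649438667392605140727410420550361777151924086690437198182883684497455980847601747694229868827257752701706585434269776966310697974883159267802120405273746414341408094340787994295240221318937361136311595667711755427101389679812529163068815547079589888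 : ℕ) = g4_p (2 ^ 1152) (fun _ => 2 ^ 1151) := by
  unfold g4_p; decide +kernel

theorem g4_b2 : (26199924135232771946302945082142267646361287611183858888110052029818358608386745675938773637579431046945374369298712262948387461801838973774284241344949437106212418074565912498060156780414684274616716022242229965603870920377567515658041623002445109970703493319876226731136547067889642943144845285650428054646936262483527373002747483961994463695627553444198195661118475599904271676703232867904376013078334402147417672709065587324798041492433982674347320785436788362967500237304904094633571004305752787524488741565540057027182222564994804562154638984545975991612938235080943586288200743078716283246569260687831628430508740846193808500708993673397319473551814846470341039941218362323736396942448509554989044104002242448467012784741435393685370440155303407821979607091341615881447840605799504495614768388345497710881231196920369086019361598064645884577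231593509978178573575614637136073763007580932400140042747600021792871231261107814041097291809215352031907632601805170929498408399493751699954180231889171810101340010547648779230897811285799550992454325013786043869054897063293821770281322311365814185393805891243862286950095543253709616238340414810527520963266772364698571558994826616070696363277026899269507267234421027827992744268939021715866285319299624063631982904577844439939979921815590451379823023255582876783180098098730713565337386832361611564244072364964437737295328077509697994048294167073594029554148526854135875721926240959101594484937844088184944997366543617356520429881420728451700478610877445913112309721497082431368658345744822288097406776817999867767573083646617529451172604563650184899299536091142508956572436022131295630795011155947417962600746510636590177946207742189757853485487713427227204377453678637707188957829335786355970085610229043771537048841458642514865115869946864749658779797427479188141412260482181103582458024284838419371876050045609045302064318625106789622077100739868219051137281214338236234635364044465033474973921776821947796985164621001236026868422185517520772273918628008022948564020449332906149083165042607696167000218295309490281961045884928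 : ℕ) = g4_p (2 ^ 1152) (fun _ => g4_p (2 ^ 192) (fun _ => 2 ^ 191)) := by
  unfold g4_p; decide +kernel

/-- the tests of all the pairs, in terms of the fields -/
theorem g4_core {P Q : ℕ} (hP : P = 2 ^ 1152) (hQ : Q = 2 ^ 192)
    {B0 B1 B2 B3 B4 B5 W0 W1 W2 W3 W4 W5 W6 τ : ℕ} {v : Fin 6 → W}
    (hB : B0 < 2 ^ 48 ∧ B1 < 2 ^ 48 ∧ B2 < 2 ^ 48 ∧ B3 < 2 ^ 48 ∧ B4 < 2 ^ 48 ∧ B5 < 2 ^ 48)
    (hW : W0 < 2 ^ 48 ∧ W1 < 2 ^ 48 ∧ W2 < 2 ^ 48 ∧ W3 < 2 ^ 48 ∧ W4 < 2 ^ 48 ∧ W5 < 2 ^ 48 ∧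
      W6 < 2 ^ 48)
    (hτ : τ < 2 ^ 80) (hv : ∀ i, Sm (v i))
    {L T C X0 X1 X2 X3 X4 X5 XG Y0 Y1 Y2 Y3 Y4 Y5 YG : ℕ}
    (hX0 : X0 = g4_p Q (fun i => (v i).a)) (hX1 : X1 = g4_p Q (fun i => (v i).b))
    (hX2 : X2 = g4_p Q (fun i => (v i).c)) (hX3 : X3 = g4_p Q (fun i => (v i).d))
    (hX4 : X4 = g4_p Q (fun i => (v i).e)) (hX5 : X5 = g4_p Q (fun i => (v i).f))
    (hXG : XG = g4_p Q (fun i => (v i).g))
    (hY0 : Y0 = g4_p P (fun i => (v i).a)) (hY1 : Y1 = g4_p P (fun i => (v i).b))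
    (hY2 : Y2 = g4_p P (fun i => (v i).c)) (hY3 : Y3 = g4_p P (fun i => (v i).d))
    (hY4 : Y4 = g4_p P (fun i => (v i).e)) (hY5 : Y5 = g4_p P (fun i => (v i).f))
    (hYG : YG = g4_p P (fun i => (v i).g))
    (hL : L = 1048576 * (Y0 * B0 + (Y1 * B1 + (Y2 * B2 + (Y3 * B3 + (Y4 * B4 + Y5 * B5))))))
    (hT : T = 2 * τ * YG)
    (hC : C = 1048576 * (X0 * (W2 * (Y1 + Y3) + (W1 * (Y2 + Y4) + (W5 * Y5 + B0 * YG))) +
      (X1 * (W2 * (Y0 + Y3) + (W0 * (Y2 + Y5) + (W4 * Y4 + B1 * YG))) +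
      (X2 * (W1 * (Y0 + Y4) + (W0 * (Y1 + Y5) + (W3 * Y3 + B2 * YG))) +
      (X3 * (W2 * (Y0 + Y1) + (W6 * (Y4 + Y5) + (W3 * Y2 + B3 * YG))) +
      (X4 * (W1 * (Y0 + Y2) + (W6 * (Y3 + Y5) + (W4 * Y1 + B4 * YG))) +
       X5 * (W0 * (Y1 + Y2) + (W6 * (Y3 + Y4) + (W5 * Y0 + B5 * YG)))))))))
    (h1 : (g4_p P (fun _ => 2 ^ 1151) + T - L) &&& g4_p P (fun _ => 2 ^ 1151) =
      g4_p P (fun _ => 2 ^ 1151))
    (h2 : (g4_p P (fun _ => g4_p Q (fun _ => 2 ^ 191)) + (T - L) * XG - C) &&&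
      g4_p P (fun _ => g4_p Q (fun _ => 2 ^ 191)) = g4_p P (fun _ => g4_p Q (fun _ => 2 ^ 191))) :
    ∀ i k : Fin 6,
    1048576 * lf B0 B1 B2 B3 B4 B5 (v i) ≤ 2 * τ * (v i).g ∧
    1048576 * ((v k).g * lf B0 B1 B2 B3 B4 B5 (v i) + (v i).g * lf B0 B1 B2 B3 B4 B5 (v k) +
        bf W0 W1 W2 W3 W4 W5 W6 (v i) (v k)) ≤ 2 * τ * (v i).g * (v k).g := by
  have eL : L = g4_p P (fun j => 1048576 * lf B0 B1 B2 B3 B4 B5 (v j)) := by
    rw [hL, hY0, hY1, hY2, hY3, hY4, hY5]
    unfold g4_p lf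
    ring
  have eT : T = g4_p P (fun j => 2 * τ * (v j).g) := by
    rw [hT, hYG, g4_mul]
  have bl : ∀ j, 1048576 * lf B0 B1 B2 B3 B4 B5 (v j) ≤ 2 ^ 105 := fun j => by
    have := g4_lf hB (hv j)
    omega
  have bt : ∀ j, 2 * τ * (v j).g ≤ 2 ^ 115 := fun j => by
    have h3 := (hv j).2.2.2.2.2.2
    calc 2 * τ * (v j).g ≤ 2 * 2 ^ 80 * 2 ^ 34 := by gcongr
      _ = 2 ^ 115 := by norm_num
  have b105 : (2 : ℕ) ^ 105 ≤ 2 ^ 1151 := Nat.pow_le_pow_right (by norm_num) (by norm_num)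
  have b115 : (2 : ℕ) ^ 115 < 2 ^ 1151 := Nat.pow_lt_pow_right (by norm_num) (by norm_num)
  have r1 : ∀ j, 1048576 * lf B0 B1 B2 B3 B4 B5 (v j) ≤ 2 * τ * (v j).g := by
    rw [eL, eT, hP] at h1
    exact g4_test1 (m := 1151) (n := 1152) rfl (fun j => (bt j).trans_lt b115)
      (fun j => (bl j).trans b105) h1
  have eR : T - L = g4_p P (fun j => 2 * τ * (v j).g - 1048576 * lf B0 B1 B2 B3 B4 B5 (v j)) := by
    have h3 : g4_p P (fun j => 2 * τ * (v j).g - 1048576 * lf B0 B1 B2 B3 B4 B5 (v j)) + L = T := by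
      rw [eL, eT, g4_add]
      refine congrArg (g4_p _) (funext fun j => ?_)
      have := r1 j
      omega
    omega
  have eA : (T - L) * XG = g4_p P (fun j => g4_p Q (fun i => (v i).g *
      (2 * τ * (v j).g - 1048576 * lf B0 B1 B2 B3 B4 B5 (v j)))) := by
    rw [eR, hXG, mul_comm, g4_prod]
  have eC : C = g4_p P (fun j => g4_p Q (fun i => 1048576 *
      (bf W0 W1 W2 W3 W4 W5 W6 (v i) (v j) + (v j).g * lf B0 B1 B2 B3 B4 B5 (v i)))) := by
    have u0 : W2 * (Y1 + Y3) + (W1 * (Y2 + Y4) + (W5 * Y5 + B0 * YG)) = g4_p P (fun j =>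
        W2 * ((v j).b + (v j).d) + (W1 * ((v j).c + (v j).e) + (W5 * (v j).f + B0 * (v j).g))) := by
      rw [hY1, hY2, hY3, hY4, hY5, hYG]
      simp only [g4_add, g4_mul]
    have u1 : W2 * (Y0 + Y3) + (W0 * (Y2 + Y5) + (W4 * Y4 + B1 * YG)) = g4_p P (fun j =>
        W2 * ((v j).a + (v j).d) + (W0 * ((v j).c + (v j).f) + (W4 * (v j).e + B1 * (v j).g))) := by
      rw [hY0, hY2, hY3, hY4, hY5, hYG]
      simp only [g4_add, g4_mul]
    have u2 : W1 * (Y0 + Y4) + (W0 * (Y1 + Y5) + (W3 * Y3 + B2 * YG)) = g4_p P (fun j =>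
        W1 * ((v j).a + (v j).e) + (W0 * ((v j).b + (v j).f) + (W3 * (v j).d + B2 * (v j).g))) := by
      rw [hY0, hY1, hY3, hY4, hY5, hYG]
      simp only [g4_add, g4_mul]
    have u3 : W2 * (Y0 + Y1) + (W6 * (Y4 + Y5) + (W3 * Y2 + B3 * YG)) = g4_p P (fun j =>
        W2 * ((v j).a + (v j).b) + (W6 * ((v j).e + (v j).f) + (W3 * (v j).c + B3 * (v j).g))) := by
      rw [hY0, hY1, hY2, hY4, hY5, hYG]
      simp only [g4_add, g4_mul]
    have u4 : W1 * (Y0 + Y2) + (W6 * (Y3 + Y5) + (W4 * Y1 + B4 * YG)) = g4_p P (fun j =>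
        W1 * ((v j).a + (v j).c) + (W6 * ((v j).d + (v j).f) + (W4 * (v j).b + B4 * (v j).g))) := by
      rw [hY0, hY1, hY2, hY3, hY5, hYG]
      simp only [g4_add, g4_mul]
    have u5 : W0 * (Y1 + Y2) + (W6 * (Y3 + Y4) + (W5 * Y0 + B5 * YG)) = g4_p P (fun j =>
        W0 * ((v j).b + (v j).c) + (W6 * ((v j).d + (v j).e) + (W5 * (v j).a + B5 * (v j).g))) := by
      rw [hY0, hY1, hY2, hY3, hY4, hYG]
      simp only [g4_add, g4_mul]
    rw [hC, u0, u1, u2, u3, u4, u5, hX0, hX1, hX2, hX3, hX4, hX5, g4_prod, g4_prod, g4_prod,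
      g4_prod, g4_prod, g4_prod]
    simp only [g4_add]
    rw [g4_mul]
    refine congrArg (g4_p _) (funext fun j => ?_)
    rw [g4_mul]
    refine congrArg (g4_p _) (funext fun i => ?_)
    unfold bf lf
    ring
  have b191 : (2 : ℕ) ^ 149 < 2 ^ 191 := Nat.pow_lt_pow_right (by norm_num) (by norm_num)
  have b191' : (2 : ℕ) ^ 142 ≤ 2 ^ 191 := Nat.pow_le_pow_right (by norm_num) (by norm_num)
  have r2 : ∀ j i, 1048576 *
      (bf W0 W1 W2 W3 W4 W5 W6 (v i) (v j) + (v j).g * lf B0 B1 B2 B3 B4 B5 (v i)) ≤ (v i).g *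
      (2 * τ * (v j).g - 1048576 * lf B0 B1 B2 B3 B4 B5 (v j)) := by
    rw [eA, eC, hP, hQ] at h2
    refine g4_test2 (m := 191) (n := 192) (k := 1152) rfl rfl ?_ ?_ h2
    · intro j i
      refine lt_of_le_of_lt ?_ b191
      have h3 := (hv i).2.2.2.2.2.2
      have h4 := bt j
      calc (v i).g * (2 * τ * (v j).g - 1048576 * lf B0 B1 B2 B3 B4 B5 (v j)) ≤
            2 ^ 34 * 2 ^ 115 := Nat.mul_le_mul h3.le ((Nat.sub_le _ _).trans h4)
        _ = 2 ^ 149 := by norm_num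
    · intro j i
      refine le_trans ?_ b191'
      have h3 := (hv j).2.2.2.2.2.2
      have h4 := g4_lf hB (hv i)
      have h5 := g4_bf hW (hv i) (hv j)
      calc _ ≤ 1048576 * (2 ^ 121 + 2 ^ 34 * 2 ^ 85) := by gcongr
        _ ≤ 2 ^ 142 := by norm_num
  intro i k
  refine ⟨r1 i, ?_⟩
  have h3 := r2 k i
  have h4 := r1 k
  obtain ⟨r, hr⟩ := Nat.exists_eq_add_of_le h4
  have h5 : 2 * τ * (v k).g - 1048576 * lf B0 B1 B2 B3 B4 B5 (v k) = r := by omega
  rw [h5] at h3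
  calc 1048576 * ((v k).g * lf B0 B1 B2 B3 B4 B5 (v i) + (v i).g * lf B0 B1 B2 B3 B4 B5 (v k) +
        bf W0 W1 W2 W3 W4 W5 W6 (v i) (v k)) = 1048576 *
      (bf W0 W1 W2 W3 W4 W5 W6 (v i) (v k) + (v k).g * lf B0 B1 B2 B3 B4 B5 (v i)) +
        (v i).g * (1048576 * lf B0 B1 B2 B3 B4 B5 (v k)) := by ring
    _ ≤ (v i).g * r + (v i).g * (1048576 * lf B0 B1 B2 B3 B4 B5 (v k)) := Nat.add_le_add_right h3 _
    _ = (v i).g * (2 * τ * (v k).g) := by rw [hr]; ring
    _ = 2 * τ * (v i).g * (v k).g := by ring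

theorem g4_main (B0 B1 B2 B3 B4 B5 W0 W1 W2 W3 W4 W5 W6 τ : ℕ) (v : Fin 6 → W)
    (hB : B0 < 2 ^ 48 ∧ B1 < 2 ^ 48 ∧ B2 < 2 ^ 48 ∧ B3 < 2 ^ 48 ∧ B4 < 2 ^ 48 ∧ B5 < 2 ^ 48)
    (hW : W0 < 2 ^ 48 ∧ W1 < 2 ^ 48 ∧ W2 < 2 ^ 48 ∧ W3 < 2 ^ 48 ∧ W4 < 2 ^ 48 ∧ W5 < 2 ^ 48 ∧
      W6 < 2 ^ 48)
    (hτ : τ < 2 ^ 80) (hv : ∀ i, Sm (v i))
    (h : pall B0 B1 B2 B3 B4 B5 W0 W1 W2 W3 W4 W5 W6 τ (v 0) (v 1) (v 2) (v 3) (v 4) (v 5) = true) :
    1 ≤ τ ∧ ∀ i k : Fin 6,
    1048576 * lf B0 B1 B2 B3 B4 B5 (v i) ≤ 2 * τ * (v i).g ∧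
    1048576 * ((v k).g * lf B0 B1 B2 B3 B4 B5 (v i) + (v i).g * lf B0 B1 B2 B3 B4 B5 (v k) +
        bf W0 W1 W2 W3 W4 W5 W6 (v i) (v k)) ≤ 2 * τ * (v i).g * (v k).g := by
  unfold pall pj at h
  simp only [g4_frc, Bool.and_eq_true] at h
  obtain ⟨h0, h1, h2⟩ := h
  refine ⟨Nat.le_of_ble_eq_true h0, ?_⟩
  have e1 := Nat.eq_of_beq_eq_true h1
  have e2 := Nat.eq_of_beq_eq_true h2
  rw [g4_b1] at e1
  rw [g4_b2] at e2
  exact g4_core (P := 2 ^ 1152) (Q := 2 ^ 192) rfl rfl hB hW hτ hv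
    (g4_pk fun i => (v i).a) (g4_pk fun i => (v i).b) (g4_pk fun i => (v i).c)
    (g4_pk fun i => (v i).d) (g4_pk fun i => (v i).e) (g4_pk fun i => (v i).f)
    (g4_pk fun i => (v i).g)
    (g4_pl fun i => (v i).a) (g4_pl fun i => (v i).b) (g4_pl fun i => (v i).c)
    (g4_pl fun i => (v i).d) (g4_pl fun i => (v i).e) (g4_pl fun i => (v i).f)
    (g4_pl fun i => (v i).g) rfl rfl rfl e1 e2

/-- the meaning of the test of all pairs of vertices -/
theorem pa_ok : PAok := by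
  intro B0 B1 B2 B3 B4 B5 W0 W1 W2 W3 W4 W5 W6 τ v0 v1 v2 v3 v4 v5 hB hW hτ hv h
  exact g4_main B0 B1 B2 B3 B4 B5 W0 W1 W2 W3 W4 W5 W6 τ ![v0, v1, v2, v3, v4, v5] hB hW hτ hv h

end Pool.Agent.H999.Ep3
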