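import Pool.Agent.H999.Ep3.Base

set_option autoImplicit false

open Matrix

namespace Pool.Agent.H999.Ep3

open Pool.Agent.K1H99.FCC (N0 rv nsq qf af dt PD rad Fp Qm pp tot al be sd)
open Pool.Agent.H999.Theta3 (W Th RF RB Bp bb tF InF InB2 InB sc wv Val ZZ Line psi dx inF inB2 leafB
  rent lo RFb frc frz detN mid vt)

/-- integral cubic coordinates for the body-centred form -/
def g9_J (n : N0) : ℤ × ℤ × ℤ :=
  (n.1 0 - n.1 1 - n.1 2, -n.1 0 + n.1 1 - n.1 2, -n.1 0 - n.1 1 + n.1 2)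

lemma g9_J_inj : Function.Injective g9_J := by
  intro a b h
  unfold g9_J at h
  simp only [Prod.mk.injEq] at h
  obtain ⟨h1, h2, h3⟩ := h
  apply Subtype.ext
  funext i
  fin_cases i
  · show a.1 0 = b.1 0
    omega
  · show a.1 1 = b.1 1
    omega
  · show a.1 2 = b.1 2
    omega

lemma g9_nz (n : N0) : (Pool.Agent.K1H99.FCC.nz (g9_J n) : ℝ) = qf Bp (rv n.1) := by
  rw [Pool.Agent.K1H99.FCC.nz_cast]
  unfold g9_J qf Bp rv
  push_cast
  ring

lemma g9_nz_ne (n : N0) : Pool.Agent.K1H99.FCC.nz (g9_J n) ≠ 0 := by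
  intro h
  have h1 : (Pool.Agent.K1H99.FCC.nz (g9_J n) : ℝ) = 0 := by exact_mod_cast h
  rw [g9_nz] at h1
  unfold qf Bp rv at h1
  have h2 : ∀ i, n.1 i = 0 := by
    intro i
    have h3 : ((n.1 0 : ℤ) : ℝ) ^ 2 = 0 ∧ ((n.1 1 : ℤ) : ℝ) ^ 2 = 0 ∧ ((n.1 2 : ℤ) : ℝ) ^ 2 = 0 := by
      have a0 := sq_nonneg ((n.1 0 : ℤ) : ℝ)
      have a1 := sq_nonneg ((n.1 1 : ℤ) : ℝ)
      have a2 := sq_nonneg ((n.1 2 : ℤ) : ℝ)
      have a3 := sq_nonneg (((n.1 0 : ℤ) : ℝ) - (n.1 1 : ℤ))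
      have a4 := sq_nonneg (((n.1 0 : ℤ) : ℝ) - (n.1 2 : ℤ))
      have a5 := sq_nonneg (((n.1 1 : ℤ) : ℝ) - (n.1 2 : ℤ))
      refine ⟨?_, ?_, ?_⟩ <;> linarith
    obtain ⟨h3, h4, h5⟩ := h3
    have g : ∀ z : ℤ, (z : ℝ) ^ 2 = 0 → z = 0 := fun z hz => by
      have := pow_eq_zero_iff (two_ne_zero) |>.1 hz
      exact_mod_cast this
    fin_cases i
    · exact g _ h3
    · exact g _ h4
    · exact g _ h5
  exact n.2 (funext h2)

/-- the box -/
noncomputable def g9_box : Finset (ℤ × ℤ × ℤ) :=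
  Finset.Icc (-4) 4 ×ˢ (Finset.Icc (-4) 4 ×ˢ Finset.Icc (-4) 4)

lemma g9_mem_box {c : ℤ × ℤ × ℤ} (h : Pool.Agent.K1H99.FCC.nz c < 20) : c ∈ g9_box := by
  have h1 : ((Pool.Agent.K1H99.FCC.nz c : ℕ) : ℤ) = c.1 ^ 2 + (c.2.1 ^ 2 + c.2.2 ^ 2) :=
    Int.toNat_of_nonneg (by positivity)
  have h2 : c.1 ^ 2 + (c.2.1 ^ 2 + c.2.2 ^ 2) < 20 := by
    rw [← h1]
    exact_mod_cast h
  have key : ∀ x y z : ℤ, x ^ 2 + (y ^ 2 + z ^ 2) < 20 → -4 ≤ x ∧ x ≤ 4 := by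
    intro x y z h
    have hx : x ^ 2 < 20 := by nlinarith [sq_nonneg y, sq_nonneg z]
    constructor <;> nlinarith
  unfold g9_box
  rw [Finset.mem_product, Finset.mem_product, Finset.mem_Icc, Finset.mem_Icc, Finset.mem_Icc]
  refine ⟨key _ _ _ h2, key c.2.1 c.1 c.2.2 (by linarith), key c.2.2 c.1 c.2.1 (by linarith)⟩

/-- the shells -/
noncomputable def g9_SH : Finset (ℤ × ℤ × ℤ) := g9_box.filter fun c => (c.1 + c.2.1) % 2 = 0 ∧
  (c.1 + c.2.2) % 2 = 0 ∧ Pool.Agent.K1H99.FCC.nz c ≠ 0 ∧ Pool.Agent.K1H99.FCC.nz c < 20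

lemma g9_card : ∀ m < 20, (g9_SH.filter fun c => Pool.Agent.K1H99.FCC.nz c = m).card =
    if m = 3 then 8 else if m = 4 then 6 else if m = 8 then 12 else if m = 11 then 24 else
    if m = 12 then 8 else if m = 16 then 6 else if m = 19 then 24 else 0 := by
  decide +kernel

lemma g9_mem (n : N0) (h : Pool.Agent.K1H99.FCC.nz (g9_J n) < 20) : g9_J n ∈ g9_SH := by
  unfold g9_SH
  rw [Finset.mem_filter]
  refine ⟨g9_mem_box h, ?_, ?_, g9_nz_ne n, h⟩
  · unfold g9_J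
    simp only
    omega
  · unfold g9_J
    simp only
    omega

lemma g9_sum (f : ℕ → ℝ) : ∑ c ∈ g9_SH, f (Pool.Agent.K1H99.FCC.nz c) =
    8 * f 3 + 6 * f 4 + 12 * f 8 + 24 * f 11 + 8 * f 12 + 6 * f 16 + 24 * f 19 := by
  rw [Pool.Agent.K1H99.FCC.sum_by_value g9_SH 20 (fun c hc => by
    unfold g9_SH at hc
    exact (Finset.mem_filter.1 hc).2.2.2.2) f]
  rw [Finset.sum_congr rfl fun m hm => by rw [g9_card m (Finset.mem_range.1 hm)]]
  simp only [Finset.sum_range_succ, Finset.sum_range_zero]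
  norm_num

lemma g9_dt : dt Bp = 16 := by
  unfold dt Bp
  norm_num

lemma g9_rad : rad Bp = rad Fp ^ 2 := by
  have h1 : rad Bp ^ 3 = 16 := by
    rw [Pool.Agent.K1H99.FCC.rad_cube (by rw [g9_dt]; norm_num), g9_dt]
  have h2 : (rad Fp ^ 2) ^ 3 = 16 := by
    rw [← pow_mul, mul_comm, pow_mul, Pool.Agent.K1H99.FCC.rad_Fp]
    norm_num
  have h3 : 0 < rad Bp := Pool.Agent.K1H99.FCC.rad_pos (by rw [g9_dt]; norm_num)
  exact (pow_left_inj₀ h3.le (by positivity) three_ne_zero).1 (h1.trans h2.symm)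

lemma g9_be : be = Real.pi / rad Bp := by
  rw [g9_rad]
  rfl

lemma g9_e1 : Real.exp (-(12467418 / 10000000)) ≤ 28744 / 100000 + 2 / 1000000 :=
  Pool.Agent.K1H99.FCC.expneg_le (s := 10810376 / 10000000) (by norm_num) (by norm_num)
    (by norm_num) (by norm_num)

lemma g9_e5 : Real.exp 5 ≤ 14842 / 100 := by
  have h1 := Real.exp_one_lt_d9
  have h2 : Real.exp 5 = Real.exp 1 ^ 5 := by
    rw [← Real.exp_nat_mul]
    congr 1
    norm_num
  have h3 : Real.exp 1 ^ 5 ≤ (2.7182818286 : ℝ) ^ 5 :=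
    pow_le_pow_left₀ (Real.exp_pos 1).le h1.le 5
  rw [h2]
  exact h3.trans (by norm_num)

/-- upper bound of the energy of the body-centred cubic lattice -/
theorem rb_le : RBle := by
  intro s hs
  have hb := Pool.Agent.K1H99.FCC.be_bounds.1
  have hbe0 : 0 < be := by linarith
  have hbs : be ≤ be * s := by nlinarith
  set v := Real.exp (-(be * s)) with hv
  have hv0 : 0 < v := Real.exp_pos _
  have hv1 : v ≤ 28744 / 100000 + 2 / 1000000 :=
    (Real.exp_le_exp.2 (by linarith)).trans g9_e1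
  have hpow : ∀ k : ℕ, Real.exp (-(be * s) * (k : ℝ)) = v ^ k := by
    intro k
    rw [hv, ← Real.exp_nat_mul]
    congr 1
    ring
  have e1 : RB s = ∑' n : N0, Real.exp (-(be * s) * (Pool.Agent.K1H99.FCC.nz (g9_J n) : ℝ)) := by
    unfold RB
    refine tsum_congr fun n => ?_
    rw [g9_nz, g9_be]
    congr 1
    ring
  have hsum : Summable fun n : N0 =>
      Real.exp (-(be * s) * (Pool.Agent.K1H99.FCC.nz (g9_J n) : ℝ)) :=
    (Pool.Agent.K1H99.FCC.theta_three (μ := be * s) (by linarith)).1.comp_injective g9_J_inj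
  have h := Pool.Agent.K1H99.FCC.shell g9_J g9_J_inj g9_SH 20 g9_mem
    (fun m : ℕ => Real.exp (-(be * s) * (m : ℝ))) (fun m => (Real.exp_pos _).le) hsum
    (K := v ^ 20 * Real.exp 5) (μ := 1 / 4) (by norm_num) (by positivity) (by
      intro m hm
      have hm' : (20 : ℝ) ≤ m := by exact_mod_cast hm
      rw [← hpow 20, ← Real.exp_add, ← Real.exp_add]
      apply Real.exp_le_exp.2
      push_cast
      nlinarith)
  rw [g9_sum (fun m : ℕ => Real.exp (-(be * s) * (m : ℝ))), ← e1] at h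
  simp only [hpow] at h
  have t := Pool.Agent.K1H99.FCC.th2
  have h3 : v ^ 20 * Real.exp 5 *
      (1 + 2 * (Real.exp (-(1 / 4)) * (1 - Real.exp (-(1 / 4)) ^ 2)⁻¹)) ^ 3 ≤
        v ^ 20 * (14842 / 100) * 122 := by
    apply mul_le_mul _ t _ (by positivity)
    · exact mul_le_mul_of_nonneg_left g9_e5 (by positivity)
    · have h4 : Real.exp (-(1 / 4)) ^ 2 < 1 := by
        rw [← Real.exp_nat_mul]
        have := Real.exp_lt_exp.2 (show ((2 : ℕ) : ℝ) * -(1 / 4) < 0 by norm_num)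
        rwa [Real.exp_zero] at this
      have h5 : 0 < 1 - Real.exp (-(1 / 4)) ^ 2 := by linarith
      positivity
  have v4 := pow_le_pow_left₀ hv0.le hv1 4
  have v7 := pow_le_pow_left₀ hv0.le hv1 7
  have v8 := pow_le_pow_left₀ hv0.le hv1 8
  have h6 : 6 * v ^ 4 + 24 * v ^ 7 + 14842 / 100 * 122 * v ^ 8 ≤ 1 := by
    norm_num at v4 v7 v8 ⊢
    linarith
  have h7 : v ^ 12 * (6 * v ^ 4 + 24 * v ^ 7 + 14842 / 100 * 122 * v ^ 8) ≤ v ^ 12 * 1 :=
    mul_le_mul_of_nonneg_left h6 (by positivity)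
  have h8 : v ^ 12 * (6 * v ^ 4 + 24 * v ^ 7 + 14842 / 100 * 122 * v ^ 8) =
      6 * v ^ 16 + 24 * v ^ 19 + v ^ 20 * (14842 / 100) * 122 := by ring
  unfold RBb
  linarith

end Pool.Agent.H999.Ep3
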