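import Pool.Agent.H999.Ep3.Base

set_option autoImplicit false

open Matrix

namespace Pool.Agent.H999.Ep3

open Pool.Agent.K1H99.FCC (N0 rv nsq qf af dt PD rad Fp Qm pp tot al be sd)
open Pool.Agent.H999.Theta3 (W Th RF RB Bp bb tF InF InB2 InB sc wv Val ZZ Line psi dx inF inB2 leafB
  rent lo RFb frc frz detN mid vt)

theorem g5_frc {α : Type} (n : ℕ) (k : ℕ → α) : frc n k = k n := by
  cases n <;> rfl

theorem g5_ex {n : ℕ} {k : ℕ → Bool} (h : frc n k = true) : ∃ m, m = n ∧ k m = true :=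
  ⟨n, rfl, by rwa [g5_frc] at h⟩

theorem g5_lo (x : ℕ) : lo x < 2 ^ 48 := by
  have h := Nat.and_two_pow_sub_one_eq_mod x 48
  have h2 : 2 ^ 48 - 1 = 281474976710655 := by norm_num
  rw [h2] at h
  have h3 : lo x = x % 2 ^ 48 := h
  rw [h3]
  exact Nat.mod_lt _ (by norm_num)

theorem g5_shr (x n : ℕ) : Nat.shiftRight x n = x / 2 ^ n := Nat.shiftRight_eq_div_pow x n

theorem g5_div {a b : ℕ} (x : ℕ) (h : x = Nat.div a b) : x * b ≤ a := by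
  rw [h]
  exact Nat.div_mul_le_self _ _

theorem g5_ble {a b : ℕ} (h : Nat.ble a b = false) : b ≤ a := by
  by_contra hc
  have := Nat.ble_eq_true_of_le (show a ≤ b by omega)
  rw [h] at this
  exact absurd this (by decide)

theorem g5_thr {R j J A E : ℕ} {k : ℕ → Bool} (h : thr R j J A E k = true) :
    ∃ τ, k τ = true ∧
      τ * ((256 + j) * 314159266) ≤ (2 * A - (rent R j + e9 j)) * 13421772800000000 ∧
      τ * ((256 + J) * 314159266) ≤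
        ((2 * A + ((J - j) * E) * 33462733507 / 2 ^ 40) -
          ((rent R J + e9 j) * rent tabE (J - j) / 2 ^ 24 + 1)) * 13421772800000000 := by
  unfold thr at h
  simp only [g5_shr, Nat.add_eq, Nat.mul_eq, Nat.sub_eq] at h
  obtain ⟨e0, h0, h⟩ := g5_ex h
  subst h0
  obtain ⟨τ1, h1, h⟩ := g5_ex h
  obtain ⟨τ2, h2, h⟩ := g5_ex h
  have g1 := g5_div τ1 h1
  have g2 := g5_div τ2 h2
  cases hb : Nat.ble τ1 τ2
  · rw [hb, cond_false] at h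
    exact ⟨τ2, h, (Nat.mul_le_mul_right _ (g5_ble hb)).trans g1, g2⟩
  · rw [hb, cond_true] at h
    have hle := Nat.le_of_ble_eq_true hb
    exact ⟨τ1, h, g1, (Nat.mul_le_mul_right _ hle).trans g2⟩

theorem g5_vt {B0 B1 B2 B3 B4 B5 τ : ℕ} {v : W} (h : vt B0 B1 B2 B3 B4 B5 τ v = true) :
    1048576 * lf B0 B1 B2 B3 B4 B5 v ≤ τ * v.g := by
  unfold vt at h
  have h1 := Nat.le_of_ble_eq_true h
  simp only [Nat.add_eq, Nat.mul_eq] at h1
  unfold lf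
  calc _ = 1048576 * (v.a * B0 + (v.b * B1 + (v.c * B2 + (v.d * B3 + (v.e * B4 + v.f * B5))))) := by
        ring
    _ ≤ _ := h1

/-- the data of a successful test of the theta function of the lattice -/
theorem tA_spec (hSP : SPok) {z j J : ℕ} {v0 v1 v2 v3 v4 v5 : W}
    (h : tA z j J v0 v1 v2 v3 v4 v5 = true) :
    ∃ (a b : Fin 25 → ℕ) (τ : ℕ), TDA j J ![v0, v1, v2, v3, v4, v5] a b τ := by
  unfold tA at h
  obtain ⟨κ, -, h⟩ := g5_ex h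
  obtain ⟨Q, -, h⟩ := g5_ex h
  obtain ⟨X, hX, h⟩ := g5_ex h
  have hX' : X = sP13 Q ∨ X = sP25 Q := by
    cases hb : Nat.beq z 0
    · rw [hb, cond_false] at hX; exact Or.inr hX
    · rw [hb, cond_true] at hX; exact Or.inl hX
  obtain ⟨a, b, hl, hA, -, hE, hq⟩ := hSP Q X hX'
  obtain ⟨τ, hk, h1, h3⟩ := g5_thr h
  obtain ⟨B0, hB0, hk⟩ := g5_ex hk
  obtain ⟨B1, hB1, hk⟩ := g5_ex hk
  obtain ⟨B2, hB2, hk⟩ := g5_ex hk
  obtain ⟨B3, hB3, hk⟩ := g5_ex hk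
  obtain ⟨B4, hB4, hk⟩ := g5_ex hk
  obtain ⟨B5, hB5, hk⟩ := g5_ex hk
  simp only [Bool.and_eq_true] at hk
  obtain ⟨⟨⟨⟨⟨⟨k1, k2⟩, k3⟩, k4⟩, k5⟩, k6⟩, k7⟩ := hk
  rw [hA] at h1 h3
  rw [hE] at h3
  refine ⟨a, b, τ, hl, Nat.le_of_ble_eq_true k1, h1, h3, ?_⟩
  have hP : ∀ {v : W}, vt B0 B1 B2 B3 B4 B5 τ v = true →
      1048576 * ∑ z, (b z : ℝ) * qf (wv v) (rv (ZZ z)) ≤ τ * (v.g : ℝ) := by
    intro v hv
    have h4 := g5_vt hv
    rw [hq v, ← hB0, ← hB1, ← hB2, ← hB3, ← hB4, ← hB5]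
    exact_mod_cast h4
  intro i
  fin_cases i
  · exact hP k2
  · exact hP k3
  · exact hP k4
  · exact hP k5
  · exact hP k6
  · exact hP k7

theorem g5_det (a b c d e f : ℕ) : detN a b c d e f ≤ (a + b + c + d + e + f) ^ 3 := by
  unfold detN
  simp only [Nat.add_eq, Nat.mul_eq]
  have h2 : a * b + a * c + a * d + a * e + b * c + b * d + b * e + c * d + c * e ≤
      (a + b + c + d + e + f) * (a + b + c + d + e + f) := by
    have : (a + b + c + d + e + f) * (a + b + c + d + e + f) =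
      (a * b + a * c + a * d + a * e + b * c + b * d + b * e + c * d + c * e) +
      (a * a + b * b + c * c + d * d + e * e + f * f + a * b + a * c + a * d + a * e + 2 * a * f +
      b * c + b * d + b * e + 2 * b * f + c * d + c * e + 2 * c * f + 2 * d * e + 2 * d * f +
      2 * e * f) := by ring
    omega
  set S := a + b + c + d + e + f with hS
  have e1 : a * b * (c + (e + f)) ≤ a * b * S := Nat.mul_le_mul_left _ (by omega)
  have e2 : a * c * (d + f) ≤ a * c * S := Nat.mul_le_mul_left _ (by omega)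
  have e3 : a * d * (e + f) ≤ a * d * S := Nat.mul_le_mul_left _ (by omega)
  have e4 : a * e * f ≤ a * e * S := Nat.mul_le_mul_left _ (by omega)
  have e5 : b * c * (d + e) ≤ b * c * S := Nat.mul_le_mul_left _ (by omega)
  have e6 : b * d * (e + f) ≤ b * d * S := Nat.mul_le_mul_left _ (by omega)
  have e7 : b * e * f ≤ b * e * S := Nat.mul_le_mul_left _ (by omega)
  have e8 : c * d * (e + f) ≤ c * d * S := Nat.mul_le_mul_left _ (by omega)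
  have e9 : c * e * f ≤ c * e * S := Nat.mul_le_mul_left _ (by omega)
  calc _ ≤ a * b * S + a * c * S + a * d * S + a * e * S + b * c * S + b * d * S + b * e * S +
        c * d * S + c * e * S := by omega
    _ = (a * b + a * c + a * d + a * e + b * c + b * d + b * e + c * d + c * e) * S := by ring
    _ ≤ (S * S) * S := Nat.mul_le_mul_right _ h2
    _ = S ^ 3 := by ring

theorem g5_sm {v : W} (h : Val v) : Sm v := by
  obtain ⟨h1, h2⟩ := h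
  have h3 := g5_det v.a v.b v.c v.d v.e v.f
  rw [h2] at h3
  have h4 : v.g < 2 ^ 34 := by
    by_contra hcon
    push Not at hcon
    have h5 : 2 ^ 34 * 2 ^ 34 * 2 ^ 34 ≤ v.g * v.g * v.g :=
      Nat.mul_le_mul (Nat.mul_le_mul hcon hcon) hcon
    have h6 := (h5.trans h1).trans h3
    norm_num at h6
  refine ⟨?_, ?_, ?_, ?_, ?_, ?_, h4⟩ <;> omega

/-- the data of a successful test of the sum of the theta functions -/
theorem tU_spec (hSP : SPok) (hSD : SDok) (hPA : PAok) {z j J : ℕ} {v0 v1 v2 v3 v4 v5 : W}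
    (c0 : Val v0) (c1 : Val v1) (c2 : Val v2) (c3 : Val v3) (c4 : Val v4) (c5 : Val v5)
    (h : tU z j J v0 v1 v2 v3 v4 v5 = true) :
    ∃ (a b a' b' : Fin 25 → ℕ) (τ : ℕ), TDU j J ![v0, v1, v2, v3, v4, v5] a b a' b' τ := by
  unfold tU at h
  obtain ⟨qa, -, h⟩ := g5_ex h
  obtain ⟨qb, -, h⟩ := g5_ex h
  obtain ⟨qc, -, h⟩ := g5_ex h
  obtain ⟨qd, -, h⟩ := g5_ex h
  obtain ⟨qe', -, h⟩ := g5_ex h
  obtain ⟨qf', -, h⟩ := g5_ex h
  obtain ⟨G, -, h⟩ := g5_ex h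
  obtain ⟨κ, -, h⟩ := g5_ex h
  obtain ⟨Q, -, h⟩ := g5_ex h
  obtain ⟨X, hX, h⟩ := g5_ex h
  obtain ⟨Q', -, h⟩ := g5_ex h
  obtain ⟨Y, hY, h⟩ := g5_ex h
  have hX' : X = sP13 Q ∨ X = sP25 Q := by
    cases hb : Nat.beq z 0
    · rw [hb, cond_false] at hX; exact Or.inr hX
    · rw [hb, cond_true] at hX; exact Or.inl hX
  have hY' : Y = sD10 Q' ∨ Y = sD25 Q' := by
    cases hb : Nat.beq z 0
    · rw [hb, cond_false] at hY; exact Or.inr hY
    · rw [hb, cond_true] at hY; exact Or.inl hY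
  obtain ⟨a, b, hl, hA, hA2, hE, hq⟩ := hSP Q X hX'
  obtain ⟨a', b', hl', hA', hA2', hE', hq'⟩ := hSD Q' Y hY'
  obtain ⟨τ, hk, h1, h3⟩ := g5_thr h
  obtain ⟨B0, hB0, hk⟩ := g5_ex hk
  obtain ⟨B1, hB1, hk⟩ := g5_ex hk
  obtain ⟨B2, hB2, hk⟩ := g5_ex hk
  obtain ⟨B3, hB3, hk⟩ := g5_ex hk
  obtain ⟨B4, hB4, hk⟩ := g5_ex hk
  obtain ⟨B5, hB5, hk⟩ := g5_ex hk
  obtain ⟨W0, hW0, hk⟩ := g5_ex hk
  obtain ⟨W1, hW1, hk⟩ := g5_ex hk
  obtain ⟨W2, hW2, hk⟩ := g5_ex hk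
  obtain ⟨W3, hW3, hk⟩ := g5_ex hk
  obtain ⟨W4, hW4, hk⟩ := g5_ex hk
  obtain ⟨W5, hW5, hk⟩ := g5_ex hk
  obtain ⟨W6, hW6, hk⟩ := g5_ex hk
  rw [Nat.add_eq, hA, hA'] at h1 h3
  rw [Nat.add_eq, hE, hE'] at h3
  have hτ : τ < 2 ^ 80 := by
    have e1 : τ * (256 * 314159266) ≤ τ * ((256 + j) * 314159266) :=
      Nat.mul_le_mul_left _ (Nat.mul_le_mul_right _ (Nat.le_add_right _ _))
    have e2 : (2 * (∑ z, a z + ∑ z, a' z) - (rent tabU j + e9 j)) * 13421772800000000 ≤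
        (2 * (2 ^ 46 + 2 ^ 46)) * 13421772800000000 :=
      Nat.mul_le_mul_right _ (by omega)
    have e3 := (e1.trans h1).trans e2
    norm_num at e3 ⊢
    omega
  have hS : ∀ i, Sm ((![v0, v1, v2, v3, v4, v5] : Fin 6 → W) i) := by
    intro i
    fin_cases i
    · exact g5_sm c0
    · exact g5_sm c1
    · exact g5_sm c2
    · exact g5_sm c3
    · exact g5_sm c4
    · exact g5_sm c5
  obtain ⟨k1, k2⟩ := hPA B0 B1 B2 B3 B4 B5 W0 W1 W2 W3 W4 W5 W6 τ v0 v1 v2 v3 v4 v5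
    ⟨hB0 ▸ g5_lo _, hB1 ▸ g5_lo _, hB2 ▸ g5_lo _, hB3 ▸ g5_lo _, hB4 ▸ g5_lo _, hB5 ▸ g5_lo _⟩
    ⟨hW0 ▸ g5_lo _, hW1 ▸ g5_lo _, hW2 ▸ g5_lo _, hW3 ▸ g5_lo _, hW4 ▸ g5_lo _, hW5 ▸ g5_lo _,
      hW6 ▸ g5_lo _⟩ hτ hS hk
  refine ⟨a, b, a', b', τ, hl, hl', k1, h1, h3, ?_, ?_⟩
  · intro i
    have h4 := (k2 i i).1
    rw [hq, ← hB0, ← hB1, ← hB2, ← hB3, ← hB4, ← hB5]
    exact_mod_cast h4
  · intro i k
    have h4 := (k2 i k).2
    rw [hq, hq, hq', ← hB0, ← hB1, ← hB2, ← hB3, ← hB4, ← hB5, ← hW0, ← hW1, ← hW2, ← hW3, ← hW4,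
      ← hW5, ← hW6]
    exact_mod_cast h4

end Pool.Agent.H999.Ep3
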