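import Pool.Agent.H999.Ep3.Base
import Pool.Agent.H999.Theta3.RFle

set_option autoImplicit false

open Matrix

namespace Pool.Agent.H999.Ep3

open Pool.Agent.K1H99.FCC (N0 rv nsq qf af dt PD rad Fp Qm pp tot al be sd)
open Pool.Agent.H999.Theta3 (W Th RF RB Bp bb tF InF InB2 InB sc wv Val ZZ Line psi dx inF inB2 leafB
  rent lo RFb frc frz detN mid vt)

/-- the conclusion of the analytic lemma `cellA` -/
def CellA : Prop := ∀ (R : ℝ → ℝ) (_ : Chd R)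
    (a b : Fin 25 → ℝ) (v : Fin 6 → W) (s1 s2 τ R1 R2 : ℝ)
    (_ : ∀ z, Line (a z) (b z)) (_ : ∀ z, 0 ≤ b z) (_ : ∀ i, Val (v i)) (_ : 1 ≤ s1) (_ : s1 < s2)
    (_ : 0 ≤ τ) (_ : ∀ i, ∑ z, b z * qf (wv (v i)) (rv (ZZ z)) ≤ τ * ((v i).g : ℝ))
    (_ : 2 ^ 40 * R s1 ≤ R1) (_ : R1 ≤ 2 * ∑ z, a z - 2 * Real.pi * τ * s1)
    (_ : 2 ^ 40 * (R s2 * Real.exp (Real.pi * (31 / 25) * (s2 - s1))) ≤ R2)
    (_ : R2 ≤ 2 * ∑ z, a z - 2 * Real.pi * τ * s2 +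
      2 * Real.pi * (31 / 25) * (s2 - s1) * ∑ z, b z)
    (l : Fin 6 → ℝ) (_ : ∀ i, 0 ≤ l i) (_ : PD (∑ i, l i • wv (v i)))
    (_ : s1 ≤ rad (∑ i, l i • wv (v i))),
    R (rad (∑ i, l i • wv (v i))) ≤ Th (∑ i, l i • wv (v i)) ∨
      s2 < rad (∑ i, l i • wv (v i))

/-- the conclusion of the analytic lemma `cellU` -/
def CellU : Prop := ∀ (R : ℝ → ℝ) (_ : Chd R)
    (a b a' b' : Fin 25 → ℝ) (v : Fin 6 → W) (s1 s2 τ R1 R2 : ℝ)
    (_ : ∀ z, Line (a z) (b z)) (_ : ∀ z, 0 ≤ b z)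
    (_ : ∀ z, Line (a' z) (b' z)) (_ : ∀ z, 0 ≤ b' z)
    (_ : ∀ i, Val (v i)) (_ : 1 ≤ s1) (_ : s1 < s2)
    (_ : 0 ≤ τ) (_ : ∀ i, ∑ z, b z * qf (wv (v i)) (rv (ZZ z)) ≤ 2 * τ * ((v i).g : ℝ))
    (_ : ∀ i k, ((v k).g : ℝ) * ∑ z, b z * qf (wv (v i)) (rv (ZZ z)) +
      ((v i).g : ℝ) * ∑ z, b z * qf (wv (v k)) (rv (ZZ z)) +
      ∑ z, b' z * qe (wv (v i)) (wv (v k)) (rv (YY z)) ≤ 2 * τ * ((v i).g : ℝ) * ((v k).g : ℝ))
    (_ : 2 ^ 40 * R s1 ≤ R1) (_ : R1 ≤ 2 * (∑ z, a z + ∑ z, a' z) - 2 * Real.pi * τ * s1)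
    (_ : 2 ^ 40 * (R s2 * Real.exp (Real.pi * (31 / 25) * (s2 - s1))) ≤ R2)
    (_ : R2 ≤ 2 * (∑ z, a z + ∑ z, a' z) - 2 * Real.pi * τ * s2 +
      2 * Real.pi * (31 / 25) * (s2 - s1) * (∑ z, b z + ∑ z, b' z))
    (l : Fin 6 → ℝ) (_ : ∀ i, 0 ≤ l i) (_ : PD (∑ i, l i • wv (v i)))
    (_ : s1 ≤ rad (∑ i, l i • wv (v i))),
    R (rad (∑ i, l i • wv (v i))) ≤ Th (∑ i, l i • wv (v i)) + Td (∑ i, l i • wv (v i)) ∨
      s2 < rad (∑ i, l i • wv (v i))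

/-- the inequality with `π` extracted from the natural number inequality -/
theorem g7_pi (τ m S R : ℕ) (hτ : 1 ≤ τ) (hm : 1 ≤ m)
    (h : τ * (m * 314159266) ≤ (S - R) * 13421772800000000) :
    (R : ℝ) ≤ S - 2 * Real.pi * ((τ : ℝ) / 2 ^ 20) * ((m : ℝ) / 256) := by
  have hpos : 0 < τ * (m * 314159266) := by positivity
  have hRS : R < S := by
    by_contra hc
    have h0 : S - R = 0 := by omega
    rw [h0, zero_mul] at h
    omega
  have hpi : Real.pi < 3.14159266 := lt_trans Real.pi_lt_d20 (by norm_num)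
  have h' : ((τ * (m * 314159266) : ℕ) : ℝ) ≤ (((S - R) * 13421772800000000 : ℕ) : ℝ) := by
    exact_mod_cast h
  rw [Nat.cast_mul, Nat.cast_mul, Nat.cast_mul, Nat.cast_sub hRS.le] at h'
  push_cast at h'
  have ht : (0 : ℝ) < (τ : ℝ) * m := by
    have h1 : (1 : ℝ) ≤ τ := by exact_mod_cast hτ
    have h2 : (1 : ℝ) ≤ m := by exact_mod_cast hm
    positivity
  have h3 : (τ : ℝ) * m * Real.pi < (τ : ℝ) * m * 3.14159266 := mul_lt_mul_of_pos_left hpi ht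
  have h4 : 2 * Real.pi * ((τ : ℝ) / 2 ^ 20) * ((m : ℝ) / 256) =
      (τ : ℝ) * m * Real.pi / 134217728 := by ring
  rw [h4]
  have h5 : (τ : ℝ) * m * Real.pi / 134217728 < (τ : ℝ) * m * 3.14159266 / 134217728 :=
    div_lt_div_of_pos_right h3 (by norm_num)
  have h6 : (τ : ℝ) * m * 3.14159266 / 134217728 ≤ (S : ℝ) - R := by
    rw [div_le_iff₀ (by norm_num)]
    linarith
  linarith

theorem g7_sc (j : ℕ) : sc j = ((256 + j : ℕ) : ℝ) / 256 := by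
  unfold sc
  push_cast
  rfl

theorem g7_sc1 (j : ℕ) : 1 ≤ sc j := by
  unfold sc
  have : (0 : ℝ) ≤ j := Nat.cast_nonneg j
  rw [le_div_iff₀ (by norm_num)]
  linarith

theorem g7_val (v0 v1 v2 v3 v4 v5 : W) (c0 : Val v0) (c1 : Val v1) (c2 : Val v2)
    (c3 : Val v3) (c4 : Val v4) (c5 : Val v5) : ∀ i, Val ((![v0, v1, v2, v3, v4, v5] : Fin 6 → W) i) := by
  intro i
  fin_cases i <;> assumption

theorem g7_div (n m : ℕ) (hm : 0 < m) : (n : ℝ) / m ≤ ((n / m + 1 : ℕ) : ℝ) := by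
  have h : n < m * (n / m + 1) := Nat.lt_mul_div_succ n hm
  have hm' : (0 : ℝ) < m := by exact_mod_cast hm
  rw [div_le_iff₀ hm']
  have h' : (n : ℝ) ≤ ((m * (n / m + 1) : ℕ) : ℝ) := by exact_mod_cast h.le
  push_cast at h' ⊢
  linarith

/-- the correction dominates `ee` -/
theorem g7_ee (j : ℕ) (s : ℝ) (hs : sc j ≤ s) : ee s ≤ (e9 j : ℝ) / 2 ^ 40 := by
  unfold ee e9
  by_cases hj : j ≤ 128
  · rw [Nat.ble_eq_true_of_le hj, cond_true]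
    split_ifs <;> norm_num
  · have h1 : Nat.ble j 128 = false := by
      rw [Bool.eq_false_iff]
      intro h
      exact hj (Nat.le_of_ble_eq_true h)
    rw [h1, cond_false]
    have h2 : (129 : ℝ) ≤ j := by
      have : 129 ≤ j := by omega
      exact_mod_cast this
    have h3 : ¬ s ≤ 3 / 2 := by
      rw [not_le]
      refine lt_of_lt_of_le ?_ hs
      unfold sc
      rw [lt_div_iff₀ (by norm_num)]
      linarith
    rw [if_neg h3]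
    norm_num

/-- the bound at the right end of the interval -/
theorem g7_r2 (r e0 EU w : ℕ) (x : ℝ) (hx : 2 ^ 40 * x ≤ r)
    (hE : 2 ^ 24 * Real.exp (Real.pi * (31 / 25) * ((w : ℝ) / 256)) ≤ (EU : ℝ)) :
    2 ^ 40 * ((x + (e0 : ℝ) / 2 ^ 40) * Real.exp (Real.pi * (31 / 25) * ((w : ℝ) / 256))) ≤
      (((r + e0) * EU / 2 ^ 24 + 1 : ℕ) : ℝ) := by
  refine le_trans ?_ (g7_div ((r + e0) * EU) (2 ^ 24) (by norm_num))
  rw [le_div_iff₀ (by norm_num)]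
  push_cast
  rw [show (16777216 : ℝ) = 2 ^ 24 by norm_num]
  have h0 : (0 : ℝ) ≤ 2 ^ 24 * Real.exp (Real.pi * (31 / 25) * ((w : ℝ) / 256)) := by positivity
  have h1 : 2 ^ 40 * x + (e0 : ℝ) ≤ (r : ℝ) + e0 := by linarith
  calc 2 ^ 40 * ((x + (e0 : ℝ) / 2 ^ 40) * Real.exp (Real.pi * (31 / 25) * ((w : ℝ) / 256))) *
        2 ^ 24 = (2 ^ 40 * x + (e0 : ℝ)) *
          (2 ^ 24 * Real.exp (Real.pi * (31 / 25) * ((w : ℝ) / 256))) := by ring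
    _ ≤ ((r : ℝ) + e0) * (2 ^ 24 * Real.exp (Real.pi * (31 / 25) * ((w : ℝ) / 256))) :=
        mul_le_mul_of_nonneg_right h1 h0
    _ ≤ ((r : ℝ) + e0) * EU := mul_le_mul_of_nonneg_left hE (by positivity)

/-- the bound of the slope term -/
theorem g7_slope (w B : ℕ) : ((w * B * 33462733507 / 2 ^ 40 : ℕ) : ℝ) ≤
    2 * Real.pi * (31 / 25) * ((w : ℝ) / 256) * (B : ℝ) := by
  refine le_trans Nat.cast_div_le ?_
  push_cast
  have hpi : 3.14159265358979323846 < Real.pi := Real.pi_gt_d20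
  have hB : (0 : ℝ) ≤ (w : ℝ) * B := by positivity
  have e1 : 2 * Real.pi * (31 / 25) * ((w : ℝ) / 256) * (B : ℝ) =
      ((w : ℝ) * B) * (2 * Real.pi * (31 / 25) / 256) := by ring
  rw [e1, mul_div_assoc]
  apply mul_le_mul_of_nonneg_left _ hB
  norm_num
  linarith

theorem leafA_sound (hcell : CellA) (htab : TabsOK) (hRB : RBle) (hch : ChdOK) (hTd : TdOK)
    (hspec : ∀ (z j J : ℕ) (v0 v1 v2 v3 v4 v5 : W), tA z j J v0 v1 v2 v3 v4 v5 = true →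
      ∃ (a b : Fin 25 → ℕ) (τ : ℕ), TDA j J ![v0, v1, v2, v3, v4, v5] a b τ) : StepOK tA := by
  intro z j J v0 v1 v2 v3 v4 v5 c0 c1 c2 c3 c4 c5 hjJ hJ h hg
  obtain ⟨hA, -, hE⟩ := htab
  obtain ⟨a, b, τ, td⟩ := hspec z j J v0 v1 v2 v3 v4 v5 h
  intro l hl hPD hrad hrad2
  have he0 : (0 : ℝ) ≤ (e9 j : ℝ) / 2 ^ 40 := by positivity
  have hs : sc J - sc j = ((J - j : ℕ) : ℝ) / 256 := by
    unfold sc
    rw [Nat.cast_sub (by omega)]
    ring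
  have hlt : sc j < sc J := by
    have h1 : (1 : ℝ) ≤ ((J - j : ℕ) : ℝ) := by
      have : 1 ≤ J - j := by omega
      exact_mod_cast this
    have h2 : 0 < ((J - j : ℕ) : ℝ) / 256 := by positivity
    linarith
  have hRB1 : ∀ k ≤ 563, 2 ^ 40 * RB (sc k) ≤ (rent tabA k : ℝ) := fun k hk =>
    (mul_le_mul_of_nonneg_left (hRB _ (g7_sc1 k)) (by norm_num)).trans (hA k hk)
  have hcase := hcell (fun s => RB s + (e9 j : ℝ) / 2 ^ 40) (hch _ he0).1 (fun z => (a z : ℝ))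
    (fun z => (b z : ℝ)) ![v0, v1, v2, v3, v4, v5] (sc j) (sc J) ((τ : ℝ) / 2 ^ 20)
    ((rent tabA j + e9 j : ℕ) : ℝ)
    (((rent tabA J + e9 j) * rent tabE (J - j) / 2 ^ 24 + 1 : ℕ) : ℝ) td.line
    (fun z => Nat.cast_nonneg _) (g7_val v0 v1 v2 v3 v4 v5 c0 c1 c2 c3 c4 c5) (g7_sc1 j) hlt
    (by positivity) ?_ ?_ ?_ ?_ ?_ l hl hPD hrad
  · rcases hcase with h1 | h1
    · left
      have h2 := hTd _ hPD ((g7_sc1 j).trans hrad)
      have h3 := g7_ee j _ hrad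
      have h1' : RB (rad (∑ i, l i • wv ((![v0, v1, v2, v3, v4, v5] : Fin 6 → W) i))) +
        (e9 j : ℝ) / 2 ^ 40 ≤ Th (∑ i, l i • wv ((![v0, v1, v2, v3, v4, v5] : Fin 6 → W) i)) := h1
      linarith
    · rcases hg with hg | hg
      · exfalso
        have h2 : sc J = 819 / 256 := by
          rw [hg]
          unfold sc
          norm_num
        rw [h2] at h1
        exact absurd hrad2 (not_le.2 h1)
      · exact hg l hl hPD h1.le hrad2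
  · intro i
    have h1 := td.vert i
    have h2 : (τ : ℝ) / 2 ^ 20 * ((![v0, v1, v2, v3, v4, v5] : Fin 6 → W) i).g =
        ((τ : ℝ) * ((![v0, v1, v2, v3, v4, v5] : Fin 6 → W) i).g) / 1048576 := by ring
    rw [h2, le_div_iff₀ (by norm_num)]
    linarith
  · have h1 := hRB1 j (by omega)
    push_cast
    show 2 ^ 40 * (RB (sc j) + (e9 j : ℝ) / 2 ^ 40) ≤ (rent tabA j : ℝ) + e9 j
    have h2 : 2 ^ 40 * (RB (sc j) + (e9 j : ℝ) / 2 ^ 40) = 2 ^ 40 * RB (sc j) + e9 j := by ring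
    rw [h2]
    linarith
  · have h1 := g7_pi τ (256 + j) (2 * ∑ z, a z) (rent tabA j + e9 j) td.pos (by omega) td.h1
    rw [g7_sc]
    push_cast at h1 ⊢
    exact h1
  · rw [hs]
    exact g7_r2 _ _ _ _ _ (hRB1 J hJ) (hE (J - j) (by omega))
  · have h1 := g7_pi τ (256 + J) (2 * ∑ z, a z + (J - j) * (∑ z, b z) * 33462733507 / 2 ^ 40)
      ((rent tabA J + e9 j) * rent tabE (J - j) / 2 ^ 24 + 1) td.pos (by omega) td.h3
    have hb := g7_slope (J - j) (∑ z, b z)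
    rw [hs, g7_sc J]
    have h2 : ((2 * ∑ z, a z + (J - j) * (∑ z, b z) * 33462733507 / 2 ^ 40 : ℕ) : ℝ) =
      2 * ∑ z, (a z : ℝ) + (((J - j) * (∑ z, b z) * 33462733507 / 2 ^ 40 : ℕ) : ℝ) := by
      rw [Nat.cast_add (2 * ∑ z, a z), Nat.cast_mul, Nat.cast_sum]
      norm_num
    have h3 : ((∑ z, b z : ℕ) : ℝ) = ∑ z, (b z : ℝ) := Nat.cast_sum _ _
    rw [h2] at h1
    rw [h3] at hb
    linarith

theorem leafU_sound (hcell : CellU) (htab : TabsOK) (hRB : RBle) (hch : ChdOK)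
    (hspec : ∀ (z j J : ℕ) (v0 v1 v2 v3 v4 v5 : W), Val v0 → Val v1 → Val v2 → Val v3 → Val v4 →
      Val v5 → tU z j J v0 v1 v2 v3 v4 v5 = true →
      ∃ (a b a' b' : Fin 25 → ℕ) (τ : ℕ), TDU j J ![v0, v1, v2, v3, v4, v5] a b a' b' τ) :
    StepOK tU := by
  intro z j J v0 v1 v2 v3 v4 v5 c0 c1 c2 c3 c4 c5 hjJ hJ h hg
  obtain ⟨-, hU, hE⟩ := htab
  obtain ⟨a, b, a', b', τ, td⟩ := hspec z j J v0 v1 v2 v3 v4 v5 c0 c1 c2 c3 c4 c5 h
  intro l hl hPD hrad hrad2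
  have he0 : (0 : ℝ) ≤ (e9 j : ℝ) / 2 ^ 40 := by positivity
  have hs : sc J - sc j = ((J - j : ℕ) : ℝ) / 256 := by
    unfold sc
    rw [Nat.cast_sub (by omega)]
    ring
  have hlt : sc j < sc J := by
    have h1 : (1 : ℝ) ≤ ((J - j : ℕ) : ℝ) := by
      have : 1 ≤ J - j := by omega
      exact_mod_cast this
    have h2 : 0 < ((J - j : ℕ) : ℝ) / 256 := by positivity
    linarith
  have hRU1 : ∀ k ≤ 563, 2 ^ 40 * (RF (sc k) + RB (sc k)) ≤ (rent tabU k : ℝ) := fun k hk =>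
    (mul_le_mul_of_nonneg_left
      (add_le_add (Pool.Agent.H999.Theta3.RF_le _ (g7_sc1 k)) (hRB _ (g7_sc1 k)))
      (by norm_num)).trans (hU k hk)
  have hcase := hcell (fun s => RF s + RB s + (e9 j : ℝ) / 2 ^ 40) (hch _ he0).2
    (fun z => (a z : ℝ)) (fun z => (b z : ℝ)) (fun z => (a' z : ℝ)) (fun z => (b' z : ℝ))
    ![v0, v1, v2, v3, v4, v5] (sc j) (sc J) ((τ : ℝ) / 2 ^ 20)
    ((rent tabU j + e9 j : ℕ) : ℝ)
    (((rent tabU J + e9 j) * rent tabE (J - j) / 2 ^ 24 + 1 : ℕ) : ℝ) td.line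
    (fun z => Nat.cast_nonneg _) td.line' (fun z => Nat.cast_nonneg _)
    (g7_val v0 v1 v2 v3 v4 v5 c0 c1 c2 c3 c4 c5) (g7_sc1 j) hlt
    (by positivity) ?_ ?_ ?_ ?_ ?_ ?_ l hl hPD hrad
  · rcases hcase with h1 | h1
    · left
      have h3 := g7_ee j _ hrad
      have h1' : RF (rad (∑ i, l i • wv ((![v0, v1, v2, v3, v4, v5] : Fin 6 → W) i))) +
        RB (rad (∑ i, l i • wv ((![v0, v1, v2, v3, v4, v5] : Fin 6 → W) i))) +
        (e9 j : ℝ) / 2 ^ 40 ≤ Th (∑ i, l i • wv ((![v0, v1, v2, v3, v4, v5] : Fin 6 → W) i)) +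
          Td (∑ i, l i • wv ((![v0, v1, v2, v3, v4, v5] : Fin 6 → W) i)) := h1
      linarith
    · rcases hg with hg | hg
      · exfalso
        have h2 : sc J = 819 / 256 := by
          rw [hg]
          unfold sc
          norm_num
        rw [h2] at h1
        exact absurd hrad2 (not_le.2 h1)
      · exact hg l hl hPD h1.le hrad2
  · intro i
    have h1 := td.vert i
    have h2 : 2 * ((τ : ℝ) / 2 ^ 20) * ((![v0, v1, v2, v3, v4, v5] : Fin 6 → W) i).g =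
        (2 * (τ : ℝ) * ((![v0, v1, v2, v3, v4, v5] : Fin 6 → W) i).g) / 1048576 := by ring
    rw [h2, le_div_iff₀ (by norm_num)]
    linarith
  · intro i k
    have h1 := td.pair i k
    have h2 : 2 * ((τ : ℝ) / 2 ^ 20) * ((![v0, v1, v2, v3, v4, v5] : Fin 6 → W) i).g *
        ((![v0, v1, v2, v3, v4, v5] : Fin 6 → W) k).g =
        (2 * (τ : ℝ) * ((![v0, v1, v2, v3, v4, v5] : Fin 6 → W) i).g *
          ((![v0, v1, v2, v3, v4, v5] : Fin 6 → W) k).g) / 1048576 := by ring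
    rw [h2, le_div_iff₀ (by norm_num)]
    linarith
  · have h1 := hRU1 j (by omega)
    push_cast
    show 2 ^ 40 * (RF (sc j) + RB (sc j) + (e9 j : ℝ) / 2 ^ 40) ≤ (rent tabU j : ℝ) + e9 j
    have h2 : 2 ^ 40 * (RF (sc j) + RB (sc j) + (e9 j : ℝ) / 2 ^ 40) =
      2 ^ 40 * (RF (sc j) + RB (sc j)) + e9 j := by ring
    rw [h2]
    linarith
  · have h1 := g7_pi τ (256 + j) (2 * (∑ z, a z + ∑ z, a' z)) (rent tabU j + e9 j) td.pos
      (by omega) td.h1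
    rw [g7_sc]
    push_cast at h1 ⊢
    exact h1
  · rw [hs]
    exact g7_r2 _ _ _ _ _ (hRU1 J hJ) (hE (J - j) (by omega))
  · have h1 := g7_pi τ (256 + J) (2 * (∑ z, a z + ∑ z, a' z) +
      (J - j) * (∑ z, b z + ∑ z, b' z) * 33462733507 / 2 ^ 40)
      ((rent tabU J + e9 j) * rent tabE (J - j) / 2 ^ 24 + 1) td.pos (by omega) td.h3
    have hb := g7_slope (J - j) (∑ z, b z + ∑ z, b' z)
    rw [hs, g7_sc J]
    have h2 : ((2 * (∑ z, a z + ∑ z, a' z) +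
        (J - j) * (∑ z, b z + ∑ z, b' z) * 33462733507 / 2 ^ 40 : ℕ) : ℝ) =
      2 * (∑ z, (a z : ℝ) + ∑ z, (a' z : ℝ)) +
        (((J - j) * (∑ z, b z + ∑ z, b' z) * 33462733507 / 2 ^ 40 : ℕ) : ℝ) := by
      rw [Nat.cast_add (2 * (∑ z, a z + ∑ z, a' z)), Nat.cast_mul, Nat.cast_add (∑ z, a z),
        Nat.cast_sum, Nat.cast_sum]
      norm_num
    have h3 : ((∑ z, b z + ∑ z, b' z : ℕ) : ℝ) = ∑ z, (b z : ℝ) + ∑ z, (b' z : ℝ) := by
      rw [Nat.cast_add, Nat.cast_sum, Nat.cast_sum]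
    rw [h2] at h1
    rw [h3] at hb
    linarith

end Pool.Agent.H999.Ep3
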