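import Pool.Agent.H999.Ep3.Base

set_option autoImplicit false
set_option linter.unusedSimpArgs false
set_option linter.unusedVariables false

open Matrix

namespace Pool.Agent.H999.Ep3

open Pool.Agent.K1H99.FCC (N0 rv nsq qf af dt PD rad Fp Qm pp tot al be sd)
open Pool.Agent.H999.Theta3 (W Th RF RB Bp bb tF InF InB2 InB sc wv Val ZZ Line psi dx inF inB2 leafB
  rent lo RFb frc frz detN mid vt)

/-- the weights of the field number `0` -/
def g3_v0 : Fin 25 → ℕ :=
  ![0, 0, 0, 1, 1, 1, 1, 1, 1, 0, 0, 0, 1, 1, 1, 1, 1, 1, 4, 4, 4, 1, 1, 4, 4]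

/-- the weights of the field number `1` -/
def g3_v1 : Fin 25 → ℕ :=
  ![0, 1, 1, 1, 0, 0, 1, 1, 1, 1, 1, 4, 4, 4, 0, 0, 1, 1, 1, 1, 0, 4, 4, 1, 1]

/-- the weights of the field number `2` -/
def g3_v2 : Fin 25 → ℕ :=
  ![1, 1, 0, 0, 1, 0, 1, 1, 1, 4, 1, 1, 0, 1, 4, 1, 4, 0, 1, 0, 1, 4, 1, 4, 1]

/-- the weights of the field number `3` -/
def g3_v3 : Fin 25 → ℕ :=
  ![0, 1, 1, 0, 1, 1, 0, 0, 4, 1, 1, 4, 1, 1, 1, 1, 4, 4, 1, 1, 4, 9, 9, 9, 9]

/-- the weights of the field number `4` -/
def g3_v4 : Fin 25 → ℕ :=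
  ![1, 1, 0, 1, 0, 1, 0, 4, 0, 4, 1, 1, 1, 4, 1, 4, 1, 1, 1, 4, 1, 1, 0, 0, 1]

/-- the weights of the field number `5` -/
def g3_v5 : Fin 25 → ℕ :=
  ![1, 0, 1, 1, 1, 0, 4, 0, 0, 1, 4, 1, 4, 1, 4, 1, 1, 1, 4, 1, 1, 0, 1, 1, 0]

/-- the weights of the field number `6` -/
def g3_v6 : Fin 25 → ℕ :=
  ![1, 0, 1, 0, 0, 1, 1, 1, 1, 1, 4, 1, 1, 0, 1, 4, 0, 4, 0, 1, 1, 1, 4, 1, 4]

/-- the weights of the field number `7` -/
def g3_v7 : Fin 25 → ℕ :=
  ![1, 1, 1, 1, 1, 1, 1, 1, 1, 1, 1, 1, 1, 1, 1, 1, 1, 1, 1, 1, 1, 1, 1, 1, 1]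

/-- the weights -/
def g3_cf : Fin 8 → Fin 25 → ℕ := ![g3_v0, g3_v1, g3_v2, g3_v3, g3_v4, g3_v5, g3_v6, g3_v7]

/-- the packed weights -/
def g3_M : Fin 25 → ℕ :=
  ![528294531135665246352339784916516606520399844128422231063109688515136405111986307932151574694014881104306146237268412201528404470859010781743924190173406806866884769247814993521398169025071290262308267700567776074695221280248976737172750312158489196218044743505936384000,
    528294531135665246352339784916516606518847326036121522127960709026673902556724859474417255887657187894674394993257142086690277502099785111275537184309067095676213472786862020009215339584070319795532394485272218679440107579019427575710129099477605810896084436519632240640,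
    528294531135665246352339784916516606520399844128422231063109688515136405111986307932151574694014881104306146237268398793720474528261911207718925984327279366903070373248916482238994547404655021679278647054400081695989950485424653895402805673822306558569529716003559178240,
    528294531135665246352339784916516606518847326036121522127960709026673902556729421915034878082875829066280095284582035315197526062030364303793436459476275733660713189203700179129953881750030109007311723487230730745573970985929470439417785014245147151472942496170758897665,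
    528294531135665246352339784916516606518847326036121522127960709026673902556729421915034878082875829066280095284582021907389596119433264729768438253630148293696898793204801667847550260129613840655866281315695427214010670208480963303507244973348215665812846269631104548865,
    528294531135665246352339784916516606520399844128422231063109688515136405111981745491533952498796239932700445945943518973021155910928431589226024915006198168882385052830976834400659626859111500818944760223976873161419387855963118166925125066109819776726018668028550447105,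
    528294531135665246352339784916516606520399844128422231063109688515136405111999995254004441279670804619123247111243078479242220208053648785272623809828905359660581915288389384159290374189761999937263531940433735485262289232349956894026934909219696507961721539865438322689,
    528294531135665246352339784916516606520399844128422231063109688515136405111981745491533952498796239932700445945943559196444945738719730311301019532544580567577840633616630792805950692007587916495927984618740901346980038714503813981477341946053503234441175777692476243969,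
    528294531135665246352339784916516606520399844128422231063109688515136405111981745491533952498796239932700445945943505565213225968331332015201026709160070807722583049621036747676336205525922842626977858983334905526442895569958154026116372587587274987823953269608413134849,
    528294531135665246352339784916516606520399844128422231063109688515136405111986307932151574694014881104306146237268452424952194298650309503818918807711789284366352742822427376484769434460775316330354211500857531003984650647609031252686159351915810502679651482252102074368,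
    528294531135665246352339784916516606525057398405324357868556626980523912777770653305354531113087960733201399969302222546042785377136687793149085207766426098046923444208590763174107057922529421981592969208241120053634179366824710211764189074949912745699987320703882887168,
    528294531135665246352339784916516606520399844128422231063109688515136405111986307932151574694014881104306146237268412201528404470859010781743924190173406964474909554825731842637558569599526510581265349562354447867868838263136062727376325436907262589734106399744970457088,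
    528294531135665246352339784916516606520399844128422231063109688515136405111999995254004441279670804619123247111243091887050150150650748359297622015675032878428408704076246319999774196097405878448187515042862374913412398501242007025039262512491014690379848594524609708033,
    528294531135665246352339784916516606518847326036121522127960709026673902556729421915034878082875829066280095284582075538621315889821663025868431077014658211160181162778312562093325147185734134843773488812888094827721430335913709249071789456563217305946130433954201731073,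
    528294531135665246352339784916516606520399844128422231063109688515136405111999995254004441279670804619123247111243091887050150150650748359297622015675032878428408704076246319999774196097405878911355871992127156607696338535993638436758071707369516994356686196450055421953,
    528294531135665246352339784916516606525057398405324357868556626980523912777756965983501664527432037218384299095327583083944829525136248937670381999803182503984867482954771819659102296285898859400591308716971494449922491478440103027011711985654329327096203391642393116673,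
    528294531135665246352339784916516606518847326036121522127960709026673902556729421915034878082875829066280095284582035315197526062030364303793436459476275891268737974781617028246114282324485329789437162298282184233031528003568187841340169333872422848965841754335238684673,
    528294531135665246352339784916516606525057398405324357868556626980523912777756965983501664527432037218384299095327542860521039697344950215595387382264800184093424294958076285811891431424650053883086625253100802160948649111342950207561282668085032566139077110097984356353,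
    528294531135665246352339784916516606518847326036121522127960709026673902556743109236887744668531752581097196158556715000719271741822101881347134284977901805222237124032131505608329908822364697424775149304157720431433118224298316432463137078175046870696415933288618655748,
    528294531135665246352339784916516606520399844128422231063109688515136405111986307932151574694014881104306146237268452424952194298650309503818918807711789284366352742822427376484769434460775315867185854551592749309700710612857399839606220689353554344849315450599583514628,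
    528294531135665246352339784916516606520399844128422231063109688515136405111986307932151574694014881104306146237268412201528404470859010781743924190173406964474909554825731842637558569599526510581265349562354447867868838263136062726015195969223508735880607970017897611268,
    528294531135665246352339784916516606520399844128422231063109688515136405111981745491533952498796239932700445945943518973021155910928431589226024915006198484098434623986810532632980428008021941920027280896814998442050561856488921559051084510485868867734979582432064307201,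
    528294531135665246352339784916516606525057398405324357868556626980523912777756965983501664527432037218384299095327529452713109754747850641570389176418672901737634684537094623645648210378689005850598264943352170422558965316781529061854317751936874473995042539797364080641,
    528294531135665246352339784916516606520399844128422231063109688515136405111986307932151574694014881104306146237268398793720474528261911207718925984327279682119119944404750180471315348553565462780361167727238206976621124485950457286167635650514601795724992200680000192516,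
    528294531135665246352339784916516606525057398405324357868556626980523912777752403542884042332213396046778598804002649632013791137414371023077488107097591703716949364119154975807313289833145484990264378112928961887988402687319993332696072410382510765224782276958818926596]

theorem g3_M_eq : ∀ z, g3_M z = g3_cf 0 z + 2 ^ 128 * (g3_cf 1 z + 2 ^ 128 * (g3_cf 2 z +
    2 ^ 128 * (g3_cf 3 z + 2 ^ 128 * (g3_cf 4 z + 2 ^ 128 * (g3_cf 5 z + 2 ^ 128 * (g3_cf 6 z +
      2 ^ 128 * g3_cf 7 z)))))) := by
  decide +kernel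

theorem g3_c0 : ∀ z, (YY z 0) ^ 2 = (g3_cf 0 z : ℤ) := by decide

theorem g3_c1 : ∀ z, (YY z 1) ^ 2 = (g3_cf 1 z : ℤ) := by decide

theorem g3_c2 : ∀ z, (YY z 2) ^ 2 = (g3_cf 2 z : ℤ) := by decide

theorem g3_c3 : ∀ z, (YY z 0 + YY z 1) ^ 2 = (g3_cf 3 z : ℤ) := by decide

theorem g3_c4 : ∀ z, (YY z 0 + YY z 2) ^ 2 = (g3_cf 4 z : ℤ) := by decide

theorem g3_c5 : ∀ z, (YY z 1 + YY z 2) ^ 2 = (g3_cf 5 z : ℤ) := by decide

theorem g3_c6 : ∀ z, (YY z 0 + YY z 1 + YY z 2) ^ 2 = (g3_cf 6 z : ℤ) := by decide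

theorem g3_c7 : ∀ z, g3_cf 7 z = 1 := by decide

theorem g3_csum : ∀ k, ∑ z, g3_cf k z ≤ 127 := by decide

theorem g3_cons {n : ℕ} {P : ℕ → Prop} {x : ℕ} {f : Fin n → ℕ} (h : P x) (h' : ∀ z, P (f z)) :
    ∀ z, P (Matrix.vecCons x f z) := Fin.cases h h'

theorem g3_sumw {n : ℕ} (x y : ℕ) (f g : Fin n → ℕ) :
    ∑ i, Matrix.vecCons x f i * Matrix.vecCons y g i = x * y + ∑ i, f i * g i := by
  rw [Fin.sum_univ_succ]
  rfl

/-- an entry of the table -/
def g3_E (e : ℕ) : Prop :=
  Line ((e / 2 ^ 48 : ℕ) : ℝ) ((e % 2 ^ 48 : ℕ) : ℝ) ∧ e / 2 ^ 48 ≤ 2 ^ 41 ∧ e % 2 ^ 48 ≤ 2 ^ 41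

theorem g3_E0 : g3_E 0 := by
  refine ⟨fun x => ?_, by simp, by simp⟩
  have := Real.exp_pos (-x)
  rw [Nat.zero_div, Nat.zero_mod]
  push_cast
  linarith [mul_pos (show (0 : ℝ) < 2 ^ 40 by norm_num) this]

theorem g3_split (E c R : Fin 25 → ℕ) : ∑ z, E z * (c z + 2 ^ 128 * R z) =
    ∑ z, c z * E z + 2 ^ 128 * ∑ z, E z * R z := by
  rw [Finset.mul_sum, ← Finset.sum_add_distrib]
  exact Finset.sum_congr rfl fun z _ => by ring

theorem g3_lo (x : ℕ) : lo x = x % 2 ^ 48 := by
  have h := Nat.and_two_pow_sub_one_eq_mod x 48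
  have h2 : 2 ^ 48 - 1 = 281474976710655 := by norm_num
  rw [h2] at h
  exact h

theorem g3_shr (x n : ℕ) : Nat.shiftRight x n = x / 2 ^ n := Nat.shiftRight_eq_div_pow x n

theorem g3_fld (Y k : ℕ) : fld Y (k + 1) = fld Y k / 2 ^ 128 := by
  unfold fld
  rw [g3_shr, g3_shr, Nat.div_div_eq_div_mul, ← pow_add]
  rfl

theorem g3_fld0 (Y : ℕ) : fld Y 0 = Y := by
  unfold fld
  rw [g3_shr]
  simp

theorem g3_div {f R : ℕ} (hf : f < 2 ^ 128) : (f + 2 ^ 128 * R) / 2 ^ 128 = R := by
  rw [Nat.add_mul_div_left _ _ (by positivity), Nat.div_eq_of_lt hf, zero_add]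

theorem g3_mod {f A B R : ℕ} (hf : f = 2 ^ 48 * A + B) (hB : B < 2 ^ 48) :
    lo (f + 2 ^ 128 * R) = B := by
  rw [g3_lo, hf]
  omega

theorem g3_qe (v w : W) (z : Fin 25) : qe (wv v) (wv w) (rv (YY z)) =
    (g3_cf 0 z : ℝ) * ((v.b : ℝ) * w.c + v.c * w.b + (v.b * w.f + v.f * w.b) + (v.c * w.f + v.f * w.c)) +
    (g3_cf 1 z : ℝ) * ((v.a : ℝ) * w.c + v.c * w.a + (v.a * w.e + v.e * w.a) + (v.c * w.e + v.e * w.c)) +
    (g3_cf 2 z : ℝ) * ((v.a : ℝ) * w.b + v.b * w.a + (v.a * w.d + v.d * w.a) + (v.b * w.d + v.d * w.b)) +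
    (g3_cf 3 z : ℝ) * ((v.c : ℝ) * w.d + v.d * w.c) + (g3_cf 4 z : ℝ) * ((v.b : ℝ) * w.e + v.e * w.b) +
    (g3_cf 5 z : ℝ) * ((v.a : ℝ) * w.f + v.f * w.a) +
    (g3_cf 6 z : ℝ) * ((v.d : ℝ) * w.e + v.e * w.d + (v.d * w.f + v.f * w.d) + (v.e * w.f + v.f * w.e)) := by
  have e0 : ((YY z 0 : ℤ) : ℝ) ^ 2 = (g3_cf 0 z : ℝ) := by exact_mod_cast g3_c0 z
  have e1 : ((YY z 1 : ℤ) : ℝ) ^ 2 = (g3_cf 1 z : ℝ) := by exact_mod_cast g3_c1 z
  have e2 : ((YY z 2 : ℤ) : ℝ) ^ 2 = (g3_cf 2 z : ℝ) := by exact_mod_cast g3_c2 z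
  have e3 : (((YY z 0 : ℤ) : ℝ) + ((YY z 1 : ℤ) : ℝ)) ^ 2 = (g3_cf 3 z : ℝ) := by
    exact_mod_cast g3_c3 z
  have e4 : (((YY z 0 : ℤ) : ℝ) + ((YY z 2 : ℤ) : ℝ)) ^ 2 = (g3_cf 4 z : ℝ) := by
    exact_mod_cast g3_c4 z
  have e5 : (((YY z 1 : ℤ) : ℝ) + ((YY z 2 : ℤ) : ℝ)) ^ 2 = (g3_cf 5 z : ℝ) := by
    exact_mod_cast g3_c5 z
  have e6 : (((YY z 0 : ℤ) : ℝ) + ((YY z 1 : ℤ) : ℝ) + ((YY z 2 : ℤ) : ℝ)) ^ 2 = (g3_cf 6 z : ℝ) := by
    exact_mod_cast g3_c6 z
  rw [← e0, ← e1, ← e2, ← e3, ← e4, ← e5, ← e6]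
  unfold qe af
  simp only [Pi.add_apply, rv]
  have a0 : ∀ u : W, wv u 0 = (u.a : ℝ) := fun _ => rfl
  have a1 : ∀ u : W, wv u 1 = (u.b : ℝ) := fun _ => rfl
  have a2 : ∀ u : W, wv u 2 = (u.c : ℝ) := fun _ => rfl
  have a3 : ∀ u : W, wv u 3 = (u.d : ℝ) := fun _ => rfl
  have a4 : ∀ u : W, wv u 4 = (u.e : ℝ) := fun _ => rfl
  have a5 : ∀ u : W, wv u 5 = (u.f : ℝ) := fun _ => rfl
  simp only [a0, a1, a2, a3, a4, a5]
  ring

theorem g3_core (E : Fin 25 → ℕ) (hE : ∀ z, g3_E (E z)) {Y : ℕ} (hY : Y = ∑ z, E z * g3_M z) :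
    ∃ a b : Fin 25 → ℕ,
      (∀ z, Line (a z) (b z)) ∧ Nat.shiftRight Y 944 = ∑ z, a z ∧ ∑ z, a z ≤ 2 ^ 46 ∧
      lo (fld Y 7) = ∑ z, b z ∧
      ∀ v w : W, ∑ z, (b z : ℝ) * qe (wv v) (wv w) (rv (YY z)) =
        ((bf (lo Y) (lo (fld Y 1)) (lo (fld Y 2)) (lo (fld Y 3)) (lo (fld Y 4)) (lo (fld Y 5))
          (lo (fld Y 6)) v w : ℕ) : ℝ) := by
  -- the two halves of the entries
  obtain ⟨a, ha⟩ : ∃ a : Fin 25 → ℕ, ∀ z, a z = E z / 2 ^ 48 := ⟨_, fun _ => rfl⟩
  obtain ⟨b, hb⟩ : ∃ b : Fin 25 → ℕ, ∀ z, b z = E z % 2 ^ 48 := ⟨_, fun _ => rfl⟩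
  have hab : ∀ z, E z = 2 ^ 48 * a z + b z := by
    intro z
    rw [ha, hb]
    exact (Nat.div_add_mod _ _).symm
  have ha1 : ∀ z, a z ≤ 2 ^ 41 := by intro z; rw [ha]; exact (hE z).2.1
  have hb1 : ∀ z, b z ≤ 2 ^ 41 := by intro z; rw [hb]; exact (hE z).2.2
  -- the fields
  obtain ⟨f, hf⟩ : ∃ f : Fin 8 → ℕ, ∀ k, f k = ∑ z, g3_cf k z * E z := ⟨_, fun _ => rfl⟩
  obtain ⟨A, hA⟩ : ∃ A : Fin 8 → ℕ, ∀ k, A k = ∑ z, g3_cf k z * a z := ⟨_, fun _ => rfl⟩
  obtain ⟨B, hB⟩ : ∃ B : Fin 8 → ℕ, ∀ k, B k = ∑ z, g3_cf k z * b z := ⟨_, fun _ => rfl⟩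
  have hfAB : ∀ k, f k = 2 ^ 48 * A k + B k := by
    intro k
    rw [hf, hA, hB, Finset.mul_sum, ← Finset.sum_add_distrib]
    refine Finset.sum_congr rfl fun z _ => ?_
    rw [hab z]; ring
  have hAB : ∀ (u : Fin 25 → ℕ) (k : Fin 8), (∀ z, u z ≤ 2 ^ 41) →
      ∑ z, g3_cf k z * u z < 2 ^ 48 := by
    intro u k hu
    have h1 : ∑ z, g3_cf k z * u z ≤ ∑ z, g3_cf k z * 2 ^ 41 :=
      Finset.sum_le_sum fun z _ => Nat.mul_le_mul_left _ (hu z)
    rw [← Finset.sum_mul] at h1
    have h2 := Nat.mul_le_mul_right (2 ^ 41) (g3_csum k)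
    exact lt_of_le_of_lt (h1.trans h2) (by norm_num)
  have hA1 : ∀ k, A k < 2 ^ 48 := fun k => by rw [hA]; exact hAB a k ha1
  have hB1 : ∀ k, B k < 2 ^ 48 := fun k => by rw [hB]; exact hAB b k hb1
  have hf1 : ∀ k, f k < 2 ^ 128 := by
    intro k
    have h1 := hA1 k
    have h2 := hB1 k
    rw [hfAB k]
    omega
  have hY' : Y = f 0 + 2 ^ 128 * (f 1 + 2 ^ 128 * (f 2 + 2 ^ 128 * (f 3 + 2 ^ 128 * (f 4 +
      2 ^ 128 * (f 5 + 2 ^ 128 * (f 6 + 2 ^ 128 * f 7)))))) := by
    rw [hY, Finset.sum_congr rfl fun z _ => by rw [g3_M_eq z]]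
    rw [g3_split, g3_split, g3_split, g3_split, g3_split, g3_split, g3_split,
      hf, hf, hf, hf, hf, hf, hf, hf]
    rw [Finset.sum_congr rfl fun z _ => mul_comm (E z) (g3_cf 7 z)]
  have h0 : fld Y 0 = f 0 + 2 ^ 128 * (f 1 + 2 ^ 128 * (f 2 + 2 ^ 128 * (f 3 + 2 ^ 128 * (f 4 +
      2 ^ 128 * (f 5 + 2 ^ 128 * (f 6 + 2 ^ 128 * f 7)))))) := by rw [g3_fld0]; exact hY'
  have h1 : fld Y 1 = f 1 + 2 ^ 128 * (f 2 + 2 ^ 128 * (f 3 + 2 ^ 128 * (f 4 +
      2 ^ 128 * (f 5 + 2 ^ 128 * (f 6 + 2 ^ 128 * f 7))))) := by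
    rw [g3_fld Y 0, h0, g3_div (hf1 0)]
  have h2 : fld Y 2 = f 2 + 2 ^ 128 * (f 3 + 2 ^ 128 * (f 4 +
      2 ^ 128 * (f 5 + 2 ^ 128 * (f 6 + 2 ^ 128 * f 7)))) := by
    rw [g3_fld Y 1, h1, g3_div (hf1 1)]
  have h3 : fld Y 3 = f 3 + 2 ^ 128 * (f 4 +
      2 ^ 128 * (f 5 + 2 ^ 128 * (f 6 + 2 ^ 128 * f 7))) := by
    rw [g3_fld Y 2, h2, g3_div (hf1 2)]
  have h4 : fld Y 4 = f 4 + 2 ^ 128 * (f 5 + 2 ^ 128 * (f 6 + 2 ^ 128 * f 7)) := by
    rw [g3_fld Y 3, h3, g3_div (hf1 3)]
  have h5 : fld Y 5 = f 5 + 2 ^ 128 * (f 6 + 2 ^ 128 * f 7) := by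
    rw [g3_fld Y 4, h4, g3_div (hf1 4)]
  have h6 : fld Y 6 = f 6 + 2 ^ 128 * f 7 := by
    rw [g3_fld Y 5, h5, g3_div (hf1 5)]
  have h7 : fld Y 7 = f 7 := by
    rw [g3_fld Y 6, h6, g3_div (hf1 6)]
  have h7' : fld Y 7 = f 7 + 2 ^ 128 * 0 := by rw [h7, mul_zero, add_zero]
  have hA7 : A 7 = ∑ z, a z := by
    rw [hA]; exact Finset.sum_congr rfl fun z _ => by rw [g3_c7, one_mul]
  have hB7 : B 7 = ∑ z, b z := by
    rw [hB]; exact Finset.sum_congr rfl fun z _ => by rw [g3_c7, one_mul]
  refine ⟨a, b, fun z => by rw [ha, hb]; exact (hE z).1, ?_, ?_, ?_, ?_⟩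
  · have e1 : Nat.shiftRight Y 944 = fld Y 7 / 2 ^ 48 := by
      unfold fld
      rw [g3_shr, g3_shr, Nat.div_div_eq_div_mul, ← pow_add]
    rw [e1, h7, ← hA7, hfAB 7]
    have := hB1 7
    omega
  · have h := Finset.sum_le_sum (s := Finset.univ) (fun z _ => ha1 z)
    rw [Finset.sum_const, Finset.card_univ, Fintype.card_fin] at h
    exact h.trans (by norm_num)
  · rw [h7', g3_mod (hfAB 7) (hB1 7), hB7]
  · intro v w
    have l0 : lo Y = B 0 := by
      rw [← g3_fld0 Y, h0, g3_mod (hfAB 0) (hB1 0)]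
    have l1 : lo (fld Y 1) = B 1 := by rw [h1, g3_mod (hfAB 1) (hB1 1)]
    have l2 : lo (fld Y 2) = B 2 := by rw [h2, g3_mod (hfAB 2) (hB1 2)]
    have l3 : lo (fld Y 3) = B 3 := by rw [h3, g3_mod (hfAB 3) (hB1 3)]
    have l4 : lo (fld Y 4) = B 4 := by rw [h4, g3_mod (hfAB 4) (hB1 4)]
    have l5 : lo (fld Y 5) = B 5 := by rw [h5, g3_mod (hfAB 5) (hB1 5)]
    have l6 : lo (fld Y 6) = B 6 := by rw [h6, g3_mod (hfAB 6) (hB1 6)]
    rw [l0, l1, l2, l3, l4, l5, l6]
    unfold bf
    push_cast
    have c : ∀ k, (B k : ℝ) = ∑ z, (g3_cf k z : ℝ) * (b z : ℝ) := by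
      intro k
      rw [hB, Nat.cast_sum]
      exact Finset.sum_congr rfl fun z _ => Nat.cast_mul _ _
    rw [c 0, c 1, c 2, c 3, c 4, c 5, c 6]
    simp only [Finset.sum_mul, ← Finset.sum_add_distrib]
    refine Finset.sum_congr rfl fun z _ => ?_
    rw [g3_qe]
    ring

theorem g3_10 (Q : ℕ) : sD10 Q = ∑ z, (![lk Q 37, lk Q 133, lk Q 229, lk Q 325, lk Q 421, lk Q 517, lk Q 613, lk Q 709, lk Q 805, lk Q 901, 0, 0, 0, 0, 0, 0, 0, 0, 0, 0, 0, 0, 0, 0, 0] : Fin 25 → ℕ) z * g3_M z := by
  unfold sD10 g3_M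
  simp only [g3_sumw, Fin.sum_univ_zero, Nat.add_eq, Nat.mul_eq, add_zero, zero_mul]

theorem g3_25 (Q : ℕ) : sD25 Q = ∑ z, (![lk Q 37, lk Q 133, lk Q 229, lk Q 325, lk Q 421, lk Q 517, lk Q 613, lk Q 709, lk Q 805, lk Q 901, lk Q 997, lk Q 1093, lk Q 1189, lk Q 1285, lk Q 1381, lk Q 1477, lk Q 1573, lk Q 1669, lk Q 1765, lk Q 1861, lk Q 1957, lk Q 2053, lk Q 2149, lk Q 2245, lk Q 2341] : Fin 25 → ℕ) z * g3_M z := by
  unfold sD25 g3_M
  simp only [g3_sumw, Fin.sum_univ_zero, Nat.add_eq, Nat.mul_eq, add_zero, zero_mul]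

/-- the meaning of the packed sums for the dual form -/
theorem sD_ok (hlk : LKok) : SDok := by
  intro Q Y hY
  rcases hY with hY | hY
  · exact g3_core _ (g3_cons (P := g3_E) (hlk Q 37) (g3_cons (P := g3_E) (hlk Q 133) (g3_cons (P := g3_E) (hlk Q 229) (g3_cons (P := g3_E) (hlk Q 325) (g3_cons (P := g3_E) (hlk Q 421) (g3_cons (P := g3_E) (hlk Q 517) (g3_cons (P := g3_E) (hlk Q 613) (g3_cons (P := g3_E) (hlk Q 709) (g3_cons (P := g3_E) (hlk Q 805) (g3_cons (P := g3_E) (hlk Q 901) (g3_cons (P := g3_E) g3_E0 (g3_cons (P := g3_E) g3_E0 (g3_cons (P := g3_E) g3_E0 (g3_cons (P := g3_E) g3_E0 (g3_cons (P := g3_E) g3_E0 (g3_cons (P := g3_E) g3_E0 (g3_cons (P := g3_E) g3_E0 (g3_cons (P := g3_E) g3_E0 (g3_cons (P := g3_E) g3_E0 (g3_cons (P := g3_E) g3_E0 (g3_cons (P := g3_E) g3_E0 (g3_cons (P := g3_E) g3_E0 (g3_cons (P := g3_E) g3_E0 (g3_cons (P := g3_E) g3_E0 (g3_cons (P := g3_E) g3_E0 (fun z => Fin.elim0 z)))))))))))))))))))))))))) (hY.trans (g3_10 Q))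
  · exact g3_core _ (g3_cons (P := g3_E) (hlk Q 37) (g3_cons (P := g3_E) (hlk Q 133) (g3_cons (P := g3_E) (hlk Q 229) (g3_cons (P := g3_E) (hlk Q 325) (g3_cons (P := g3_E) (hlk Q 421) (g3_cons (P := g3_E) (hlk Q 517) (g3_cons (P := g3_E) (hlk Q 613) (g3_cons (P := g3_E) (hlk Q 709) (g3_cons (P := g3_E) (hlk Q 805) (g3_cons (P := g3_E) (hlk Q 901) (g3_cons (P := g3_E) (hlk Q 997) (g3_cons (P := g3_E) (hlk Q 1093) (g3_cons (P := g3_E) (hlk Q 1189) (g3_cons (P := g3_E) (hlk Q 1285) (g3_cons (P := g3_E) (hlk Q 1381) (g3_cons (P := g3_E) (hlk Q 1477) (g3_cons (P := g3_E) (hlk Q 1573) (g3_cons (P := g3_E) (hlk Q 1669) (g3_cons (P := g3_E) (hlk Q 1765) (g3_cons (P := g3_E) (hlk Q 1861) (g3_cons (P := g3_E) (hlk Q 1957) (g3_cons (P := g3_E) (hlk Q 2053) (g3_cons (P := g3_E) (hlk Q 2149) (g3_cons (P := g3_E) (hlk Q 2245) (g3_cons (P := g3_E) (hlk Q 2341) (fun z => Fin.elim0 z)))))))))))))))))))))))))) (hY.trans (g3_25 Q))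

end Pool.Agent.H999.Ep3
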