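import Pool.Agent.H999.Ep3.Base

set_option autoImplicit false

open Matrix

namespace Pool.Agent.H999.Ep3

open Pool.Agent.K1H99.FCC (N0 rv nsq qf af dt PD rad Fp Qm pp tot al be sd)
open Pool.Agent.H999.Theta3 (W Th RF RB Bp bb tF InF InB2 InB sc wv Val ZZ Line psi dx inF inB2 leafB
  rent lo RFb frc frz detN mid vt)

def g2_v0 : Fin 25 → ℕ :=
  ![1, 0, 0, 1, 1, 0, 1, 4, 1, 1, 1, 1, 0, 1, 4, 4, 1, 4, 4, 1, 1, 0, 1, 1, 0]

def g2_v1 : Fin 25 → ℕ :=
  ![0, 1, 0, 1, 0, 1, 1, 1, 4, 1, 1, 0, 1, 4, 1, 4, 1, 1, 0, 1, 4, 4, 1, 0, 1]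

def g2_v2 : Fin 25 → ℕ :=
  ![0, 0, 1, 0, 1, 1, 1, 1, 1, 4, 0, 1, 1, 4, 4, 1, 1, 0, 1, 1, 0, 1, 1, 4, 4]

def g2_v3 : Fin 25 → ℕ :=
  ![1, 1, 0, 0, 1, 1, 0, 1, 1, 0, 4, 1, 1, 1, 1, 0, 4, 1, 4, 4, 1, 4, 0, 1, 1]

def g2_v4 : Fin 25 → ℕ :=
  ![1, 0, 1, 1, 0, 1, 0, 1, 0, 1, 1, 4, 1, 1, 0, 1, 4, 4, 1, 0, 1, 1, 4, 1, 4]

def g2_v5 : Fin 25 → ℕ :=
  ![0, 1, 1, 1, 1, 0, 0, 0, 1, 1, 1, 1, 4, 0, 1, 1, 0, 1, 1, 4, 4, 1, 4, 4, 1]

def g2_v6 : Fin 25 → ℕ :=
  ![1, 1, 1, 1, 1, 1, 1, 1, 1, 1, 1, 1, 1, 1, 1, 1, 1, 1, 1, 1, 1, 1, 1, 1, 1]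

def g2_cf : Fin 7 → Fin 25 → ℕ := ![g2_v0, g2_v1, g2_v2, g2_v3, g2_v4, g2_v5, g2_v6]

/-- the packed coefficient vectors -/
def g2_P : Fin 25 → ℕ :=
  ![1552518092300708935148979488462502555256886017116696611139052038026050952686390294138808351425746051975485936543258591973998368831971750231928109182685059765920527315765684757271359563211556428086728167342783300236480087130812448769,
    1552518092300708935148979488462502555261448457734318806357693209631751244011270114838126968759225670468387005864339789994683689249911398070263029728228580626254414146188893291841922192673092156564408775055270082079991135105821179904,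
    1552518092300708935148979488462502555261448457734318806357693209631751244011283522646056911356325244493385211710467229958498085248809909352666651348644849209284034792356587670547192987497414998334353413391452719728506162608198385664,
    1552518092300708935148979488462502555261448457734318806357693209631751244011283522646056911356325244493385211710467229958498085248809909352666651348644849093491945555040392246976207978809507145404651114671827143734296762126836957185,
    1552518092300708935148979488462502555261448457734318806357693209631751244011270114838126968759225670468387005864339789994683689249911398070263029728228580742046503383505088715412907201361000009494111073774895658074200535587182608385,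
    1552518092300708935148979488462502555256886017116696611139052038026050952686390294138808351425746051975485936543258591973998368831971750231928109182685059881712616553081880180842344571899464281696995199904285803157438702475710300160,
    1552518092300708935148979488462502555256886017116696611139052038026050952686376886330878408828646477950487730697131073206171580044114814391444287275041181254996544213337045329121250294319506298435530031755218971671851462198713909249,
    1552518092300708935148979488462502555256886017116696611139052038026050952686390294138808351425746051975485936543258591973998368831971750231928109182685059881712616553081880180842344571899464281696995199904285803157438702475710300164,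
    1552518092300708935148979488462502555261448457734318806357693209631751244011270114838126968759225670468387005864339789994683689249911398070263029728228580742046503383505088715412907201361000010855240541458649511927698965314255454209,
    1552518092300708935148979488462502555261448457734318806357693209631751244011283522646056911356325244493385211710467229958498085248809909352666651348644849556660302504305173941260148013561138558484589777234083301564632793779355516929,
    1552518092300708935148979488462502555261448457734318806357693209631751244011283522646056911356325244493385211710467387566522870826726758468827051923100069412449027416827064040149824961696593134247096771736846683396859988638798184449,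
    1552518092300708935148979488462502555261448457734318806357693209631751244011323746069846739147623966568379829248849707457966058823422292316037916784348874929953710880697756329123667328793745953697526089306143444353986270183206944769,
    1552518092300708935148979488462502555275135779587185392013616724448852117985963208167802591148062822047083037212093301520022020077241235831042678420979437510955371371967381932835355217178353138450003178601726862957770199244696715264,
    1552518092300708935148979488462502555256886017116696611139052038026050952686390294138808351425746051975485936543258591973998368831971750231928109182685060229088884265030466451555299597963187842527796297588793311920314548510403854337,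
    1552518092300708935148979488462502555261448457734318806357693209631751244011270114838126968759225670468387005864339789994683689249911398070263029728228581089422771095453674986125862227424723569644347437617526239910327166758339739652,
    1552518092300708935148979488462502555261448457734318806357693209631751244011283522646056911356325244493385211710467229958498085248809909352666651348644849209284034792356587670547192987497414999695482881075206573582004592335271231492,
    1552518092300708935148979488462502555256886017116696611139052038026050952686430517562598179217044774050480554081641148277478735195542557753379574905616695761860833572316384736005627404639338231481390704351486297614200423306699472897,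
    1552518092300708935148979488462502555261448457734318806357693209631751244011323746069846739147623966568379829248849707457966058823422292316037916784348874814161621643381560905552682320105838100767823790586517868359776869701845516292,
    1552518092300708935148979488462502555261448457734318806357693209631751244011283522646056911356325244493385211710467387566522870826726758468827051923100069528241116654143259463720809970384500987176799070456472259391069389120159612932,
    1552518092300708935148979488462502555275135779587185392013616724448852117985949800359872648550963248022084831365965940360220016867301149106719257087790779203196380894009218874287877922485481144030983667517679571134746185479661551617,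
    1552518092300708935148979488462502555275135779587185392013616724448852117985963208167802591148062822047083037212093301520022020077241235831042678420979437395163282134651186509264370208490445286200865613723978213890310013626871709697,
    1552518092300708935148979488462502555261448457734318806357693209631751244011283522646056911356325244493385211710467387566522870826726758468827051923100069528241116654143259463720809970384500988537928538140226113244567818847232458752,
    1552518092300708935148979488462502555275135779587185392013616724448852117986003431591592418939361544122077654750475700215477600862895194236333743569455853072146506529415214694825021067031141099391953025983907817751968693563724660737,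
    1552518092300708935148979488462502555275135779587185392013616724448852117985963208167802591148062822047083037212093301520022020077241235831042678420979437858331639083915968203548310243242076697919674808602480517867147615552317423617,
    1552518092300708935148979488462502555261448457734318806357693209631751244011323746069846739147623966568379829248849707457966058823422292316037916784348875277329978592646342599836622354857469513847762453148774026190112901354364076032]

theorem g2_c0 : ∀ z, (ZZ z 0) ^ 2 = (g2_cf 0 z : ℤ) := by decide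

theorem g2_c1 : ∀ z, (ZZ z 1) ^ 2 = (g2_cf 1 z : ℤ) := by decide

theorem g2_c2 : ∀ z, (ZZ z 2) ^ 2 = (g2_cf 2 z : ℤ) := by decide

theorem g2_c3 : ∀ z, (ZZ z 0 - ZZ z 1) ^ 2 = (g2_cf 3 z : ℤ) := by decide

theorem g2_c4 : ∀ z, (ZZ z 0 - ZZ z 2) ^ 2 = (g2_cf 4 z : ℤ) := by decide

theorem g2_c5 : ∀ z, (ZZ z 1 - ZZ z 2) ^ 2 = (g2_cf 5 z : ℤ) := by decide

theorem g2_csum : ∀ k, ∑ z, g2_cf k z ≤ 64 := by decide

theorem g2_qf (v : W) (z : Fin 25) : qf (wv v) (rv (ZZ z)) =
    (v.a : ℝ) * (g2_cf 0 z : ℝ) + ((v.b : ℝ) * (g2_cf 1 z : ℝ) + ((v.c : ℝ) * (g2_cf 2 z : ℝ) +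
      ((v.d : ℝ) * (g2_cf 3 z : ℝ) + ((v.e : ℝ) * (g2_cf 4 z : ℝ) + (v.f : ℝ) * (g2_cf 5 z : ℝ))))) := by
  have e0 : ((ZZ z 0 : ℤ) : ℝ) ^ 2 = (g2_cf 0 z : ℝ) := by exact_mod_cast g2_c0 z
  have e1 : ((ZZ z 1 : ℤ) : ℝ) ^ 2 = (g2_cf 1 z : ℝ) := by exact_mod_cast g2_c1 z
  have e2 : ((ZZ z 2 : ℤ) : ℝ) ^ 2 = (g2_cf 2 z : ℝ) := by exact_mod_cast g2_c2 z
  have e3 : (((ZZ z 0 : ℤ) : ℝ) - ((ZZ z 1 : ℤ) : ℝ)) ^ 2 = (g2_cf 3 z : ℝ) := by
    exact_mod_cast g2_c3 z
  have e4 : (((ZZ z 0 : ℤ) : ℝ) - ((ZZ z 2 : ℤ) : ℝ)) ^ 2 = (g2_cf 4 z : ℝ) := by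
    exact_mod_cast g2_c4 z
  have e5 : (((ZZ z 1 : ℤ) : ℝ) - ((ZZ z 2 : ℤ) : ℝ)) ^ 2 = (g2_cf 5 z : ℝ) := by
    exact_mod_cast g2_c5 z
  unfold qf rv
  show (v.a : ℝ) * _ + (v.b : ℝ) * _ + (v.c : ℝ) * _ + (v.d : ℝ) * _ + (v.e : ℝ) * _ +
    (v.f : ℝ) * _ = _
  rw [e0, e1, e2, e3, e4, e5]
  ring

theorem g2_P_eq : ∀ z, g2_P z = g2_cf 0 z + 2 ^ 128 * (g2_cf 1 z + 2 ^ 128 * (g2_cf 2 z +
    2 ^ 128 * (g2_cf 3 z + 2 ^ 128 * (g2_cf 4 z + 2 ^ 128 * (g2_cf 5 z + 2 ^ 128 * g2_cf 6 z))))) := by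
  decide

theorem g2_land48 (x : ℕ) : Nat.land x 281474976710655 = x % 2 ^ 48 :=
  Nat.and_two_pow_sub_one_eq_mod x 48

theorem g2_shr (x n : ℕ) : Nat.shiftRight x n = x / 2 ^ n := Nat.shiftRight_eq_div_pow x n

/-- one step of the Horner form -/
theorem g2_step {s t : ℕ} (hs : s < 2 ^ 128) : (s + 2 ^ 128 * t) / 2 ^ 128 = t := by
  rw [Nat.add_mul_div_left _ _ (Nat.two_pow_pos 128), Nat.div_eq_of_lt hs, zero_add]

/-- low bits of the Horner form -/
theorem g2_low (s t : ℕ) : (s + 2 ^ 128 * t) % 2 ^ 48 = s % 2 ^ 48 := by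
  have h : 2 ^ 128 * t = 2 ^ 48 * (2 ^ 80 * t) := by
    rw [← mul_assoc, ← pow_add]
  rw [h, Nat.add_mul_mod_self_left]

theorem g2_lo48 {S A B : ℕ} (h : S = 2 ^ 48 * A + B) (hB : B < 2 ^ 48) : S % 2 ^ 48 = B := by
  rw [h, Nat.mul_add_mod, Nat.mod_eq_of_lt hB]

theorem g2_hi48 {S A B : ℕ} (h : S = 2 ^ 48 * A + B) (hB : B < 2 ^ 48) : S / 2 ^ 48 = A := by
  rw [h, Nat.mul_add_div (Nat.two_pow_pos 48), Nat.div_eq_of_lt hB, add_zero]

theorem g2_unpack {X S0 S1 S2 S3 S4 S5 S6 : ℕ}
    (hX : X = S0 + 2 ^ 128 * (S1 + 2 ^ 128 * (S2 + 2 ^ 128 * (S3 + 2 ^ 128 * (S4 + 2 ^ 128 *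
      (S5 + 2 ^ 128 * S6))))))
    (h0 : S0 < 2 ^ 128) (h1 : S1 < 2 ^ 128) (h2 : S2 < 2 ^ 128) (h3 : S3 < 2 ^ 128)
    (h4 : S4 < 2 ^ 128) (h5 : S5 < 2 ^ 128) :
    lo X = S0 % 2 ^ 48 ∧ lo (fld X 1) = S1 % 2 ^ 48 ∧ lo (fld X 2) = S2 % 2 ^ 48 ∧
    lo (fld X 3) = S3 % 2 ^ 48 ∧ lo (fld X 4) = S4 % 2 ^ 48 ∧ lo (fld X 5) = S5 % 2 ^ 48 ∧
    lo (fld X 6) = S6 % 2 ^ 48 ∧ Nat.shiftRight X 816 = S6 / 2 ^ 48 := by
  have e1 : X / 2 ^ (128 * 1) = S1 + 2 ^ 128 * (S2 + 2 ^ 128 * (S3 + 2 ^ 128 * (S4 + 2 ^ 128 *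
      (S5 + 2 ^ 128 * S6)))) := by
    rw [hX, mul_one, g2_step h0]
  have e2 : X / 2 ^ (128 * 2) = S2 + 2 ^ 128 * (S3 + 2 ^ 128 * (S4 + 2 ^ 128 *
      (S5 + 2 ^ 128 * S6))) := by
    rw [show 128 * 2 = 128 * 1 + 128 from rfl, pow_add, ← Nat.div_div_eq_div_mul, e1, g2_step h1]
  have e3 : X / 2 ^ (128 * 3) = S3 + 2 ^ 128 * (S4 + 2 ^ 128 * (S5 + 2 ^ 128 * S6)) := by
    rw [show 128 * 3 = 128 * 2 + 128 from rfl, pow_add, ← Nat.div_div_eq_div_mul, e2, g2_step h2]
  have e4 : X / 2 ^ (128 * 4) = S4 + 2 ^ 128 * (S5 + 2 ^ 128 * S6) := by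
    rw [show 128 * 4 = 128 * 3 + 128 from rfl, pow_add, ← Nat.div_div_eq_div_mul, e3, g2_step h3]
  have e5 : X / 2 ^ (128 * 5) = S5 + 2 ^ 128 * S6 := by
    rw [show 128 * 5 = 128 * 4 + 128 from rfl, pow_add, ← Nat.div_div_eq_div_mul, e4, g2_step h4]
  have e6 : X / 2 ^ (128 * 6) = S6 := by
    rw [show 128 * 6 = 128 * 5 + 128 from rfl, pow_add, ← Nat.div_div_eq_div_mul, e5, g2_step h5]
  have hf : ∀ k, lo (fld X k) = (X / 2 ^ (128 * k)) % 2 ^ 48 := by
    intro k
    unfold lo fld
    rw [g2_land48, g2_shr, Nat.mul_eq]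
  refine ⟨?_, ?_, ?_, ?_, ?_, ?_, ?_, ?_⟩
  · unfold lo
    rw [g2_land48, hX, g2_low]
  · rw [hf, e1, g2_low]
  · rw [hf, e2, g2_low]
  · rw [hf, e3, g2_low]
  · rw [hf, e4, g2_low]
  · rw [hf, e5, g2_low]
  · rw [hf, e6]
  · rw [g2_shr, show 816 = 128 * 6 + 48 from rfl, pow_add, ← Nat.div_div_eq_div_mul, e6]

theorem g2_core (w : Fin 25 → ℕ) (hw : ∀ z, ∃ a b : ℕ, w z = 2 ^ 48 * a + b ∧ a ≤ 2 ^ 41 ∧
      b ≤ 2 ^ 41 ∧ Line (a : ℝ) (b : ℝ)) (X : ℕ) (hX : X = ∑ z, w z * g2_P z) :
    ∃ a b : Fin 25 → ℕ,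
      (∀ z, Line (a z) (b z)) ∧ Nat.shiftRight X 816 = ∑ z, a z ∧ ∑ z, a z ≤ 2 ^ 46 ∧
      lo (fld X 6) = ∑ z, b z ∧
      ∀ v : W, ∑ z, (b z : ℝ) * qf (wv v) (rv (ZZ z)) =
        ((lf (lo X) (lo (fld X 1)) (lo (fld X 2)) (lo (fld X 3)) (lo (fld X 4)) (lo (fld X 5)) v :
          ℕ) : ℝ) := by
  choose a b hab ha hb hl using hw
  -- the sums
  have hS : ∀ k, ∑ z, w z * g2_cf k z = 2 ^ 48 * (∑ z, g2_cf k z * a z) + ∑ z, g2_cf k z * b z := by
    intro k
    rw [Finset.mul_sum, ← Finset.sum_add_distrib]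
    refine Finset.sum_congr rfl fun z _ => ?_
    rw [hab z]
    ring
  have hbB : ∀ k, ∑ z, g2_cf k z * b z < 2 ^ 48 := by
    intro k
    have h1 : ∑ z, g2_cf k z * b z ≤ ∑ z, g2_cf k z * 2 ^ 41 :=
      Finset.sum_le_sum fun z _ => Nat.mul_le_mul_left _ (hb z)
    rw [← Finset.sum_mul] at h1
    have h2 := Nat.mul_le_mul_right (2 ^ 41) (g2_csum k)
    exact lt_of_le_of_lt (h1.trans h2) (by norm_num)
  have hbA : ∀ k, ∑ z, g2_cf k z * a z ≤ 2 ^ 47 := by
    intro k
    have h1 : ∑ z, g2_cf k z * a z ≤ ∑ z, g2_cf k z * 2 ^ 41 :=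
      Finset.sum_le_sum fun z _ => Nat.mul_le_mul_left _ (ha z)
    rw [← Finset.sum_mul] at h1
    have h2 := Nat.mul_le_mul_right (2 ^ 41) (g2_csum k)
    exact le_trans (h1.trans h2) (by norm_num)
  have hbS : ∀ k, ∑ z, w z * g2_cf k z < 2 ^ 128 := by
    intro k
    rw [hS k]
    have h1 := Nat.mul_le_mul_left (2 ^ 48) (hbA k)
    have h2 := hbB k
    calc 2 ^ 48 * (∑ z, g2_cf k z * a z) + ∑ z, g2_cf k z * b z
        < 2 ^ 48 * 2 ^ 47 + 2 ^ 48 := add_lt_add_of_le_of_lt h1 h2
      _ ≤ 2 ^ 128 := by norm_num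
  have hXe : X = (∑ z, w z * g2_cf 0 z) + 2 ^ 128 * ((∑ z, w z * g2_cf 1 z) +
      2 ^ 128 * ((∑ z, w z * g2_cf 2 z) + 2 ^ 128 * ((∑ z, w z * g2_cf 3 z) +
      2 ^ 128 * ((∑ z, w z * g2_cf 4 z) + 2 ^ 128 * ((∑ z, w z * g2_cf 5 z) +
      2 ^ 128 * (∑ z, w z * g2_cf 6 z)))))) := by
    rw [hX]
    simp only [Finset.mul_sum, ← Finset.sum_add_distrib]
    refine Finset.sum_congr rfl fun z _ => ?_
    rw [g2_P_eq z]
    generalize 2 ^ 128 = M
    ring
  obtain ⟨k0, k1, k2, k3, k4, k5, k6, k7⟩ := g2_unpack hXe (hbS 0) (hbS 1) (hbS 2) (hbS 3) (hbS 4)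
    (hbS 5)
  have hlo : ∀ k, (∑ z, w z * g2_cf k z) % 2 ^ 48 = ∑ z, g2_cf k z * b z := fun k =>
    g2_lo48 (hS k) (hbB k)
  have h6 : ∀ f : Fin 25 → ℕ, ∑ z, g2_cf 6 z * f z = ∑ z, f z := by
    intro f
    refine Finset.sum_congr rfl fun z _ => ?_
    have : g2_cf 6 z = 1 := by
      revert z
      decide
    rw [this, one_mul]
  refine ⟨a, b, hl, ?_, ?_, ?_, ?_⟩
  · rw [k7, g2_hi48 (hS 6) (hbB 6), h6]
  · have h1 : ∑ z, a z ≤ ∑ z : Fin 25, 2 ^ 41 := Finset.sum_le_sum fun z _ => ha z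
    rw [Finset.sum_const, Finset.card_univ, Fintype.card_fin] at h1
    exact h1.trans (by norm_num)
  · rw [k6, hlo, h6]
  · intro v
    rw [k0, k1, k2, k3, k4, k5, hlo, hlo, hlo, hlo, hlo, hlo]
    unfold lf
    push_cast
    simp only [Finset.mul_sum, ← Finset.sum_add_distrib]
    refine Finset.sum_congr rfl fun z _ => ?_
    rw [g2_qf]
    ring

theorem g2_lk (hlk : LKok) (Q s : ℕ) : ∃ a b : ℕ, lk Q s = 2 ^ 48 * a + b ∧ a ≤ 2 ^ 41 ∧
      b ≤ 2 ^ 41 ∧ Line (a : ℝ) (b : ℝ) :=
  ⟨lk Q s / 2 ^ 48, lk Q s % 2 ^ 48, (Nat.div_add_mod _ _).symm, (hlk Q s).2.1, (hlk Q s).2.2,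
    (hlk Q s).1⟩

theorem g2_zero : ∃ a b : ℕ, 0 = 2 ^ 48 * a + b ∧ a ≤ 2 ^ 41 ∧
      b ≤ 2 ^ 41 ∧ Line (a : ℝ) (b : ℝ) :=
  ⟨0, 0, rfl, Nat.zero_le _, Nat.zero_le _, by
    intro x
    have := Real.exp_pos (-x)
    simp only [Nat.cast_zero, zero_mul, sub_zero]
    positivity⟩

theorem g2_s25 (f : Fin 25 → ℕ) : ∑ z, f z =
    f 0 + (f 1 + (f 2 + (f 3 + (f 4 + (f 5 + (f 6 + (f 7 + (f 8 + (f 9 + (f 10 + (f 11 + (f 12 + (f 13 + (f 14 + (f 15 + (f 16 + (f 17 + (f 18 + (f 19 + (f 20 + (f 21 + (f 22 + (f 23 + (f 24)))))))))))))))))))))))) := by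
  simp only [Fin.sum_univ_succ, Fin.sum_univ_zero, add_zero]
  rfl

def g2_w25 (Q : ℕ) : Fin 25 → ℕ :=
  ![lk Q 37, lk Q 133, lk Q 229, lk Q 325, lk Q 421, lk Q 517, lk Q 613, lk Q 709, lk Q 805, lk Q 901, lk Q 997, lk Q 1093, lk Q 1189, lk Q 1285, lk Q 1381, lk Q 1477, lk Q 1573, lk Q 1669, lk Q 1765, lk Q 1861, lk Q 1957, lk Q 2053, lk Q 2149, lk Q 2245, lk Q 2341]

def g2_w13 (Q : ℕ) : Fin 25 → ℕ :=
  ![lk Q 37, lk Q 133, lk Q 229, lk Q 325, lk Q 421, lk Q 517, lk Q 613, lk Q 709, lk Q 805, lk Q 901, lk Q 997, lk Q 1093, lk Q 1189, 0, 0, 0, 0, 0, 0, 0, 0, 0, 0, 0, 0]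

theorem g2_e25 (Q : ℕ) : sP25 Q = ∑ z, g2_w25 Q z * g2_P z := by
  rw [g2_s25]
  rfl

theorem g2_e13 (Q : ℕ) : sP13 Q = ∑ z, g2_w13 Q z * g2_P z := by
  rw [g2_s25]
  show _ = lk Q 37 * g2_P 0 + (lk Q 133 * g2_P 1 + (lk Q 229 * g2_P 2 + (lk Q 325 * g2_P 3 + (lk Q 421 * g2_P 4 + (lk Q 517 * g2_P 5 + (lk Q 613 * g2_P 6 + (lk Q 709 * g2_P 7 + (lk Q 805 * g2_P 8 + (lk Q 901 * g2_P 9 + (lk Q 997 * g2_P 10 + (lk Q 1093 * g2_P 11 + (lk Q 1189 * g2_P 12 + (0 * g2_P 13 + (0 * g2_P 14 + (0 * g2_P 15 + (0 * g2_P 16 + (0 * g2_P 17 + (0 * g2_P 18 + (0 * g2_P 19 + (0 * g2_P 20 + (0 * g2_P 21 + (0 * g2_P 22 + (0 * g2_P 23 + (0 * g2_P 24))))))))))))))))))))))))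
  simp only [Nat.zero_mul, Nat.add_zero]
  rfl

theorem g2_h25 (hlk : LKok) (Q : ℕ) : ∀ z, ∃ a b : ℕ, g2_w25 Q z = 2 ^ 48 * a + b ∧ a ≤ 2 ^ 41 ∧
      b ≤ 2 ^ 41 ∧ Line (a : ℝ) (b : ℝ) := by
  intro z
  fin_cases z
  · exact g2_lk hlk Q 37
  · exact g2_lk hlk Q 133
  · exact g2_lk hlk Q 229
  · exact g2_lk hlk Q 325
  · exact g2_lk hlk Q 421
  · exact g2_lk hlk Q 517
  · exact g2_lk hlk Q 613
  · exact g2_lk hlk Q 709
  · exact g2_lk hlk Q 805
  · exact g2_lk hlk Q 901
  · exact g2_lk hlk Q 997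
  · exact g2_lk hlk Q 1093
  · exact g2_lk hlk Q 1189
  · exact g2_lk hlk Q 1285
  · exact g2_lk hlk Q 1381
  · exact g2_lk hlk Q 1477
  · exact g2_lk hlk Q 1573
  · exact g2_lk hlk Q 1669
  · exact g2_lk hlk Q 1765
  · exact g2_lk hlk Q 1861
  · exact g2_lk hlk Q 1957
  · exact g2_lk hlk Q 2053
  · exact g2_lk hlk Q 2149
  · exact g2_lk hlk Q 2245
  · exact g2_lk hlk Q 2341

theorem g2_h13 (hlk : LKok) (Q : ℕ) : ∀ z, ∃ a b : ℕ, g2_w13 Q z = 2 ^ 48 * a + b ∧ a ≤ 2 ^ 41 ∧
      b ≤ 2 ^ 41 ∧ Line (a : ℝ) (b : ℝ) := by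
  intro z
  fin_cases z
  · exact g2_lk hlk Q 37
  · exact g2_lk hlk Q 133
  · exact g2_lk hlk Q 229
  · exact g2_lk hlk Q 325
  · exact g2_lk hlk Q 421
  · exact g2_lk hlk Q 517
  · exact g2_lk hlk Q 613
  · exact g2_lk hlk Q 709
  · exact g2_lk hlk Q 805
  · exact g2_lk hlk Q 901
  · exact g2_lk hlk Q 997
  · exact g2_lk hlk Q 1093
  · exact g2_lk hlk Q 1189
  · exact g2_zero
  · exact g2_zero
  · exact g2_zero
  · exact g2_zero
  · exact g2_zero
  · exact g2_zero
  · exact g2_zero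
  · exact g2_zero
  · exact g2_zero
  · exact g2_zero
  · exact g2_zero
  · exact g2_zero

/-- the meaning of the packed sums -/
theorem sP_ok (hlk : LKok) : SPok := by
  intro Q X h
  exact Or.elim h (fun h => g2_core (g2_w13 Q) (g2_h13 hlk Q) X (h.trans (g2_e13 Q)))
    (fun h => g2_core (g2_w25 Q) (g2_h25 hlk Q) X (h.trans (g2_e25 Q)))

end Pool.Agent.H999.Ep3
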