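import Pool.Agent.H999.Ep3.Base

set_option autoImplicit false

open Matrix

namespace Pool.Agent.H999.Ep3

open Pool.Agent.K1H99.FCC (N0 rv nsq qf af dt PD rad Fp Qm pp tot al be sd)
open Pool.Agent.H999.Theta3 (W Th RF RB Bp bb tF InF InB2 InB sc wv Val ZZ Line psi dx inF inB2 leafB
  rent lo RFb frc frz detN mid vt)

/-- a geometric sequence with rounding up, in units of `2 ^ (-80)` -/
def g8_R (x r j : ℕ) : ℕ :=
  Nat.rec (motive := fun _ => ℕ) x
    (fun _ u => Nat.add (Nat.div (Nat.mul u r) 1208925819614629174706176) 1) j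

def g8_U (j : ℕ) : ℕ := g8_R 23088364329025038365514 1190377704470217961208641 j

def g8_V (j : ℕ) : ℕ := g8_R 347493382591255099556259 1203052560839304453355905 j

def g8_E (j : ℕ) : ℕ := g8_R 1208925819614629174706176 1227462833909909786386858 j

def g8_PF (u : ℕ) : ℕ :=
  Nat.add (Nat.mul (Nat.mul 12 u) (Nat.pow 2 240)) (Nat.add (Nat.mul (Nat.mul 6 (Nat.pow u 2))
    (Nat.pow 2 160)) (Nat.add (Nat.mul (Nat.mul 24 (Nat.pow u 3)) (Nat.pow 2 80))
    (Nat.mul 41 (Nat.pow u 4))))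

def g8_PB (v : ℕ) : ℕ :=
  Nat.add (Nat.mul (Nat.mul 8 (Nat.pow v 3)) (Nat.pow 2 720)) (Nat.add (Nat.mul (Nat.mul 6 (Nat.pow v 4))
    (Nat.pow 2 640)) (Nat.add (Nat.mul (Nat.mul 12 (Nat.pow v 8)) (Nat.pow 2 320))
    (Nat.add (Nat.mul (Nat.mul 24 (Nat.pow v 11)) (Nat.pow 2 80)) (Nat.mul 9 (Nat.pow v 12)))))

lemma g8_chkE : ∀ j < 564, Nat.ble (g8_E j) (Nat.mul (rent tabE j) (Nat.pow 2 56)) = true := by
  decide +kernel

lemma g8_chkA : ∀ j < 564, Nat.ble (g8_PB (g8_V j)) (Nat.mul (rent tabA j) (Nat.pow 2 920)) = true := by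
  decide +kernel

lemma g8_chkU : ∀ j < 564, Nat.ble (Nat.add (Nat.mul (g8_PF (g8_U j)) (Nat.pow 2 640)) (g8_PB (g8_V j)))
    (Nat.mul (rent tabU j) (Nat.pow 2 920)) = true := by
  decide +kernel

lemma g8_R_le (x r : ℕ) (c d : ℝ) (h0 : 1208925819614629174706176 * Real.exp c ≤ (x : ℝ))
    (h1 : Real.exp d * 1208925819614629174706176 ≤ (r : ℝ)) (j : ℕ) :
    1208925819614629174706176 * Real.exp (c + j * d) ≤ (g8_R x r j : ℝ) := by
  induction j with
  | zero =>
    have h : g8_R x r 0 = x := rfl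
    rw [h, Nat.cast_zero, zero_mul, add_zero]
    exact h0
  | succ j ih =>
    have h : g8_R x r (j + 1) = g8_R x r j * r / 1208925819614629174706176 + 1 := rfl
    have he : c + ((j + 1 : ℕ) : ℝ) * d = (c + j * d) + d := by push_cast; ring
    rw [h, he, Real.exp_add]
    have hp := Real.exp_pos d
    have hU : (0 : ℝ) ≤ g8_R x r j := Nat.cast_nonneg _
    have hm : (g8_R x r j * r : ℕ) <
        1208925819614629174706176 * (g8_R x r j * r / 1208925819614629174706176 + 1) :=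
      Nat.lt_mul_div_succ _ (by norm_num)
    have hm' : ((g8_R x r j : ℝ) * r) <
        1208925819614629174706176 *
          ((g8_R x r j * r / 1208925819614629174706176 + 1 : ℕ) : ℝ) := by
      exact_mod_cast hm
    have h2 : 1208925819614629174706176 * Real.exp (c + j * d) *
        (Real.exp d * 1208925819614629174706176) ≤ (g8_R x r j : ℝ) * r :=
      mul_le_mul ih h1 (by positivity) hU
    have h3 : 1208925819614629174706176 * (1208925819614629174706176 *
        (Real.exp (c + j * d) * Real.exp d)) ≤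
        1208925819614629174706176 *
          ((g8_R x r j * r / 1208925819614629174706176 + 1 : ℕ) : ℝ) := by
      refine le_trans (le_of_eq ?_) (h2.trans hm'.le)
      ring
    exact le_of_mul_le_mul_left h3 (by norm_num)

lemma g8_u0 : Real.exp (-(395815871 / 100000000)) ≤
    (23088364329025038365514 : ℝ) / 1208925819614629174706176 :=
  Pool.Agent.K1H99.FCC.expneg_le
    (s := 1280671973371717161920328180229 / 1000000000000000000000000000000)
    (by norm_num) (by norm_num) (by norm_num) (by norm_num)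

lemma g8_u1 : Real.exp (-(395815871 / 25600000000)) ≤
    (1190377704470217961208641 : ℝ) / 1208925819614629174706176 :=
  Pool.Agent.K1H99.FCC.expneg_le
    (s := 1000966814405337198676558730881 / 1000000000000000000000000000000)
    (by norm_num) (by norm_num) (by norm_num) (by norm_num)

lemma g8_v0 : Real.exp (-(124674187 / 100000000)) ≤
    (347493382591255099556259 : ℝ) / 1208925819614629174706176 :=
  Pool.Agent.K1H99.FCC.expneg_le
    (s := 1081037649959217689387813936053 / 1000000000000000000000000000000)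
    (by norm_num) (by norm_num) (by norm_num) (by norm_num)

lemma g8_v1 : Real.exp (-(124674187 / 25600000000)) ≤
    (1203052560839304453355905 : ℝ) / 1208925819614629174706176 :=
  Pool.Agent.K1H99.FCC.expneg_le
    (s := 1000304426667751326879187028666 / 1000000000000000000000000000000)
    (by norm_num) (by norm_num) (by norm_num) (by norm_num)

lemma g8_e1 : Real.exp (152170894158256 / 10 ^ 16) * 1208925819614629174706176 ≤
    ((1227462833909909786386858 : ℕ) : ℝ) := by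
  have hb := Real.exp_bound' (x := 152170894158256 / 10 ^ 16) (by norm_num) (by norm_num) (n := 10)
    (by norm_num)
  simp only [Finset.sum_range_succ, Finset.sum_range_zero, Nat.factorial] at hb
  refine (mul_le_mul_of_nonneg_right hb (by norm_num)).trans ?_
  norm_num

lemma g8_U_le (j : ℕ) : Real.exp (-(395815871 / 100000000 * sc j)) ≤ (g8_U j : ℝ) / 2 ^ 80 := by
  have h0 := g8_u0
  have h1 := g8_u1
  rw [le_div_iff₀ (by norm_num)] at h0 h1
  have h := g8_R_le 23088364329025038365514 1190377704470217961208641 (-(395815871 / 100000000))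
    (-(395815871 / 25600000000)) (by push_cast; linarith) (by push_cast; linarith) j
  have e : -(395815871 / 100000000 * sc j) =
      (-(395815871 / 100000000) : ℝ) + j * (-(395815871 / 25600000000)) := by
    unfold sc; ring
  rw [e, le_div_iff₀ (by positivity)]
  have h3 : (2 : ℝ) ^ 80 = 1208925819614629174706176 := by norm_num
  rw [h3, mul_comm]
  exact h

lemma g8_V_le (j : ℕ) : Real.exp (-(124674187 / 100000000 * sc j)) ≤ (g8_V j : ℝ) / 2 ^ 80 := by
  have h0 := g8_v0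
  have h1 := g8_v1
  rw [le_div_iff₀ (by norm_num)] at h0 h1
  have h := g8_R_le 347493382591255099556259 1203052560839304453355905 (-(124674187 / 100000000))
    (-(124674187 / 25600000000)) (by push_cast; linarith) (by push_cast; linarith) j
  have e : -(124674187 / 100000000 * sc j) =
      (-(124674187 / 100000000) : ℝ) + j * (-(124674187 / 25600000000)) := by
    unfold sc; ring
  rw [e, le_div_iff₀ (by positivity)]
  have h3 : (2 : ℝ) ^ 80 = 1208925819614629174706176 := by norm_num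
  rw [h3, mul_comm]
  exact h

lemma g8_sc_pos (j : ℕ) : 0 ≤ sc j := by
  unfold sc
  positivity

lemma g8_al : (395815871 / 100000000 : ℝ) ≤ 2 * al := by
  obtain ⟨h1, h2⟩ := Pool.Agent.K1H99.FCC.rF_bounds
  have h0 := Pool.Agent.K1H99.FCC.rad_Fp_pos
  have p1 := Real.pi_gt_d20
  have : (395815871 / 200000000 : ℝ) ≤ al := by
    unfold al
    rw [le_div_iff₀ h0]
    linarith
  linarith

lemma g8_be : (124674187 / 100000000 : ℝ) ≤ be := by
  obtain ⟨h1, h2⟩ := Pool.Agent.K1H99.FCC.rF_bounds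
  have h0 := Pool.Agent.K1H99.FCC.rad_Fp_pos
  have p1 := Real.pi_gt_d20
  unfold be
  rw [le_div_iff₀ (by positivity)]
  have : rad Fp ^ 2 ≤ (15874010520 / 10000000000) ^ 2 := pow_le_pow_left₀ h0.le h2 2
  linarith

lemma g8_eU (j : ℕ) : Real.exp (-(2 * al * sc j)) ≤ (g8_U j : ℝ) / 2 ^ 80 := by
  refine le_trans (Real.exp_le_exp.2 ?_) (g8_U_le j)
  have := mul_le_mul_of_nonneg_right g8_al (g8_sc_pos j)
  linarith

lemma g8_eV (j : ℕ) : Real.exp (-(be * sc j)) ≤ (g8_V j : ℝ) / 2 ^ 80 := by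
  refine le_trans (Real.exp_le_exp.2 ?_) (g8_V_le j)
  have := mul_le_mul_of_nonneg_right g8_be (g8_sc_pos j)
  linarith

lemma g8_PF_cast (u : ℕ) : ((g8_PF u : ℕ) : ℝ) = 2 ^ 320 * RFb ((u : ℝ) / 2 ^ 80) := by
  have h : g8_PF u = 12 * u * 2 ^ 240 + (6 * u ^ 2 * 2 ^ 160 + (24 * u ^ 3 * 2 ^ 80 +
      41 * u ^ 4)) := rfl
  rw [h]
  unfold RFb
  push_cast
  field_simp
  ring

lemma g8_PB_cast (u : ℕ) : ((g8_PB u : ℕ) : ℝ) = 2 ^ 960 * RBb ((u : ℝ) / 2 ^ 80) := by
  have h : g8_PB u = 8 * u ^ 3 * 2 ^ 720 + (6 * u ^ 4 * 2 ^ 640 + (12 * u ^ 8 * 2 ^ 320 +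
      (24 * u ^ 11 * 2 ^ 80 + 9 * u ^ 12))) := rfl
  have e1 : (2 : ℝ) ^ 720 = ((2 : ℝ) ^ 80) ^ 9 := by rw [← pow_mul]
  have e2 : (2 : ℝ) ^ 640 = ((2 : ℝ) ^ 80) ^ 8 := by rw [← pow_mul]
  have e3 : (2 : ℝ) ^ 320 = ((2 : ℝ) ^ 80) ^ 4 := by rw [← pow_mul]
  have e4 : (2 : ℝ) ^ 960 = ((2 : ℝ) ^ 80) ^ 12 := by rw [← pow_mul]
  have h0 : (2 : ℝ) ^ 80 ≠ 0 := by positivity
  rw [h]
  unfold RBb
  simp only [Nat.cast_add, Nat.cast_mul, Nat.cast_pow, Nat.cast_ofNat]
  rw [e1, e2, e3, e4]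
  generalize (2 : ℝ) ^ 80 = T at h0 ⊢
  field_simp
  ring

lemma g8_RFb_mono {x y : ℝ} (hx : 0 ≤ x) (h : x ≤ y) : RFb x ≤ RFb y := by
  unfold RFb
  have h2 := pow_le_pow_left₀ hx h 2
  have h3 := pow_le_pow_left₀ hx h 3
  have h4 := pow_le_pow_left₀ hx h 4
  linarith

lemma g8_RBb_mono {x y : ℝ} (hx : 0 ≤ x) (h : x ≤ y) : RBb x ≤ RBb y := by
  unfold RBb
  have h3 := pow_le_pow_left₀ hx h 3
  have h4 := pow_le_pow_left₀ hx h 4
  have h8 := pow_le_pow_left₀ hx h 8
  have h11 := pow_le_pow_left₀ hx h 11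
  have h12 := pow_le_pow_left₀ hx h 12
  linarith

lemma g8_pow_cast (a b : ℕ) (n : ℕ) (h : a ≤ b * Nat.pow 2 n) : (a : ℝ) ≤ (b : ℝ) * 2 ^ n := by
  have h1 : (a : ℝ) ≤ ((b * Nat.pow 2 n : ℕ) : ℝ) := Nat.cast_le.mpr h
  have h2 : ((b * Nat.pow 2 n : ℕ) : ℝ) = (b : ℝ) * 2 ^ n := by
    rw [Nat.cast_mul]
    congr 1
    exact Nat.cast_pow 2 n
  rw [← h2]
  exact h1

/-- the tables are correct -/
theorem tabs_ok : TabsOK := by
  refine ⟨?_, ?_, ?_⟩
  · intro j hj
    have hc1 : g8_PB (g8_V j) ≤ rent tabA j * Nat.pow 2 920 :=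
      Nat.le_of_ble_eq_true (g8_chkA j (by omega))
    have hc2 := g8_pow_cast _ _ _ hc1
    rw [g8_PB_cast] at hc2
    have hm := g8_RBb_mono (Real.exp_pos _).le (g8_eV j)
    have h5 : (2 : ℝ) ^ 960 * RBb ((g8_V j : ℝ) / 2 ^ 80) =
        (2 ^ 40 * RBb ((g8_V j : ℝ) / 2 ^ 80)) * 2 ^ 920 := by
      rw [show (960 : ℕ) = 40 + 920 from rfl, pow_add, mul_assoc, mul_assoc,
        mul_comm ((2 : ℝ) ^ 920)]
    rw [h5] at hc2
    have h6 := le_of_mul_le_mul_right hc2 (by positivity)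
    have h7 : (2 : ℝ) ^ 40 * RBb (Real.exp (-(be * sc j))) ≤
        2 ^ 40 * RBb ((g8_V j : ℝ) / 2 ^ 80) := mul_le_mul_of_nonneg_left hm (by positivity)
    exact h7.trans h6
  · intro j hj
    have hc1 : g8_PF (g8_U j) * Nat.pow 2 640 + g8_PB (g8_V j) ≤ rent tabU j * Nat.pow 2 920 :=
      Nat.le_of_ble_eq_true (g8_chkU j (by omega))
    have hc2 := g8_pow_cast _ _ _ hc1
    have hcc : ((g8_PF (g8_U j) * Nat.pow 2 640 + g8_PB (g8_V j) : ℕ) : ℝ) =
        (g8_PF (g8_U j) : ℝ) * 2 ^ 640 + (g8_PB (g8_V j) : ℝ) := by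
      rw [Nat.cast_add, Nat.cast_mul]
      congr 2
      exact Nat.cast_pow 2 640
    rw [hcc, g8_PB_cast, g8_PF_cast] at hc2
    have hm := g8_RBb_mono (Real.exp_pos _).le (g8_eV j)
    have hn := g8_RFb_mono (Real.exp_pos _).le (g8_eU j)
    have h5 : (2 : ℝ) ^ 320 * RFb ((g8_U j : ℝ) / 2 ^ 80) * 2 ^ 640 +
        2 ^ 960 * RBb ((g8_V j : ℝ) / 2 ^ 80) =
        (2 ^ 40 * (RFb ((g8_U j : ℝ) / 2 ^ 80) + RBb ((g8_V j : ℝ) / 2 ^ 80))) * 2 ^ 920 := by
      rw [show (960 : ℕ) = 320 + 640 from rfl, pow_add]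
      have e : (2 : ℝ) ^ 40 * 2 ^ 920 = 2 ^ 320 * 2 ^ 640 := by rw [← pow_add, ← pow_add]
      linear_combination (-(RFb ((g8_U j : ℝ) / 2 ^ 80)) - RBb ((g8_V j : ℝ) / 2 ^ 80)) * e
    rw [h5] at hc2
    have h6 := le_of_mul_le_mul_right hc2 (by positivity)
    have h7 : (2 : ℝ) ^ 40 * (RFb (Real.exp (-(2 * al * sc j))) + RBb (Real.exp (-(be * sc j)))) ≤
        2 ^ 40 * (RFb ((g8_U j : ℝ) / 2 ^ 80) + RBb ((g8_V j : ℝ) / 2 ^ 80)) :=
      mul_le_mul_of_nonneg_left (add_le_add hn hm) (by positivity)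
    exact h7.trans h6
  · intro w hw
    have hc1 : g8_E w ≤ rent tabE w * Nat.pow 2 56 :=
      Nat.le_of_ble_eq_true (g8_chkE w (by omega))
    have hc2 := g8_pow_cast _ _ _ hc1
    have h := g8_R_le 1208925819614629174706176 1227462833909909786386858 0
      (152170894158256 / 10 ^ 16) (by rw [Real.exp_zero]; norm_num) g8_e1 w
    have hpi : Real.pi * (31 / 25) / 256 ≤ 152170894158256 / 10 ^ 16 := by
      have := Real.pi_lt_d20
      linarith
    have hx : Real.pi * (31 / 25) * ((w : ℝ) / 256) ≤ 0 + w * (152170894158256 / 10 ^ 16) := by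
      have := mul_le_mul_of_nonneg_left hpi (Nat.cast_nonneg (α := ℝ) w)
      linarith
    have he := Real.exp_le_exp.2 hx
    have h2 : (1208925819614629174706176 : ℝ) * Real.exp (Real.pi * (31 / 25) * ((w : ℝ) / 256)) ≤
        (rent tabE w : ℝ) * 2 ^ 56 :=
      (mul_le_mul_of_nonneg_left he (by norm_num)).trans (h.trans hc2)
    have h3 : (1208925819614629174706176 : ℝ) = 2 ^ 24 * 2 ^ 56 := by norm_num
    rw [h3] at h2
    have h4 : (2 : ℝ) ^ 24 * 2 ^ 56 * Real.exp (Real.pi * (31 / 25) * ((w : ℝ) / 256)) =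
        (2 ^ 24 * Real.exp (Real.pi * (31 / 25) * ((w : ℝ) / 256))) * 2 ^ 56 := by ring
    rw [h4] at h2
    exact le_of_mul_le_mul_right h2 (by positivity)

end Pool.Agent.H999.Ep3
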