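import Pool.Agent.H999.Ep3.Lines
import Pool.Agent.H999.Ep3.SumP
import Pool.Agent.H999.Ep3.SumD
import Pool.Agent.H999.Ep3.Pair
import Pool.Agent.H999.Ep3.Spec
import Pool.Agent.H999.Ep3.Cell
import Pool.Agent.H999.Ep3.Steps
import Pool.Agent.H999.Ep3.Tabs
import Pool.Agent.H999.Ep3.RBle
import Pool.Agent.H999.Ep3.Chord
import Pool.Agent.H999.Ep3.Leafs
import Pool.Agent.H999.Ep3.Go
import Pool.Agent.H999.Theta3.Eng

/-!
# The engine: soundness of the checker, and tools for assembling the certificate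
-/

set_option autoImplicit false

open Matrix

namespace Pool.Agent.H999.Ep3

open Pool.Agent.K1H99.FCC (N0 rv nsq qf af dt PD rad Fp Qm pp tot al be sd)
open Pool.Agent.H999.Theta3 (W Val val val_spec isMid isMid_spec)

/-- soundness of the checker -/
theorem eng (hTd : TdOK) (n j : ℕ) (v0 v1 v2 v3 v4 v5 : W) (code : ℕ) (c0 : Val v0) (c1 : Val v1)
    (c2 : Val v2) (c3 : Val v3) (c4 : Val v4) (c5 : Val v5)
    (h : go n j v0 v1 v2 v3 v4 v5 code ≠ 0) : Good j ![v0, v1, v2, v3, v4, v5] := by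
  have hSP : SPok := sP_ok lk_ok
  have hSD : SDok := sD_ok lk_ok
  have hA : StepOK tA := leafA_sound (fun R hR a b v s1 s2 τ R1 R2 => cellA R hR a b v s1 s2 τ R1 R2)
    tabs_ok rb_le chd_ok hTd (fun z j J v0 v1 v2 v3 v4 v5 h => tA_spec hSP h)
  have hU : StepOK tU := leafU_sound
    (fun R hR a b a' b' v s1 s2 τ R1 R2 => cellU R hR a b a' b' v s1 s2 τ R1 R2)
    tabs_ok rb_le chd_ok
    (fun z j J v0 v1 v2 v3 v4 v5 c0 c1 c2 c3 c4 c5 h => tU_spec hSP hSD pa_ok c0 c1 c2 c3 c4 c5 h)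
  exact go_sound hA hU (leafB_sound rb_le hTd) leafF_sound leafBB_sound n j v0 v1 v2 v3 v4 v5 code
    c0 c1 c2 c3 c4 c5 h

lemma good_of (hTd : TdOK) (v0 v1 v2 v3 v4 v5 : W) (code : ℕ) (h0 : val v0 = true)
    (h1 : val v1 = true) (h2 : val v2 = true) (h3 : val v3 = true) (h4 : val v4 = true)
    (h5 : val v5 = true) (h : go 60 0 v0 v1 v2 v3 v4 v5 code = 1) :
    Good 0 ![v0, v1, v2, v3, v4, v5] :=
  eng hTd 60 0 _ _ _ _ _ _ code (val_spec h0) (val_spec h1) (val_spec h2) (val_spec h3) (val_spec h4)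
    (val_spec h5) (by rw [h]; norm_num)

lemma split01 {v0 v1 v2 v3 v4 v5 m : W} (hm : isMid v0 v1 m = true)
    (h1 : Good 0 ![m, v1, v2, v3, v4, v5]) (h2 : Good 0 ![v0, m, v2, v3, v4, v5]) :
    Good 0 ![v0, v1, v2, v3, v4, v5] := by
  refine good_split 0 _ 0 1 (by decide) m (isMid_spec hm) ?_ ?_
  · have e3 : Function.update ![v0, v1, v2, v3, v4, v5] 0 m = ![m, v1, v2, v3, v4, v5] := by
      funext t
      fin_cases t <;> rfl
    rw [e3]
    exact h1
  · have e3 : Function.update ![v0, v1, v2, v3, v4, v5] 1 m = ![v0, m, v2, v3, v4, v5] := by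
      funext t
      fin_cases t <;> rfl
    rw [e3]
    exact h2

lemma split02 {v0 v1 v2 v3 v4 v5 m : W} (hm : isMid v0 v2 m = true)
    (h1 : Good 0 ![m, v1, v2, v3, v4, v5]) (h2 : Good 0 ![v0, v1, m, v3, v4, v5]) :
    Good 0 ![v0, v1, v2, v3, v4, v5] := by
  refine good_split 0 _ 0 2 (by decide) m (isMid_spec hm) ?_ ?_
  · have e3 : Function.update ![v0, v1, v2, v3, v4, v5] 0 m = ![m, v1, v2, v3, v4, v5] := by
      funext t
      fin_cases t <;> rfl
    rw [e3]
    exact h1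
  · have e3 : Function.update ![v0, v1, v2, v3, v4, v5] 2 m = ![v0, v1, m, v3, v4, v5] := by
      funext t
      fin_cases t <;> rfl
    rw [e3]
    exact h2

lemma split03 {v0 v1 v2 v3 v4 v5 m : W} (hm : isMid v0 v3 m = true)
    (h1 : Good 0 ![m, v1, v2, v3, v4, v5]) (h2 : Good 0 ![v0, v1, v2, m, v4, v5]) :
    Good 0 ![v0, v1, v2, v3, v4, v5] := by
  refine good_split 0 _ 0 3 (by decide) m (isMid_spec hm) ?_ ?_
  · have e3 : Function.update ![v0, v1, v2, v3, v4, v5] 0 m = ![m, v1, v2, v3, v4, v5] := by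
      funext t
      fin_cases t <;> rfl
    rw [e3]
    exact h1
  · have e3 : Function.update ![v0, v1, v2, v3, v4, v5] 3 m = ![v0, v1, v2, m, v4, v5] := by
      funext t
      fin_cases t <;> rfl
    rw [e3]
    exact h2

lemma split04 {v0 v1 v2 v3 v4 v5 m : W} (hm : isMid v0 v4 m = true)
    (h1 : Good 0 ![m, v1, v2, v3, v4, v5]) (h2 : Good 0 ![v0, v1, v2, v3, m, v5]) :
    Good 0 ![v0, v1, v2, v3, v4, v5] := by
  refine good_split 0 _ 0 4 (by decide) m (isMid_spec hm) ?_ ?_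
  · have e3 : Function.update ![v0, v1, v2, v3, v4, v5] 0 m = ![m, v1, v2, v3, v4, v5] := by
      funext t
      fin_cases t <;> rfl
    rw [e3]
    exact h1
  · have e3 : Function.update ![v0, v1, v2, v3, v4, v5] 4 m = ![v0, v1, v2, v3, m, v5] := by
      funext t
      fin_cases t <;> rfl
    rw [e3]
    exact h2

lemma split05 {v0 v1 v2 v3 v4 v5 m : W} (hm : isMid v0 v5 m = true)
    (h1 : Good 0 ![m, v1, v2, v3, v4, v5]) (h2 : Good 0 ![v0, v1, v2, v3, v4, m]) :
    Good 0 ![v0, v1, v2, v3, v4, v5] := by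
  refine good_split 0 _ 0 5 (by decide) m (isMid_spec hm) ?_ ?_
  · have e3 : Function.update ![v0, v1, v2, v3, v4, v5] 0 m = ![m, v1, v2, v3, v4, v5] := by
      funext t
      fin_cases t <;> rfl
    rw [e3]
    exact h1
  · have e3 : Function.update ![v0, v1, v2, v3, v4, v5] 5 m = ![v0, v1, v2, v3, v4, m] := by
      funext t
      fin_cases t <;> rfl
    rw [e3]
    exact h2

lemma split12 {v0 v1 v2 v3 v4 v5 m : W} (hm : isMid v1 v2 m = true)
    (h1 : Good 0 ![v0, m, v2, v3, v4, v5]) (h2 : Good 0 ![v0, v1, m, v3, v4, v5]) :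
    Good 0 ![v0, v1, v2, v3, v4, v5] := by
  refine good_split 0 _ 1 2 (by decide) m (isMid_spec hm) ?_ ?_
  · have e3 : Function.update ![v0, v1, v2, v3, v4, v5] 1 m = ![v0, m, v2, v3, v4, v5] := by
      funext t
      fin_cases t <;> rfl
    rw [e3]
    exact h1
  · have e3 : Function.update ![v0, v1, v2, v3, v4, v5] 2 m = ![v0, v1, m, v3, v4, v5] := by
      funext t
      fin_cases t <;> rfl
    rw [e3]
    exact h2

lemma split13 {v0 v1 v2 v3 v4 v5 m : W} (hm : isMid v1 v3 m = true)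
    (h1 : Good 0 ![v0, m, v2, v3, v4, v5]) (h2 : Good 0 ![v0, v1, v2, m, v4, v5]) :
    Good 0 ![v0, v1, v2, v3, v4, v5] := by
  refine good_split 0 _ 1 3 (by decide) m (isMid_spec hm) ?_ ?_
  · have e3 : Function.update ![v0, v1, v2, v3, v4, v5] 1 m = ![v0, m, v2, v3, v4, v5] := by
      funext t
      fin_cases t <;> rfl
    rw [e3]
    exact h1
  · have e3 : Function.update ![v0, v1, v2, v3, v4, v5] 3 m = ![v0, v1, v2, m, v4, v5] := by
      funext t
      fin_cases t <;> rfl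
    rw [e3]
    exact h2

lemma split14 {v0 v1 v2 v3 v4 v5 m : W} (hm : isMid v1 v4 m = true)
    (h1 : Good 0 ![v0, m, v2, v3, v4, v5]) (h2 : Good 0 ![v0, v1, v2, v3, m, v5]) :
    Good 0 ![v0, v1, v2, v3, v4, v5] := by
  refine good_split 0 _ 1 4 (by decide) m (isMid_spec hm) ?_ ?_
  · have e3 : Function.update ![v0, v1, v2, v3, v4, v5] 1 m = ![v0, m, v2, v3, v4, v5] := by
      funext t
      fin_cases t <;> rfl
    rw [e3]
    exact h1
  · have e3 : Function.update ![v0, v1, v2, v3, v4, v5] 4 m = ![v0, v1, v2, v3, m, v5] := by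
      funext t
      fin_cases t <;> rfl
    rw [e3]
    exact h2

lemma split15 {v0 v1 v2 v3 v4 v5 m : W} (hm : isMid v1 v5 m = true)
    (h1 : Good 0 ![v0, m, v2, v3, v4, v5]) (h2 : Good 0 ![v0, v1, v2, v3, v4, m]) :
    Good 0 ![v0, v1, v2, v3, v4, v5] := by
  refine good_split 0 _ 1 5 (by decide) m (isMid_spec hm) ?_ ?_
  · have e3 : Function.update ![v0, v1, v2, v3, v4, v5] 1 m = ![v0, m, v2, v3, v4, v5] := by
      funext t
      fin_cases t <;> rfl
    rw [e3]
    exact h1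
  · have e3 : Function.update ![v0, v1, v2, v3, v4, v5] 5 m = ![v0, v1, v2, v3, v4, m] := by
      funext t
      fin_cases t <;> rfl
    rw [e3]
    exact h2

lemma split23 {v0 v1 v2 v3 v4 v5 m : W} (hm : isMid v2 v3 m = true)
    (h1 : Good 0 ![v0, v1, m, v3, v4, v5]) (h2 : Good 0 ![v0, v1, v2, m, v4, v5]) :
    Good 0 ![v0, v1, v2, v3, v4, v5] := by
  refine good_split 0 _ 2 3 (by decide) m (isMid_spec hm) ?_ ?_
  · have e3 : Function.update ![v0, v1, v2, v3, v4, v5] 2 m = ![v0, v1, m, v3, v4, v5] := by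
      funext t
      fin_cases t <;> rfl
    rw [e3]
    exact h1
  · have e3 : Function.update ![v0, v1, v2, v3, v4, v5] 3 m = ![v0, v1, v2, m, v4, v5] := by
      funext t
      fin_cases t <;> rfl
    rw [e3]
    exact h2

lemma split24 {v0 v1 v2 v3 v4 v5 m : W} (hm : isMid v2 v4 m = true)
    (h1 : Good 0 ![v0, v1, m, v3, v4, v5]) (h2 : Good 0 ![v0, v1, v2, v3, m, v5]) :
    Good 0 ![v0, v1, v2, v3, v4, v5] := by
  refine good_split 0 _ 2 4 (by decide) m (isMid_spec hm) ?_ ?_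
  · have e3 : Function.update ![v0, v1, v2, v3, v4, v5] 2 m = ![v0, v1, m, v3, v4, v5] := by
      funext t
      fin_cases t <;> rfl
    rw [e3]
    exact h1
  · have e3 : Function.update ![v0, v1, v2, v3, v4, v5] 4 m = ![v0, v1, v2, v3, m, v5] := by
      funext t
      fin_cases t <;> rfl
    rw [e3]
    exact h2

lemma split25 {v0 v1 v2 v3 v4 v5 m : W} (hm : isMid v2 v5 m = true)
    (h1 : Good 0 ![v0, v1, m, v3, v4, v5]) (h2 : Good 0 ![v0, v1, v2, v3, v4, m]) :
    Good 0 ![v0, v1, v2, v3, v4, v5] := by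
  refine good_split 0 _ 2 5 (by decide) m (isMid_spec hm) ?_ ?_
  · have e3 : Function.update ![v0, v1, v2, v3, v4, v5] 2 m = ![v0, v1, m, v3, v4, v5] := by
      funext t
      fin_cases t <;> rfl
    rw [e3]
    exact h1
  · have e3 : Function.update ![v0, v1, v2, v3, v4, v5] 5 m = ![v0, v1, v2, v3, v4, m] := by
      funext t
      fin_cases t <;> rfl
    rw [e3]
    exact h2

lemma split34 {v0 v1 v2 v3 v4 v5 m : W} (hm : isMid v3 v4 m = true)
    (h1 : Good 0 ![v0, v1, v2, m, v4, v5]) (h2 : Good 0 ![v0, v1, v2, v3, m, v5]) :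
    Good 0 ![v0, v1, v2, v3, v4, v5] := by
  refine good_split 0 _ 3 4 (by decide) m (isMid_spec hm) ?_ ?_
  · have e3 : Function.update ![v0, v1, v2, v3, v4, v5] 3 m = ![v0, v1, v2, m, v4, v5] := by
      funext t
      fin_cases t <;> rfl
    rw [e3]
    exact h1
  · have e3 : Function.update ![v0, v1, v2, v3, v4, v5] 4 m = ![v0, v1, v2, v3, m, v5] := by
      funext t
      fin_cases t <;> rfl
    rw [e3]
    exact h2

lemma split35 {v0 v1 v2 v3 v4 v5 m : W} (hm : isMid v3 v5 m = true)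
    (h1 : Good 0 ![v0, v1, v2, m, v4, v5]) (h2 : Good 0 ![v0, v1, v2, v3, v4, m]) :
    Good 0 ![v0, v1, v2, v3, v4, v5] := by
  refine good_split 0 _ 3 5 (by decide) m (isMid_spec hm) ?_ ?_
  · have e3 : Function.update ![v0, v1, v2, v3, v4, v5] 3 m = ![v0, v1, v2, m, v4, v5] := by
      funext t
      fin_cases t <;> rfl
    rw [e3]
    exact h1
  · have e3 : Function.update ![v0, v1, v2, v3, v4, v5] 5 m = ![v0, v1, v2, v3, v4, m] := by
      funext t
      fin_cases t <;> rfl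
    rw [e3]
    exact h2

lemma split45 {v0 v1 v2 v3 v4 v5 m : W} (hm : isMid v4 v5 m = true)
    (h1 : Good 0 ![v0, v1, v2, v3, m, v5]) (h2 : Good 0 ![v0, v1, v2, v3, v4, m]) :
    Good 0 ![v0, v1, v2, v3, v4, v5] := by
  refine good_split 0 _ 4 5 (by decide) m (isMid_spec hm) ?_ ?_
  · have e3 : Function.update ![v0, v1, v2, v3, v4, v5] 4 m = ![v0, v1, v2, v3, m, v5] := by
      funext t
      fin_cases t <;> rfl
    rw [e3]
    exact h1
  · have e3 : Function.update ![v0, v1, v2, v3, v4, v5] 5 m = ![v0, v1, v2, v3, v4, m] := by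
      funext t
      fin_cases t <;> rfl
    rw [e3]
    exact h2

end Pool.Agent.H999.Ep3
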