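import Pool.Agent.H999.Ep3.Def

set_option autoImplicit false

open Matrix MeasureTheory Set

namespace Pool.Agent.H999.Ep3

/-- change of the basis -/
theorem e1_nm_mul (A : Matrix (Fin 3) (Fin 3) ℝ) (V : Matrix (Fin 3) (Fin 3) ℤ) (z : Fin 3 → ℤ) :
    nm (A * V.map (fun n : ℤ => (n : ℝ))) z = nm A (V.mulVec z) := by
  unfold nm
  have h : (V.map (fun n : ℤ => (n : ℝ))).mulVec (fun j => (z j : ℝ)) =
      fun j => ((V.mulVec z j : ℤ) : ℝ) := by
    funext i
    simp [Matrix.mulVec, dotProduct]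
  rw [← h]
  simp only [Matrix.mulVec_mulVec]

theorem e1_th_mul (A : Matrix (Fin 3) (Fin 3) ℝ) (V W : Matrix (Fin 3) (Fin 3) ℤ)
    (h1 : V * W = 1) (h2 : W * V = 1) (t : ℝ) :
    th (A * V.map (fun n : ℤ => (n : ℝ))) t = th A t := by
  unfold th
  let e : (Fin 3 → ℤ) ≃ (Fin 3 → ℤ) :=
    { toFun := fun z => V.mulVec z
      invFun := fun z => W.mulVec z
      left_inv := fun z => by
        show W.mulVec (V.mulVec z) = z
        rw [Matrix.mulVec_mulVec, h2, Matrix.one_mulVec]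
      right_inv := fun z => by
        show V.mulVec (W.mulVec z) = z
        rw [Matrix.mulVec_mulVec, h1, Matrix.one_mulVec] }
  rw [← e.tsum_eq (fun z : Fin 3 → ℤ => Real.exp (-Real.pi * t * nm A z))]
  apply tsum_congr
  intro z
  rw [e1_nm_mul]
  rfl

/-- the unimodular matrix -/
def e1_V : Matrix (Fin 3) (Fin 3) ℤ := !![0, 1, 1; 1, 0, 1; 1, 1, 1]

/-- its inverse -/
def e1_W : Matrix (Fin 3) (Fin 3) ℤ := !![-1, 0, 1; 0, -1, 1; 1, 1, -1]

theorem e1_VW : e1_V * e1_W = 1 := by decide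

theorem e1_WV : e1_W * e1_V = 1 := by decide

theorem e1_Wt : e1_Wᵀ = e1_W := by decide

theorem e1_cube : ((2:ℝ) ^ ((1:ℝ)/3)) ^ 3 = 2 := by
  rw [← Real.rpow_natCast, ← Real.rpow_mul (by norm_num)]
  norm_num

theorem e1_inv : (2:ℝ) ^ (-(1:ℝ)/3) = ((2:ℝ) ^ ((1:ℝ)/3))⁻¹ := by
  rw [← Real.rpow_neg (by norm_num)]
  norm_num

theorem e1_pos : 0 < (2:ℝ) ^ ((1:ℝ)/3) := Real.rpow_pos_of_pos (by norm_num) _

theorem e1_detF : AF.det = 1 := by
  unfold AF
  rw [Matrix.det_smul, Fintype.card_fin, e1_inv, inv_pow, e1_cube, Matrix.det_fin_three]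
  simp
  norm_num

theorem e1_detB : AB.det = 1 := by
  unfold AB
  rw [Matrix.det_smul, Fintype.card_fin, e1_cube, Matrix.det_fin_three]
  simp

/-- the basis of the dual lattice of the face-centred lattice -/
noncomputable def e1_N : Matrix (Fin 3) (Fin 3) ℝ :=
  (2:ℝ) ^ ((1:ℝ)/3) • !![-1/2, 1/2, 1/2; 1/2, -1/2, 1/2; 1/2, 1/2, -1/2]

theorem e1_AFN : AF * e1_N = 1 := by
  unfold AF e1_N
  rw [Matrix.smul_mul, Matrix.mul_smul, smul_smul, e1_inv, inv_mul_cancel₀ e1_pos.ne', one_smul]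
  ext i j
  fin_cases i <;> fin_cases j <;> simp [Matrix.mul_apply, Fin.sum_univ_three] <;> norm_num

theorem e1_Nt : e1_Nᵀ = e1_N := by
  unfold e1_N
  rw [Matrix.transpose_smul]
  congr 1
  ext i j
  fin_cases i <;> fin_cases j <;> simp

theorem e1_dlF : dl AF = e1_N := by
  unfold dl
  rw [Matrix.inv_eq_right_inv e1_AFN, e1_Nt]

theorem e1_NV : e1_N * e1_V.map (fun n : ℤ => (n : ℝ)) = AB := by
  unfold AB e1_N e1_V
  rw [Matrix.smul_mul]
  congr 1
  ext i j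
  fin_cases i <;> fin_cases j <;> simp [Matrix.mul_apply, Fin.sum_univ_three] <;> norm_num

theorem e1_dl_mul (A B : Matrix (Fin 3) (Fin 3) ℝ) : dl (A * B) = dl A * dl B := by
  unfold dl
  rw [Matrix.mul_inv_rev, Matrix.transpose_mul]

theorem e1_dl_dl (A : Matrix (Fin 3) (Fin 3) ℝ) (hA : |A.det| = 1) : dl (dl A) = A := by
  have h : IsUnit A.det := by
    rw [isUnit_iff_ne_zero]
    intro h0
    rw [h0, abs_zero] at hA
    exact zero_ne_one hA
  unfold dl
  rw [← Matrix.transpose_nonsing_inv, Matrix.transpose_transpose, Matrix.nonsing_inv_nonsing_inv _ h]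

theorem e1_dlV : dl (e1_V.map (fun n : ℤ => (n : ℝ))) = e1_W.map (fun n : ℤ => (n : ℝ)) := by
  have h : e1_V.map (fun n : ℤ => (n : ℝ)) * e1_W.map (fun n : ℤ => (n : ℝ)) = 1 := by
    have h1 : (e1_V * e1_W).map (fun n : ℤ => (n : ℝ)) = 1 := by
      rw [e1_VW]
      exact Matrix.map_one _ (by norm_num) (by norm_num)
    rw [← h1]
    exact (Matrix.map_mul (f := Int.castRingHom ℝ)).symm
  unfold dl
  rw [Matrix.inv_eq_right_inv h, ← Matrix.transpose_map, e1_Wt]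

/-- bases of the dual lattices -/
theorem dual_facts : DualFacts := by
  refine ⟨by rw [e1_detF, abs_one], by rw [e1_detB, abs_one], ?_, ?_, ?_⟩
  · intro t
    rw [e1_dlF, ← e1_NV, e1_th_mul e1_N e1_V e1_W e1_VW e1_WV]
  · intro t
    rw [← e1_NV, e1_dl_mul, ← e1_dlF, e1_dl_dl AF (by rw [e1_detF, abs_one]), e1_dlV,
      e1_th_mul AF e1_W e1_V e1_WV e1_VW]
  · intro A hA
    refine ⟨?_, e1_dl_dl A hA⟩
    unfold dl
    rw [Matrix.det_transpose, Matrix.det_nonsing_inv, Ring.inverse_eq_inv', abs_inv, hA, inv_one]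

end Pool.Agent.H999.Ep3
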