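import Pool.Agent.H999.Ep3.Def
import Pool.Graph.R_pool_sql_team_seeded_efc1946e.K1H99.FCC.Poi

set_option autoImplicit false

open Matrix MeasureTheory Set

namespace Pool.Agent.H999.Ep3

section e3a

variable {A : Matrix (Fin 3) (Fin 3) ℝ}

theorem e3_dual (h : |A.det| = 1) : (dl A)ᵀ * A = 1 := by
  have hdet : IsUnit A.det := by
    rw [isUnit_iff_ne_zero]
    intro h0
    rw [h0, abs_zero] at h
    exact zero_ne_one h
  unfold dl
  rw [transpose_transpose]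
  exact nonsing_inv_mul A hdet

theorem e3_nm_zero (A : Matrix (Fin 3) (Fin 3) ℝ) : nm A 0 = 0 := by
  unfold nm
  have : (fun j : Fin 3 => (((0 : Fin 3 → ℤ) j : ℤ) : ℝ)) = 0 := by
    funext j
    simp
  rw [this]
  simp

theorem e3_low (h : |A.det| = 1) :
    ∃ c : ℝ, 0 < c ∧ ∀ z : Fin 3 → ℤ, c * ‖Pool.Agent.K1H99.FCC.rv z‖ ^ 2 ≤ nm A z := by
  obtain ⟨c, hc, h1⟩ := Pool.Agent.K1H99.FCC.nsq_ge (e3_dual h)
  exact ⟨c, hc, fun z => h1 _⟩

theorem e3_rv_pos {z : Fin 3 → ℤ} (hz : z ≠ 0) : 0 < ‖Pool.Agent.K1H99.FCC.rv z‖ := by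
  rw [norm_pos_iff]
  intro h0
  apply hz
  funext i
  have := congrFun h0 i
  have h1 : ((z i : ℤ) : ℝ) = 0 := this
  exact_mod_cast h1

theorem e3_nm_pos (h : |A.det| = 1) {z : Fin 3 → ℤ} (hz : z ≠ 0) : 0 < nm A z := by
  obtain ⟨c, hc, h1⟩ := e3_low h
  have := e3_rv_pos hz
  exact lt_of_lt_of_le (by positivity) (h1 z)

theorem e3_mem (z : Fin 3 → ℤ) : Pool.Agent.K1H99.FCC.rv z ∈
    Submodule.span ℤ (Set.range (Pi.basisFun ℝ (Fin 3))) := by
  rw [(Pi.basisFun ℝ (Fin 3)).mem_span_iff_repr_mem ℤ]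
  intro i
  exact ⟨z i, by simp [Pool.Agent.K1H99.FCC.rv]⟩

/-- the integral lattice -/
def e3e (z : Fin 3 → ℤ) : Submodule.span ℤ (Set.range (Pi.basisFun ℝ (Fin 3))) :=
  ⟨Pool.Agent.K1H99.FCC.rv z, e3_mem z⟩

theorem e3e_norm (z : Fin 3 → ℤ) : ‖e3e z‖ = ‖Pool.Agent.K1H99.FCC.rv z‖ := rfl

theorem e3e_inj : Function.Injective e3e := by
  intro z z' hzz
  have h2 : Pool.Agent.K1H99.FCC.rv z = Pool.Agent.K1H99.FCC.rv z' := congrArg Subtype.val hzz
  funext i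
  have h3 : ((z i : ℤ) : ℝ) = ((z' i : ℤ) : ℝ) := congrFun h2 i
  exact_mod_cast h3

theorem e3_rank : Module.finrank ℤ (Submodule.span ℤ (Set.range (Pi.basisFun ℝ (Fin 3)))) = 3 := by
  rw [ZLattice.rank ℝ (Submodule.span ℤ (Set.range (Pi.basisFun ℝ (Fin 3))))]
  exact Module.finrank_fin_fun ℝ

/-- summability over the integral lattice -/
theorem e3_sum_rv {r : ℝ} (hr : 3 < r) :
    Summable fun z : Fin 3 → ℤ => ‖Pool.Agent.K1H99.FCC.rv z‖ ^ (-r) := by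
  have h1 := ZLattice.summable_norm_rpow (Submodule.span ℤ (Set.range (Pi.basisFun ℝ (Fin 3))))
    (-r) (by rw [e3_rank]; push_cast; linarith)
  have h2 := h1.comp_injective e3e_inj
  refine h2.congr fun z => ?_
  show ‖e3e z‖ ^ (-r) = _
  rw [e3e_norm]

theorem e3_sum_nm (h : |A.det| = 1) {σ : ℝ} (hσ : 3 / 2 < σ) :
    Summable fun z : Fin 3 → ℤ => ‖(if z = 0 then 0 else 1 : ℂ)‖ / (nm A z) ^ σ := by
  obtain ⟨c, hc, h1⟩ := e3_low h
  refine Summable.of_nonneg_of_le (fun z => ?_) (fun z => ?_)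
    ((e3_sum_rv (r := 2 * σ) (by linarith)).mul_left (c ^ (-σ)))
  · have : 0 ≤ nm A z := Finset.sum_nonneg fun _ _ => sq_nonneg _
    positivity
  · by_cases hz : z = 0
    · rw [if_pos hz, norm_zero, zero_div]
      positivity
    · rw [if_neg hz, norm_one, one_div, ← Real.rpow_neg (e3_nm_pos h hz).le]
      have hp := e3_rv_pos hz
      have h2 : (c * ‖Pool.Agent.K1H99.FCC.rv z‖ ^ 2) ^ (-σ) =
          c ^ (-σ) * ‖Pool.Agent.K1H99.FCC.rv z‖ ^ (-(2 * σ)) := by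
        rw [Real.mul_rpow hc.le (by positivity), ← Real.rpow_natCast, ← Real.rpow_mul hp.le]
        congr 2
        push_cast
        ring
      rw [← h2]
      exact Real.rpow_le_rpow_of_nonpos (by positivity) (h1 z) (by linarith)

/-- the truncated theta function -/
noncomputable def e3G (A : Matrix (Fin 3) (Fin 3) ℝ) : ℝ → ℂ :=
  (Ioi (1 : ℝ)).indicator fun t => (th A t : ℂ) - 1

theorem e3_lint (hθ : ThetaFacts) (h : |A.det| = 1) :
    LocallyIntegrableOn (fun t => (th A t : ℂ)) (Ioi 0) := by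
  refine ContinuousOn.locallyIntegrableOn ?_ measurableSet_Ioi
  exact Complex.continuous_ofReal.comp_continuousOn (hθ A h).2.1

theorem e3_top (hθ : ThetaFacts) (h : |A.det| = 1) (r : ℝ) :
    (fun t => (th A t : ℂ) - 1) =O[Filter.atTop] fun t : ℝ => t ^ r := by
  obtain ⟨C, c, hC, hc, hd⟩ := (hθ A h).2.2.2.1
  have h1 : (fun t => (th A t : ℂ) - 1) =O[Filter.atTop] fun t : ℝ => Real.exp (-c * t) := by
    refine Asymptotics.IsBigO.of_bound C ?_
    filter_upwards [Filter.eventually_ge_atTop 1] with t ht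
    obtain ⟨d1, d2⟩ := hd t ht
    rw [← Complex.ofReal_one, ← Complex.ofReal_sub, Complex.norm_real, Real.norm_eq_abs,
      abs_of_nonneg d1, Real.norm_eq_abs, Real.abs_exp]
    exact d2
  exact h1.trans (isLittleO_exp_neg_mul_rpow_atTop hc r).isBigO

theorem e3_G_lint (hθ : ThetaFacts) (h : |A.det| = 1) :
    LocallyIntegrableOn (e3G A) (Ioi 0) := by
  intro x hx
  obtain ⟨s, hs, hs'⟩ := ((e3_lint hθ h).sub (locallyIntegrableOn_const (1 : ℂ))) x hx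
  exact ⟨s, hs, hs'.indicator measurableSet_Ioi⟩

theorem e3_G_top (hθ : ThetaFacts) (h : |A.det| = 1) (r : ℝ) :
    e3G A =O[Filter.atTop] fun t : ℝ => t ^ r := by
  refine (e3_top hθ h r).congr' ?_ Filter.EventuallyEq.rfl
  filter_upwards [Filter.eventually_gt_atTop 1] with t ht
  unfold e3G
  rw [indicator_of_mem (mem_Ioi.2 ht)]

theorem e3_G_bot (A : Matrix (Fin 3) (Fin 3) ℝ) (r : ℝ) :
    e3G A =O[nhdsWithin 0 (Ioi 0)] fun t : ℝ => t ^ r := by
  refine (Asymptotics.isBigO_zero (fun t : ℝ => t ^ r) (nhdsWithin (0 : ℝ) (Ioi 0))).congr' ?_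
    Filter.EventuallyEq.rfl
  have h1 : ∀ᶠ t : ℝ in nhdsWithin (0 : ℝ) (Ioi 0), t < 1 :=
    (eventually_lt_nhds one_pos).filter_mono nhdsWithin_le_nhds
  filter_upwards [h1] with t ht
  unfold e3G
  rw [indicator_of_notMem (notMem_Ioi.2 ht.le)]

theorem e3_G_conv (hθ : ThetaFacts) (h : |A.det| = 1) (s : ℂ) : MellinConvergent (e3G A) s :=
  mellinConvergent_of_isBigO_rpow (e3_G_lint hθ h) (e3_G_top hθ h (-(s.re + 1))) (by linarith)
    (e3_G_bot A (-(s.re - 1))) (by linarith)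

theorem e3_G_diff (hθ : ThetaFacts) (h : |A.det| = 1) : Differentiable ℂ (mellin (e3G A)) :=
  fun s => mellin_differentiableAt_of_isBigO_rpow (e3_G_lint hθ h)
    (e3_G_top hθ h (-(s.re + 1))) (by linarith) (e3_G_bot A (-(s.re - 1))) (by linarith)

/-- values at real points -/
theorem e3_G_real (σ : ℝ) :
    mellin (e3G A) (σ : ℂ) = ((∫ t in Ioi (1 : ℝ), (th A t - 1) * t ^ (σ - 1) : ℝ) : ℂ) := by
  have h1 : mellin (e3G A) (σ : ℂ) = ∫ t in Ioi (0 : ℝ), (Ioi (1 : ℝ)).indicator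
      (fun t : ℝ => (((th A t - 1) * t ^ (σ - 1) : ℝ) : ℂ)) t := by
    unfold mellin
    refine setIntegral_congr_fun measurableSet_Ioi fun t ht => ?_
    have ht0 : (0 : ℝ) < t := ht
    show (t : ℂ) ^ ((σ : ℂ) - 1) • e3G A t = _
    unfold e3G
    by_cases h : t ∈ Ioi (1 : ℝ)
    · rw [indicator_of_mem h, indicator_of_mem h, smul_eq_mul]
      push_cast
      rw [Complex.ofReal_cpow ht0.le]
      push_cast
      ring
    · rw [indicator_of_notMem h, indicator_of_notMem h, smul_zero]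
  rw [h1, setIntegral_indicator measurableSet_Ioi]
  have h2 : Ioi (0 : ℝ) ∩ Ioi 1 = Ioi 1 := by
    rw [Ioi_inter_Ioi]
    norm_num
  rw [h2]
  exact integral_ofReal


/-- the pair of the theta functions -/
noncomputable def e3P (hd : DualFacts) (hθ : ThetaFacts) (A : Matrix (Fin 3) (Fin 3) ℝ)
    (h : |A.det| = 1) : WeakFEPair ℂ where
  f := fun t => (th A t : ℂ)
  g := fun t => (th (dl A) t : ℂ)
  k := 3 / 2
  ε := 1
  f₀ := 1
  g₀ := 1
  hf_int := e3_lint hθ h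
  hg_int := e3_lint hθ (hd.2.2.2.2 A h).1
  hk := by norm_num
  hε := one_ne_zero
  h_feq := by
    intro x hx
    have hx0 : (0 : ℝ) < x := hx
    have h1 := (hθ A h).2.2.1 (1 / x) (by positivity)
    rw [one_div_one_div, one_div, Real.inv_rpow hx0.le, Real.rpow_neg hx0.le, inv_inv] at h1
    rw [one_div, h1, one_mul, smul_eq_mul]
    push_cast
    rfl
  hf_top := fun r => e3_top hθ h r
  hg_top := fun r => e3_top hθ (hd.2.2.2.2 A h).1 r

/-- the reflected part -/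
noncomputable def e3H (A : Matrix (Fin 3) (Fin 3) ℝ) : ℝ → ℂ :=
  (Ioo (0 : ℝ) 1).indicator fun t => (th A t : ℂ) - ((t ^ (-(3 / 2) : ℝ) : ℝ) : ℂ)

theorem e3_H_eq (hθ : ThetaFacts) (h : |A.det| = 1) {t : ℝ} (ht : 0 < t) :
    e3H A t⁻¹ = (t : ℂ) ^ ((3 / 2 : ℝ) : ℂ) • e3G (dl A) t := by
  unfold e3H e3G
  by_cases h1 : 1 < t
  · have h2 : t⁻¹ ∈ Ioo (0 : ℝ) 1 := ⟨by positivity, inv_lt_one_of_one_lt₀ h1⟩
    rw [indicator_of_mem h2, indicator_of_mem (mem_Ioi.2 h1)]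
    have h3 := (hθ A h).2.2.1 t⁻¹ (by positivity)
    rw [one_div, inv_inv, Real.inv_rpow ht.le, Real.rpow_neg ht.le, inv_inv] at h3
    rw [h3, Real.inv_rpow ht.le, Real.rpow_neg ht.le, inv_inv, smul_eq_mul,
      ← Complex.ofReal_cpow ht.le]
    push_cast
    ring
  · have h2 : t⁻¹ ∉ Ioo (0 : ℝ) 1 := by
      intro hc
      apply h1
      have := (one_lt_inv₀ hc.1).2 hc.2
      rwa [inv_inv] at this
    rw [indicator_of_notMem h2, indicator_of_notMem (show t ∉ Ioi (1 : ℝ) from h1), smul_zero]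

theorem e3_H_lint (hθ : ThetaFacts) (h : |A.det| = 1) :
    LocallyIntegrableOn (e3H A) (Ioi 0) := by
  have h1 : LocallyIntegrableOn (fun t : ℝ => ((t ^ (-(3 / 2) : ℝ) : ℝ) : ℂ)) (Ioi 0) := by
    refine ContinuousOn.locallyIntegrableOn ?_ measurableSet_Ioi
    refine Complex.continuous_ofReal.comp_continuousOn ?_
    exact ContinuousOn.rpow_const continuousOn_id fun t ht => Or.inl (ne_of_gt ht)
  intro x hx
  obtain ⟨s, hs, hs'⟩ := ((e3_lint hθ h).sub h1) x hx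
  exact ⟨s, hs, hs'.indicator measurableSet_Ioo⟩

theorem e3_H_mellin (hθ : ThetaFacts) (h : |A.det| = 1) (hB : |(dl A).det| = 1) (s : ℂ) :
    HasMellin (e3H A) s (mellin (e3G (dl A)) (((3 / 2 : ℝ) : ℂ) - s)) := by
  have h1 : ∀ t ∈ Ioi (0 : ℝ), e3H A t⁻¹ = (t : ℂ) ^ ((3 / 2 : ℝ) : ℂ) • e3G (dl A) t :=
    fun t ht => e3_H_eq hθ h ht
  have h2 : MellinConvergent (fun t : ℝ => e3H A t⁻¹) (-s) := by
    have h3 : MellinConvergent (fun t : ℝ => (t : ℂ) ^ ((3 / 2 : ℝ) : ℂ) • e3G (dl A) t) (-s) :=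
      MellinConvergent.cpow_smul.2 (e3_G_conv hθ hB _)
    refine (integrableOn_congr_fun (fun t ht => ?_) measurableSet_Ioi).2 h3
    show (t : ℂ) ^ (-s - 1) • e3H A t⁻¹ = _
    rw [h1 t ht]
  have h4 : MellinConvergent (e3H A) s := by
    have h5 := (MellinConvergent.comp_rpow (f := e3H A) (s := -s) (a := -1) (by norm_num)).1 (by
      refine (integrableOn_congr_fun (fun t ht => ?_) measurableSet_Ioi).2 h2
      show (t : ℂ) ^ (-s - 1) • e3H A (t ^ (-1 : ℝ)) = (t : ℂ) ^ (-s - 1) • e3H A t⁻¹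
      rw [Real.rpow_neg_one])
    have h6 : -s / ((-1 : ℝ) : ℂ) = s := by
      push_cast
      ring
    rwa [h6] at h5
  refine ⟨h4, ?_⟩
  have h7 := mellin_comp_inv (e3H A) (-s)
  rw [neg_neg] at h7
  rw [← h7]
  have h8 : mellin (fun t : ℝ => e3H A t⁻¹) (-s) =
      mellin (fun t : ℝ => (t : ℂ) ^ ((3 / 2 : ℝ) : ℂ) • e3G (dl A) t) (-s) := by
    unfold mellin
    refine setIntegral_congr_fun measurableSet_Ioi fun t ht => ?_
    show (t : ℂ) ^ (-s - 1) • e3H A t⁻¹ = _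
    rw [h1 t ht]
  rw [h8, mellin_cpow_smul]
  congr 1
  ring

/-- the completed function, for all complex numbers -/
theorem e3_L0 (hd : DualFacts) (hθ : ThetaFacts) (h : |A.det| = 1) (s : ℂ) :
    (e3P hd hθ A h).Λ₀ s = mellin (e3G A) s + mellin (e3G (dl A)) (((3 / 2 : ℝ) : ℂ) - s) := by
  have h1 := hasMellin_add (e3_G_conv hθ h s) (e3_H_mellin hθ h (hd.2.2.2.2 A h).1 s).1
  rw [(e3_H_mellin hθ h (hd.2.2.2.2 A h).1 s).2] at h1
  rw [← h1.2]
  unfold WeakFEPair.Λ₀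
  congr 1
  funext t
  unfold WeakFEPair.f_modif e3G e3H e3P
  simp only [Pi.add_apply, one_mul, smul_eq_mul, mul_one]


theorem e3_cpow {x : ℝ} (hx : 0 < x) (s : ℂ) :
    ((Real.sqrt x : ℝ) : ℂ) ^ (-s) = 1 / (x : ℂ) ^ (s / 2) := by
  have hs : (0 : ℝ) < Real.sqrt x := Real.sqrt_pos.2 hx
  have h1 : ((Real.sqrt x : ℝ) : ℂ) ≠ 0 := by exact_mod_cast hs.ne'
  have h2 : (x : ℂ) ≠ 0 := by exact_mod_cast hx.ne'
  rw [Complex.cpow_def_of_ne_zero h1, Complex.cpow_def_of_ne_zero h2, ← Complex.ofReal_log hs.le,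
    ← Complex.ofReal_log hx.le, one_div, ← Complex.exp_neg, Real.log_sqrt hx.le]
  congr 1
  push_cast
  ring

/-- the zeta function -/
noncomputable def e3Z (A : Matrix (Fin 3) (Fin 3) ℝ) (s : ℂ) : ℂ :=
  (Real.pi : ℂ) ^ (s / 2) * ((Complex.Gamma (s / 2))⁻¹ *
    (mellin (e3G A) (s / 2) + mellin (e3G (dl A)) (((3 / 2 : ℝ) : ℂ) - s / 2)) -
    (Complex.Gamma (s / 2 + 1))⁻¹ - (Complex.Gamma (s / 2))⁻¹ * (((3 / 2 : ℝ) : ℂ) - s / 2)⁻¹)

theorem e3Z_diff (hθ : ThetaFacts) (h : |A.det| = 1) (hB : |(dl A).det| = 1) :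
    DifferentiableOn ℂ (e3Z A) {3}ᶜ := by
  intro s hs
  have hs3 : s ≠ 3 := hs
  refine DifferentiableAt.differentiableWithinAt ?_
  have hpi : (Real.pi : ℂ) ≠ 0 := by exact_mod_cast Real.pi_ne_zero
  have d2 : DifferentiableAt ℂ (fun s : ℂ => s / 2) s := by fun_prop
  have d1 : DifferentiableAt ℂ (fun s : ℂ => (Real.pi : ℂ) ^ (s / 2)) s :=
    d2.const_cpow (Or.inl hpi)
  have d3 : DifferentiableAt ℂ (fun s : ℂ => (Complex.Gamma (s / 2))⁻¹) s :=
    DifferentiableAt.comp (g := fun s : ℂ => (Complex.Gamma s)⁻¹) (f := fun s : ℂ => s / 2) s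
      (Complex.differentiable_one_div_Gamma (s / 2)) d2
  have d4 : DifferentiableAt ℂ (fun s : ℂ => (Complex.Gamma (s / 2 + 1))⁻¹) s :=
    DifferentiableAt.comp (g := fun s : ℂ => (Complex.Gamma s)⁻¹) (f := fun s : ℂ => s / 2 + 1) s
      (Complex.differentiable_one_div_Gamma (s / 2 + 1)) (d2.add_const 1)
  have d5 : DifferentiableAt ℂ (fun s : ℂ => mellin (e3G A) (s / 2)) s :=
    DifferentiableAt.comp (g := mellin (e3G A)) (f := fun s : ℂ => s / 2) s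
      (e3_G_diff hθ h (s / 2)) d2
  have d6 : DifferentiableAt ℂ (fun s : ℂ => ((3 / 2 : ℝ) : ℂ) - s / 2) s := by fun_prop
  have d7 : DifferentiableAt ℂ (fun s : ℂ => mellin (e3G (dl A)) (((3 / 2 : ℝ) : ℂ) - s / 2)) s :=
    DifferentiableAt.comp (g := mellin (e3G (dl A))) (f := fun s : ℂ => ((3 / 2 : ℝ) : ℂ) - s / 2) s
      (e3_G_diff hθ hB (((3 / 2 : ℝ) : ℂ) - s / 2)) d6
  have hne : ((3 / 2 : ℝ) : ℂ) - s / 2 ≠ 0 := by
    intro h0
    apply hs3
    have : s = 2 * (((3 / 2 : ℝ) : ℂ)) - 2 * (((3 / 2 : ℝ) : ℂ) - s / 2) := by ring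
    rw [this, h0]
    push_cast
    ring
  have d8 : DifferentiableAt ℂ (fun s : ℂ => (((3 / 2 : ℝ) : ℂ) - s / 2)⁻¹) s := d6.inv hne
  exact d1.mul (((d3.mul (d5.add d7)).sub d4).sub (d3.mul d8))

theorem e3Z_eq (hd : DualFacts) (hθ : ThetaFacts) (h : |A.det| = 1) {s : ℂ} (hs : s ≠ 0) :
    e3Z A s = (Real.pi : ℂ) ^ (s / 2) * ((Complex.Gamma (s / 2))⁻¹ *
      (e3P hd hθ A h).Λ (s / 2)) := by
  have hs2 : s / 2 ≠ 0 := div_ne_zero hs two_ne_zero
  unfold e3Z WeakFEPair.Λ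
  rw [e3_L0, Complex.Gamma_add_one _ hs2]
  have e1 : (e3P hd hθ A h).f₀ = 1 := rfl
  have e2 : (e3P hd hθ A h).g₀ = 1 := rfl
  have e3 : (e3P hd hθ A h).ε = 1 := rfl
  have e4 : (e3P hd hθ A h).k = 3 / 2 := rfl
  rw [e1, e2, e3, e4, smul_eq_mul, smul_eq_mul, mul_inv]
  ring

theorem e3_series (hd : DualFacts) (hθ : ThetaFacts) (h : |A.det| = 1) {s : ℂ} (hs : 3 < s.re) :
    e3Z A s = ∑' z : {z : Fin 3 → ℤ // z ≠ 0}, ((Real.sqrt (nm A z.1) : ℝ) : ℂ) ^ (-s) := by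
  have hs0 : s ≠ 0 := by
    rintro rfl
    rw [Complex.zero_re] at hs
    linarith
  obtain ⟨w, hw⟩ : ∃ w : ℂ, w = s / 2 := ⟨_, rfl⟩
  have hwre : w.re = s.re / 2 := by
    rw [hw]
    have : s / 2 = ((1 / 2 : ℝ) : ℂ) * s := by
      push_cast
      ring
    rw [this, Complex.re_ofReal_mul]
    ring
  have hw32 : 3 / 2 < w.re := by rw [hwre]; linarith
  have hw0 : 0 < w.re := by linarith
  have h1 : HasSum (fun z : Fin 3 → ℤ => (Real.pi : ℂ) ^ (-w) * Complex.Gamma w *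
      (if z = 0 then 0 else 1 : ℂ) / ((nm A z : ℝ) : ℂ) ^ w)
      (mellin (fun t => (th A t : ℂ) - 1) w) := by
    refine hasSum_mellin_pi_mul (fun z => ?_) hw0 (fun t ht => ?_) (e3_sum_nm h hw32)
    · by_cases hz : z = 0
      · left
        rw [if_pos hz]
      · right
        exact e3_nm_pos h hz
    · have ht0 : (0 : ℝ) < t := ht
      have hsum := (hθ A h).1 t ht0
      have h2 : HasSum (fun z : Fin 3 → ℤ => Real.exp (-Real.pi * t * nm A z)) (th A t) :=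
        hsum.hasSum
      have h3 := h2.update 0 0
      rw [e3_nm_zero, mul_zero, Real.exp_zero, zero_sub] at h3
      have h4 := Complex.hasSum_ofReal.2 h3
      have h5 : ((-1 + th A t : ℝ) : ℂ) = (th A t : ℂ) - 1 := by
        push_cast
        ring
      rw [h5] at h4
      have hfun : (fun z : Fin 3 → ℤ => (if z = 0 then 0 else 1 : ℂ) *
          ((Real.exp (-Real.pi * nm A z * t) : ℝ) : ℂ)) = fun z : Fin 3 → ℤ =>
          ((Function.update (fun z : Fin 3 → ℤ => Real.exp (-Real.pi * t * nm A z)) 0 0 z : ℝ) : ℂ) := by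
        funext z
        by_cases hz : z = 0
        · subst hz
          simp
        · rw [Function.update_of_ne hz, if_neg hz, one_mul]
          congr 2
          ring
      rw [hfun]
      exact h4
  have h6 : mellin (fun t => (th A t : ℂ) - 1) w = (e3P hd hθ A h).Λ w :=
    ((e3P hd hθ A h).hasMellin (s := w) hw32).2
  rw [e3Z_eq hd hθ h hs0, ← hw, ← h6, ← h1.tsum_eq]
  have hpi : (Real.pi : ℂ) ≠ 0 := by exact_mod_cast Real.pi_ne_zero
  have hG : Complex.Gamma w ≠ 0 := Complex.Gamma_ne_zero_of_re_pos hw0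
  rw [← tsum_mul_left, ← tsum_mul_left]
  have h7 := tsum_subtype {z : Fin 3 → ℤ | z ≠ 0}
    (fun z => ((Real.sqrt (nm A z) : ℝ) : ℂ) ^ (-s))
  refine Eq.trans ?_ h7.symm
  refine tsum_congr fun z => ?_
  by_cases hz : z = 0
  · rw [indicator_of_notMem (by simpa using hz), if_pos hz]
    ring
  · rw [indicator_of_mem (show z ∈ {z : Fin 3 → ℤ | z ≠ 0} from hz), if_neg hz,
      e3_cpow (e3_nm_pos h hz), ← hw, Complex.cpow_neg]
    have h8 : (Real.pi : ℂ) ^ w ≠ 0 := by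
      rw [Ne, Complex.cpow_eq_zero_iff]
      tauto
    field_simp

theorem e3_real (hd : DualFacts) (hθ : ThetaFacts) (h : |A.det| = 1) {σ : ℝ} (hσ : 0 < σ) :
    e3Z A (((2 * σ : ℝ)) : ℂ) = ((Real.pi ^ σ / Real.Gamma σ * La A σ : ℝ) : ℂ) := by
  have hs0 : (((2 * σ : ℝ)) : ℂ) ≠ 0 := by
    have : (2 * σ : ℝ) ≠ 0 := by positivity
    exact_mod_cast this
  have hs2 : (((2 * σ : ℝ)) : ℂ) / 2 = (σ : ℂ) := by
    push_cast
    ring
  rw [e3Z_eq hd hθ h hs0, hs2]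
  have e0 : (((3 / 2 : ℝ) : ℂ) - (σ : ℂ)) = ((3 / 2 - σ : ℝ) : ℂ) := by
    push_cast
    ring
  unfold WeakFEPair.Λ
  rw [e3_L0, e0, e3_G_real, e3_G_real]
  have e1 : (e3P hd hθ A h).f₀ = 1 := rfl
  have e2 : (e3P hd hθ A h).g₀ = 1 := rfl
  have e3 : (e3P hd hθ A h).ε = 1 := rfl
  have e4 : (e3P hd hθ A h).k = 3 / 2 := rfl
  rw [e1, e2, e3, e4, smul_eq_mul, smul_eq_mul, mul_one, mul_one, e0]
  have hint1 := (hθ A h).2.2.2.2 (σ - 1)
  have hint2 := (hθ (dl A) (hd.2.2.2.2 A h).1).2.2.2.2 (3 / 2 - σ - 1)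
  have hLa : La A σ = (∫ t in Ioi (1 : ℝ), (th A t - 1) * t ^ (σ - 1)) +
      (∫ t in Ioi (1 : ℝ), (th (dl A) t - 1) * t ^ (3 / 2 - σ - 1)) - 1 / σ - 1 / (3 / 2 - σ) := by
    unfold La
    have e5 : (1 / 2 - σ : ℝ) = 3 / 2 - σ - 1 := by ring
    rw [e5, integral_add hint1 hint2]
  rw [hLa, Complex.Gamma_ofReal, ← Complex.ofReal_cpow Real.pi_pos.le]
  push_cast
  ring

end e3a

/-- existence of the continuation, with an integral representation on the real axis -/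
theorem exists_epstein (hd : DualFacts) (hθ : ThetaFacts) : ExistsEp := fun A h =>
  ⟨e3Z A, ⟨e3Z_diff hθ h (hd.2.2.2.2 A h).1, fun _ hs => e3_series hd hθ h hs⟩,
    fun _ hσ _ => e3_real hd hθ h hσ⟩

end Pool.Agent.H999.Ep3
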