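import Pool.Agent.H999.Ep3.Def

set_option autoImplicit false

open Matrix MeasureTheory Set

namespace Pool.Agent.H999.Ep3

/-- uniqueness of the continuation -/
theorem epstein_unique {A : Matrix (Fin 3) (Fin 3) ℝ} {Z Z' : ℂ → ℂ} (h : IsEpstein A Z)
    (h' : IsEpstein A Z') : ∀ s : ℂ, s ≠ 3 → Z s = Z' s := by
  have ho : IsOpen ({3}ᶜ : Set ℂ) := isOpen_compl_singleton
  have hc : IsPreconnected ({3}ᶜ : Set ℂ) := by
    apply IsConnected.isPreconnected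
    apply isConnected_compl_singleton_of_one_lt_rank
    rw [Complex.rank_real_complex]
    norm_num
  have h4 : (4 : ℂ) ∈ ({3}ᶜ : Set ℂ) := by
    rw [mem_compl_singleton_iff]
    norm_num
  have he : Z =ᶠ[nhds (4 : ℂ)] Z' := by
    have hn : {s : ℂ | 3 < s.re} ∈ nhds (4 : ℂ) := by
      apply (isOpen_lt continuous_const Complex.continuous_re).mem_nhds
      show (3 : ℝ) < (4 : ℂ).re
      norm_num
    filter_upwards [hn] with s hs
    rw [h.2 s hs, h'.2 s hs]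
  have hE := (h.1.analyticOnNhd ho).eqOn_of_preconnected_of_eventuallyEq (h'.1.analyticOnNhd ho)
    hc h4 he
  intro s hs
  exact hE hs

/-- the functional equation of the completed zeta function -/
theorem La_dual (hd : DualFacts) (A : Matrix (Fin 3) (Fin 3) ℝ) (hA : |A.det| = 1) (σ : ℝ) :
    La (dl A) (3 / 2 - σ) = La A σ := by
  have h2 : dl (dl A) = A := (hd.2.2.2.2 A hA).2
  unfold La
  rw [h2]
  have e1 : (3 / 2 - σ - 1 : ℝ) = 1 / 2 - σ := by ring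
  have e2 : (1 / 2 - (3 / 2 - σ) : ℝ) = σ - 1 := by ring
  have e3 : (3 / 2 - (3 / 2 - σ) : ℝ) = σ := by ring
  rw [e1, e2, e3]
  have e4 : (fun t : ℝ => (th (dl A) t - 1) * t ^ (1 / 2 - σ) + (th A t - 1) * t ^ (σ - 1)) =
      fun t : ℝ => (th A t - 1) * t ^ (σ - 1) + (th (dl A) t - 1) * t ^ (1 / 2 - σ) := by
    funext t
    ring
  rw [e4]
  ring

theorem e4_val (he : ExistsEp) {A : Matrix (Fin 3) (Fin 3) ℝ} (hA : |A.det| = 1) {Z : ℂ → ℂ}
    (hZ : IsEpstein A Z) (s : ℝ) (hs : 0 < s) (hs3 : s ≠ 3) :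
    Z s = ((Real.pi ^ (s / 2) / Real.Gamma (s / 2) * La A (s / 2) : ℝ) : ℂ) := by
  obtain ⟨Z0, hZ0, hv⟩ := he A hA
  have h1 := hv (s / 2) (by linarith) (fun h => hs3 (by linarith))
  have h2 : 2 * (s / 2) = s := by ring
  rw [h2] at h1
  rw [← h1]
  apply epstein_unique hZ hZ0
  intro h
  apply hs3
  exact_mod_cast h

theorem e4_pos (s : ℝ) (hs : 0 < s) : 0 < Real.pi ^ (s / 2) / Real.Gamma (s / 2) :=
  div_pos (Real.rpow_pos_of_pos Real.pi_pos _) (Real.Gamma_pos_of_pos (by linarith))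

/-- the final theorem -/
theorem epstein_of (hd : DualFacts) (he : ExistsEp) (hLa : LaLe) :
    (∀ A : Matrix (Fin 3) (Fin 3) ℝ, |A.det| = 1 → ∃ Z : ℂ → ℂ, IsEpstein A Z) ∧
    ∀ A : Matrix (Fin 3) (Fin 3) ℝ, |A.det| = 1 → ∀ Z ZF ZB : ℂ → ℂ,
      IsEpstein A Z → IsEpstein AF ZF → IsEpstein AB ZB →
      (∀ s : ℝ, 0 < s → s ≠ 3 → (Z s).im = 0) ∧
      (∀ s : ℝ, 3 / 2 ≤ s → s ≠ 3 → (ZF s).re ≤ (Z s).re) ∧
      (∀ s : ℝ, 0 < s → s ≤ 3 / 2 → (ZB s).re ≤ (Z s).re) := by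
  refine ⟨fun A hA => ?_, fun A hA Z ZF ZB hZ hZF hZB => ⟨?_, ?_, ?_⟩⟩
  · obtain ⟨Z, hZ, -⟩ := he A hA
    exact ⟨Z, hZ⟩
  · intro s hs hs3
    rw [e4_val he hA hZ s hs hs3, Complex.ofReal_im]
  · intro s hs hs3
    have hs0 : 0 < s := by linarith
    rw [e4_val he hA hZ s hs0 hs3, e4_val he hd.1 hZF s hs0 hs3, Complex.ofReal_re,
      Complex.ofReal_re]
    exact mul_le_mul_of_nonneg_left
      (hLa A hA (s / 2) (by linarith) (fun h => hs3 (by linarith))) (e4_pos s hs0).le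
  · intro s hs0 hs
    have hs3 : s ≠ 3 := by
      intro h
      rw [h] at hs
      norm_num at hs
    rw [e4_val he hA hZ s hs0 hs3, e4_val he hd.2.1 hZB s hs0 hs3, Complex.ofReal_re,
      Complex.ofReal_re]
    refine mul_le_mul_of_nonneg_left ?_ (e4_pos s hs0).le
    have h1 : La (dl AB) (3 / 2 - s / 2) = La AF (3 / 2 - s / 2) := by
      have hx : ∀ t, th (dl AB) t = th AF t := hd.2.2.2.1
      have hy : ∀ t, th (dl (dl AB)) t = th (dl AF) t := by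
        intro t
        rw [(hd.2.2.2.2 AB hd.2.1).2, hd.2.2.1 t]
      unfold La
      simp only [hx, hy]
    have h2 := La_dual hd AB hd.2.1 (s / 2)
    have h3 := La_dual hd A hA (s / 2)
    rw [← h2, ← h3, h1]
    exact hLa (dl A) (hd.2.2.2.2 A hA).1 (3 / 2 - s / 2) (by linarith) (fun h => by linarith)

end Pool.Agent.H999.Ep3
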