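import Pool.Agent.H999.Ep3.Def

set_option autoImplicit false

open Matrix MeasureTheory Set

namespace Pool.Agent.H999.Ep3

theorem e5_core (u w m : ℝ → ℝ) (T W : ℝ) (hT : 1 < T) (hW : 0 ≤ W)
    (hu : IntegrableOn u (Ioi 1)) (huw : IntegrableOn (fun t => u t * w t) (Ioi 1))
    (hm : IntegrableOn m (Ioi T)) (h1 : ∀ t ∈ Ioc 1 T, 0 ≤ u t ∧ W ≤ w t)
    (h2 : ∀ t ∈ Ioi T, 0 ≤ w t ∧ w t ≤ W ∧ 0 ≤ m t ∧ -m t ≤ u t)
    (h3 : ∫ t in Ioi T, m t ≤ ∫ t in Ioc 1 T, u t) : 0 ≤ ∫ t in Ioi 1, u t * w t := by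
  have hs1 : Ioc 1 T ⊆ Ioi (1 : ℝ) := Ioc_subset_Ioi_self
  have hs2 : Ioi T ⊆ Ioi (1 : ℝ) := Ioi_subset_Ioi hT.le
  have hsplit : ∫ t in Ioi 1, u t * w t =
      (∫ t in Ioc 1 T, u t * w t) + ∫ t in Ioi T, u t * w t := by
    rw [← setIntegral_union (Ioc_disjoint_Ioi le_rfl) measurableSet_Ioi (huw.mono_set hs1)
      (huw.mono_set hs2), Ioc_union_Ioi_eq_Ioi hT.le]
  have e1 : W * ∫ t in Ioc 1 T, u t ≤ ∫ t in Ioc 1 T, u t * w t := by
    rw [← integral_const_mul]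
    refine setIntegral_mono_on ((hu.mono_set hs1).const_mul W) (huw.mono_set hs1)
      measurableSet_Ioc fun t ht => ?_
    obtain ⟨a, b⟩ := h1 t ht
    nlinarith
  have e2 : -(W * ∫ t in Ioi T, m t) ≤ ∫ t in Ioi T, u t * w t := by
    rw [← integral_const_mul, ← integral_neg]
    refine setIntegral_mono_on (hm.const_mul W).neg (huw.mono_set hs2)
      measurableSet_Ioi fun t ht => ?_
    obtain ⟨a, b, c, d⟩ := h2 t ht
    nlinarith
  have e3 := mul_le_mul_of_nonneg_left h3 hW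
  rw [hsplit]
  linarith

theorem e5_low (u : ℝ → ℝ) (T c : ℝ) (hT : 3 / 2 ≤ T) (hu : IntegrableOn u (Ioi 1))
    (h1 : ∀ t ∈ Ioc 1 T, 0 ≤ u t) (h2 : ∀ t, 1 ≤ t → t ≤ 3 / 2 → c ≤ u t) :
    c / 2 ≤ ∫ t in Ioc 1 T, u t := by
  have hs1 : Ioc 1 T ⊆ Ioi (1 : ℝ) := Ioc_subset_Ioi_self
  have hs2 : Ioc (1 : ℝ) (3 / 2) ⊆ Ioc 1 T := Ioc_subset_Ioc_right hT
  have e1 : ∫ t in Ioc 1 (3 / 2), u t ≤ ∫ t in Ioc 1 T, u t := by
    refine setIntegral_mono_set (hu.mono_set hs1) ?_ (Filter.Eventually.of_forall hs2)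
    exact (ae_restrict_iff' measurableSet_Ioc).2 (Filter.Eventually.of_forall h1)
  have e2 : ∫ _ in Ioc (1 : ℝ) (3 / 2), c ≤ ∫ t in Ioc 1 (3 / 2), u t := by
    refine setIntegral_mono_on ?_ ((hu.mono_set hs1).mono_set hs2) measurableSet_Ioc
      fun t ht => h2 t ht.1.le ht.2
    exact integrableOn_const (by simp)
  have e3 : ∫ _ in Ioc (1 : ℝ) (3 / 2), c = c / 2 := by
    rw [setIntegral_const, Measure.real, Real.volume_Ioc, ENNReal.toReal_ofReal (by norm_num),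
      smul_eq_mul]
    ring
  linarith

theorem e5_tail (f : ℝ → ℝ) (T ε : ℝ) (hT : 0 < T) (hε : 0 ≤ ε) (hf : IntegrableOn f (Ioi T))
    (hnn : ∀ t, T ≤ t → 0 ≤ f t) (hanti : ∀ t, T ≤ t → f t ≤ f T) :
    IntegrableOn (fun t => f t - f (t * (1 + ε))) (Ioi T) ∧
      ∫ t in Ioi T, (f t - f (t * (1 + ε))) ≤ ε * (T * f T + ∫ t in Ioi T, f t) := by
  obtain ⟨b, hb⟩ : ∃ b : ℝ, b = 1 + ε := ⟨_, rfl⟩
  rw [← hb]
  have hb1 : 1 ≤ b := by linarith
  have hb0 : 0 < b := by linarith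
  have hTb : T ≤ T * b := by nlinarith
  have hs : Ioi (T * b) ⊆ Ioi T := Ioi_subset_Ioi hTb
  have hcomp : IntegrableOn (fun t => f (t * b)) (Ioi T) :=
    (integrableOn_Ioi_comp_mul_right_iff f T hb0).2 (hf.mono_set hs)
  refine ⟨hf.sub hcomp, ?_⟩
  rw [integral_sub hf hcomp, integral_comp_mul_right_Ioi f T hb0, smul_eq_mul]
  obtain ⟨J, hJ⟩ : ∃ J : ℝ, J = ∫ t in Ioi (T * b), f t := ⟨_, rfl⟩
  obtain ⟨I, hI⟩ : ∃ I : ℝ, I = ∫ t in Ioi T, f t := ⟨_, rfl⟩
  have hsplit : I = (∫ t in Ioc T (T * b), f t) + J := by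
    rw [hI, hJ, ← setIntegral_union (Ioc_disjoint_Ioi le_rfl) measurableSet_Ioi
      (hf.mono_set Ioc_subset_Ioi_self) (hf.mono_set hs), Ioc_union_Ioi_eq_Ioi hTb]
  have e1 : ∫ t in Ioc T (T * b), f t ≤ f T * (T * b - T) := by
    have h1 : ∫ t in Ioc T (T * b), f t ≤ ∫ _ in Ioc T (T * b), f T := by
      refine setIntegral_mono_on (hf.mono_set Ioc_subset_Ioi_self) ?_ measurableSet_Ioc
        fun t ht => hanti t ht.1.le
      exact integrableOn_const (by simp)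
    refine h1.trans (le_of_eq ?_)
    rw [setIntegral_const, Measure.real, Real.volume_Ioc, ENNReal.toReal_ofReal (by linarith),
      smul_eq_mul]
    ring
  have e0 : 0 ≤ ∫ t in Ioc T (T * b), f t :=
    setIntegral_nonneg measurableSet_Ioc fun t ht => hnn t ht.1.le
  have hJ0 : 0 ≤ J := by
    rw [hJ]
    exact setIntegral_nonneg measurableSet_Ioi fun t ht => hnn t (hTb.trans (mem_Ioi.1 ht).le)
  rw [← hI, ← hJ]
  have e2 : 1 - b⁻¹ ≤ ε := by
    have h1 : (1 - ε) * b ≤ 1 := by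
      rw [hb]
      nlinarith
    have h2 : 1 - ε ≤ b⁻¹ := by
      rw [inv_eq_one_div, le_div_iff₀ hb0]
      exact h1
    linarith
  have e3 : (1 - b⁻¹) * J ≤ ε * J := mul_le_mul_of_nonneg_right e2 hJ0
  have e4 : ε * J ≤ ε * I := mul_le_mul_of_nonneg_left (by linarith) hε
  have e5 : f T * (T * b - T) = ε * (T * f T) := by rw [hb]; ring
  have e6 : I - b⁻¹ * J = (∫ t in Ioc T (T * b), f t) + (1 - b⁻¹) * J := by
    rw [hsplit]
    ring
  rw [e6, mul_add]
  linarith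

/-- the comparison of completed zeta functions -/
theorem la_le (hd : DualFacts) (hθ : ThetaFacts) (hTT : TT)
    (h1 : ∀ A : Matrix (Fin 3) (Fin 3) ℝ, |A.det| = 1 → U1 A)
    (h2 : ∀ A : Matrix (Fin 3) (Fin 3) ℝ, |A.det| = 1 → U2 A)
    (hn1 : Tail1) (hn2 : Tail2) : LaLe := by
  intro A hA σ hσ hne
  obtain ⟨hAF, hAB, hdAF, hdAB, hdual⟩ := hd
  have hdA := (hdual A hA).1
  have hI : ∀ (B : Matrix (Fin 3) (Fin 3) ℝ), |B.det| = 1 → ∀ r : ℝ,
      IntegrableOn (fun t => (th B t - 1) * t ^ r) (Ioi 1) := fun B hB r => (hθ B hB).2.2.2.2 r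
  have hI0 : ∀ (B : Matrix (Fin 3) (Fin 3) ℝ), |B.det| = 1 →
      IntegrableOn (fun t => th B t - 1) (Ioi 1) := by
    intro B hB
    refine (hI B hB 0).congr_fun (fun t _ => ?_) measurableSet_Ioi
    show (th B t - 1) * t ^ (0 : ℝ) = th B t - 1
    rw [Real.rpow_zero, mul_one]
  obtain ⟨u, hu⟩ : ∃ u : ℝ → ℝ, u = fun t => UU A t := ⟨_, rfl⟩
  have hut : ∀ t, u t = (th A t - 1) + (th (dl A) t - 1) - (th AF t - 1) - (th AB t - 1) := by
    intro t
    rw [hu]
    show UU A t = _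
    unfold UU
    ring
  have huI : IntegrableOn u (Ioi 1) := by
    refine ((((hI0 A hA).add (hI0 _ hdA)).sub (hI0 _ hAF)).sub (hI0 _ hAB)).congr_fun
      (fun t _ => ?_) measurableSet_Ioi
    rw [hut]
    rfl
  have huw : IntegrableOn (fun t => u t * t ^ (1 / 2 - σ)) (Ioi 1) := by
    refine ((((hI A hA (1 / 2 - σ)).add (hI _ hdA (1 / 2 - σ))).sub (hI _ hAF (1 / 2 - σ))).sub
      (hI _ hAB (1 / 2 - σ))).congr_fun (fun t _ => ?_) measurableSet_Ioi
    show (th A t - 1) * t ^ (1 / 2 - σ) + (th (dl A) t - 1) * t ^ (1 / 2 - σ) -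
      (th AF t - 1) * t ^ (1 / 2 - σ) - (th AB t - 1) * t ^ (1 / 2 - σ) = u t * t ^ (1 / 2 - σ)
    rw [hut]
    ring
  -- monotonicity
  have hmono : ∀ (B : Matrix (Fin 3) (Fin 3) ℝ), |B.det| = 1 → ∀ t t' : ℝ, 0 < t → t ≤ t' →
      th B t' ≤ th B t := by
    intro B hB t t' ht htt
    unfold th
    refine ((hθ B hB).1 t' (by linarith)).tsum_le_tsum (fun z => ?_) ((hθ B hB).1 t ht)
    rw [Real.exp_le_exp]
    have h0 : 0 ≤ nm B z := Finset.sum_nonneg fun _ _ => sq_nonneg _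
    have h3 : Real.pi * t * nm B z ≤ Real.pi * t' * nm B z :=
      mul_le_mul_of_nonneg_right (mul_le_mul_of_nonneg_left htt Real.pi_pos.le) h0
    linarith
  have hge1 : ∀ (B : Matrix (Fin 3) (Fin 3) ℝ), |B.det| = 1 → ∀ t : ℝ, 1 ≤ t → 0 ≤ th B t - 1 := by
    intro B hB t ht
    obtain ⟨C, c, -, -, h⟩ := (hθ B hB).2.2.2.1
    exact (h t ht).1
  -- positivity of the integral of `u w`
  have key : 0 ≤ ∫ t in Ioi 1, u t * t ^ (1 / 2 - σ) := by
    have hpos : ∀ t ∈ Ioc (1 : ℝ) (819 / 256), 0 ≤ u t := by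
      intro t ht
      rw [hu]
      exact h1 A hA t ht.1.le ht.2
    have hw1 : ∀ t ∈ Ioc (1 : ℝ) (819 / 256),
        0 ≤ u t ∧ (819 / 256 : ℝ) ^ (1 / 2 - σ) ≤ t ^ (1 / 2 - σ) := by
      intro t ht
      refine ⟨hpos t ht, ?_⟩
      exact Real.rpow_le_rpow_of_nonpos (by linarith [ht.1]) ht.2 (by linarith)
    have hw2 : ∀ t ∈ Ioi (819 / 256 : ℝ), 0 ≤ t ^ (1 / 2 - σ) ∧
        t ^ (1 / 2 - σ) ≤ (819 / 256 : ℝ) ^ (1 / 2 - σ) := by
      intro t ht
      have ht' : (819 / 256 : ℝ) < t := ht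
      refine ⟨Real.rpow_nonneg (by linarith) _, ?_⟩
      exact Real.rpow_le_rpow_of_nonpos (by norm_num) ht'.le (by linarith)
    rcases h2 A hA with hc | ⟨ε, hε, hc1, hc2⟩
    · -- first case
      have hlow := e5_low u (819 / 256) (9 / 1000000) (by norm_num) huI hpos (by
        intro t a b
        rw [hu]
        exact hc t a b)
      have hmI : IntegrableOn (fun t => th AB t - th AF t) (Ioi (819 / 256 : ℝ)) := by
        have h3 : IntegrableOn (fun t => (th AB t - 1) - (th AF t - 1)) (Ioi 1) :=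
          (hI0 _ hAB).sub (hI0 _ hAF)
        refine (h3.mono_set (Ioi_subset_Ioi (by norm_num))).congr_fun (fun t _ => ?_)
          measurableSet_Ioi
        show (th AB t - 1) - (th AF t - 1) = th AB t - th AF t
        ring
      refine e5_core u _ (fun t => th AB t - th AF t) (819 / 256) ((819 / 256 : ℝ) ^ (1 / 2 - σ))
        (by norm_num) (by positivity) huI huw hmI hw1 (fun t ht => ?_) ?_
      · obtain ⟨a, b⟩ := hw2 t ht
        have ht' : (819 / 256 : ℝ) < t := ht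
        have ht1 : 1 ≤ t := by linarith
        refine ⟨a, b, ?_, ?_⟩
        · have := hTT AB hAB t ht1
          show 0 ≤ th AB t - th AF t
          linarith
        · have e1 := hTT A hA t ht1
          have e2 := hTT (dl A) hdA t ht1
          show -(th AB t - th AF t) ≤ u t
          rw [hut]
          linarith
      · have : (∫ t in Ioi (819 / 256 : ℝ), (th AB t - th AF t)) ≤ 45 / 10000000 := hn1
        linarith
    · -- second case
      have hlow := e5_low u (819 / 256) (ε / 1000) (by norm_num) huI hpos (by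
        intro t a b
        rw [hu]
        exact hc1 t a b)
      have hfI : IntegrableOn (fun t => th AB t - 1) (Ioi (819 / 256 : ℝ)) :=
        (hI0 _ hAB).mono_set (Ioi_subset_Ioi (by norm_num))
      obtain ⟨hmI, hmle⟩ := e5_tail (fun t => th AB t - 1) (819 / 256) ε (by norm_num) hε hfI
        (fun t ht => hge1 _ hAB t (by linarith)) (fun t ht => by
          have := hmono AB hAB (819 / 256) t (by norm_num) ht
          show th AB t - 1 ≤ th AB (819 / 256) - 1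
          linarith)
      refine e5_core u _ (fun t => (th AB t - 1) - (th AB (t * (1 + ε)) - 1)) (819 / 256)
        ((819 / 256 : ℝ) ^ (1 / 2 - σ)) (by norm_num) (by positivity) huI huw hmI hw1
        (fun t ht => ?_) ?_
      · obtain ⟨a, b⟩ := hw2 t ht
        have ht' : (819 / 256 : ℝ) < t := ht
        have ht0 : 0 < t := by linarith
        refine ⟨a, b, ?_, ?_⟩
        · have := hmono AB hAB t (t * (1 + ε)) ht0 (by nlinarith)
          show 0 ≤ (th AB t - 1) - (th AB (t * (1 + ε)) - 1)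
          linarith
        · have e1 := hc2 t ht'.le
          show -((th AB t - 1) - (th AB (t * (1 + ε)) - 1)) ≤ u t
          have e2 : u t = UU A t := by rw [hu]
          linarith
      · have e1 : 819 / 256 * (th AB (819 / 256) - 1) +
            ∫ t in Ioi (819 / 256 : ℝ), (th AB t - 1) ≤ 5 / 10000 := hn2
        have e2 := mul_le_mul_of_nonneg_left e1 hε
        have e3 : ε * (5 / 10000) = ε / 1000 / 2 := by ring
        exact hmle.trans (e2.trans (e3.le.trans hlow))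
  -- conclusion
  unfold La
  have hX : IntegrableOn (fun t : ℝ => (th AF t - 1) * t ^ (σ - 1) +
      (th (dl AF) t - 1) * t ^ (1 / 2 - σ)) (Ioi 1) := by
    refine ((hI _ hAF (σ - 1)).add (hI _ hAB (1 / 2 - σ))).congr_fun (fun t _ => ?_)
      measurableSet_Ioi
    show (th AF t - 1) * t ^ (σ - 1) + (th AB t - 1) * t ^ (1 / 2 - σ) = _
    rw [← hdAF t]
  have hY : IntegrableOn (fun t : ℝ => (th A t - 1) * t ^ (σ - 1) +
      (th (dl A) t - 1) * t ^ (1 / 2 - σ)) (Ioi 1) := (hI _ hA (σ - 1)).add (hI _ hdA (1 / 2 - σ))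
  have hle : ∫ t in Ioi 1, u t * t ^ (1 / 2 - σ) ≤
      ∫ t in Ioi (1 : ℝ), (((th A t - 1) * t ^ (σ - 1) + (th (dl A) t - 1) * t ^ (1 / 2 - σ)) -
        ((th AF t - 1) * t ^ (σ - 1) + (th (dl AF) t - 1) * t ^ (1 / 2 - σ))) := by
    refine setIntegral_mono_on huw (hY.sub hX) measurableSet_Ioi fun t ht => ?_
    have ht' : (1 : ℝ) < t := ht
    have hg := hTT A hA t ht'.le
    have hpw : t ^ (1 / 2 - σ) ≤ t ^ (σ - 1) :=
      Real.rpow_le_rpow_of_exponent_le ht'.le (by linarith)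
    rw [hut, hdAF t]
    nlinarith [mul_nonneg (sub_nonneg.2 hg) (sub_nonneg.2 hpw)]
  rw [integral_sub hY hX] at hle
  linarith

end Pool.Agent.H999.Ep3
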