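import Pool.Agent.H999.Ep3.Def

set_option autoImplicit false

open Matrix MeasureTheory Set

namespace Pool.Agent.H999.Ep3

/-- from scales below one to scales above one -/
theorem tt_of (hd : DualFacts) (hθ : ThetaFacts)
    (h : ∀ β : ℝ, 0 < β → β < 1 → ∀ A : Matrix (Fin 3) (Fin 3) ℝ, |A.det| = 1 → th AB β ≤ th A β) :
    TT := by
  intro A hA t ht
  obtain ⟨hF, _, hdF, _, hdual⟩ := hd
  have key : ∀ t : ℝ, 1 < t → th AF t ≤ th A t := by
    intro t ht
    have ht0 : 0 < t := by linarith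
    rw [(hθ AF hF).2.2.1 t ht0, (hθ A hA).2.2.1 t ht0, hdF]
    have h1 : (0 : ℝ) < 1 / t := by positivity
    have h2 : 1 / t < 1 := by rw [div_lt_one ht0]; exact ht
    have h3 := h (1 / t) h1 h2 (dl A) (hdual A hA).1
    exact mul_le_mul_of_nonneg_left h3 (Real.rpow_nonneg ht0.le _)
  rcases ht.eq_or_lt with rfl | ht
  · have c1 : ContinuousAt (th AF) 1 :=
      (hθ AF hF).2.1.continuousAt (Ioi_mem_nhds one_pos)
    have c2 : ContinuousAt (th A) 1 :=
      (hθ A hA).2.1.continuousAt (Ioi_mem_nhds one_pos)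
    have l1 := c1.tendsto.mono_left (nhdsWithin_le_nhds (s := Ioi (1 : ℝ)))
    have l2 := c2.tendsto.mono_left (nhdsWithin_le_nhds (s := Ioi (1 : ℝ)))
    exact le_of_tendsto_of_tendsto l1 l2 (Filter.eventually_of_mem self_mem_nhdsWithin
      fun t ht => key t ht)
  · exact key t ht

end Pool.Agent.H999.Ep3
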