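import Pool.Agent.H999.Ep3.Def

set_option autoImplicit false

open Matrix MeasureTheory Set

namespace Pool.Agent.H999.Ep3

/-! ### the number `q = 2 ^ (1/3)` -/

noncomputable def e6_q : ℝ := (2:ℝ) ^ ((1:ℝ)/3)

theorem e6_q_pos : 0 < e6_q := by
  unfold e6_q
  positivity

theorem e6_q_cube : e6_q ^ 3 = 2 := by
  unfold e6_q
  rw [← Real.rpow_natCast, ← Real.rpow_mul (by norm_num)]
  norm_num

theorem e6_q_inv : (2:ℝ) ^ (-(1:ℝ)/3) = e6_q⁻¹ := by
  unfold e6_q
  rw [← Real.rpow_neg (by norm_num)]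
  congr 1
  ring

theorem e6_q_lb : 1.2599 < e6_q := by
  by_contra h
  push Not at h
  have h1 : e6_q ^ 3 ≤ 1.2599 ^ 3 := pow_le_pow_left₀ e6_q_pos.le h 3
  rw [e6_q_cube] at h1
  norm_num at h1

theorem e6_q_ub : e6_q < 1.25993 := by
  by_contra h
  push Not at h
  have h1 : (1.25993 : ℝ) ^ 3 ≤ e6_q ^ 3 := pow_le_pow_left₀ (by norm_num) h 3
  rw [e6_q_cube] at h1
  norm_num at h1

/-- `a = π q² / 4` -/
noncomputable def e6_a : ℝ := Real.pi * e6_q ^ 2 / 4

/-- `b = π q` -/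
noncomputable def e6_b : ℝ := Real.pi * e6_q

theorem e6_a_lb : 1.24669 < e6_a := by
  have h1 := e6_q_lb
  have h2 := Real.pi_gt_d6
  have h3 : (1.2599 : ℝ) ^ 2 < e6_q ^ 2 := pow_lt_pow_left₀ h1 (by norm_num) (by norm_num)
  have h4 : (3.141592 : ℝ) * 1.2599 ^ 2 < Real.pi * e6_q ^ 2 :=
    mul_lt_mul'' h2 h3 (by norm_num) (by norm_num)
  unfold e6_a
  norm_num at h4 ⊢
  linarith

theorem e6_a_pos : 0 < e6_a := by
  have := e6_a_lb
  linarith

theorem e6_b_ub : e6_b < 3.9583 := by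
  have h1 := e6_q_ub
  have h2 := Real.pi_lt_d6
  have h4 : Real.pi * e6_q < (3.141593 : ℝ) * 1.25993 :=
    mul_lt_mul'' h2 h1 Real.pi_pos.le e6_q_pos.le
  unfold e6_b
  norm_num at h4 ⊢
  linarith

theorem e6_b_lb : 3.95 < e6_b := by
  have h1 := e6_q_lb
  have h2 := Real.pi_gt_d6
  have h4 : (3.141592 : ℝ) * 1.2599 < Real.pi * e6_q :=
    mul_lt_mul'' h2 h1 (by norm_num) (by norm_num)
  unfold e6_b
  norm_num at h4 ⊢
  linarith

/-! ### quadratic forms -/

/-- the integral form of the body-centred cubic lattice -/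
def e6_n (z : Fin 3 → ℤ) : ℤ := (2 * z 0 + z 2) ^ 2 + (2 * z 1 + z 2) ^ 2 + z 2 ^ 2

/-- the integral form of the face-centred cubic lattice -/
def e6_m (z : Fin 3 → ℤ) : ℤ := (z 1 + z 2) ^ 2 + (z 0 + z 2) ^ 2 + (z 0 + z 1) ^ 2

theorem e6_AB : AB = e6_q • !![(1:ℝ), 0, 1/2; 0, 1, 1/2; 0, 0, 1/2] := rfl

theorem e6_nmAB (z : Fin 3 → ℤ) : nm AB z = e6_q ^ 2 / 4 * (e6_n z : ℝ) := by
  unfold nm e6_n
  rw [e6_AB]
  simp only [Matrix.smul_mulVec, Pi.smul_apply, smul_eq_mul, Fin.sum_univ_three]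
  simp [Matrix.mulVec, dotProduct, Fin.sum_univ_three]
  ring

theorem e6_nmAF (z : Fin 3 → ℤ) : nm AF z = e6_q / 2 * (e6_m z : ℝ) := by
  have hq : e6_q⁻¹ ^ 2 = e6_q / 2 := by
    have h1 := e6_q_cube
    have h2 := e6_q_pos
    field_simp
    linarith
  unfold nm AF e6_m
  rw [e6_q_inv, ← hq]
  simp only [Matrix.smul_mulVec, Pi.smul_apply, smul_eq_mul, Fin.sum_univ_three]
  simp [Matrix.mulVec, dotProduct, Fin.sum_univ_three]
  ring


/-- `|z 0| + |z 1| + |z 2|` -/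
def e6_l (z : Fin 3 → ℤ) : ℕ := (z 0).natAbs + (z 1).natAbs + (z 2).natAbs

theorem e6_natAbs_le (x : ℤ) : ((x.natAbs : ℕ) : ℤ) ≤ x ^ 2 := by
  rcases Int.natAbs_eq x with h | h
  · rcases Nat.eq_zero_or_pos x.natAbs with h0 | h0
    · rw [h0]
      positivity
    · nlinarith
  · rcases Nat.eq_zero_or_pos x.natAbs with h0 | h0
    · rw [h0]
      positivity
    · nlinarith

theorem e6_n_lb (z : Fin 3 → ℤ) : 3 * (e6_l z : ℤ) ≤ 5 * e6_n z := by
  have h0 := e6_natAbs_le (z 0)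
  have h1 := e6_natAbs_le (z 1)
  have h2 := e6_natAbs_le (z 2)
  unfold e6_l e6_n
  push_cast
  push_cast at h0 h1 h2
  nlinarith [sq_nonneg (17 * z 0 + 10 * z 2), sq_nonneg (17 * z 1 + 10 * z 2), sq_nonneg (z 2)]

/-- the vectors of the body-centred cubic lattice with norm 3 -/
def e6_S3 : Finset (Fin 3 → ℤ) :=
  {![0, 0, 1], ![-1, 0, 1], ![0, -1, 1], ![-1, -1, 1], ![0, 0, -1], ![1, 0, -1], ![0, 1, -1],
    ![1, 1, -1]}

/-- the vectors of the body-centred cubic lattice with norm 4 -/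
def e6_S4 : Finset (Fin 3 → ℤ) :=
  {![1, 0, 0], ![-1, 0, 0], ![0, 1, 0], ![0, -1, 0], ![-1, -1, 2], ![1, 1, -2]}

/-- the vectors of the face-centred cubic lattice with norm 2 -/
def e6_S2 : Finset (Fin 3 → ℤ) :=
  {![0, 0, 1], ![0, 0, -1], ![0, 1, 0], ![0, -1, 0], ![1, 0, 0], ![-1, 0, 0], ![-1, 1, 0],
    ![1, -1, 0], ![-1, 0, 1], ![1, 0, -1], ![0, -1, 1], ![0, 1, -1]}

theorem e6_S3_card : e6_S3.card = 8 := by decide
theorem e6_S4_card : e6_S4.card = 6 := by decide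
theorem e6_S2_card : e6_S2.card = 12 := by decide
theorem e6_S3_n : ∀ z ∈ e6_S3, e6_n z = 3 := by decide
theorem e6_S4_n : ∀ z ∈ e6_S4, e6_n z = 4 := by decide
theorem e6_S2_m : ∀ z ∈ e6_S2, e6_m z = 2 := by decide

theorem e6_small (z : Fin 3 → ℤ) (hz : e6_n z < 8) : z = 0 ∨ z ∈ e6_S3 ∨ z ∈ e6_S4 := by
  unfold e6_n at hz
  have h2 : -2 ≤ z 2 ∧ z 2 ≤ 2 := by
    constructor <;> nlinarith [sq_nonneg (2 * z 0 + z 2), sq_nonneg (2 * z 1 + z 2)]
  have h0 : -2 ≤ 2 * z 0 + z 2 ∧ 2 * z 0 + z 2 ≤ 2 := by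
    constructor <;> nlinarith [sq_nonneg (z 2), sq_nonneg (2 * z 1 + z 2)]
  have h1 : -2 ≤ 2 * z 1 + z 2 ∧ 2 * z 1 + z 2 ≤ 2 := by
    constructor <;> nlinarith [sq_nonneg (z 2), sq_nonneg (2 * z 0 + z 2)]
  obtain ⟨a, ha⟩ : ∃ a, a = z 0 := ⟨_, rfl⟩
  obtain ⟨b, hb⟩ : ∃ b, b = z 1 := ⟨_, rfl⟩
  obtain ⟨c, hc⟩ : ∃ c, c = z 2 := ⟨_, rfl⟩
  have hz' : z = ![a, b, c] := by
    funext i
    fin_cases i <;> simp [ha, hb, hc]
  rw [← ha, ← hb, ← hc] at hz
  rw [← ha, ← hc] at h0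
  rw [← hb, ← hc] at h1
  rw [← hc] at h2
  rw [hz']
  clear hz' ha hb hc
  have hc1 := h2.1
  have hc2 := h2.2
  have ha1 : -2 ≤ a := by omega
  have ha2 : a ≤ 2 := by omega
  have hb1 : -2 ≤ b := by omega
  have hb2 : b ≤ 2 := by omega
  interval_cases c <;> interval_cases a <;> first | omega | (interval_cases b <;> first | omega | decide)

/-! ### the majorant `∏ (1/2)^|z_i|` -/

noncomputable def e6_g (z : Fin 3 → ℤ) : ℝ := ∏ i, (1 / 2 : ℝ) ^ (z i).natAbs

theorem e6_g_pos (z : Fin 3 → ℤ) : 0 < e6_g z := by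
  unfold e6_g
  exact Finset.prod_pos fun i _ => by positivity

theorem e6_sum1 (N : ℕ) : ∑ j ∈ Finset.Icc (-(N : ℤ)) N, (1 / 2 : ℝ) ^ j.natAbs =
    3 - 2 * (1 / 2) ^ N := by
  induction N with
  | zero => norm_num
  | succ N ih =>
    have h : Finset.Icc (-((N + 1 : ℕ) : ℤ)) ((N + 1 : ℕ) : ℤ) =
        insert (-((N : ℤ) + 1)) (insert ((N : ℤ) + 1) (Finset.Icc (-(N : ℤ)) N)) := by
      ext x
      simp only [Finset.mem_Icc, Finset.mem_insert]
      push_cast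
      omega
    rw [h, Finset.sum_insert, Finset.sum_insert, ih]
    · have h1 : (-((N : ℤ) + 1)).natAbs = N + 1 := by omega
      have h2 : ((N : ℤ) + 1).natAbs = N + 1 := by omega
      rw [h1, h2, pow_succ]
      ring
    · simp only [Finset.mem_Icc]
      omega
    · simp only [Finset.mem_Icc, Finset.mem_insert]
      omega

theorem e6_sum_g (s : Finset (Fin 3 → ℤ)) : ∑ z ∈ s, e6_g z ≤ 27 := by
  classical
  obtain ⟨N, hN⟩ : ∃ N : ℕ, ∀ z ∈ s, e6_l z ≤ N := by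
    refine ⟨∑ z ∈ s, e6_l z, fun z hz => ?_⟩
    exact Finset.single_le_sum (f := e6_l) (fun _ _ => Nat.zero_le _) hz
  have hsub : s ⊆ Fintype.piFinset fun _ : Fin 3 => Finset.Icc (-(N : ℤ)) N := by
    intro z hz
    have h := hN z hz
    unfold e6_l at h
    rw [Fintype.mem_piFinset]
    intro i
    rw [Finset.mem_Icc]
    fin_cases i
    · show -(N : ℤ) ≤ z 0 ∧ z 0 ≤ N
      omega
    · show -(N : ℤ) ≤ z 1 ∧ z 1 ≤ N
      omega
    · show -(N : ℤ) ≤ z 2 ∧ z 2 ≤ N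
      omega
  refine (Finset.sum_le_sum_of_subset_of_nonneg hsub fun z _ _ => (e6_g_pos z).le).trans ?_
  have h1 : ∑ z ∈ Fintype.piFinset (fun _ : Fin 3 => Finset.Icc (-(N : ℤ)) N), e6_g z =
      ∏ _i : Fin 3, ∑ j ∈ Finset.Icc (-(N : ℤ)) N, (1 / 2 : ℝ) ^ j.natAbs :=
    (Finset.prod_univ_sum (fun _ : Fin 3 => Finset.Icc (-(N : ℤ)) N)
      (fun _ j => (1 / 2 : ℝ) ^ j.natAbs)).symm
  rw [h1, Finset.prod_const, e6_sum1]
  have h2 : (0 : ℝ) < (1 / 2) ^ N := by positivity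
  have h3 : (1 / 2 : ℝ) ^ N ≤ 1 := pow_le_one₀ (by norm_num) (by norm_num)
  have h4 : (3 - 2 * (1 / 2 : ℝ) ^ N) ^ 3 ≤ 3 ^ 3 := pow_le_pow_left₀ (by linarith) (by linarith) 3
  have h5 : (Finset.univ : Finset (Fin 3)).card = 3 := by simp
  rw [h5]
  linarith

/-! ### bounds of the theta functions -/

theorem e6_half : Real.exp (-(3 / 5 * e6_a)) ≤ 1 / 2 := by
  have h1 := e6_a_lb
  have h2 : Real.log 2 < 0.6931471808 := Real.log_two_lt_d9
  have h3 : Real.exp (-(3 / 5 * e6_a)) ≤ Real.exp (-Real.log 2) := by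
    apply Real.exp_le_exp.2
    norm_num at h1 h2
    linarith
  have h4 : Real.exp (-Real.log 2) = 1 / 2 := by
    rw [Real.exp_neg, Real.exp_log (by norm_num)]
    norm_num
  rw [h4] at h3
  exact h3

theorem e6_exp_g (z : Fin 3 → ℤ) : Real.exp (-e6_a * (e6_n z : ℝ)) ≤ e6_g z := by
  have h1 : (3 : ℝ) * (e6_l z : ℝ) ≤ 5 * (e6_n z : ℝ) := by exact_mod_cast e6_n_lb z
  have h2 : -e6_a * (e6_n z : ℝ) ≤ (e6_l z : ℝ) * (-(3 / 5 * e6_a)) := by
    have := e6_a_pos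
    nlinarith
  refine (Real.exp_le_exp.2 h2).trans ?_
  rw [Real.exp_nat_mul]
  refine (pow_le_pow_left₀ (Real.exp_pos _).le e6_half _).trans (le_of_eq ?_)
  unfold e6_g e6_l
  rw [Fin.prod_univ_three, pow_add, pow_add]

theorem e6_fAB (t : ℝ) (z : Fin 3 → ℤ) :
    Real.exp (-Real.pi * t * nm AB z) = Real.exp (-(e6_a * t) * (e6_n z : ℝ)) := by
  rw [e6_nmAB]
  unfold e6_a
  congr 1
  ring

theorem e6_fAF (t : ℝ) (z : Fin 3 → ℤ) :
    Real.exp (-Real.pi * t * nm AF z) = Real.exp (-(e6_b * t / 2) * (e6_m z : ℝ)) := by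
  rw [e6_nmAF]
  unfold e6_b
  congr 1
  ring

theorem e6_thAB (t : ℝ) (ht : 1 ≤ t)
    (hs : Summable fun z : Fin 3 → ℤ => Real.exp (-Real.pi * t * nm AB z)) :
    th AB t ≤ 1 + 8 * Real.exp (-(3 * e6_a) * t) + 6 * Real.exp (-(4 * e6_a) * t) +
      27 * Real.exp (8 * e6_a) * Real.exp (-(8 * e6_a) * t) := by
  classical
  unfold th
  refine hs.tsum_le_of_sum_le fun s => ?_
  simp only [e6_fAB]
  set S : Finset (Fin 3 → ℤ) := insert 0 (e6_S3 ∪ e6_S4) with hS
  rw [← Finset.sum_filter_add_sum_filter_not s (fun z => z ∈ S)]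
  have h1 : ∑ z ∈ s.filter (fun z => z ∈ S), Real.exp (-(e6_a * t) * (e6_n z : ℝ)) ≤
      1 + 8 * Real.exp (-(3 * e6_a) * t) + 6 * Real.exp (-(4 * e6_a) * t) := by
    refine (Finset.sum_le_sum_of_subset_of_nonneg (t := S)
      (fun z hz => (Finset.mem_filter.1 hz).2) fun z _ _ => (Real.exp_pos _).le).trans
      (le_of_eq ?_)
    have n0 : (0 : Fin 3 → ℤ) ∉ e6_S3 ∪ e6_S4 := by decide
    have dj : Disjoint e6_S3 e6_S4 := by
      rw [Finset.disjoint_left]
      intro z h3 h4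
      have := e6_S3_n z h3
      have := e6_S4_n z h4
      omega
    rw [hS, Finset.sum_insert n0, Finset.sum_union dj,
      Finset.sum_congr rfl (fun z hz => by rw [e6_S3_n z hz]),
      Finset.sum_congr (s₁ := e6_S4) rfl (fun z hz => by rw [e6_S4_n z hz]),
      Finset.sum_const, Finset.sum_const, e6_S3_card, e6_S4_card]
    have e0 : e6_n 0 = 0 := by decide
    rw [e0]
    simp only [Int.cast_zero, mul_zero, Real.exp_zero, nsmul_eq_mul, Nat.cast_ofNat,
      Int.cast_ofNat]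
    have a1 : -(e6_a * t) * 3 = -(3 * e6_a) * t := by ring
    have a2 : -(e6_a * t) * 4 = -(4 * e6_a) * t := by ring
    rw [a1, a2]
    ring
  have h2 : ∑ z ∈ s.filter (fun z => ¬ z ∈ S), Real.exp (-(e6_a * t) * (e6_n z : ℝ)) ≤
      27 * Real.exp (8 * e6_a) * Real.exp (-(8 * e6_a) * t) := by
    have h3 : ∀ z ∈ s.filter (fun z => ¬ z ∈ S), Real.exp (-(e6_a * t) * (e6_n z : ℝ)) ≤
        e6_g z * (Real.exp (8 * e6_a) * Real.exp (-(8 * e6_a) * t)) := by
      intro z hz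
      have hz2 := (Finset.mem_filter.1 hz).2
      have hn : 8 ≤ e6_n z := by
        by_contra hlt
        push Not at hlt
        apply hz2
        rw [hS, Finset.mem_insert, Finset.mem_union]
        exact e6_small z hlt
      have hn' : (8 : ℝ) ≤ (e6_n z : ℝ) := by exact_mod_cast hn
      have e1 : Real.exp (8 * e6_a) * Real.exp (-(8 * e6_a) * t) =
          Real.exp (-(e6_a * (t - 1)) * 8) := by
        rw [← Real.exp_add]
        congr 1
        ring
      have e2 : Real.exp (-(e6_a * t) * (e6_n z : ℝ)) =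
          Real.exp (-e6_a * (e6_n z : ℝ)) * Real.exp (-(e6_a * (t - 1)) * (e6_n z : ℝ)) := by
        rw [← Real.exp_add]
        congr 1
        ring
      rw [e1, e2]
      refine mul_le_mul (e6_exp_g z) ?_ (Real.exp_pos _).le (e6_g_pos z).le
      apply Real.exp_le_exp.2
      have h5 : 0 ≤ e6_a * (t - 1) := mul_nonneg e6_a_pos.le (by linarith)
      nlinarith
    refine (Finset.sum_le_sum h3).trans ?_
    rw [← Finset.sum_mul]
    have h4 := e6_sum_g (s.filter (fun z => ¬ z ∈ S))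
    have h5 : 0 ≤ Real.exp (8 * e6_a) * Real.exp (-(8 * e6_a) * t) := by positivity
    rw [mul_assoc]
    exact mul_le_mul_of_nonneg_right h4 h5
  linarith

theorem e6_thAF (t : ℝ)
    (hs : Summable fun z : Fin 3 → ℤ => Real.exp (-Real.pi * t * nm AF z)) :
    1 + 12 * Real.exp (-e6_b * t) ≤ th AF t := by
  classical
  unfold th
  refine le_trans (le_of_eq ?_) (hs.sum_le_tsum (insert 0 e6_S2) fun z _ => (Real.exp_pos _).le)
  have n0 : (0 : Fin 3 → ℤ) ∉ e6_S2 := by decide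
  simp only [e6_fAF]
  rw [Finset.sum_insert n0, Finset.sum_congr rfl (fun z hz => by rw [e6_S2_m z hz]),
    Finset.sum_const, e6_S2_card]
  have e0 : e6_m 0 = 0 := by decide
  rw [e0]
  simp only [Int.cast_zero, mul_zero, Real.exp_zero, nsmul_eq_mul, Nat.cast_ofNat,
      Int.cast_ofNat]
  have a1 : -(e6_b * t / 2) * 2 = -e6_b * t := by ring
  rw [a1]

/-! ### numerical bounds -/

theorem e6_exp_ub (n : ℕ) (δ x : ℝ) (hδ : δ < 1) (hx : (n : ℝ) - δ ≤ x) :
    Real.exp (-x) ≤ (2.7182818283 ^ n * (1 - δ))⁻¹ := by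
  have h1 : 2.7182818283 ^ n * (1 - δ) ≤ Real.exp x := by
    have e1 : Real.exp ((n : ℝ) - δ) = Real.exp 1 ^ n * Real.exp (-δ) := by
      rw [← Real.exp_nat_mul, ← Real.exp_add]
      congr 1
      ring
    have e2 : 1 - δ ≤ Real.exp (-δ) := by
      have := Real.add_one_le_exp (-δ)
      linarith
    have e3 : (2.7182818283 : ℝ) ^ n ≤ Real.exp 1 ^ n :=
      pow_le_pow_left₀ (by norm_num) Real.exp_one_gt_d9.le n
    calc 2.7182818283 ^ n * (1 - δ) ≤ Real.exp 1 ^ n * Real.exp (-δ) :=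
          mul_le_mul e3 e2 (by linarith) (by positivity)
      _ = Real.exp ((n : ℝ) - δ) := e1.symm
      _ ≤ Real.exp x := Real.exp_le_exp.2 hx
  rw [Real.exp_neg]
  refine inv_anti₀ ?_ h1
  have : 0 < 1 - δ := by linarith
  positivity

theorem e6_X1 : Real.exp (-(3 * e6_a) * (819 / 256)) ≤ 637 / 100000000 := by
  have h := e6_a_lb
  have h1 := e6_exp_ub 12 0.035 (3 * e6_a * (819 / 256)) (by norm_num) (by
    norm_num at h ⊢
    linarith)
  have e : -(3 * e6_a) * (819 / 256) = -(3 * e6_a * (819 / 256)) := by ring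
  rw [e]
  refine h1.trans ?_
  norm_num

theorem e6_X2 : Real.exp (-(4 * e6_a) * (819 / 256)) ≤ 12 / 100000000 := by
  have h := e6_a_lb
  have h1 := e6_exp_ub 16 0.05 (4 * e6_a * (819 / 256)) (by norm_num) (by
    norm_num at h ⊢
    linarith)
  have e : -(4 * e6_a) * (819 / 256) = -(4 * e6_a * (819 / 256)) := by ring
  rw [e]
  refine h1.trans ?_
  norm_num

theorem e6_X8 : Real.exp (8 * e6_a) * Real.exp (-(8 * e6_a) * (819 / 256)) ≤
    1 / 100000000 := by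
  have h := e6_a_lb
  have h1 := e6_exp_ub 21 0 (8 * e6_a * (563 / 256)) (by norm_num) (by
    norm_num at h ⊢
    linarith)
  have e : Real.exp (8 * e6_a) * Real.exp (-(8 * e6_a) * (819 / 256)) =
      Real.exp (-(8 * e6_a * (563 / 256))) := by
    rw [← Real.exp_add]
    congr 1
    ring
  rw [e]
  refine h1.trans ?_
  norm_num

theorem e6_Y : 314 / 100000000 ≤ Real.exp (-e6_b * (819 / 256)) := by
  have h := e6_b_ub
  have h1 : Real.exp (-13) * Real.exp (0.3365) ≤ Real.exp (-e6_b * (819 / 256)) := by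
    rw [← Real.exp_add]
    apply Real.exp_le_exp.2
    norm_num at h ⊢
    linarith
  refine le_trans ?_ h1
  have h2 : (1 : ℝ) + 0.3365 + 0.3365 ^ 2 / 2 ≤ Real.exp 0.3365 :=
    Real.quadratic_le_exp_of_nonneg (by norm_num)
  have h3 : (2.7182818286 ^ 13 : ℝ)⁻¹ ≤ Real.exp (-13) := by
    have e1 : Real.exp (-13) = (Real.exp 1 ^ 13)⁻¹ := by
      rw [← Real.exp_nat_mul, ← Real.exp_neg]
      norm_num
    rw [e1]
    refine inv_anti₀ (by positivity) ?_
    exact pow_le_pow_left₀ (Real.exp_pos _).le Real.exp_one_lt_d9.le 13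
  refine le_trans ?_ (mul_le_mul h3 h2 (by norm_num) (Real.exp_pos _).le)
  norm_num

/-! ### integrals -/

theorem e6_int (c : ℝ) (hc : 0 < c) :
    IntegrableOn (fun t : ℝ => Real.exp (-c * t)) (Ioi (819 / 256 : ℝ)) ∧
    ∫ t in Ioi (819 / 256 : ℝ), Real.exp (-c * t) = Real.exp (-c * (819 / 256)) / c := by
  have h : -c < 0 := by linarith
  refine ⟨integrableOn_exp_mul_Ioi h _, ?_⟩
  rw [integral_exp_mul_Ioi h]
  field_simp

/-- the majorant of `th AB - 1` -/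
noncomputable def e6_G (t : ℝ) : ℝ :=
  8 * Real.exp (-(3 * e6_a) * t) + 6 * Real.exp (-(4 * e6_a) * t) +
      27 * Real.exp (8 * e6_a) * Real.exp (-(8 * e6_a) * t)

theorem e6_G_int : IntegrableOn e6_G (Ioi (819 / 256 : ℝ)) ∧
    ∫ t in Ioi (819 / 256 : ℝ), e6_G t ≤ 138 / 10000000 := by
  have ha := e6_a_pos
  obtain ⟨i1, j1⟩ := e6_int (3 * e6_a) (by linarith)
  obtain ⟨i2, j2⟩ := e6_int (4 * e6_a) (by linarith)
  obtain ⟨i3, j3⟩ := e6_int (8 * e6_a) (by linarith)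
  have k1 := i1.const_mul 8
  have k2 := i2.const_mul 6
  have k3 := i3.const_mul (27 * Real.exp (8 * e6_a))
  have k12 : Integrable (fun x => 8 * Real.exp (-(3 * e6_a) * x) +
      6 * Real.exp (-(4 * e6_a) * x)) (volume.restrict (Ioi (819 / 256 : ℝ))) := k1.add k2
  refine ⟨k12.add k3, ?_⟩
  unfold e6_G
  rw [integral_add k12 k3, integral_add k1 k2, integral_const_mul, integral_const_mul,
    integral_const_mul, j1, j2, j3]
  have h1 : Real.exp (-(3 * e6_a) * (819 / 256)) / (3 * e6_a) ≤ (637 / 100000000) / 3.74007 := by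
    refine div_le_div₀ (by norm_num) e6_X1 (by norm_num) ?_
    have := e6_a_lb
    norm_num at this ⊢
    linarith
  have h2 : Real.exp (-(4 * e6_a) * (819 / 256)) / (4 * e6_a) ≤ (12 / 100000000) / 4.98 := by
    refine div_le_div₀ (by norm_num) e6_X2 (by norm_num) ?_
    have := e6_a_lb
    norm_num at this ⊢
    linarith
  have h3 : 27 * Real.exp (8 * e6_a) * (Real.exp (-(8 * e6_a) * (819 / 256)) / (8 * e6_a)) ≤
      27 * ((1 / 100000000) / 9) := by
    have e : 27 * Real.exp (8 * e6_a) * (Real.exp (-(8 * e6_a) * (819 / 256)) / (8 * e6_a)) =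
        27 * ((Real.exp (8 * e6_a) * Real.exp (-(8 * e6_a) * (819 / 256))) / (8 * e6_a)) := by
      ring
    rw [e]
    refine mul_le_mul_of_nonneg_left ?_ (by norm_num)
    refine div_le_div₀ (by norm_num) e6_X8 (by norm_num) ?_
    have := e6_a_lb
    norm_num at this ⊢
    linarith
  norm_num at h1 h2 h3 ⊢
  linarith

/-- the tail bounds -/
theorem tails (hd : DualFacts) (hθ : ThetaFacts) : Tail1 ∧ Tail2 := by
  obtain ⟨hF, hB, -, -, -⟩ := hd
  obtain ⟨sB, -, -, -, iB⟩ := hθ AB hB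
  obtain ⟨sF, -, -, -, iF⟩ := hθ AF hF
  have hsub : Ioi (819 / 256 : ℝ) ⊆ Ioi 1 := Ioi_subset_Ioi (by norm_num)
  have iB' : IntegrableOn (fun t => th AB t - 1) (Ioi (819 / 256 : ℝ)) := by
    have h := (iB 0).mono_set hsub
    simpa only [Real.rpow_zero, mul_one] using h
  have iF' : IntegrableOn (fun t => th AF t - 1) (Ioi (819 / 256 : ℝ)) := by
    have h := (iF 0).mono_set hsub
    simpa only [Real.rpow_zero, mul_one] using h
  obtain ⟨iG, jG⟩ := e6_G_int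
  have hb := e6_b_lb
  have hb' : 0 < e6_b := by linarith
  obtain ⟨iY, jY⟩ := e6_int e6_b hb'
  have hG : ∀ t : ℝ, 819 / 256 ≤ t → th AB t - 1 ≤ e6_G t := by
    intro t ht
    have := e6_thAB t (by linarith) (sB t (by linarith))
    unfold e6_G
    linarith
  have hY : ∀ t : ℝ, 819 / 256 ≤ t → 12 * Real.exp (-e6_b * t) ≤ th AF t - 1 := by
    intro t ht
    have := e6_thAF t (sF t (by linarith))
    linarith
  constructor
  · unfold Tail1
    have e1 : ∫ t in Ioi (819 / 256 : ℝ), (th AB t - th AF t) ≤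
        ∫ t in Ioi (819 / 256 : ℝ), (e6_G t - 12 * Real.exp (-e6_b * t)) := by
      refine setIntegral_mono_on ?_ (iG.sub (iY.const_mul 12)) measurableSet_Ioi fun t ht => ?_
      · have h := iB'.sub iF'
        refine h.congr_fun (fun t _ => ?_) measurableSet_Ioi
        simp
      · have h1 := hG t (le_of_lt ht)
        have h2 := hY t (le_of_lt ht)
        linarith
    refine e1.trans ?_
    rw [integral_sub iG (iY.const_mul 12), integral_const_mul, jY]
    have h3 : (314 / 100000000) / 3.9583 ≤ Real.exp (-e6_b * (819 / 256)) / e6_b :=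
      div_le_div₀ (Real.exp_pos _).le e6_Y hb' e6_b_ub.le
    norm_num at h3 jG ⊢
    linarith
  · unfold Tail2
    have e1 : ∫ t in Ioi (819 / 256 : ℝ), (th AB t - 1) ≤
        ∫ t in Ioi (819 / 256 : ℝ), e6_G t := by
      refine setIntegral_mono_on iB' iG measurableSet_Ioi fun t ht => ?_
      exact hG t (le_of_lt ht)
    have h1 := hG (819 / 256) le_rfl
    have x1 := e6_X1
    have x2 := e6_X2
    have x8 := e6_X8
    unfold e6_G at h1
    have e2 : 27 * Real.exp (8 * e6_a) * Real.exp (-(8 * e6_a) * (819 / 256)) =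
        27 * (Real.exp (8 * e6_a) * Real.exp (-(8 * e6_a) * (819 / 256))) := by ring
    rw [e2] at h1
    have h2 : th AB (819 / 256) - 1 ≤ 1 / 10000 := by
      norm_num at h1 x1 x2 x8 ⊢
      linarith
    linarith

end Pool.Agent.H999.Ep3
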