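import Pool.Agent.H999.Ep3.Def
import Pool.Graph.R_pool_sql_team_seeded_efc1946e.K1H99.FCC.Poi

set_option autoImplicit false

open Matrix MeasureTheory Set

namespace Pool.Agent.H999.Ep3

theorem e2_dual {A : Matrix (Fin 3) (Fin 3) ℝ} (h : |A.det| = 1) : (dl A)ᵀ * A = 1 := by
  have hdet : IsUnit A.det := by
    rw [isUnit_iff_ne_zero]
    intro h0
    rw [h0, abs_zero] at h
    exact zero_ne_one h
  unfold dl
  rw [transpose_transpose]
  exact nonsing_inv_mul A hdet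

theorem e2_nm_nonneg (A : Matrix (Fin 3) (Fin 3) ℝ) (z : Fin 3 → ℤ) : 0 ≤ nm A z :=
  Finset.sum_nonneg fun _ _ => sq_nonneg _

theorem e2_nm_zero (A : Matrix (Fin 3) (Fin 3) ℝ) : nm A 0 = 0 := by
  unfold nm
  have : (fun j : Fin 3 => (((0 : Fin 3 → ℤ) j : ℤ) : ℝ)) = 0 := by
    funext j
    simp
  rw [this]
  simp

theorem e2_exp_eq (A : Matrix (Fin 3) (Fin 3) ℝ) (t : ℝ) (z : Fin 3 → ℤ) :
    Real.exp (-Real.pi * t * nm A z) =
      Real.exp (-(Real.pi * t) * Pool.Agent.K1H99.FCC.nsq A (Pool.Agent.K1H99.FCC.rv z)) := by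
  congr 1
  have : nm A z = Pool.Agent.K1H99.FCC.nsq A (Pool.Agent.K1H99.FCC.rv z) := rfl
  rw [this]
  ring

theorem e2_summable {A : Matrix (Fin 3) (Fin 3) ℝ} (h : |A.det| = 1) {t : ℝ} (ht : 0 < t) :
    Summable fun z : Fin 3 → ℤ => Real.exp (-Real.pi * t * nm A z) := by
  have h1 := Pool.Agent.K1H99.FCC.summable_gauss (e2_dual h) (c := Real.pi * t)
    (mul_pos Real.pi_pos ht)
  refine h1.congr fun z => ?_
  exact (e2_exp_eq A t z).symm

theorem e2_low {A : Matrix (Fin 3) (Fin 3) ℝ} (h : |A.det| = 1) :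
    ∃ c : ℝ, 0 < c ∧ ∀ z : Fin 3 → ℤ, z ≠ 0 → c ≤ nm A z := by
  obtain ⟨c, hc, h1⟩ := Pool.Agent.K1H99.FCC.nsq_ge (e2_dual h)
  refine ⟨c, hc, fun z hz => ?_⟩
  have h2 : (1 : ℝ) ≤ ‖Pool.Agent.K1H99.FCC.rv z‖ := by
    obtain ⟨i, hi⟩ := Function.ne_iff.1 hz
    have h3 : |((z i : ℤ) : ℝ)| ≤ ‖Pool.Agent.K1H99.FCC.rv z‖ := by
      have := norm_le_pi_norm (Pool.Agent.K1H99.FCC.rv z) i
      rwa [Real.norm_eq_abs] at this
    have h4 : (1 : ℝ) ≤ |((z i : ℤ) : ℝ)| := by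
      have : (1 : ℤ) ≤ |z i| := Int.one_le_abs hi
      exact_mod_cast this
    linarith
  have h3 : (1 : ℝ) ≤ ‖Pool.Agent.K1H99.FCC.rv z‖ ^ 2 := one_le_pow₀ h2
  have h4 := h1 (Pool.Agent.K1H99.FCC.rv z)
  have h5 : nm A z = Pool.Agent.K1H99.FCC.nsq A (Pool.Agent.K1H99.FCC.rv z) := rfl
  rw [h5]
  nlinarith

theorem e2_cont {A : Matrix (Fin 3) (Fin 3) ℝ} (h : |A.det| = 1) : ContinuousOn (th A) (Ioi 0) := by
  intro t₀ ht₀
  have ht₀' : (0 : ℝ) < t₀ := ht₀
  have hc : ContinuousOn (th A) (Ioi (t₀ / 2)) := by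
    unfold th
    refine continuousOn_tsum (fun z => ?_) (e2_summable h (t := t₀ / 2) (by positivity)) ?_
    · exact Continuous.continuousOn (by fun_prop)
    · intro z t ht
      rw [Real.norm_eq_abs, Real.abs_exp, Real.exp_le_exp]
      have h1 := e2_nm_nonneg A z
      have h2 : t₀ / 2 ≤ t := (mem_Ioi.1 ht).le
      have h3 : Real.pi * (t₀ / 2) * nm A z ≤ Real.pi * t * nm A z :=
        mul_le_mul_of_nonneg_right (mul_le_mul_of_nonneg_left h2 Real.pi_pos.le) h1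
      linarith
  exact (hc.continuousAt (Ioi_mem_nhds (by linarith))).continuousWithinAt

theorem e2_decay {A : Matrix (Fin 3) (Fin 3) ℝ} (h : |A.det| = 1) :
    ∃ C c : ℝ, 0 < C ∧ 0 < c ∧ ∀ t : ℝ, 1 ≤ t → 0 ≤ th A t - 1 ∧
      th A t - 1 ≤ C * Real.exp (-c * t) := by
  obtain ⟨c, hc, hlow⟩ := e2_low h
  have hsplit : ∀ t : ℝ, 0 < t → th A t =
      1 + ∑' z : Fin 3 → ℤ, if z = 0 then 0 else Real.exp (-Real.pi * t * nm A z) := by
    intro t ht
    have h1 := (e2_summable h ht).tsum_eq_add_tsum_ite (0 : Fin 3 → ℤ)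
    unfold th
    rw [h1, e2_nm_zero, mul_zero, Real.exp_zero]
  have hnn : ∀ (t : ℝ) (z : Fin 3 → ℤ),
      0 ≤ (if z = 0 then 0 else Real.exp (-Real.pi * t * nm A z)) := by
    intro t z
    split_ifs
    · exact le_rfl
    · exact (Real.exp_pos _).le
  have hge : ∀ t : ℝ, 0 < t → 0 ≤ th A t - 1 := by
    intro t ht
    rw [hsplit t ht, add_sub_cancel_left]
    exact tsum_nonneg (hnn t)
  have h1 : 0 < th A 1 := by linarith [hge 1 one_pos]
  refine ⟨th A 1 * Real.exp (Real.pi * c), Real.pi * c, by positivity, by positivity,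
    fun t ht => ⟨hge t (by linarith), ?_⟩⟩
  have ht0 : 0 < t := by linarith
  rw [hsplit t ht0, add_sub_cancel_left]
  have hbd : ∀ z : Fin 3 → ℤ, (if z = 0 then 0 else Real.exp (-Real.pi * t * nm A z)) ≤
      Real.exp (-(Real.pi * c) * (t - 1)) * Real.exp (-Real.pi * 1 * nm A z) := by
    intro z
    split_ifs with hz
    · positivity
    · rw [← Real.exp_add, Real.exp_le_exp]
      have h2 := hlow z hz
      have h3 : Real.pi * (t - 1) * c ≤ Real.pi * (t - 1) * nm A z :=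
        mul_le_mul_of_nonneg_left h2 (mul_nonneg Real.pi_pos.le (by linarith))
      linarith
  have hsum2 : Summable fun z : Fin 3 → ℤ =>
      Real.exp (-(Real.pi * c) * (t - 1)) * Real.exp (-Real.pi * 1 * nm A z) :=
    (e2_summable h one_pos).mul_left _
  have hsum1 : Summable fun z : Fin 3 → ℤ =>
      (if z = 0 then 0 else Real.exp (-Real.pi * t * nm A z)) :=
    Summable.of_nonneg_of_le (hnn t) hbd hsum2
  have h4 := hsum1.tsum_le_tsum hbd hsum2
  rw [tsum_mul_left] at h4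
  refine h4.trans (le_of_eq ?_)
  have h5 : (∑' z : Fin 3 → ℤ, Real.exp (-Real.pi * 1 * nm A z)) = th A 1 := rfl
  have h6 : Real.exp (-(Real.pi * c) * (t - 1)) =
      Real.exp (Real.pi * c) * Real.exp (-(Real.pi * c) * t) := by
    rw [← Real.exp_add]
    congr 1
    ring
  rw [h5, h6]
  ring

theorem e2_int {A : Matrix (Fin 3) (Fin 3) ℝ} (h : |A.det| = 1) (r : ℝ) :
    IntegrableOn (fun t => (th A t - 1) * t ^ r) (Ioi 1) := by
  obtain ⟨C, c, hC, hc, hd⟩ := e2_decay h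
  have hsub : Ioi (1 : ℝ) ⊆ Ioi 0 := Ioi_subset_Ioi zero_le_one
  have h1 : IntegrableOn (fun t : ℝ => C * (t ^ |r| * Real.exp (-c * t ^ (1 : ℝ)))) (Ioi 1) := by
    have h2 := integrableOn_rpow_mul_exp_neg_mul_rpow (p := 1) (s := |r|) (b := c)
      (by have := abs_nonneg r; linarith) one_pos hc
    exact (h2.mono_set hsub).const_mul C
  refine Integrable.mono' h1 ?_ ?_
  · refine ContinuousOn.aestronglyMeasurable ?_ measurableSet_Ioi
    refine ContinuousOn.mul ?_ ?_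
    · exact ((e2_cont h).mono hsub).sub continuousOn_const
    · refine ContinuousOn.rpow_const continuousOn_id fun t ht => Or.inl ?_
      have : (1 : ℝ) < t := ht
      exact (by linarith : (0 : ℝ) < t).ne'
  · refine (ae_restrict_iff' measurableSet_Ioi).2 (Filter.Eventually.of_forall fun t ht => ?_)
    have ht1 : (1 : ℝ) ≤ t := (mem_Ioi.1 ht).le
    obtain ⟨d1, d2⟩ := hd t ht1
    have ht0 : (0 : ℝ) < t := by linarith
    rw [Real.norm_eq_abs, abs_mul, abs_of_nonneg d1, abs_of_pos (Real.rpow_pos_of_pos ht0 r),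
      Real.rpow_one]
    have h3 : t ^ r ≤ t ^ |r| := Real.rpow_le_rpow_of_exponent_le ht1 (le_abs_self r)
    calc (th A t - 1) * t ^ r ≤ (C * Real.exp (-c * t)) * t ^ |r| :=
          mul_le_mul d2 h3 (Real.rpow_pos_of_pos ht0 r).le (by positivity)
      _ = C * (t ^ |r| * Real.exp (-c * t)) := by ring

theorem e2_fe {A : Matrix (Fin 3) (Fin 3) ℝ} (h : |A.det| = 1) {t : ℝ} (ht : 0 < t) :
    th A t = t ^ (-(3 / 2) : ℝ) * th (dl A) (1 / t) := by
  have h1 := Pool.Agent.K1H99.FCC.theta_fe (e2_dual h) ht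
  rw [h, inv_one, one_mul] at h1
  have e1 : th A t = ∑' n : Fin 3 → ℤ, Real.exp (-(Real.pi * t) *
      Pool.Agent.K1H99.FCC.nsq A (Pool.Agent.K1H99.FCC.rv n)) := by
    unfold th
    exact tsum_congr fun z => e2_exp_eq A t z
  have e2 : th (dl A) (1 / t) = ∑' n : Fin 3 → ℤ, Real.exp (-(Real.pi / t) *
      Pool.Agent.K1H99.FCC.nsq (dl A) (Pool.Agent.K1H99.FCC.rv n)) := by
    unfold th
    refine tsum_congr fun z => ?_
    rw [e2_exp_eq, mul_one_div]
  rw [e1, e2]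
  exact h1

/-- integrability and decay of the theta function, functional equation -/
theorem theta_facts : ThetaFacts := fun A h =>
  ⟨fun t ht => e2_summable h ht, e2_cont h, fun t ht => e2_fe h ht, e2_decay h, fun r => e2_int h r⟩

end Pool.Agent.H999.Ep3
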