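import Mathlib

/-!
# Lattices of covolume one in three-dimensional Euclidean space and their Epstein zeta functions
-/

set_option autoImplicit false

open Matrix

namespace Pool.Agent.H999.Ep3

/-- the linear map given by the matrix, on the integer vectors -/
noncomputable def lmap (A : Matrix (Fin 3) (Fin 3) ℝ) (z : Fin 3 → ℤ) : EuclideanSpace ℝ (Fin 3) :=
  WithLp.toLp 2 (A.mulVec fun j => (z j : ℝ))

/-- `L` is a lattice of covolume one -/
def IsLattice1 (L : Set (EuclideanSpace ℝ (Fin 3))) : Prop :=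
  ∃ A : Matrix (Fin 3) (Fin 3) ℝ, |A.det| = 1 ∧ L = Set.range (lmap A)

/-- the face-centred cubic lattice of covolume one -/
def fcc : Set (EuclideanSpace ℝ (Fin 3)) :=
  {x | ∃ n : Fin 3 → ℤ, Even (n 0 + n 1 + n 2) ∧ ∀ i, x i = (2:ℝ) ^ (-(1:ℝ)/3) * n i}

/-- the body-centred cubic lattice of covolume one -/
def bcc : Set (EuclideanSpace ℝ (Fin 3)) :=
  {x | ∃ n : Fin 3 → ℤ, (∀ i, x i = (2:ℝ) ^ ((1:ℝ)/3) * n i) ∨
    ∀ i, x i = (2:ℝ) ^ ((1:ℝ)/3) * (n i + 1 / 2)}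

/-- `Z` is the analytic continuation of the Epstein zeta function of `L` -/
def IsZeta (L : Set (EuclideanSpace ℝ (Fin 3))) (Z : ℂ → ℂ) : Prop :=
  DifferentiableOn ℂ Z {3}ᶜ ∧ ∀ s : ℂ, 3 < s.re →
    HasSum (fun x : {x : EuclideanSpace ℝ (Fin 3) // x ∈ L ∧ x ≠ 0} => ((‖x.1‖ : ℝ) : ℂ) ^ (-s)) (Z s)

end Pool.Agent.H999.Ep3
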