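import Pool.Agent.H999.Ep3.EpDual
import Pool.Agent.H999.Ep3.EpTheta
import Pool.Agent.H999.Ep3.EpExist
import Pool.Agent.H999.Ep3.EpFinal
import Pool.Agent.H999.Ep3.Lat

/-!
# The theorem for lattices in Euclidean space
-/

set_option autoImplicit false

open Matrix MeasureTheory Set

namespace Pool.Agent.H999.Ep3

theorem fs_norm (A : Matrix (Fin 3) (Fin 3) ℝ) (z : Fin 3 → ℤ) : ‖lmap A z‖ = Real.sqrt (nm A z) := by
  rw [EuclideanSpace.norm_eq]
  congr 1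
  unfold nm lmap
  refine Finset.sum_congr rfl fun i _ => ?_
  rw [Real.norm_eq_abs, sq_abs]

theorem fs_inj {A : Matrix (Fin 3) (Fin 3) ℝ} (hA : |A.det| = 1) : Function.Injective (lmap A) := by
  have hu : IsUnit A := by
    rw [Matrix.isUnit_iff_isUnit_det, isUnit_iff_ne_zero]
    intro h
    rw [h, abs_zero] at hA
    exact zero_ne_one hA
  intro z z' h
  have h1 : A.mulVec (fun j => (z j : ℝ)) = A.mulVec fun j => (z' j : ℝ) := by
    have := congrArg (WithLp.ofLp) h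
    exact this
  have h2 := Matrix.mulVec_injective_iff_isUnit.2 hu h1
  funext j
  have h3 := congrFun h2 j
  exact_mod_cast h3

theorem fs_zero (A : Matrix (Fin 3) (Fin 3) ℝ) : lmap A 0 = 0 := by
  unfold lmap
  have : (fun j => (((0 : Fin 3 → ℤ) j : ℤ) : ℝ)) = 0 := by
    funext j
    simp
  rw [this, Matrix.mulVec_zero]
  rfl

/-- the nonzero vectors of the lattice -/
noncomputable def fs_equiv {A : Matrix (Fin 3) (Fin 3) ℝ} (hA : |A.det| = 1) :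
    {z : Fin 3 → ℤ // z ≠ 0} ≃ {x : EuclideanSpace ℝ (Fin 3) // x ∈ Set.range (lmap A) ∧ x ≠ 0} :=
  Equiv.ofBijective (fun z => ⟨lmap A z.1, ⟨z.1, rfl⟩, fun h => z.2 (fs_inj hA (h.trans (fs_zero A).symm))⟩) (by
    constructor
    · intro z z' h
      have h1 : lmap A z.1 = lmap A z'.1 := congrArg Subtype.val h
      exact Subtype.ext (fs_inj hA h1)
    · rintro ⟨x, ⟨z, rfl⟩, hx⟩
      refine ⟨⟨z, fun h => hx ?_⟩, rfl⟩
      rw [h, fs_zero])

theorem fs_hasSum {A : Matrix (Fin 3) (Fin 3) ℝ} (hA : |A.det| = 1) (s c : ℂ) :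
    HasSum (fun x : {x : EuclideanSpace ℝ (Fin 3) // x ∈ Set.range (lmap A) ∧ x ≠ 0} =>
      ((‖x.1‖ : ℝ) : ℂ) ^ (-s)) c ↔
    HasSum (fun z : {z : Fin 3 → ℤ // z ≠ 0} => ((Real.sqrt (nm A z.1) : ℝ) : ℂ) ^ (-s)) c := by
  rw [← (fs_equiv hA).hasSum_iff]
  have : ((fun x : {x : EuclideanSpace ℝ (Fin 3) // x ∈ Set.range (lmap A) ∧ x ≠ 0} =>
      ((‖x.1‖ : ℝ) : ℂ) ^ (-s)) ∘ (fs_equiv hA)) =
      fun z : {z : Fin 3 → ℤ // z ≠ 0} => ((Real.sqrt (nm A z.1) : ℝ) : ℂ) ^ (-s) := by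
    funext z
    show ((‖lmap A z.1‖ : ℝ) : ℂ) ^ (-s) = _
    rw [fs_norm]
  rw [this]

theorem fs_summable {A : Matrix (Fin 3) (Fin 3) ℝ} (hA : |A.det| = 1) {s : ℂ} (hs : 3 < s.re) :
    Summable fun z : {z : Fin 3 → ℤ // z ≠ 0} => ((Real.sqrt (nm A z.1) : ℝ) : ℂ) ^ (-s) := by
  have h1 := e3_sum_nm hA (σ := s.re / 2) (by linarith)
  have h2 := h1.subtype {z : Fin 3 → ℤ | z ≠ 0}
  refine Summable.of_norm ?_
  refine h2.congr fun z => ?_
  have hz : z.1 ≠ 0 := z.2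
  have hp := e3_nm_pos hA hz
  show ‖(if z.1 = 0 then 0 else 1 : ℂ)‖ / (nm A z.1) ^ (s.re / 2) = _
  rw [if_neg hz, norm_one, Complex.norm_cpow_eq_rpow_re_of_pos (Real.sqrt_pos.2 hp), Complex.neg_re,
    Real.sqrt_eq_rpow, ← Real.rpow_mul hp.le, one_div, ← Real.rpow_neg hp.le]
  congr 1
  ring

theorem fs_iff {A : Matrix (Fin 3) (Fin 3) ℝ} (hA : |A.det| = 1) (Z : ℂ → ℂ) :
    IsZeta (Set.range (lmap A)) Z ↔ IsEpstein A Z := by
  unfold IsZeta IsEpstein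
  refine and_congr_right fun _ => forall_congr' fun s => imp_congr_right fun hs => ?_
  rw [fs_hasSum hA]
  constructor
  · intro h
    exact h.tsum_eq.symm
  · intro h
    rw [h]
    exact (fs_summable hA hs).hasSum

theorem fs_fcc : fcc = Set.range (lmap AF) := by
  have hp : (0:ℝ) < (2:ℝ) ^ (-(1:ℝ)/3) := by positivity
  ext x
  constructor
  · rintro ⟨n, ⟨m, hm⟩, hx⟩
    refine ⟨![m - n 0, m - n 1, m - n 2], ?_⟩
    have hm' : (n 0 : ℝ) + n 1 + n 2 = m + m := by exact_mod_cast hm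
    ext i
    rw [hx i]
    unfold lmap AF
    fin_cases i
    · simp [Matrix.mulVec, dotProduct, Fin.sum_univ_three]
      linear_combination (2:ℝ) ^ (-(1:ℝ)/3) * (-hm')
    · simp [Matrix.mulVec, dotProduct, Fin.sum_univ_three]
      linear_combination (2:ℝ) ^ (-(1:ℝ)/3) * (-hm')
    · simp [Matrix.mulVec, dotProduct, Fin.sum_univ_three]
      linear_combination (2:ℝ) ^ (-(1:ℝ)/3) * (-hm')
  · rintro ⟨z, rfl⟩
    refine ⟨![z 1 + z 2, z 0 + z 2, z 0 + z 1], ⟨z 0 + z 1 + z 2, ?_⟩, ?_⟩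
    · simp
      ring
    · intro i
      unfold lmap AF
      fin_cases i
      · simp [Matrix.mulVec, dotProduct, Fin.sum_univ_three]
        ring
      · simp [Matrix.mulVec, dotProduct, Fin.sum_univ_three]
        ring
      · simp [Matrix.mulVec, dotProduct, Fin.sum_univ_three]
        ring

theorem fs_bcc : bcc = Set.range (lmap AB) := by
  ext x
  constructor
  · rintro ⟨n, hx | hx⟩
    · refine ⟨![n 0 - n 2, n 1 - n 2, 2 * n 2], ?_⟩
      ext i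
      rw [hx i]
      unfold lmap AB
      fin_cases i
      · simp [Matrix.mulVec, dotProduct, Fin.sum_univ_three]
        ring
      · simp [Matrix.mulVec, dotProduct, Fin.sum_univ_three]
        ring
      · simp [Matrix.mulVec, dotProduct, Fin.sum_univ_three]
        ring
    · refine ⟨![n 0 - n 2, n 1 - n 2, 2 * n 2 + 1], ?_⟩
      ext i
      rw [hx i]
      unfold lmap AB
      fin_cases i
      · simp [Matrix.mulVec, dotProduct, Fin.sum_univ_three]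
        ring
      · simp [Matrix.mulVec, dotProduct, Fin.sum_univ_three]
        ring
      · simp [Matrix.mulVec, dotProduct, Fin.sum_univ_three]
        ring
  · rintro ⟨z, rfl⟩
    rcases Int.even_or_odd' (z 2) with ⟨m, hm | hm⟩
    · refine ⟨![z 0 + m, z 1 + m, m], Or.inl ?_⟩
      have hm' : (z 2 : ℝ) = 2 * m := by exact_mod_cast hm
      intro i
      unfold lmap AB
      fin_cases i
      · simp [Matrix.mulVec, dotProduct, Fin.sum_univ_three, hm']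
        ring
      · simp [Matrix.mulVec, dotProduct, Fin.sum_univ_three, hm']
        ring
      · simp [Matrix.mulVec, dotProduct, Fin.sum_univ_three, hm']
        ring
    · refine ⟨![z 0 + m, z 1 + m, m], Or.inr ?_⟩
      have hm' : (z 2 : ℝ) = 2 * m + 1 := by exact_mod_cast hm
      intro i
      unfold lmap AB
      fin_cases i
      · simp [Matrix.mulVec, dotProduct, Fin.sum_univ_three, hm']
        ring
      · simp [Matrix.mulVec, dotProduct, Fin.sum_univ_three, hm']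
        ring
      · simp [Matrix.mulVec, dotProduct, Fin.sum_univ_three, hm']
        ring

/-- from matrices to lattices -/
theorem final_stmt
    (h : (∀ A : Matrix (Fin 3) (Fin 3) ℝ, |A.det| = 1 → ∃ Z : ℂ → ℂ, IsEpstein A Z) ∧
      ∀ A : Matrix (Fin 3) (Fin 3) ℝ, |A.det| = 1 → ∀ Z ZF ZB : ℂ → ℂ,
        IsEpstein A Z → IsEpstein AF ZF → IsEpstein AB ZB →
        (∀ s : ℝ, 0 < s → s ≠ 3 → (Z s).im = 0) ∧
        (∀ s : ℝ, 3 / 2 ≤ s → s ≠ 3 → (ZF s).re ≤ (Z s).re) ∧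
        (∀ s : ℝ, 0 < s → s ≤ 3 / 2 → (ZB s).re ≤ (Z s).re)) :
    (IsLattice1 fcc ∧ IsLattice1 bcc) ∧
    (∀ L, IsLattice1 L → ∃ Z : ℂ → ℂ, IsZeta L Z ∧
      ∀ Z' : ℂ → ℂ, IsZeta L Z' → ∀ s : ℂ, s ≠ 3 → Z' s = Z s) ∧
    ∀ L, IsLattice1 L → ∀ Z ZF ZB : ℂ → ℂ, IsZeta L Z → IsZeta fcc ZF → IsZeta bcc ZB →
      (∀ s : ℝ, 0 < s → s ≠ 3 → (Z s).im = 0) ∧
      (∀ s : ℝ, 3 / 2 ≤ s → s ≠ 3 → (ZF s).re ≤ (Z s).re) ∧
      (∀ s : ℝ, 0 < s → s ≤ 3 / 2 → (ZB s).re ≤ (Z s).re) := by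
  obtain ⟨hF, hB, _⟩ := dual_facts
  obtain ⟨h1, h2⟩ := h
  refine ⟨⟨⟨AF, hF, fs_fcc⟩, ⟨AB, hB, fs_bcc⟩⟩, ?_, ?_⟩
  · rintro L ⟨A, hA, rfl⟩
    obtain ⟨Z, hZ⟩ := h1 A hA
    exact ⟨Z, (fs_iff hA Z).2 hZ, fun Z' hZ' s hs => epstein_unique ((fs_iff hA Z').1 hZ') hZ s hs⟩
  · rintro L ⟨A, hA, rfl⟩ Z ZF ZB hZ hZF hZB
    rw [fs_fcc] at hZF
    rw [fs_bcc] at hZB
    exact h2 A hA Z ZF ZB ((fs_iff hA Z).1 hZ) ((fs_iff hF ZF).1 hZF) ((fs_iff hB ZB).1 hZB)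

end Pool.Agent.H999.Ep3
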