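import Pool.Agent.H999.Ep3.Base

/-!
# The local analysis at the cubic forms: definitions and statements
-/

set_option autoImplicit false

open Matrix

namespace Pool.Agent.H999.Ep3

open Pool.Agent.K1H99.FCC (N0 rv nsq qf af dt PD rad Fp Qm pp tot al be sd)
open Pool.Agent.H999.Theta3 (Th RF RB Bp bb psi dx)

/-- the sum of three squares -/
def sq3 (a b c : ℝ) : ℝ := a ^ 2 + b ^ 2 + c ^ 2

/-- the sum over the short vectors of the face-centred cubic lattice -/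
noncomputable def S1 (x d1 d2 d3 w1 w2 w3 : ℝ) : ℝ :=
  psi (x * (-d1 / 2 + w1)) + psi (x * (-d1 / 2 - w1)) + psi (x * (-d2 / 2 + w2)) +
    psi (x * (-d2 / 2 - w2)) + psi (x * (-d3 / 2 + w3)) + psi (x * (-d3 / 2 - w3))

/-- the sum over the second shell of the face-centred cubic lattice -/
noncomputable def S2 (x d1 d2 d3 : ℝ) : ℝ := psi (2 * x * d1) + psi (2 * x * d2) + psi (2 * x * d3)

/-- the sum over the second shell of the body-centred cubic lattice -/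
noncomputable def S3 (y d1 d2 d3 : ℝ) : ℝ := psi (4 * y * d1) + psi (4 * y * d2) + psi (4 * y * d3)

/-- the sum over the short vectors of the body-centred cubic lattice -/
noncomputable def S4 (y w1 w2 w3 : ℝ) : ℝ :=
  psi (2 * y * (w1 + w2 + w3)) + psi (2 * y * (w1 - w2 - w3)) + psi (2 * y * (-w1 + w2 - w3)) +
    psi (2 * y * (-w1 - w2 + w3))

/-- the box of the deviations -/
structure Bx (b c d1 d2 d3 w1 w2 w3 : ℝ) : Prop where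
  sum : d1 + d2 + d3 = 0
  hd1 : |d1| ≤ b
  hd2 : |d2| ≤ b
  hd3 : |d3| ≤ b
  hw1 : |w1| ≤ c
  hw2 : |w2| ≤ c
  hw3 : |w3| ≤ c

/-- `e, v` are the coordinates of the dual form -/
structure Du (d1 d2 d3 w1 w2 w3 e1 e2 e3 v1 v2 v3 : ℝ) : Prop where
  he1 : (3 - (sq3 d1 d2 d3 / 2 + sq3 w1 w2 w3)) * (1 + e1) = 3 * ((1 + d2) * (1 + d3) - w1 ^ 2)
  he2 : (3 - (sq3 d1 d2 d3 / 2 + sq3 w1 w2 w3)) * (1 + e2) = 3 * ((1 + d3) * (1 + d1) - w2 ^ 2)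
  he3 : (3 - (sq3 d1 d2 d3 / 2 + sq3 w1 w2 w3)) * (1 + e3) = 3 * ((1 + d1) * (1 + d2) - w3 ^ 2)
  hv1 : (3 - (sq3 d1 d2 d3 / 2 + sq3 w1 w2 w3)) * v1 = 3 * (w2 * w3 - (1 + d1) * w1)
  hv2 : (3 - (sq3 d1 d2 d3 / 2 + sq3 w1 w2 w3)) * v2 = 3 * (w3 * w1 - (1 + d2) * w2)
  hv3 : (3 - (sq3 d1 d2 d3 / 2 + sq3 w1 w2 w3)) * v3 = 3 * (w1 * w2 - (1 + d3) * w3)

/-- `1 / (1 + r) = rad p / rad Fp`, `1 + s` the corresponding quantity for the dual form -/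
structure Rs (r s d1 d2 d3 w1 w2 w3 : ℝ) : Prop where
  nn : 0 ≤ r
  hr : (1 + r) ^ 3 * (1 - dx d1 d2 d3 w1 w2 w3) = 1
  hs : 1 + s = (1 - (sq3 d1 d2 d3 / 2 + sq3 w1 w2 w3) / 3) * (1 + r) ^ 2

/-- the sum `d1 w1 ^ 2 + d2 w2 ^ 2 + d3 w3 ^ 2` -/
def fdw (d1 d2 d3 w1 w2 w3 : ℝ) : ℝ := d1 * w1 ^ 2 + d2 * w2 ^ 2 + d3 * w3 ^ 2

/-- bounds for `r` -/
def RBd : Prop := ∀ r s d1 d2 d3 w1 w2 w3 : ℝ, Bx (11 / 100) (7 / 100) d1 d2 d3 w1 w2 w3 →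
  Rs r s d1 d2 d3 w1 w2 w3 →
  0 ≤ dx d1 d2 d3 w1 w2 w3 ∧
  r ≤ dx d1 d2 d3 w1 w2 w3 / 3 + 24 / 100 * dx d1 d2 d3 w1 w2 w3 ^ 2 ∧
  dx d1 d2 d3 w1 w2 w3 ^ 2 ≤ 6502 / 1000000 * sq3 d1 d2 d3 + 48685 / 1000000 * sq3 w1 w2 w3 ∧
  r ≤ 1765 / 10000 * sq3 d1 d2 d3 + 3938 / 10000 * sq3 w1 w2 w3 ∧ r ≤ 101 / 10000

/-- bounds for `s` -/
def SBd : Prop := ∀ r s d1 d2 d3 w1 w2 w3 : ℝ, Bx (11 / 100) (7 / 100) d1 d2 d3 w1 w2 w3 →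
  Rs r s d1 d2 d3 w1 w2 w3 →
  0 ≤ s ∧
  s ≤ (sq3 d1 d2 d3 / 2 + sq3 w1 w2 w3) / 3 +
    2 / 3 * (fdw d1 d2 d3 w1 w2 w3 - d1 * d2 * d3 - 2 * (w1 * w2 * w3)) +
    41 / 100 * dx d1 d2 d3 w1 w2 w3 ^ 2 ∧
  s ≤ 18517 / 100000 * sq3 d1 d2 d3 + 45179 / 100000 * sq3 w1 w2 w3 ∧ s ≤ 1113 / 100000

/-- bounds for the coordinates of the dual form -/
def DBd : Prop := ∀ d1 d2 d3 w1 w2 w3 e1 e2 e3 v1 v2 v3 : ℝ,
  Bx (11 / 100) (7 / 100) d1 d2 d3 w1 w2 w3 → Du d1 d2 d3 w1 w2 w3 e1 e2 e3 v1 v2 v3 →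
  e1 + e2 + e3 = 0 ∧
  |e1| ≤ 1206 / 10000 ∧ |e2| ≤ 1206 / 10000 ∧ |e3| ≤ 1206 / 10000 ∧
  |v1| ≤ 84 / 1000 ∧ |v2| ≤ 84 / 1000 ∧ |v3| ≤ 84 / 1000 ∧
  |e1 * e2 * e3| ≤ 201 / 10000 * sq3 e1 e2 e3 ∧ |v1 * v2 * v3| ≤ 28 / 1000 * sq3 v1 v2 v3 ∧
  sq3 e1 e2 e3 ≤ 292 / 10000 ∧
  sq3 w1 w2 w3 + 2 * fdw d1 d2 d3 w1 w2 w3 - 6 * (w1 * w2 * w3) ≤ sq3 v1 v2 v3 ∧
  sq3 d1 d2 d3 - 6 * (d1 * d2 * d3) + 2 * fdw d1 d2 d3 w1 w2 w3 -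
    (sq3 d1 d2 d3 / 2 + sq3 w1 w2 w3) ^ 2 / 3 ≤ sq3 e1 e2 e3

/-- bounds of the cubic terms -/
def CBd : Prop := ∀ d1 d2 d3 w1 w2 w3 : ℝ, Bx (11 / 100) (7 / 100) d1 d2 d3 w1 w2 w3 →
  |d1 * d2 * d3| ≤ 11 / 600 * sq3 d1 d2 d3 ∧ |fdw d1 d2 d3 w1 w2 w3| ≤ 11 / 100 * sq3 w1 w2 w3 ∧
  |w1 * w2 * w3| ≤ 7 / 300 * sq3 w1 w2 w3

/-- coefficient -/
noncomputable def FQ (τ : ℝ) : ℝ := τ ^ 2 / 2 - 12258 / 1000 * τ / 6 + 4 * τ ^ 2 * Real.exp (-τ) -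
  214 / 100000 * τ ^ 2 * (τ - 199 / 100) -
  171 / 10000 * τ ^ 2 * (2 * τ - 199 / 100) * Real.exp (-τ) - 1913 / 100000 * τ

/-- coefficient -/
noncomputable def FW (τ : ℝ) : ℝ := 2 * τ ^ 2 - 12258 / 1000 * τ / 3 -
  2489 / 100000 * τ ^ 2 * (τ - 199 / 100) -
  382 / 10000 * τ ^ 2 * (2 * τ - 199 / 100) * Real.exp (-τ) - 14323 / 100000 * τ

/-- coefficient -/
noncomputable def FE (τ k3 k4 : ℝ) : ℝ :=
  k3 * τ ^ 3 / 4 - 8 * k4 * τ ^ 3 * Real.exp (-τ) + 12258 / 1000 * τ / 3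

/-- coefficient -/
noncomputable def FF (τ k3 : ℝ) : ℝ := k3 * τ ^ 3 - 12258 / 1000 * τ / 3

/-- coefficient -/
noncomputable def FG (τ : ℝ) : ℝ := 2 / 3 * (12258 / 1000) * τ

/-- the lemma at the face-centred cubic form -/
def FLem : Prop := ∀ τ r s d1 d2 d3 w1 w2 w3 : ℝ, Bx (11 / 100) (7 / 100) d1 d2 d3 w1 w2 w3 →
  Rs r s d1 d2 d3 w1 w2 w3 → 3958 / 1000 ≤ τ → τ ≤ 127 / 10 →
  ∃ k3 k4 : ℝ, 1 - (τ - 298 / 100) * (101 / 10000) ≤ k3 ∧ k3 ≤ 1 ∧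
    1 - (2 * τ - 298 / 100) * (101 / 10000) ≤ k4 ∧ k4 ≤ 1 ∧
    FQ τ * sq3 d1 d2 d3 + FW τ * sq3 w1 w2 w3 + FE τ k3 k4 * (d1 * d2 * d3) +
      FF τ k3 * fdw d1 d2 d3 w1 w2 w3 + FG τ * (w1 * w2 * w3) ≤
    Real.exp (-(τ * r)) * (2 * S1 (τ * (1 + r)) d1 d2 d3 w1 w2 w3 +
      2 * Real.exp (-(τ * (1 + r))) * S2 (τ * (1 + r)) d1 d2 d3) -
      12258 / 1000 * (1 - Real.exp (-(τ * r)))

/-- coefficient -/
noncomputable def BQ (υ C : ℝ) : ℝ := 16 * Real.exp (-υ) * υ ^ 2 *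
  ((1 - 804 / 10000 * υ) * (99798 / 100000) - 55 / 10000 * (4 * υ - 199 / 100)) - 508 / 1000 * C * υ

/-- coefficient -/
noncomputable def BW (υ C : ℝ) : ℝ := 16 * υ ^ 2 * (1 - 1454 / 10000 * υ) -
  16 * Real.exp (-υ) * υ ^ 2 * (1297 / 100000 + 133 / 10000 * (4 * υ - 199 / 100)) -
  10599 / 10000 * C * υ

/-- coefficient -/
noncomputable def BE (υ C : ℝ) : ℝ := -96 * Real.exp (-υ) * υ ^ 2 * (1 - 804 / 10000 * υ) + 2 * C * υ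

/-- coefficient -/
noncomputable def BF (υ C : ℝ) : ℝ := 32 * υ ^ 2 * (1 - 1454 / 10000 * υ) +
  32 * Real.exp (-υ) * υ ^ 2 * (1 - 804 / 10000 * υ) - 2 * C * υ

/-- coefficient -/
noncomputable def BG (υ C : ℝ) : ℝ := -96 * υ ^ 2 * (1 - 1454 / 10000 * υ) + 4 * C * υ

/-- the lemma at the body-centred cubic form -/
def BLem : Prop := ∀ υ C r s d1 d2 d3 w1 w2 w3 e1 e2 e3 v1 v2 v3 : ℝ,
  Bx (11 / 100) (7 / 100) d1 d2 d3 w1 w2 w3 → Du d1 d2 d3 w1 w2 w3 e1 e2 e3 v1 v2 v3 →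
  Rs r s d1 d2 d3 w1 w2 w3 → 1246 / 1000 ≤ υ → υ ≤ 4 → 0 ≤ C →
    BQ υ C * sq3 d1 d2 d3 + BW υ C * sq3 w1 w2 w3 + BE υ C * (d1 * d2 * d3) +
      BF υ C * fdw d1 d2 d3 w1 w2 w3 + BG υ C * (w1 * w2 * w3) ≤
    Real.exp (-(3 * (υ * s))) * (2 * S4 (υ * (1 + s)) v1 v2 v3 +
      2 * Real.exp (-(υ * (1 + s))) * S3 (υ * (1 + s)) e1 e2 e3) -
      C * (1 - Real.exp (-(3 * (υ * s))))

/-- the constant in the estimate of the loss -/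
noncomputable def CB (t : ℝ) : ℝ := 8 + 8 * Real.exp (-(be * t)) + 35 * Real.exp (-(be * t)) ^ 5

/-- the ratio of the weights -/
noncomputable def LA (t : ℝ) : ℝ := Real.exp (2 * al * t - 3 * (be * t))

/-- the numerical inequality for the first coefficient -/
def NumQ : Prop := ∀ t k3 k4 : ℝ, 1 ≤ t → t ≤ 819 / 256 →
  1 - (2 * al * t - 298 / 100) * (101 / 10000) ≤ k3 → k3 ≤ 1 →
  1 - (2 * (2 * al * t) - 298 / 100) * (101 / 10000) ≤ k4 → k4 ≤ 1 →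
  1 / 5 + 11 / 600 * |FE (2 * al * t) k3 k4 + LA t * BE (be * t) (CB t)| ≤
    FQ (2 * al * t) + LA t * BQ (be * t) (CB t)

/-- the numerical inequality for the second coefficient -/
def NumW : Prop := ∀ t k3 : ℝ, 1 ≤ t → t ≤ 819 / 256 →
  1 - (2 * al * t - 298 / 100) * (101 / 10000) ≤ k3 → k3 ≤ 1 →
  1 / 5 + 11 / 100 * |FF (2 * al * t) k3 + LA t * BF (be * t) (CB t)| +
    7 / 300 * |FG (2 * al * t) + LA t * BG (be * t) (CB t)| ≤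
    FW (2 * al * t) + LA t * BW (be * t) (CB t)

/-- the main local inequality -/
def MI : Prop := ∀ t r s d1 d2 d3 w1 w2 w3 e1 e2 e3 v1 v2 v3 : ℝ,
  Bx (11 / 100) (7 / 100) d1 d2 d3 w1 w2 w3 → Du d1 d2 d3 w1 w2 w3 e1 e2 e3 v1 v2 v3 →
  Rs r s d1 d2 d3 w1 w2 w3 → 1 ≤ t → t ≤ 819 / 256 →
  12258 / 1000 * (Real.exp (-(2 * al * t)) - Real.exp (-(2 * al * t * (1 + r)))) +
    CB t * (Real.exp (-(3 * (be * t))) - Real.exp (-(3 * (be * t * (1 + s))))) +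
    1 / 5 * Real.exp (-(2 * al * t)) * (sq3 d1 d2 d3 + sq3 w1 w2 w3) ≤
  2 * Real.exp (-(2 * al * t * (1 + r))) * S1 (2 * al * t * (1 + r)) d1 d2 d3 w1 w2 w3 +
    2 * Real.exp (-(2 * (2 * al * t * (1 + r)))) * S2 (2 * al * t * (1 + r)) d1 d2 d3 +
    2 * Real.exp (-(3 * (be * t * (1 + s)))) * S4 (be * t * (1 + s)) v1 v2 v3 +
    2 * Real.exp (-(4 * (be * t * (1 + s)))) * S3 (be * t * (1 + s)) e1 e2 e3

/-- the loss at the face-centred cubic form -/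
def LossF : Prop := ∀ t r : ℝ, 1 ≤ t → 0 ≤ r → RF t ≤ RF (t * (1 + r)) +
  12258 / 1000 * (Real.exp (-(2 * al * t)) - Real.exp (-(2 * al * t * (1 + r))))

/-- the loss at the body-centred cubic form -/
def LossB : Prop := ∀ t s : ℝ, 1 ≤ t → 0 ≤ s → RB t ≤ RB (t * (1 + s)) +
  CB t * (Real.exp (-(3 * (be * t))) - Real.exp (-(3 * (be * t * (1 + s)))))

/-- duality at the face-centred cubic form -/
def DualF : Prop := ∀ T r s d1 d2 d3 w1 w2 w3 e1 e2 e3 v1 v2 v3 : ℝ,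
  Bx (11 / 100) (7 / 100) d1 d2 d3 w1 w2 w3 → Du d1 d2 d3 w1 w2 w3 e1 e2 e3 v1 v2 v3 →
  Rs r s d1 d2 d3 w1 w2 w3 → 0 < T → T * rad Fp = 1 + r → PD (T • pp d1 d2 d3 w1 w2 w3) →
  ∀ t : ℝ, 0 < t → PD ((t * (1 + s) / rad Bp) • bb e1 e2 e3 v1 v2 v3) ∧
    Td (t • (T • pp d1 d2 d3 w1 w2 w3)) = Th ((t * (1 + s) / rad Bp) • bb e1 e2 e3 v1 v2 v3)

/-- duality at the body-centred cubic form -/
def DualB : Prop := ∀ T d1 d2 d3 w1 w2 w3 : ℝ, 0 < T →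
  Bx (1 / 10) (55 / 1000) d1 d2 d3 w1 w2 w3 → PD (T • bb d1 d2 d3 w1 w2 w3) →
  rad (T • bb d1 d2 d3 w1 w2 w3) = 1 → ∃ T' e1 e2 e3 v1 v2 v3 : ℝ, 0 < T' ∧
    Bx (11 / 100) (7 / 100) e1 e2 e3 v1 v2 v3 ∧ PD (T' • pp e1 e2 e3 v1 v2 v3) ∧
    rad (T' • pp e1 e2 e3 v1 v2 v3) = 1 ∧
    ∀ t : ℝ, 0 < t → Td (t • (T • bb d1 d2 d3 w1 w2 w3)) = Th (t • (T' • pp e1 e2 e3 v1 v2 v3))

/-- the theta series and the dual theta series determine each other -/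
def DualFE : Prop := ∀ p q : Fin 6 → ℝ, PD p → PD q → rad p = 1 → rad q = 1 →
  (∀ t : ℝ, 0 < t → Td (t • p) = Th (t • q)) → ∀ t : ℝ, 0 < t → Th (t • p) = Td (t • q)

/-- the face-centred cubic lattice minimises the theta series -/
def ThOK : Prop := ∀ p : Fin 6 → ℝ, PD p → 1 ≤ rad p → RF (rad p) ≤ Th p

/-- the local result at the face-centred cubic form -/
def LocFs : Prop := ∀ T d1 d2 d3 w1 w2 w3 : ℝ, 0 < T →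
  Bx (11 / 100) (7 / 100) d1 d2 d3 w1 w2 w3 → PD (T • pp d1 d2 d3 w1 w2 w3) →
  rad (T • pp d1 d2 d3 w1 w2 w3) = 1 → FLc (T • pp d1 d2 d3 w1 w2 w3)

/-- the local result at the body-centred cubic form -/
def LocBs : Prop := ∀ T d1 d2 d3 w1 w2 w3 : ℝ, 0 < T →
  Bx (1 / 10) (55 / 1000) d1 d2 d3 w1 w2 w3 → PD (T • bb d1 d2 d3 w1 w2 w3) →
  rad (T • bb d1 d2 d3 w1 w2 w3) = 1 → FLc (T • bb d1 d2 d3 w1 w2 w3)

/-- coordinates in the local region at the face-centred cubic form -/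
def CoordG : Prop := ∀ p : Fin 6 → ℝ, (∀ i, 0 ≤ p i) → PD p → InG p →
  ∃ T d1 d2 d3 w1 w2 w3 : ℝ, 0 < T ∧ Bx (11 / 100) (7 / 100) d1 d2 d3 w1 w2 w3 ∧
    p = T • pp d1 d2 d3 w1 w2 w3

/-- coordinates in the local region at the body-centred cubic form -/
def CoordH : Prop := ∀ p : Fin 6 → ℝ, (∀ i, 0 ≤ p i) → PD p → InH p →
  ∃ T d1 d2 d3 w1 w2 w3 : ℝ, 0 < T ∧ Bx (1 / 10) (55 / 1000) d1 d2 d3 w1 w2 w3 ∧
    p = T • bb d1 d2 d3 w1 w2 w3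

end Pool.Agent.H999.Ep3
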