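import Pool.Agent.H999.Ep3.LBase

set_option autoImplicit false

open Matrix

namespace Pool.Agent.H999.Ep3

open Pool.Agent.K1H99.FCC (N0 rv nsq qf af dt PD rad Fp Qm pp tot al be sd)
open Pool.Agent.H999.Theta3 (Th RF RB Bp bb psi dx)

theorem l5_hasDeriv (y : ℝ) :
    HasDerivAt (fun y : ℝ => Real.exp y * (1 - y + y ^ 2 / 2 - y ^ 3 / 6))
      (-(y ^ 3 / 6) * Real.exp y) y := by
  have h1 := Real.hasDerivAt_exp y
  have h2 : HasDerivAt (fun y : ℝ => 1 - y + y ^ 2 / 2 - y ^ 3 / 6)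
      (0 - 1 + (2 : ℕ) * y ^ (2 - 1) / 2 - (3 : ℕ) * y ^ (3 - 1) / 6) y :=
    ((((hasDerivAt_const y (1 : ℝ)).sub (hasDerivAt_id y)).add ((hasDerivAt_pow 2 y).div_const 2)).sub
      ((hasDerivAt_pow 3 y).div_const 6))
  refine (h1.mul h2).congr_deriv ?_
  push_cast
  ring

theorem l5_exp_mul_le (y : ℝ) : Real.exp y * (1 - y + y ^ 2 / 2 - y ^ 3 / 6) ≤ 1 := by
  set G : ℝ → ℝ := fun y => Real.exp y * (1 - y + y ^ 2 / 2 - y ^ 3 / 6) with hG
  have h0 : G 0 = 1 := by simp [hG]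
  have hd : Differentiable ℝ G := fun z => (l5_hasDeriv z).differentiableAt
  have hc : Continuous G := hd.continuous
  rcases le_total 0 y with hy | hy
  · have ha : AntitoneOn G (Set.Ici 0) := by
      apply antitoneOn_of_deriv_nonpos (convex_Ici 0) hc.continuousOn hd.differentiableOn
      intro z hz
      rw [interior_Ici] at hz
      rw [(l5_hasDeriv z).deriv]
      have hz' : 0 < z := hz
      have : 0 ≤ z ^ 3 / 6 * Real.exp z := by positivity
      linarith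
    have h := ha Set.self_mem_Ici (Set.mem_Ici.2 hy) hy
    rw [h0] at h
    exact h
  · have ha : MonotoneOn G (Set.Iic 0) := by
      apply monotoneOn_of_deriv_nonneg (convex_Iic 0) hc.continuousOn hd.differentiableOn
      intro z hz
      rw [interior_Iic] at hz
      rw [(l5_hasDeriv z).deriv]
      have hz' : z < 0 := hz
      have h3 : z ^ 3 ≤ 0 := by
        have : z ^ 3 = z * z ^ 2 := by ring
        rw [this]
        exact mul_nonpos_of_nonpos_of_nonneg hz'.le (sq_nonneg z)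
      have h4 : 0 ≤ -(z ^ 3 / 6) := by linarith
      exact mul_nonneg h4 (Real.exp_pos z).le
    have h := ha (Set.mem_Iic.2 hy) Set.self_mem_Iic hy
    rw [h0] at h
    exact h

theorem l5_psi (y : ℝ) : y ^ 2 / 2 - y ^ 3 / 6 ≤ psi y := by
  have h1 := l5_exp_mul_le y
  have h2 : Real.exp (-y) * (Real.exp y * (1 - y + y ^ 2 / 2 - y ^ 3 / 6)) ≤ Real.exp (-y) * 1 :=
    mul_le_mul_of_nonneg_left h1 (Real.exp_pos _).le
  rw [← mul_assoc, ← Real.exp_add, neg_add_cancel, Real.exp_zero, one_mul, mul_one] at h2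
  unfold psi
  linarith

theorem l5_S4 (y v1 v2 v3 : ℝ) :
    8 * y ^ 2 * sq3 v1 v2 v3 - 32 * y ^ 3 * (v1 * v2 * v3) ≤ S4 y v1 v2 v3 := by
  have h1 := l5_psi (2 * y * (v1 + v2 + v3))
  have h2 := l5_psi (2 * y * (v1 - v2 - v3))
  have h3 := l5_psi (2 * y * (-v1 + v2 - v3))
  have h4 := l5_psi (2 * y * (-v1 - v2 + v3))
  have e : 8 * y ^ 2 * sq3 v1 v2 v3 - 32 * y ^ 3 * (v1 * v2 * v3) =
    ((2 * y * (v1 + v2 + v3)) ^ 2 / 2 - (2 * y * (v1 + v2 + v3)) ^ 3 / 6) +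
    ((2 * y * (v1 - v2 - v3)) ^ 2 / 2 - (2 * y * (v1 - v2 - v3)) ^ 3 / 6) +
    ((2 * y * (-v1 + v2 - v3)) ^ 2 / 2 - (2 * y * (-v1 + v2 - v3)) ^ 3 / 6) +
    ((2 * y * (-v1 - v2 + v3)) ^ 2 / 2 - (2 * y * (-v1 - v2 + v3)) ^ 3 / 6) := by
    unfold sq3; ring
  rw [e]
  unfold S4
  linarith

theorem l5_S3 {y e1 e2 e3 : ℝ} (he : e1 + e2 + e3 = 0) :
    8 * y ^ 2 * sq3 e1 e2 e3 - 32 * y ^ 3 * (e1 * e2 * e3) ≤ S3 y e1 e2 e3 := by
  have h1 := l5_psi (4 * y * e1)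
  have h2 := l5_psi (4 * y * e2)
  have h3 := l5_psi (4 * y * e3)
  have e0 : e3 = -(e1 + e2) := by linarith
  have e : 8 * y ^ 2 * sq3 e1 e2 e3 - 32 * y ^ 3 * (e1 * e2 * e3) =
    ((4 * y * e1) ^ 2 / 2 - (4 * y * e1) ^ 3 / 6) + ((4 * y * e2) ^ 2 / 2 - (4 * y * e2) ^ 3 / 6) +
    ((4 * y * e3) ^ 2 / 2 - (4 * y * e3) ^ 3 / 6) := by
    rw [e0]; unfold sq3; ring
  rw [e]
  unfold S3
  linarith

/-- inequality (a) -/
theorem l5_a {u s : ℝ} (hu : 1246 / 1000 ≤ u) (hu' : u ≤ 4) (hs : 0 ≤ s)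
    (hs' : s ≤ 1113 / 100000) :
    1 - 1454 / 10000 * u ≤
      Real.exp (-(3 * (u * s))) * (1 + s) ^ 2 * (1 - 112 / 1000 * (u * (1 + s))) := by
  have h1 : 1 - 3 * (u * s) ≤ Real.exp (-(3 * (u * s))) := by
    have := Real.add_one_le_exp (-(3 * (u * s)))
    linarith
  have hus : 0 ≤ u * s := mul_nonneg (by linarith) hs
  have hus' : u * s ≤ 4 * (1113 / 100000) := mul_le_mul hu' hs' hs (by norm_num)
  have h2 : 0 ≤ 1 - 112 / 1000 * (u * (1 + s)) := by nlinarith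
  have h3 : 0 ≤ 1 - 3 * (u * s) := by linarith
  have h4 : 1 ≤ (1 + s) ^ 2 := by nlinarith
  have h5 : (1 - 3 * (u * s)) * (1 - 112 / 1000 * (u * (1 + s))) ≤
      Real.exp (-(3 * (u * s))) * (1 + s) ^ 2 * (1 - 112 / 1000 * (u * (1 + s))) := by
    apply mul_le_mul_of_nonneg_right _ h2
    calc 1 - 3 * (u * s) ≤ Real.exp (-(3 * (u * s))) := h1
      _ = Real.exp (-(3 * (u * s))) * 1 := (mul_one _).symm
      _ ≤ Real.exp (-(3 * (u * s))) * (1 + s) ^ 2 :=
        mul_le_mul_of_nonneg_left h4 (Real.exp_pos _).le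
  refine le_trans ?_ h5
  have h6 : 0 ≤ u * (334 / 10000 - s * (3112 / 1000 - 336 / 1000 * u)) := by
    apply mul_nonneg (by linarith)
    nlinarith
  nlinarith [mul_nonneg hus hus, mul_nonneg (mul_nonneg hus hs) (show (0 : ℝ) ≤ u by linarith)]

/-- inequality (b) -/
theorem l5_b {u s : ℝ} (hu : 1246 / 1000 ≤ u) (hu' : u ≤ 4) (hs : 0 ≤ s)
    (hs' : s ≤ 1113 / 100000) :
    (1 - 804 / 10000 * u) - (4 * u - 199 / 100) * s ≤
      Real.exp (-(4 * (u * s))) * (1 + s) ^ 2 * (1 - 804 / 10000 * (u * (1 + s))) := by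
  have h1 : 1 - 4 * (u * s) ≤ Real.exp (-(4 * (u * s))) := by
    have := Real.add_one_le_exp (-(4 * (u * s)))
    linarith
  have hu0 : 0 ≤ u := by linarith
  have hus : 0 ≤ u * s := mul_nonneg hu0 hs
  have hus' : u * s ≤ 4 * (1113 / 100000) := mul_le_mul hu' hs' hs (by norm_num)
  have h2 : 0 ≤ 1 - 804 / 10000 * (u * (1 + s)) := by nlinarith
  have h4 : 0 ≤ (1 + s) ^ 2 := sq_nonneg _
  have h5 : (1 - 4 * (u * s)) * (1 + s) ^ 2 * (1 - 804 / 10000 * (u * (1 + s))) ≤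
      Real.exp (-(4 * (u * s))) * (1 + s) ^ 2 * (1 - 804 / 10000 * (u * (1 + s))) := by
    apply mul_le_mul_of_nonneg_right _ h2
    exact mul_le_mul_of_nonneg_right h1 h4
  refine le_trans ?_ h5
  -- the bracket
  have hK : 0 ≤ (1 / 100 + 804 / 10000 * u * (4 * u - 3)) +
      s * (1 - 82412 / 10000 * u + 9648 / 10000 * u ^ 2) +
      s ^ 2 * (-(4 * u) + 9648 / 10000 * u ^ 2 - 804 / 10000 * u) +
      s ^ 3 * (4 * (804 / 10000) * u ^ 2) := by
    have k1 : 0 ≤ s ^ 3 * (4 * (804 / 10000) * u ^ 2) := by positivity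
    have k2 : -(1113 / 100000 * (82412 / 10000 * u)) ≤
        s * (1 - 82412 / 10000 * u + 9648 / 10000 * u ^ 2) := by
      have k3 : s * (82412 / 10000 * u) ≤ 1113 / 100000 * (82412 / 10000 * u) :=
        mul_le_mul_of_nonneg_right hs' (by linarith)
      have k4 : 0 ≤ s * (1 + 9648 / 10000 * u ^ 2) := by positivity
      nlinarith
    have k5 : -(1113 / 100000 * (1113 / 100000 * (5 * u))) ≤
        s ^ 2 * (-(4 * u) + 9648 / 10000 * u ^ 2 - 804 / 10000 * u) := by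
      have k6 : s ^ 2 * (5 * u) ≤ (1113 / 100000) ^ 2 * (5 * u) :=
        mul_le_mul_of_nonneg_right (by nlinarith) (by linarith)
      have k7 : 0 ≤ s ^ 2 * (9648 / 10000 * u ^ 2 + (5 - 4 - 804 / 10000) * u) := by positivity
      nlinarith
    nlinarith
  have hE : (1 - 4 * (u * s)) * (1 + s) ^ 2 * (1 - 804 / 10000 * (u * (1 + s))) -
      ((1 - 804 / 10000 * u) - (4 * u - 199 / 100) * s) =
      s * ((1 / 100 + 804 / 10000 * u * (4 * u - 3)) +
      s * (1 - 82412 / 10000 * u + 9648 / 10000 * u ^ 2) +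
      s ^ 2 * (-(4 * u) + 9648 / 10000 * u ^ 2 - 804 / 10000 * u) +
      s ^ 3 * (4 * (804 / 10000) * u ^ 2)) := by ring
  have := mul_nonneg hs hK
  linarith

theorem l5_sq {x b : ℝ} (h : |x| ≤ b) : x ^ 2 ≤ b ^ 2 := by
  have := abs_le.1 h
  nlinarith

/-- the sum of the squares of three numbers with sum zero -/
theorem l5_Q {b d1 d2 d3 : ℝ} (h0 : d1 + d2 + d3 = 0) (h1 : |d1| ≤ b) (h2 : |d2| ≤ b)
    (h3 : |d3| ≤ b) : sq3 d1 d2 d3 ≤ 2 * b ^ 2 := by
  have k1 := abs_le.1 h1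
  have k2 := abs_le.1 h2
  have k3 := abs_le.1 h3
  have e0 : d3 = -(d1 + d2) := by linarith
  unfold sq3
  subst e0
  rcases le_total 0 d1 with a1 | a1 <;> rcases le_total 0 d2 with a2 | a2
  · nlinarith [mul_nonneg a1 a2]
  · rcases le_total 0 (d1 + d2) with a3 | a3
    · nlinarith
    · nlinarith
  · rcases le_total 0 (d1 + d2) with a3 | a3
    · nlinarith
    · nlinarith
  · nlinarith [mul_nonneg_of_nonpos_of_nonpos a1 a2]

/-- the lemma at the body-centred cubic form -/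
theorem blem (h : RBd) (hs : SBd) (hd : DBd) : BLem := by
  intro υ C r s d1 d2 d3 w1 w2 w3 e1 e2 e3 v1 v2 v3 hB hD hR hυ hυ' hC
  obtain ⟨-, -, hX, -, -⟩ := h r s d1 d2 d3 w1 w2 w3 hB hR
  obtain ⟨s0, s1, s2, s3⟩ := hs r s d1 d2 d3 w1 w2 w3 hB hR
  obtain ⟨he, -, -, -, -, -, -, hae, hav, hQ', hW', hQW⟩ :=
    hd d1 d2 d3 w1 w2 w3 e1 e2 e3 v1 v2 v3 hB hD
  have hQ0 : 0 ≤ sq3 d1 d2 d3 := by unfold sq3; positivity
  have hW0 : 0 ≤ sq3 w1 w2 w3 := by unfold sq3; positivity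
  have hQ1 : sq3 d1 d2 d3 ≤ 242 / 10000 := by
    have := l5_Q hB.sum hB.hd1 hB.hd2 hB.hd3
    norm_num at this ⊢
    linarith
  have hW1 : sq3 w1 w2 w3 ≤ 147 / 10000 := by
    have k1 := l5_sq hB.hw1
    have k2 := l5_sq hB.hw2
    have k3 := l5_sq hB.hw3
    unfold sq3
    norm_num at k1 k2 k3 ⊢
    linarith
  have hP0 : 0 ≤ sq3 e1 e2 e3 := by unfold sq3; positivity
  have hV0 : 0 ≤ sq3 v1 v2 v3 := by unfold sq3; positivity
  have hS4 := l5_S4 (υ * (1 + s)) v1 v2 v3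
  have hS3 := l5_S3 (y := υ * (1 + s)) he
  have ha := l5_a hυ hυ' s0 s3
  have hb := l5_b hυ hυ' s0 s3
  have hae' := (abs_le.1 hae).2
  have hav' := (abs_le.1 hav).2
  generalize sq3 e1 e2 e3 = P at *
  generalize sq3 v1 v2 v3 = V at *
  generalize e1 * e2 * e3 = ee at *
  generalize v1 * v2 * v3 = vv at *
  generalize S4 (υ * (1 + s)) v1 v2 v3 = s4 at *
  generalize S3 (υ * (1 + s)) e1 e2 e3 = s3v at *
  unfold BQ BW BE BF BG
  generalize dx d1 d2 d3 w1 w2 w3 = X at *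
  generalize fdw d1 d2 d3 w1 w2 w3 = f at *
  generalize d1 * d2 * d3 = e at *
  generalize w1 * w2 * w3 = g at *
  generalize sq3 d1 d2 d3 = Q at *
  generalize sq3 w1 w2 w3 = W at *
  clear hB hD hR h hs hd hae hav he
  have hυ0 : 0 < υ := by linarith
  set y := υ * (1 + s) with hy
  have hy0 : 0 < y := mul_pos hυ0 (by linarith)
  set E3 := Real.exp (-(3 * (υ * s))) with hE3
  have hE3p : 0 < E3 := Real.exp_pos _
  set E1 := Real.exp (-υ) with hE1
  have hE1p : 0 < E1 := Real.exp_pos _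
  -- the first sum
  have t1 : 16 * υ ^ 2 * (1 - 1454 / 10000 * υ) * (W + 2 * f - 6 * g) ≤ E3 * (2 * s4) := by
    have k1 : 8 * y ^ 2 * (1 - 112 / 1000 * y) * V ≤ s4 := by
      have : 32 * y ^ 3 * vv ≤ 32 * y ^ 3 * (28 / 1000 * V) :=
        mul_le_mul_of_nonneg_left hav' (by positivity)
      nlinarith
    have k2 : E3 * (2 * (8 * y ^ 2 * (1 - 112 / 1000 * y) * V)) ≤ E3 * (2 * s4) := by
      apply mul_le_mul_of_nonneg_left _ hE3p.le
      linarith
    refine le_trans ?_ k2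
    have k3 : E3 * (2 * (8 * y ^ 2 * (1 - 112 / 1000 * y) * V)) =
        16 * υ ^ 2 * V * (E3 * (1 + s) ^ 2 * (1 - 112 / 1000 * y)) := by
      rw [hy]; ring
    rw [k3]
    calc 16 * υ ^ 2 * (1 - 1454 / 10000 * υ) * (W + 2 * f - 6 * g)
        ≤ 16 * υ ^ 2 * (1 - 1454 / 10000 * υ) * V := by
          apply mul_le_mul_of_nonneg_left hW'
          have : 0 ≤ 1 - 1454 / 10000 * υ := by linarith
          positivity
      _ = 16 * υ ^ 2 * V * (1 - 1454 / 10000 * υ) := by ring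
      _ ≤ _ := mul_le_mul_of_nonneg_left ha (by positivity)
  -- the second sum
  have t2 : 16 * E1 * υ ^ 2 * (((1 - 804 / 10000 * υ) * (99798 / 100000) -
        55 / 10000 * (4 * υ - 199 / 100)) * Q -
        (1297 / 100000 + 133 / 10000 * (4 * υ - 199 / 100)) * W +
        (1 - 804 / 10000 * υ) * (2 * f - 6 * e)) ≤ E3 * (2 * Real.exp (-y) * s3v) := by
    have k1 : 8 * y ^ 2 * (1 - 804 / 10000 * y) * P ≤ s3v := by
      have : 32 * y ^ 3 * ee ≤ 32 * y ^ 3 * (201 / 10000 * P) :=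
        mul_le_mul_of_nonneg_left hae' (by positivity)
      nlinarith
    have k2 : E3 * (2 * Real.exp (-y) * (8 * y ^ 2 * (1 - 804 / 10000 * y) * P)) ≤
        E3 * (2 * Real.exp (-y) * s3v) := by
      apply mul_le_mul_of_nonneg_left _ hE3p.le
      exact mul_le_mul_of_nonneg_left k1 (by positivity)
    refine le_trans ?_ k2
    have k0 : E3 * Real.exp (-y) = E1 * Real.exp (-(4 * (υ * s))) := by
      rw [hE3, hE1, ← Real.exp_add, ← Real.exp_add, hy]
      congr 1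
      ring
    have k3 : E3 * (2 * Real.exp (-y) * (8 * y ^ 2 * (1 - 804 / 10000 * y) * P)) =
        16 * E1 * υ ^ 2 * P * (Real.exp (-(4 * (υ * s))) * (1 + s) ^ 2 *
          (1 - 804 / 10000 * y)) := by
      have : E3 * (2 * Real.exp (-y) * (8 * y ^ 2 * (1 - 804 / 10000 * y) * P)) =
        (E3 * Real.exp (-y)) * (16 * y ^ 2 * (1 - 804 / 10000 * y) * P) := by ring
      rw [this, k0, hy]
      ring
    rw [k3]
    have k4 : 16 * E1 * υ ^ 2 * P * ((1 - 804 / 10000 * υ) - (4 * υ - 199 / 100) * s) ≤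
        16 * E1 * υ ^ 2 * P * (Real.exp (-(4 * (υ * s))) * (1 + s) ^ 2 *
          (1 - 804 / 10000 * y)) := mul_le_mul_of_nonneg_left hb (by positivity)
    refine le_trans ?_ k4
    have k5 : 16 * E1 * υ ^ 2 * P * ((1 - 804 / 10000 * υ) - (4 * υ - 199 / 100) * s) =
      16 * E1 * υ ^ 2 * ((1 - 804 / 10000 * υ) * P - (4 * υ - 199 / 100) * (s * P)) := by ring
    rw [k5]
    apply mul_le_mul_of_nonneg_left _ (by positivity)
    have c1 : 0 ≤ 1 - 804 / 10000 * υ := by linarith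
    have c1' : 1 - 804 / 10000 * υ ≤ 1 := by linarith
    have c2 : 0 ≤ 4 * υ - 199 / 100 := by linarith
    -- s P
    have m1 : s * P ≤ 55 / 10000 * Q + 133 / 10000 * W := by
      have : s * P ≤ s * (292 / 10000) := mul_le_mul_of_nonneg_left hQ' s0
      nlinarith
    -- the square
    have m2 : (Q / 2 + W) ^ 2 / 3 ≤ 202 / 100000 * Q + 1297 / 100000 * W := by
      nlinarith [mul_le_mul_of_nonneg_left hQ1 hQ0, mul_le_mul_of_nonneg_left hQ1 hW0,
        mul_le_mul_of_nonneg_left hW1 hW0]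
    have m3 : (1 - 804 / 10000 * υ) * (Q - 6 * e + 2 * f - (202 / 100000 * Q + 1297 / 100000 * W)) ≤
        (1 - 804 / 10000 * υ) * P := by
      apply mul_le_mul_of_nonneg_left _ c1
      linarith
    have m4 : (4 * υ - 199 / 100) * (s * P) ≤
        (4 * υ - 199 / 100) * (55 / 10000 * Q + 133 / 10000 * W) :=
      mul_le_mul_of_nonneg_left m1 c2
    have m5 : (1 - 804 / 10000 * υ) * (1297 / 100000 * W) ≤ 1 * (1297 / 100000 * W) :=
      mul_le_mul_of_nonneg_right c1' (by positivity)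
    nlinarith
  -- the loss
  have t3 : C * (1 - E3) ≤ C * υ * (508 / 1000 * Q + 10599 / 10000 * W + 2 * f - 2 * e - 4 * g) := by
    have k1 : 1 - 3 * (υ * s) ≤ E3 := by
      have := Real.add_one_le_exp (-(3 * (υ * s)))
      rw [hE3]
      linarith
    have k2 : 3 * s ≤ 508 / 1000 * Q + 10599 / 10000 * W + 2 * f - 2 * e - 4 * g := by
      nlinarith
    have k3 : C * (1 - E3) ≤ C * (3 * (υ * s)) := mul_le_mul_of_nonneg_left (by linarith) hC
    refine k3.trans ?_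
    have k4 : C * (3 * (υ * s)) = C * υ * (3 * s) := by ring
    rw [k4]
    exact mul_le_mul_of_nonneg_left k2 (by positivity)
  have fin : E3 * (2 * s4 + 2 * Real.exp (-y) * s3v) = E3 * (2 * s4) + E3 * (2 * Real.exp (-y) * s3v) := by
    ring
  rw [fin]
  refine le_trans (le_of_eq ?_) (sub_le_sub (add_le_add t1 t2) t3)
  ring

end Pool.Agent.H999.Ep3
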