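import Pool.Agent.H999.Ep3.LBase
import Pool.Agent.H999.Theta3.Coord

set_option autoImplicit false

open Matrix

namespace Pool.Agent.H999.Ep3

open Pool.Agent.K1H99.FCC (N0 rv nsq qf af dt PD rad Fp Qm pp tot al be sd)
open Pool.Agent.H999.Theta3 (Th RF RB Bp bb psi dx co_pos co_abs_div tF)

/-- coordinates in the local region at the face-centred cubic form -/
theorem coordG : CoordG := by
  intro p h0 hp h
  have ht := co_pos h0 hp
  have a0 := h0 0
  have a1 := h0 1
  have a2 := h0 2
  have a3 := h0 3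
  have a4 := h0 4
  have a5 := h0 5
  obtain ⟨e1, e2, e3, e4, e5, e6, e7, e8, e9, e10, e11⟩ := h
  obtain ⟨T, hTT⟩ : ∃ T, T = tF p / 12 := ⟨_, rfl⟩
  have hT12 : tF p = 12 * T := by rw [hTT]; ring
  rw [hT12] at e1 e2 e3 e4 e5 e6 e7 e8 e9 e10 e11
  unfold tF at hT12
  unfold tot at ht
  have hT : 0 < T := by linarith
  have hT0 : T ≠ 0 := hT.ne'
  refine ⟨T, (-(p 2 + p 3) / 3) / T, ((2 * p 3 - p 2) / 3) / T, ((2 * p 2 - p 3) / 3) / T,
    ((p 0 + p 5 - p 1 - p 4) / 4) / T, ((p 0 + p 1 - p 4 - p 5) / 4) / T,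
    ((p 0 + p 4 - p 1 - p 5) / 4) / T, hT, ⟨?_, ?_, ?_, ?_, ?_, ?_, ?_⟩, ?_⟩
  · field_simp
    ring
  · exact co_abs_div hT (by linarith) (by linarith)
  · exact co_abs_div hT (by linarith) (by linarith)
  · exact co_abs_div hT (by linarith) (by linarith)
  · exact co_abs_div hT (by linarith) (by linarith)
  · exact co_abs_div hT (by linarith) (by linarith)
  · exact co_abs_div hT (by linarith) (by linarith)
  · have hx : ∀ x : ℝ, T * (x / T) = x := fun x => mul_div_cancel₀ x hT0
    funext i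
    unfold pp
    fin_cases i
    · simp [mul_add, mul_sub, hx]
      linarith
    · simp [mul_add, mul_sub, hx]
      linarith
    · simp [mul_add, mul_sub, hx]
      linarith
    · simp [mul_add, mul_sub, hx]
      linarith
    · simp [mul_add, mul_sub, hx]
      linarith
    · simp [mul_add, mul_sub, hx]
      linarith

/-- coordinates in the local region at the body-centred cubic form -/
theorem coordH : CoordH := by
  intro p h0 hp h
  have ht := co_pos h0 hp
  obtain ⟨⟨e1, e2, e3, e4⟩, ⟨e5, e6, e7, e8⟩, ⟨e9, e10, e11, e12⟩⟩ := h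
  obtain ⟨T, hTT⟩ : ∃ T, T = tot p / 6 := ⟨_, rfl⟩
  have hT6 : tot p = 6 * T := by rw [hTT]; ring
  rw [hT6] at e1 e2 e3 e4 e5 e6 e7 e8 e9 e10 e11 e12
  have hT : 0 < T := by linarith
  have hT0 : T ≠ 0 := hT.ne'
  unfold tot at hT6
  refine ⟨T, ((2 * T - (p 0 + p 5)) / 4) / T, ((2 * T - (p 1 + p 4)) / 4) / T,
    ((2 * T - (p 2 + p 3)) / 4) / T, ((p 0 - p 5) / 4) / T, ((p 1 - p 4) / 4) / T,
    ((p 2 - p 3) / 4) / T, hT, ⟨?_, ?_, ?_, ?_, ?_, ?_, ?_⟩, ?_⟩
  · rw [← add_div, ← add_div]
    rw [div_eq_zero_iff]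
    left
    linarith
  · exact co_abs_div hT (by linarith) (by linarith)
  · exact co_abs_div hT (by linarith) (by linarith)
  · exact co_abs_div hT (by linarith) (by linarith)
  · exact co_abs_div hT (by linarith) (by linarith)
  · exact co_abs_div hT (by linarith) (by linarith)
  · exact co_abs_div hT (by linarith) (by linarith)
  · have hx : ∀ x : ℝ, T * (2 * (x / T)) = 2 * x := fun x => by
      field_simp
    funext i
    unfold bb
    fin_cases i
    · simp [mul_add, mul_sub, hx]
      linarith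
    · simp [mul_add, mul_sub, hx]
      linarith
    · simp [mul_add, mul_sub, hx]
      linarith
    · simp [mul_add, mul_sub, hx]
      linarith
    · simp [mul_add, mul_sub, hx]
      linarith
    · simp [mul_add, mul_sub, hx]
      linarith

end Pool.Agent.H999.Ep3
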