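import Pool.Agent.H999.Ep3.LBase

set_option autoImplicit false

open Matrix

namespace Pool.Agent.H999.Ep3

open Pool.Agent.K1H99.FCC (N0 rv nsq qf af dt PD rad Fp Qm pp tot al be sd)
open Pool.Agent.H999.Theta3 (Th RF RB Bp bb psi dx)

/-- two of three numbers with sum zero have a nonnegative product -/
theorem l3_pair (a b c : ℝ) : 0 ≤ a * b ∨ 0 ≤ b * c ∨ 0 ≤ c * a := by
  by_contra h
  push Not at h
  obtain ⟨h1, h2, h3⟩ := h
  have h4 : 0 < (a * b) * (b * c) := mul_pos_of_neg_of_neg h1 h2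
  have h5 : (a * b) * (b * c) * (c * a) < 0 := mul_neg_of_pos_of_neg h4 h3
  nlinarith [sq_nonneg (a * b * c)]

theorem l3_cub1 {m a b c : ℝ} (hs : a + b + c = 0) (hc : |c| ≤ m) (h : 0 ≤ a * b) :
    |a * b * c| ≤ m / 6 * sq3 a b c ∧ sq3 a b c ≤ 2 * m ^ 2 := by
  have hc' : c = -(a + b) := by linarith
  have h1 : |a * b * c| = a * b * |c| := by rw [abs_mul, abs_of_nonneg h]
  have hm : 0 ≤ m := le_trans (abs_nonneg c) hc
  have h2 : a * b * |c| ≤ a * b * m := mul_le_mul_of_nonneg_left hc h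
  have h3 : a * b ≤ sq3 a b c / 6 := by
    unfold sq3; rw [hc']; nlinarith [sq_nonneg (a - b)]
  constructor
  · rw [h1]
    nlinarith
  · have h4 : c ^ 2 ≤ m ^ 2 := by
      rw [← sq_abs c]; exact pow_le_pow_left₀ (abs_nonneg c) hc 2
    have h5 : sq3 a b c = 2 * c ^ 2 - 2 * (a * b) := by unfold sq3; rw [hc']; ring
    rw [h5]; linarith

theorem l3_cub {m a b c : ℝ} (hs : a + b + c = 0) (ha : |a| ≤ m) (hb : |b| ≤ m) (hc : |c| ≤ m) :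
    |a * b * c| ≤ m / 6 * sq3 a b c ∧ sq3 a b c ≤ 2 * m ^ 2 := by
  rcases l3_pair a b c with h | h | h
  · exact l3_cub1 hs hc h
  · have := l3_cub1 (m := m) (a := b) (b := c) (c := a) (by linarith) ha h
    have e1 : b * c * a = a * b * c := by ring
    have e2 : sq3 b c a = sq3 a b c := by unfold sq3; ring
    rwa [e1, e2] at this
  · have := l3_cub1 (m := m) (a := c) (b := a) (c := b) (by linarith) hb h
    have e1 : c * a * b = a * b * c := by ring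
    have e2 : sq3 c a b = sq3 a b c := by unfold sq3; ring
    rwa [e1, e2] at this

theorem l3_prod {m a b c : ℝ} (ha : |a| ≤ m) (hb : |b| ≤ m) (hc : |c| ≤ m) :
    |a * b * c| ≤ m / 3 * sq3 a b c := by
  have hm : 0 ≤ m := le_trans (abs_nonneg c) hc
  have h1 : |a * b * c| = |a| * |b| * |c| := by rw [abs_mul, abs_mul]
  rw [h1]
  have e : sq3 a b c = |a| ^ 2 + |b| ^ 2 + |c| ^ 2 := by unfold sq3; simp [sq_abs]
  rw [e]
  have ha0 := abs_nonneg a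
  have hb0 := abs_nonneg b
  have hc0 := abs_nonneg c
  have h2 : |a| * |b| * |c| ≤ |a| * |b| * m := mul_le_mul_of_nonneg_left hc (mul_nonneg ha0 hb0)
  have h3 : |a| * |b| * |c| ≤ |b| * |c| * m := by
    have := mul_le_mul_of_nonneg_left ha (mul_nonneg hb0 hc0)
    nlinarith
  have h4 : |a| * |b| * |c| ≤ |a| * |c| * m := by
    have := mul_le_mul_of_nonneg_left hb (mul_nonneg ha0 hc0)
    nlinarith
  have h5 : |a| * |b| + |b| * |c| + |a| * |c| ≤ |a| ^ 2 + |b| ^ 2 + |c| ^ 2 := by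
    nlinarith [sq_nonneg (|a| - |b|), sq_nonneg (|b| - |c|), sq_nonneg (|a| - |c|)]
  nlinarith [mul_le_mul_of_nonneg_left h5 hm]

/-- the bound for one coordinate `e` -/
theorem l3_e {d1 d2 d3 w1 w2 w3 e1 : ℝ} (hs : d1 + d2 + d3 = 0)
    (hd1 : |d1| ≤ 11 / 100) (hd2 : |d2| ≤ 11 / 100) (hd3 : |d3| ≤ 11 / 100)
    (hw1 : |w1| ≤ 7 / 100) (hw2 : |w2| ≤ 7 / 100) (hw3 : |w3| ≤ 7 / 100)
    (he : (3 - (sq3 d1 d2 d3 / 2 + sq3 w1 w2 w3)) * (1 + e1) = 3 * ((1 + d2) * (1 + d3) - w1 ^ 2)) :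
    |e1| ≤ 1206 / 10000 := by
  have hQ := (l3_cub hs hd1 hd2 hd3).2
  have hQ2 : 3 / 2 * d1 ^ 2 ≤ sq3 d1 d2 d3 := by
    unfold sq3
    have : d1 = -(d2 + d3) := by linarith
    rw [this]; nlinarith [sq_nonneg (d2 - d3)]
  have w1s : w1 ^ 2 ≤ 49 / 10000 := by
    rw [← sq_abs w1]; nlinarith [abs_nonneg w1]
  have w2s : w2 ^ 2 ≤ 49 / 10000 := by
    rw [← sq_abs w2]; nlinarith [abs_nonneg w2]
  have w3s : w3 ^ 2 ≤ 49 / 10000 := by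
    rw [← sq_abs w3]; nlinarith [abs_nonneg w3]
  have hW1 : sq3 w1 w2 w3 ≤ w1 ^ 2 + 98 / 10000 := by unfold sq3; linarith
  have hW2 : w1 ^ 2 ≤ sq3 w1 w2 w3 := by
    unfold sq3; nlinarith [sq_nonneg w2, sq_nonneg w3]
  have hN : (1 + d2) * (1 + d3) - w1 ^ 2 = 1 - d1 + d1 ^ 2 - sq3 d1 d2 d3 / 2 - w1 ^ 2 := by
    unfold sq3
    have : d1 = -(d2 + d3) := by linarith
    rw [this]; ring
  rw [hN] at he
  have hd1' := abs_le.mp hd1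
  have hd1s : d1 ^ 2 ≤ 121 / 10000 := by
    rw [← sq_abs d1]; nlinarith [abs_nonneg d1]
  set Q := sq3 d1 d2 d3 with hQdef
  set W := sq3 w1 w2 w3 with hWdef
  have hw0 : 0 ≤ w1 ^ 2 := sq_nonneg w1
  have ht : 0 < 3 - (Q / 2 + W) := by nlinarith
  rw [abs_le]
  constructor
  · by_contra hcon
    push Not at hcon
    have : (3 - (Q / 2 + W)) * (1 + e1) < (3 - (Q / 2 + W)) * (1 - 1206 / 10000) :=
      mul_lt_mul_of_pos_left (by linarith) ht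
    rw [he] at this
    nlinarith [mul_nonneg (sub_nonneg.mpr hd1'.2) (sub_nonneg.mpr hd1'.2), sq_nonneg (d1 - 11/100), sq_nonneg d1]
  · by_contra hcon
    push Not at hcon
    have : (3 - (Q / 2 + W)) * (1 + 1206 / 10000) < (3 - (Q / 2 + W)) * (1 + e1) :=
      mul_lt_mul_of_pos_left (by linarith) ht
    rw [he] at this
    nlinarith [sq_nonneg (d1 + 11 / 100), mul_nonneg (by linarith [hd1'.1] : (0:ℝ) ≤ d1 + 11/100) (by linarith [hd1'.2] : (0:ℝ) ≤ 11/100 - d1)]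

/-- the bound for one coordinate `v` -/
theorem l3_v {d1 d2 d3 w1 w2 w3 v1 : ℝ} (hs : d1 + d2 + d3 = 0)
    (hd1 : |d1| ≤ 11 / 100) (hd2 : |d2| ≤ 11 / 100) (hd3 : |d3| ≤ 11 / 100)
    (hw1 : |w1| ≤ 7 / 100) (hw2 : |w2| ≤ 7 / 100) (hw3 : |w3| ≤ 7 / 100)
    (hv : (3 - (sq3 d1 d2 d3 / 2 + sq3 w1 w2 w3)) * v1 = 3 * (w2 * w3 - (1 + d1) * w1)) :
    |v1| ≤ 84 / 1000 := by
  have hQ := (l3_cub hs hd1 hd2 hd3).2
  have w1s : w1 ^ 2 ≤ 49 / 10000 := by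
    rw [← sq_abs w1]; nlinarith [abs_nonneg w1]
  have w2s : w2 ^ 2 ≤ 49 / 10000 := by
    rw [← sq_abs w2]; nlinarith [abs_nonneg w2]
  have w3s : w3 ^ 2 ≤ 49 / 10000 := by
    rw [← sq_abs w3]; nlinarith [abs_nonneg w3]
  have hW : sq3 w1 w2 w3 ≤ 147 / 10000 := by unfold sq3; linarith
  set Q := sq3 d1 d2 d3 with hQdef
  set W := sq3 w1 w2 w3 with hWdef
  have ht : 29732 / 10000 ≤ 3 - (Q / 2 + W) := by nlinarith
  have h23 : |w2 * w3| ≤ 49 / 10000 := by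
    rw [abs_mul]; nlinarith [abs_nonneg w2, abs_nonneg w3]
  have h11 : |(1 + d1) * w1| ≤ 777 / 10000 := by
    rw [abs_mul]
    have h1 : |1 + d1| ≤ 111 / 100 := by
      rw [abs_le]; obtain ⟨h, h'⟩ := abs_le.mp hd1; constructor <;> linarith
    calc |1 + d1| * |w1| ≤ 111 / 100 * (7 / 100) :=
          mul_le_mul h1 hw1 (abs_nonneg _) (by norm_num)
      _ = 777 / 10000 := by norm_num
  have h0 : |3 * (w2 * w3 - (1 + d1) * w1)| ≤ 3 * (826 / 10000) := by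
    rw [abs_mul, abs_of_pos (by norm_num : (0:ℝ) < 3)]
    have := abs_sub (w2 * w3) ((1 + d1) * w1)
    nlinarith
  rw [← hv, abs_mul, abs_of_pos (by linarith : (0:ℝ) < 3 - (Q / 2 + W))] at h0
  have hv0 := abs_nonneg v1
  nlinarith

/-- bounds for the coordinates of the dual form -/
theorem dbd : DBd := by
  intro d1 d2 d3 w1 w2 w3 e1 e2 e3 v1 v2 v3 hB hD
  obtain ⟨hs, hd1, hd2, hd3, hw1, hw2, hw3⟩ := hB
  obtain ⟨he1, he2, he3, hv1, hv2, hv3⟩ := hD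
  have be1 := l3_e hs hd1 hd2 hd3 hw1 hw2 hw3 he1
  have be2 : |e2| ≤ 1206 / 10000 := by
    refine l3_e (d1 := d2) (d2 := d3) (d3 := d1) (w1 := w2) (w2 := w3) (w3 := w1) (by linarith)
      hd2 hd3 hd1 hw2 hw3 hw1 ?_
    have e1 : sq3 d2 d3 d1 = sq3 d1 d2 d3 := by unfold sq3; ring
    have e2 : sq3 w2 w3 w1 = sq3 w1 w2 w3 := by unfold sq3; ring
    rw [e1, e2]; exact he2
  have be3 : |e3| ≤ 1206 / 10000 := by
    refine l3_e (d1 := d3) (d2 := d1) (d3 := d2) (w1 := w3) (w2 := w1) (w3 := w2) (by linarith)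
      hd3 hd1 hd2 hw3 hw1 hw2 ?_
    have e1 : sq3 d3 d1 d2 = sq3 d1 d2 d3 := by unfold sq3; ring
    have e2 : sq3 w3 w1 w2 = sq3 w1 w2 w3 := by unfold sq3; ring
    rw [e1, e2]; exact he3
  have bv1 := l3_v hs hd1 hd2 hd3 hw1 hw2 hw3 hv1
  have bv2 : |v2| ≤ 84 / 1000 := by
    refine l3_v (d1 := d2) (d2 := d3) (d3 := d1) (w1 := w2) (w2 := w3) (w3 := w1) (by linarith)
      hd2 hd3 hd1 hw2 hw3 hw1 ?_
    have e1 : sq3 d2 d3 d1 = sq3 d1 d2 d3 := by unfold sq3; ring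
    have e2 : sq3 w2 w3 w1 = sq3 w1 w2 w3 := by unfold sq3; ring
    rw [e1, e2]; exact hv2
  have bv3 : |v3| ≤ 84 / 1000 := by
    refine l3_v (d1 := d3) (d2 := d1) (d3 := d2) (w1 := w3) (w2 := w1) (w3 := w2) (by linarith)
      hd3 hd1 hd2 hw3 hw1 hw2 ?_
    have e1 : sq3 d3 d1 d2 = sq3 d1 d2 d3 := by unfold sq3; ring
    have e2 : sq3 w3 w1 w2 = sq3 w1 w2 w3 := by unfold sq3; ring
    rw [e1, e2]; exact hv3
  have hQ := (l3_cub hs hd1 hd2 hd3).2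
  have w1s : w1 ^ 2 ≤ 49 / 10000 := by
    rw [← sq_abs w1]; nlinarith [abs_nonneg w1]
  have w2s : w2 ^ 2 ≤ 49 / 10000 := by
    rw [← sq_abs w2]; nlinarith [abs_nonneg w2]
  have w3s : w3 ^ 2 ≤ 49 / 10000 := by
    rw [← sq_abs w3]; nlinarith [abs_nonneg w3]
  have hW : sq3 w1 w2 w3 ≤ 147 / 10000 := by unfold sq3; linarith
  have hQ0 : 0 ≤ sq3 d1 d2 d3 := by unfold sq3; positivity
  have hW0 : 0 ≤ sq3 w1 w2 w3 := by unfold sq3; positivity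
  obtain ⟨t, ht⟩ : ∃ t, t = 3 - (sq3 d1 d2 d3 / 2 + sq3 w1 w2 w3) := ⟨_, rfl⟩
  have ht1 : 29732 / 10000 ≤ t := by rw [ht]; linarith
  have ht2 : t ≤ 3 := by rw [ht]; linarith
  have htp : 0 < t := by linarith
  rw [← ht] at he1 he2 he3 hv1 hv2 hv3
  have ht' : t = 3 - ((d1 ^ 2 + d2 ^ 2 + d3 ^ 2) / 2 + (w1 ^ 2 + w2 ^ 2 + w3 ^ 2)) := ht
  have hd3' : d3 = -(d1 + d2) := by linarith
  have hse : e1 + e2 + e3 = 0 := by
    have h : t * (e1 + e2 + e3) = 0 := by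
      have : t * (e1 + e2 + e3) = t * (1 + e1) + t * (1 + e2) + t * (1 + e3) - 3 * t := by ring
      rw [this, he1, he2, he3, ht', hd3']; ring
    rcases mul_eq_zero.mp h with h | h
    · exact absurd h (ne_of_gt htp)
    · exact h
  have ce := l3_cub hse be1 be2 be3
  have cv := l3_prod bv1 bv2 bv3
  have ht9 : t ^ 2 ≤ 9 := by nlinarith
  refine ⟨hse, be1, be2, be3, bv1, bv2, bv3, ?_, ?_, ?_, ?_, ?_⟩
  · refine le_trans ce.1 (le_of_eq ?_); ring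
  · refine le_trans cv (le_of_eq ?_); ring
  · refine le_trans ce.2 ?_; norm_num
  · have hV0 : 0 ≤ sq3 v1 v2 v3 := by unfold sq3; positivity
    have h1 : t ^ 2 * sq3 v1 v2 v3 = 9 * ((w2 * w3 - (1 + d1) * w1) ^ 2 +
        (w3 * w1 - (1 + d2) * w2) ^ 2 + (w1 * w2 - (1 + d3) * w3) ^ 2) := by
      have : t ^ 2 * sq3 v1 v2 v3 = (t * v1) ^ 2 + (t * v2) ^ 2 + (t * v3) ^ 2 := by
        unfold sq3; ring
      rw [this, hv1, hv2, hv3]; ring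
    have h2 : t ^ 2 * sq3 v1 v2 v3 ≤ 9 * sq3 v1 v2 v3 := mul_le_mul_of_nonneg_right ht9 hV0
    have h3 : sq3 w1 w2 w3 + 2 * fdw d1 d2 d3 w1 w2 w3 - 6 * (w1 * w2 * w3) +
        ((d1 * w1) ^ 2 + (d2 * w2) ^ 2 + (d3 * w3) ^ 2 + (w2 * w3) ^ 2 + (w3 * w1) ^ 2 +
          (w1 * w2) ^ 2) =
        (w2 * w3 - (1 + d1) * w1) ^ 2 +
        (w3 * w1 - (1 + d2) * w2) ^ 2 + (w1 * w2 - (1 + d3) * w3) ^ 2 := by
      unfold sq3 fdw; rw [hd3']; ring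
    have h4 : 0 ≤ (d1 * w1) ^ 2 + (d2 * w2) ^ 2 + (d3 * w3) ^ 2 + (w2 * w3) ^ 2 + (w3 * w1) ^ 2 +
          (w1 * w2) ^ 2 := by positivity
    linarith
  · have hE0 : 0 ≤ sq3 e1 e2 e3 := by unfold sq3; positivity
    have h1 : t ^ 2 * (3 + sq3 e1 e2 e3) = 9 * (((1 + d2) * (1 + d3) - w1 ^ 2) ^ 2 +
        ((1 + d3) * (1 + d1) - w2 ^ 2) ^ 2 + ((1 + d1) * (1 + d2) - w3 ^ 2) ^ 2) := by
      have : t ^ 2 * (3 + sq3 e1 e2 e3) = (t * (1 + e1)) ^ 2 + (t * (1 + e2)) ^ 2 +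
          (t * (1 + e3)) ^ 2 - 2 * t ^ 2 * (e1 + e2 + e3) := by
        unfold sq3; ring
      rw [this, he1, he2, he3, hse]; ring
    have h2 : t ^ 2 * sq3 e1 e2 e3 ≤ 9 * sq3 e1 e2 e3 := mul_le_mul_of_nonneg_right ht9 hE0
    have h3 : sq3 d1 d2 d3 - 6 * (d1 * d2 * d3) + 2 * fdw d1 d2 d3 w1 w2 w3 -
        (sq3 d1 d2 d3 / 2 + sq3 w1 w2 w3) ^ 2 / 3 +
        ((d2 * d3 - w1 ^ 2) ^ 2 + (d3 * d1 - w2 ^ 2) ^ 2 + (d1 * d2 - w3 ^ 2) ^ 2) =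
        (((1 + d2) * (1 + d3) - w1 ^ 2) ^ 2 +
        ((1 + d3) * (1 + d1) - w2 ^ 2) ^ 2 + ((1 + d1) * (1 + d2) - w3 ^ 2) ^ 2) - t ^ 2 / 3 := by
      rw [ht]; unfold sq3 fdw; rw [hd3']; ring
    have h4 : 0 ≤ (d2 * d3 - w1 ^ 2) ^ 2 + (d3 * d1 - w2 ^ 2) ^ 2 + (d1 * d2 - w3 ^ 2) ^ 2 := by
      positivity
    linarith

end Pool.Agent.H999.Ep3
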