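import Pool.Agent.H999.Ep3.LBase
import Pool.Agent.H999.Ep3.Bridge

set_option autoImplicit false

open Matrix

namespace Pool.Agent.H999.Ep3

open Pool.Agent.K1H99.FCC (N0 rv nsq qf af dt PD rad Fp Qm pp tot al be sd)
open Pool.Agent.H999.Theta3 (Th RF RB Bp bb psi dx)
open Pool.Agent.K1H99.FCC (rm rm_one)

/-- the Gram matrix of the dual basis -/
lemma l12_dual {A : Matrix (Fin 3) (Fin 3) ℝ} {p : Fin 6 → ℝ} (hA : Aᵀ * A = Qm p)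
    (hp : dt p = 1) {B : Matrix (Fin 3) (Fin 3) ℝ} (hBA : Bᵀ * A = 1) :
    Bᵀ * B = (Qm p).adjugate := by
  have hAB : A * Bᵀ = 1 := mul_eq_one_comm.1 hBA
  have h2 : Bᵀ * B * Qm p = 1 := by
    rw [← hA, Matrix.mul_assoc, ← Matrix.mul_assoc B Aᵀ A]
    have : B * Aᵀ = 1 := by
      have := congrArg Matrix.transpose hAB
      rwa [Matrix.transpose_mul, Matrix.transpose_transpose, Matrix.transpose_one] at this
    rw [this, Matrix.one_mul, hBA]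
  have h4 : (Bᵀ * B) * (Qm p * (Qm p).adjugate) = (Qm p).adjugate := by
    rw [← Matrix.mul_assoc, h2, Matrix.one_mul]
  rw [Matrix.mul_adjugate, Pool.Agent.K1H99.FCC.dt_eq, hp, one_smul, Matrix.mul_one] at h4
  exact h4

/-- the dual form in explicit coordinates -/
lemma l12_gram (T d1 d2 w1 w2 w3 : ℝ) :
    (rm g13_UF)ᵀ * (Qm (T • bb d1 d2 (-d1 - d2) w1 w2 w3)).adjugate * rm g13_UF =
      Qm (fun i => 4 * T ^ 2 * (![((1 + d2) * (1 + (-d1 - d2)) - w1 ^ 2) +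
          (w2 * w3 - (1 + d1) * w1) + (w3 * w1 - (1 + d2) * w2) +
          (w1 * w2 - (1 + (-d1 - d2)) * w3),
        ((1 + d2) * (1 + (-d1 - d2)) - w1 ^ 2) -
          (w2 * w3 - (1 + d1) * w1) + (w3 * w1 - (1 + d2) * w2) -
          (w1 * w2 - (1 + (-d1 - d2)) * w3),
        ((1 + d1) * (1 + d2) - w3 ^ 2) - ((1 + d2) * (1 + (-d1 - d2)) - w1 ^ 2),
        ((1 + (-d1 - d2)) * (1 + d1) - w2 ^ 2) - ((1 + d2) * (1 + (-d1 - d2)) - w1 ^ 2),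
        ((1 + d2) * (1 + (-d1 - d2)) - w1 ^ 2) -
          (w2 * w3 - (1 + d1) * w1) - (w3 * w1 - (1 + d2) * w2) +
          (w1 * w2 - (1 + (-d1 - d2)) * w3),
        ((1 + d2) * (1 + (-d1 - d2)) - w1 ^ 2) +
          (w2 * w3 - (1 + d1) * w1) - (w3 * w1 - (1 + d2) * w2) -
          (w1 * w2 - (1 + (-d1 - d2)) * w3)] : Fin 6 → ℝ) i) := by
  rw [g13_rmUF]
  unfold Qm bb
  rw [Matrix.adjugate_fin_three_of]
  ext i j
  fin_cases i <;> fin_cases j <;>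
    simp [Matrix.mul_apply, Fin.sum_univ_three] <;> ring

lemma l12_abs {x b : ℝ} (h : |x| ≤ b) : -b ≤ x ∧ x ≤ b := abs_le.1 h

/-- the bound of the diagonal coordinates -/
lemma l12_e {d1 d2 d3 w1 w2 w3 t0 e : ℝ} (hs : d1 + d2 + d3 = 0) (h1 : |d1| ≤ 1 / 10)
    (h2 : |d2| ≤ 1 / 10) (h3 : |d3| ≤ 1 / 10) (k1 : |w1| ≤ 55 / 1000) (k2 : |w2| ≤ 55 / 1000)
    (k3 : |w3| ≤ 55 / 1000) (ht0 : t0 = 3 - (sq3 d1 d2 d3 / 2 + sq3 w1 w2 w3)) (ht : 0 < t0)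
    (he : t0 * (1 + e) = 3 * ((1 + d2) * (1 + d3) - w1 ^ 2)) : |e| ≤ 11 / 100 := by
  obtain ⟨a1, b1⟩ := l12_abs h1
  obtain ⟨a2, b2⟩ := l12_abs h2
  obtain ⟨a3, b3⟩ := l12_abs h3
  have q1 : w1 ^ 2 ≤ (55 / 1000) ^ 2 := sq_le_sq' (l12_abs k1).1 (l12_abs k1).2
  have q2 : w2 ^ 2 ≤ (55 / 1000) ^ 2 := sq_le_sq' (l12_abs k2).1 (l12_abs k2).2
  have q3 : w3 ^ 2 ≤ (55 / 1000) ^ 2 := sq_le_sq' (l12_abs k3).1 (l12_abs k3).2
  have p1 := sq_nonneg w1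
  have p2 := sq_nonneg w2
  have p3 := sq_nonneg w3
  obtain rfl : d3 = -d1 - d2 := by linarith
  have hte : t0 * e = -3 * d1 + 3 * d1 ^ 2 - sq3 d1 d2 (-d1 - d2) - 3 * w1 ^ 2 + sq3 w1 w2 w3 := by
    have : t0 * e = t0 * (1 + e) - t0 := by ring
    rw [this, he, ht0]
    unfold sq3
    ring
  have hQ1 : 3 / 2 * d1 ^ 2 ≤ sq3 d1 d2 (-d1 - d2) := by
    unfold sq3
    nlinarith [sq_nonneg (d1 + 2 * d2)]
  have hQ2 : sq3 d1 d2 (-d1 - d2) ≤ 2 * d1 ^ 2 + 2 / 100 := by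
    have h5 : |d2 * (-d1 - d2)| ≤ 1 / 10 * (1 / 10) := by
      rw [abs_mul]
      exact mul_le_mul h2 h3 (abs_nonneg _) (by norm_num)
    have h6 := (l12_abs h5).1
    unfold sq3
    nlinarith
  have hd : d1 ^ 2 ≤ (1 / 10) ^ 2 := sq_le_sq' (by linarith) b1
  have hW : sq3 w1 w2 w3 = w1 ^ 2 + w2 ^ 2 + w3 ^ 2 := rfl
  rw [abs_le]
  constructor
  · have : 0 ≤ t0 * (e + 11 / 100) := by
      rw [mul_add, hte, ht0, hW]
      nlinarith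
    have h7 := nonneg_of_mul_nonneg_right this ht
    linarith
  · have : 0 ≤ t0 * (11 / 100 - e) := by
      rw [mul_sub, hte, ht0, hW]
      nlinarith
    have h7 := nonneg_of_mul_nonneg_right this ht
    linarith

/-- the bound of the other coordinates -/
lemma l12_v {d1 w1 w2 w3 t0 v : ℝ} (h1 : |d1| ≤ 1 / 10)
    (k1 : |w1| ≤ 55 / 1000) (k2 : |w2| ≤ 55 / 1000)
    (k3 : |w3| ≤ 55 / 1000) (ht : 297 / 100 ≤ t0)
    (hv : t0 * v = 3 * (w2 * w3 - (1 + d1) * w1)) : |v| ≤ 7 / 100 := by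
  have h0 : |t0 * v| ≤ 3 * (55 / 1000 * (55 / 1000) + 11 / 10 * (55 / 1000)) := by
    rw [hv, abs_mul, abs_of_pos (by norm_num : (0 : ℝ) < 3)]
    refine mul_le_mul_of_nonneg_left ?_ (by norm_num)
    refine le_trans (abs_sub _ _) (add_le_add ?_ ?_)
    · rw [abs_mul]
      exact mul_le_mul k2 k3 (abs_nonneg _) (by norm_num)
    · rw [abs_mul]
      refine mul_le_mul ?_ k1 (abs_nonneg _) (by norm_num)
      refine le_trans (abs_add_le _ _) ?_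
      rw [abs_one]
      linarith
  rw [abs_mul, abs_of_pos (by linarith : (0 : ℝ) < t0)] at h0
  have h5 := mul_le_mul_of_nonneg_right ht (abs_nonneg v)
  linarith

/-- duality at the body-centred cubic form -/
theorem dualB : DualB := by
  intro T d1 d2 d3 w1 w2 w3 hT hB hpd hr
  obtain ⟨hs, h1, h2, h3, k1, k2, k3⟩ := hB
  have hdt : dt (T • bb d1 d2 d3 w1 w2 w3) = 1 := by
    rw [← Pool.Agent.K1H99.FCC.rad_cube (Pool.Agent.K1H99.FCC.dt_pos hpd).le, hr, one_pow]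
  obtain ⟨A, hA, hdA⟩ := hpd
  have hdet : |A.det| = 1 := by
    have h1 : |A.det| ^ 2 = 1 ^ 2 := by
      rw [sq_abs, Pool.Agent.K1H99.FCC.det_sq hA, hdt, one_pow]
    exact (pow_left_inj₀ (abs_nonneg _) zero_le_one two_ne_zero).1 h1
  obtain ⟨l1, l2, l3⟩ := g13_dl hdet
  have hBB := l12_dual hA hdt l1
  have m1 := g13_main hdet (p := T • bb d1 d2 d3 w1 w2 w3) (U := 1)
    (by rw [Matrix.det_one]; exact isUnit_one) (by rw [rm_one, Matrix.mul_one]; exact hA)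
  -- the scale
  obtain ⟨t0, ht0⟩ : ∃ t0 : ℝ, t0 = 3 - (sq3 d1 d2 d3 / 2 + sq3 w1 w2 w3) := ⟨_, rfl⟩
  have ht : 297 / 100 ≤ t0 := by
    have q1 : w1 ^ 2 ≤ (55 / 1000) ^ 2 := sq_le_sq' (l12_abs k1).1 (l12_abs k1).2
    have q2 : w2 ^ 2 ≤ (55 / 1000) ^ 2 := sq_le_sq' (l12_abs k2).1 (l12_abs k2).2
    have q3 : w3 ^ 2 ≤ (55 / 1000) ^ 2 := sq_le_sq' (l12_abs k3).1 (l12_abs k3).2
    have r1 : d1 ^ 2 ≤ (1 / 10) ^ 2 := sq_le_sq' (l12_abs h1).1 (l12_abs h1).2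
    have r2 : d2 ^ 2 ≤ (1 / 10) ^ 2 := sq_le_sq' (l12_abs h2).1 (l12_abs h2).2
    have r3 : d3 ^ 2 ≤ (1 / 10) ^ 2 := sq_le_sq' (l12_abs h3).1 (l12_abs h3).2
    rw [ht0]
    unfold sq3
    linarith
  have ht0p : 0 < t0 := by linarith
  have hne : t0 ≠ 0 := ht0p.ne'
  -- the coordinates
  obtain ⟨e1, he1⟩ : ∃ e1 : ℝ, t0 * (1 + e1) = 3 * ((1 + d2) * (1 + d3) - w1 ^ 2) :=
    ⟨3 * ((1 + d2) * (1 + d3) - w1 ^ 2) / t0 - 1, by field_simp; ring⟩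
  obtain ⟨e2, he2⟩ : ∃ e2 : ℝ, t0 * (1 + e2) = 3 * ((1 + d3) * (1 + d1) - w2 ^ 2) :=
    ⟨3 * ((1 + d3) * (1 + d1) - w2 ^ 2) / t0 - 1, by field_simp; ring⟩
  obtain ⟨e3, he3⟩ : ∃ e3 : ℝ, t0 * (1 + e3) = 3 * ((1 + d1) * (1 + d2) - w3 ^ 2) :=
    ⟨3 * ((1 + d1) * (1 + d2) - w3 ^ 2) / t0 - 1, by field_simp; ring⟩
  obtain ⟨v1, hv1⟩ : ∃ v1 : ℝ, t0 * v1 = 3 * (w2 * w3 - (1 + d1) * w1) :=
    ⟨3 * (w2 * w3 - (1 + d1) * w1) / t0, by field_simp⟩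
  obtain ⟨v2, hv2⟩ : ∃ v2 : ℝ, t0 * v2 = 3 * (w3 * w1 - (1 + d2) * w2) :=
    ⟨3 * (w3 * w1 - (1 + d2) * w2) / t0, by field_simp⟩
  obtain ⟨v3, hv3⟩ : ∃ v3 : ℝ, t0 * v3 = 3 * (w1 * w2 - (1 + d3) * w3) :=
    ⟨3 * (w1 * w2 - (1 + d3) * w3) / t0, by field_simp⟩
  have hsum : e1 + e2 + e3 = 0 := by
    have h5 : t0 * (e1 + e2 + e3) = 0 := by
      have h6 : t0 * (e1 + e2 + e3) = t0 * (1 + e1) + t0 * (1 + e2) + t0 * (1 + e3) - 3 * t0 := by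
        ring
      rw [h6, he1, he2, he3, ht0]
      unfold sq3
      have : d3 = -d1 - d2 := by linarith
      rw [this]
      ring
    exact (mul_eq_zero.1 h5).resolve_left hne
  have hbe1 : |e1| ≤ 11 / 100 := l12_e hs h1 h2 h3 k1 k2 k3 ht0 ht0p he1
  have hbe2 : |e2| ≤ 11 / 100 := l12_e (d1 := d2) (d2 := d3) (d3 := d1) (w1 := w2) (w2 := w3)
    (w3 := w1) (by linarith) h2 h3 h1 k2 k3 k1 (by rw [ht0]; unfold sq3; ring) ht0p he2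
  have hbe3 : |e3| ≤ 11 / 100 := l12_e (d1 := d3) (d2 := d1) (d3 := d2) (w1 := w3) (w2 := w1)
    (w3 := w2) (by linarith) h3 h1 h2 k3 k1 k2 (by rw [ht0]; unfold sq3; ring) ht0p he3
  have hbv1 : |v1| ≤ 7 / 100 := l12_v h1 k1 k2 k3 ht hv1
  have hbv2 : |v2| ≤ 7 / 100 := l12_v h2 k2 k3 k1 ht hv2
  have hbv3 : |v3| ≤ 7 / 100 := l12_v h3 k3 k1 k2 ht hv3
  -- the form
  have hd3 : d3 = -d1 - d2 := by linarith
  have hP : (fun i => 4 * T ^ 2 * (![((1 + d2) * (1 + (-d1 - d2)) - w1 ^ 2) +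
          (w2 * w3 - (1 + d1) * w1) + (w3 * w1 - (1 + d2) * w2) +
          (w1 * w2 - (1 + (-d1 - d2)) * w3),
        ((1 + d2) * (1 + (-d1 - d2)) - w1 ^ 2) -
          (w2 * w3 - (1 + d1) * w1) + (w3 * w1 - (1 + d2) * w2) -
          (w1 * w2 - (1 + (-d1 - d2)) * w3),
        ((1 + d1) * (1 + d2) - w3 ^ 2) - ((1 + d2) * (1 + (-d1 - d2)) - w1 ^ 2),
        ((1 + (-d1 - d2)) * (1 + d1) - w2 ^ 2) - ((1 + d2) * (1 + (-d1 - d2)) - w1 ^ 2),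
        ((1 + d2) * (1 + (-d1 - d2)) - w1 ^ 2) -
          (w2 * w3 - (1 + d1) * w1) - (w3 * w1 - (1 + d2) * w2) +
          (w1 * w2 - (1 + (-d1 - d2)) * w3),
        ((1 + d2) * (1 + (-d1 - d2)) - w1 ^ 2) +
          (w2 * w3 - (1 + d1) * w1) - (w3 * w1 - (1 + d2) * w2) -
          (w1 * w2 - (1 + (-d1 - d2)) * w3)] : Fin 6 → ℝ) i) =
      (4 * T ^ 2 * t0 / 3) • pp e1 e2 e3 v1 v2 v3 := by
    rw [← hd3]
    funext i
    unfold pp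
    fin_cases i
    · show 4 * T ^ 2 * (((1 + d2) * (1 + d3) - w1 ^ 2) + (w2 * w3 - (1 + d1) * w1) +
          (w3 * w1 - (1 + d2) * w2) + (w1 * w2 - (1 + d3) * w3)) =
        (4 * T ^ 2 * t0 / 3) * (1 + e1 + v1 + v2 + v3)
      linear_combination (-(4 * T ^ 2 / 3)) * (he1 + hv1 + hv2 + hv3)
    · show 4 * T ^ 2 * (((1 + d2) * (1 + d3) - w1 ^ 2) - (w2 * w3 - (1 + d1) * w1) +
          (w3 * w1 - (1 + d2) * w2) - (w1 * w2 - (1 + d3) * w3)) =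
        (4 * T ^ 2 * t0 / 3) * (1 + e1 - v1 + v2 - v3)
      linear_combination (-(4 * T ^ 2 / 3)) * (he1 - hv1 + hv2 - hv3)
    · show 4 * T ^ 2 * (((1 + d1) * (1 + d2) - w3 ^ 2) - ((1 + d2) * (1 + d3) - w1 ^ 2)) =
        (4 * T ^ 2 * t0 / 3) * (e3 - e1)
      linear_combination (-(4 * T ^ 2 / 3)) * (he3 - he1)
    · show 4 * T ^ 2 * (((1 + d3) * (1 + d1) - w2 ^ 2) - ((1 + d2) * (1 + d3) - w1 ^ 2)) =
        (4 * T ^ 2 * t0 / 3) * (e2 - e1)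
      linear_combination (-(4 * T ^ 2 / 3)) * (he2 - he1)
    · show 4 * T ^ 2 * (((1 + d2) * (1 + d3) - w1 ^ 2) - (w2 * w3 - (1 + d1) * w1) -
          (w3 * w1 - (1 + d2) * w2) + (w1 * w2 - (1 + d3) * w3)) =
        (4 * T ^ 2 * t0 / 3) * (1 + e1 - v1 - v2 + v3)
      linear_combination (-(4 * T ^ 2 / 3)) * (he1 - hv1 - hv2 + hv3)
    · show 4 * T ^ 2 * (((1 + d2) * (1 + d3) - w1 ^ 2) + (w2 * w3 - (1 + d1) * w1) -
          (w3 * w1 - (1 + d2) * w2) - (w1 * w2 - (1 + d3) * w3)) =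
        (4 * T ^ 2 * t0 / 3) * (1 + e1 + v1 - v2 - v3)
      linear_combination (-(4 * T ^ 2 / 3)) * (he1 + hv1 - hv2 - hv3)
  have hgram : (dl A * rm g13_UF)ᵀ * (dl A * rm g13_UF) =
      Qm ((4 * T ^ 2 * t0 / 3) • pp e1 e2 e3 v1 v2 v3) := by
    rw [← hP, ← l12_gram, ← hd3, ← hBB, Matrix.transpose_mul]
    simp only [Matrix.mul_assoc]
  have m2 := g13_main l3 g13_UF_det hgram
  refine ⟨4 * T ^ 2 * t0 / 3, e1, e2, e3, v1, v2, v3, by positivity,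
    ⟨hsum, hbe1, hbe2, hbe3, hbv1, hbv2, hbv3⟩, m2.1, m2.2.1, fun t ht' => ?_⟩
  have n1 := m1.2.2.2 t ht'
  have n2 := m2.2.2.1 t ht'
  rw [n1] at n2
  exact add_left_cancel n2

end Pool.Agent.H999.Ep3
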