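import Pool.Agent.H999.Ep3.LBase
import Pool.Agent.H999.Ep3.Bridge

set_option autoImplicit false

open Matrix

namespace Pool.Agent.H999.Ep3

open Pool.Agent.K1H99.FCC (N0 rv nsq qf af dt PD rad Fp Qm pp tot al be sd)
open Pool.Agent.H999.Theta3 (Th RF RB Bp bb psi dx)

lemma l11_gram {C : Matrix (Fin 3) (Fin 3) ℝ} {q : Fin 6 → ℝ} (h : ∀ x, nsq C x = qf q x) :
    Cᵀ * C = Qm q := by
  have h1 := h ![1, 0, 0]
  have h2 := h ![0, 1, 0]
  have h3 := h ![0, 0, 1]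
  have h4 := h ![1, 1, 0]
  have h5 := h ![1, 0, 1]
  have h6 := h ![0, 1, 1]
  simp [nsq, qf, Matrix.mulVec, dotProduct, Fin.sum_univ_three] at h1 h2 h3 h4 h5 h6
  ext i j
  fin_cases i <;> fin_cases j <;> simp [Matrix.mul_apply, Fin.sum_univ_three, Qm] <;> linarith

/-- a unimodular matrix -/
def l11_M : Matrix (Fin 3) (Fin 3) ℤ := !![1, 0, 1; 1, 1, 1; 1, 0, 0]

/-- its inverse -/
def l11_V : Matrix (Fin 3) (Fin 3) ℝ := !![0, 0, 1; -1, 1, 0; 1, 0, -1]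

lemma l11_Mu : IsUnit l11_M.det := by decide

lemma l11_Vd : l11_V.det = -1 := by
  unfold l11_V
  rw [Matrix.det_fin_three]
  simp

lemma l11_form {d1 d2 d3 w1 w2 w3 e1 e2 e3 v1 v2 v3 : ℝ}
    (h : Du d1 d2 d3 w1 w2 w3 e1 e2 e3 v1 v2 v3) (he : e1 + e2 + e3 = 0) (y : Fin 3 → ℝ) :
    3 * af (pp d1 d2 d3 w1 w2 w3) y = (3 - (sq3 d1 d2 d3 / 2 + sq3 w1 w2 w3)) *
      qf (bb e1 e2 e3 v1 v2 v3) ![y 0 + y 2, y 0 + y 1 + y 2, y 0] := by
  have hB : af (pp d1 d2 d3 w1 w2 w3) y =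
      ((1 + d2) * (1 + d3) - w1 ^ 2) * (y 0 + y 1) ^ 2 +
      ((1 + d3) * (1 + d1) - w2 ^ 2) * (y 0 - y 1) ^ 2 +
      ((1 + d1) * (1 + d2) - w3 ^ 2) * (y 0 + y 1 + 2 * y 2) ^ 2 +
      2 * (w1 * w2 - (1 + d3) * w3) * (y 0 + y 1) * (y 0 - y 1) +
      2 * (w3 * w1 - (1 + d2) * w2) * (y 0 + y 1) * (y 0 + y 1 + 2 * y 2) +
      2 * (w2 * w3 - (1 + d1) * w1) * (y 0 - y 1) * (y 0 + y 1 + 2 * y 2) := by
    unfold af pp
    simp
    ring
  have hA : qf (bb e1 e2 e3 v1 v2 v3) ![y 0 + y 2, y 0 + y 1 + y 2, y 0] =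
      (1 + e1) * (y 0 + y 1) ^ 2 + (1 + e2) * (y 0 - y 1) ^ 2 +
      (1 + e3) * (y 0 + y 1 + 2 * y 2) ^ 2 + 2 * v3 * (y 0 + y 1) * (y 0 - y 1) +
      2 * v2 * (y 0 + y 1) * (y 0 + y 1 + 2 * y 2) +
      2 * v1 * (y 0 - y 1) * (y 0 + y 1 + 2 * y 2) := by
    have h3 : e3 = -(e1 + e2) := by linarith
    subst h3
    unfold qf bb
    simp
    ring
  rw [hA, hB]
  linear_combination -(y 0 + y 1) ^ 2 * h.he1 - (y 0 - y 1) ^ 2 * h.he2 -
    (y 0 + y 1 + 2 * y 2) ^ 2 * h.he3 - 2 * (y 0 + y 1) * (y 0 - y 1) * h.hv3 -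
    2 * (y 0 + y 1) * (y 0 + y 1 + 2 * y 2) * h.hv2 -
    2 * (y 0 - y 1) * (y 0 + y 1 + 2 * y 2) * h.hv1

lemma l11_sq {x c : ℝ} (hx : |x| ≤ c) : x ^ 2 ≤ c ^ 2 := by
  rw [← sq_abs]
  exact pow_le_pow_left₀ (abs_nonneg x) hx 2

lemma l11_t0 {d1 d2 d3 w1 w2 w3 : ℝ} (h : Bx (11 / 100) (7 / 100) d1 d2 d3 w1 w2 w3) :
    0 < 3 - (sq3 d1 d2 d3 / 2 + sq3 w1 w2 w3) := by
  have h1 := l11_sq h.hd1
  have h2 := l11_sq h.hd2
  have h3 := l11_sq h.hd3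
  have h4 := l11_sq h.hw1
  have h5 := l11_sq h.hw2
  have h6 := l11_sq h.hw3
  unfold sq3
  norm_num at h1 h2 h3 h4 h5 h6 ⊢
  linarith

lemma l11_dtB : dt Bp = 16 := by
  unfold dt Bp
  norm_num

lemma l11_radB : rad Bp = rad Fp ^ 2 := by
  have h1 : rad Bp ^ 3 = 16 := by
    rw [Pool.Agent.K1H99.FCC.rad_cube (by rw [l11_dtB]; norm_num), l11_dtB]
  have h2 : (rad Fp ^ 2) ^ 3 = 16 := by
    rw [← pow_mul, mul_comm, pow_mul, Pool.Agent.K1H99.FCC.rad_Fp]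
    norm_num
  have h3 : 0 < rad Bp := Pool.Agent.K1H99.FCC.rad_pos (by rw [l11_dtB]; norm_num)
  exact (pow_left_inj₀ h3.le (by positivity) three_ne_zero).1 (h1.trans h2.symm)

lemma l11_radp {r s d1 d2 d3 w1 w2 w3 : ℝ} (hb : Bx (11 / 100) (7 / 100) d1 d2 d3 w1 w2 w3)
    (hr : Rs r s d1 d2 d3 w1 w2 w3) (hp : 0 < dt (pp d1 d2 d3 w1 w2 w3)) :
    rad (pp d1 d2 d3 w1 w2 w3) * (1 + r) = rad Fp := by
  have h1 : rad (pp d1 d2 d3 w1 w2 w3) ^ 3 = dt (pp d1 d2 d3 w1 w2 w3) :=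
    Pool.Agent.K1H99.FCC.rad_cube hp.le
  have h2 : dt (pp d1 d2 d3 w1 w2 w3) = 4 * (1 - dx d1 d2 d3 w1 w2 w3) := by
    have h3 : d3 = -(d1 + d2) := by have := hb.sum; linarith
    subst h3
    rw [Pool.Agent.K1H99.FCC.dt_pp]
    unfold dx
    ring
  have h3 : (rad (pp d1 d2 d3 w1 w2 w3) * (1 + r)) ^ 3 = rad Fp ^ 3 := by
    rw [mul_pow, h1, h2, Pool.Agent.K1H99.FCC.rad_Fp]
    linear_combination 4 * hr.hr
  have h4 : 0 ≤ rad (pp d1 d2 d3 w1 w2 w3) * (1 + r) :=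
    mul_nonneg (Pool.Agent.K1H99.FCC.rad_pos hp).le (by have := hr.nn; linarith)
  exact (pow_left_inj₀ h4 Pool.Agent.K1H99.FCC.rad_Fp_pos.le three_ne_zero).1 h3

/-- duality at the face-centred cubic form -/
theorem dualF (hs : SBd) (hd : DBd) : DualF := by
  intro T r s d1 d2 d3 w1 w2 w3 e1 e2 e3 v1 v2 v3 hb hdu hrs hT hTr hP t ht
  have he : e1 + e2 + e3 = 0 := (hd _ _ _ _ _ _ _ _ _ _ _ _ hb hdu).1
  have ht0 := l11_t0 hb
  have hrn := hrs.nn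
  have hrF := Pool.Agent.K1H99.FCC.rad_Fp_pos
  have hrB : 0 < rad Bp := by rw [l11_radB]; positivity
  have hdP := Pool.Agent.K1H99.FCC.dt_pos hP
  have hdp : 0 < dt (pp d1 d2 d3 w1 w2 w3) := by
    rw [g13_dt_smul] at hdP
    exact (pos_iff_pos_of_mul_pos hdP).1 (by positivity)
  have hrp := Pool.Agent.K1H99.FCC.rad_pos hdp
  have hpF := l11_radp hb hrs hdp
  -- the scale factor
  have hk : t * (1 + s) / rad Bp * 3 =
      (3 - (sq3 d1 d2 d3 / 2 + sq3 w1 w2 w3)) * (t * T / rad (pp d1 d2 d3 w1 w2 w3)) := by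
    rw [hrs.hs, l11_radB]
    have h1 : T = (1 + r) / rad Fp := by
      rw [eq_div_iff hrF.ne', hTr]
    have h2 : rad (pp d1 d2 d3 w1 w2 w3) = rad Fp / (1 + r) := by
      rw [eq_div_iff (by positivity), hpF]
    rw [h1, h2]
    field_simp
  have hk0 : 0 < t * (1 + s) / rad Bp := by
    have h1 : 0 < (3 - (sq3 d1 d2 d3 / 2 + sq3 w1 w2 w3)) *
        (t * T / rad (pp d1 d2 d3 w1 w2 w3)) := mul_pos ht0 (by positivity)
    rw [← hk] at h1
    linarith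
  set k := t * (1 + s) / rad Bp with hkdef
  set t0 := 3 - (sq3 d1 d2 d3 / 2 + sq3 w1 w2 w3) with ht0def
  have hform := l11_form hdu he
  rw [← ht0def] at hform
  constructor
  · obtain ⟨A, hA, hAd⟩ := hP
    have hu : IsUnit A.det := isUnit_iff_ne_zero.2 hAd
    have hBA : ((A⁻¹)ᵀ)ᵀ * A = 1 := by
      rw [Matrix.transpose_transpose, Matrix.nonsing_inv_mul _ hu]
    have hdual := Pool.Agent.K1H99.FCC.nsq_dual hA hBA
    set B : Matrix (Fin 3) (Fin 3) ℝ := (A⁻¹)ᵀ with hBdef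
    have hBd : B.det ≠ 0 := by
      intro h
      have h1 := congrArg Matrix.det hBA
      rw [Matrix.det_mul, Matrix.det_transpose, h, zero_mul, Matrix.det_one] at h1
      exact zero_ne_one h1
    have hc0 : 0 < k * 3 * dt (T • pp d1 d2 d3 w1 w2 w3) / (t0 * T ^ 2) := by positivity
    set c := Real.sqrt (k * 3 * dt (T • pp d1 d2 d3 w1 w2 w3) / (t0 * T ^ 2)) with hcdef
    have hcc : c ^ 2 = k * 3 * dt (T • pp d1 d2 d3 w1 w2 w3) / (t0 * T ^ 2) :=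
      Real.sq_sqrt hc0.le
    have hcp : 0 < c := Real.sqrt_pos.2 hc0
    refine ⟨c • (B * l11_V), l11_gram ?_, ?_⟩
    · intro x
      have hV : l11_V.mulVec x = ![x 2, x 1 - x 0, x 0 - x 2] := by
        unfold l11_V
        funext i
        fin_cases i <;> simp [Matrix.mulVec, dotProduct, Fin.sum_univ_three] <;> ring
      have h1 : nsq (c • (B * l11_V)) x = c ^ 2 * nsq B (l11_V.mulVec x) := by
        unfold nsq
        rw [Finset.mul_sum]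
        refine Finset.sum_congr rfl fun i _ => ?_
        rw [Matrix.smul_mulVec, Pi.smul_apply, smul_eq_mul, Matrix.mulVec_mulVec]
        ring
      have h2 := hdual (l11_V.mulVec x)
      rw [g13_af_smul] at h2
      have h3 := hform (l11_V.mulVec x)
      have h4 : (![(l11_V.mulVec x) 0 + (l11_V.mulVec x) 2,
          (l11_V.mulVec x) 0 + (l11_V.mulVec x) 1 + (l11_V.mulVec x) 2,
          (l11_V.mulVec x) 0] : Fin 3 → ℝ) = x := by
        rw [hV]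
        funext i
        fin_cases i <;> simp <;> ring
      rw [h4] at h3
      rw [h1, g13_qf_smul, hcc]
      have h5 : nsq B (l11_V.mulVec x) =
          T ^ 2 * (t0 * qf (bb e1 e2 e3 v1 v2 v3) x / 3) / dt (T • pp d1 d2 d3 w1 w2 w3) := by
        rw [eq_div_iff hdP.ne', h2, ← h3]
        ring
      rw [h5]
      field_simp
    · rw [Matrix.det_smul, Matrix.det_mul, l11_Vd]
      have := pow_pos hcp (Fintype.card (Fin 3))
      exact mul_ne_zero this.ne' (mul_ne_zero hBd (by norm_num))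
  · unfold Td Th
    rw [← (Pool.Agent.K1H99.FCC.uact l11_M l11_Mu).tsum_eq fun n : N0 =>
      Real.exp (-(Real.pi * qf (k • bb e1 e2 e3 v1 v2 v3) (rv n.1)))]
    refine tsum_congr fun n => ?_
    congr 3
    have h1 : rv ((Pool.Agent.K1H99.FCC.uact l11_M l11_Mu n).1) =
        ![rv n.1 0 + rv n.1 2, rv n.1 0 + rv n.1 1 + rv n.1 2, rv n.1 0] := by
      rw [Pool.Agent.K1H99.FCC.uact_val]
      unfold l11_M rv
      funext i
      fin_cases i <;> simp [Matrix.mulVec, dotProduct, Fin.sum_univ_three]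
    rw [h1, g13_qf_smul, g13_rad_smul ht hdP, g13_rad_smul hT hdp, g13_af_smul, g13_af_smul]
    have h2 := hform (rv n.1)
    have h3 : qf (bb e1 e2 e3 v1 v2 v3)
        ![rv n.1 0 + rv n.1 2, rv n.1 0 + rv n.1 1 + rv n.1 2, rv n.1 0] =
        3 * af (pp d1 d2 d3 w1 w2 w3) (rv n.1) / t0 := by
      rw [eq_div_iff ht0.ne', h2]
      ring
    rw [h3]
    have h4 : k = t0 * (t * T / rad (pp d1 d2 d3 w1 w2 w3)) / 3 := by
      rw [← hk]; ring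
    rw [h4]
    field_simp

end Pool.Agent.H999.Ep3
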