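import Pool.Agent.H999.Ep3.EpDual
import Pool.Agent.H999.Ep3.EpTheta
import Pool.Agent.H999.Ep3.EpExist
import Pool.Agent.H999.Ep3.EpFinal
import Pool.Agent.H999.Ep3.EpLa
import Pool.Agent.H999.Ep3.EpTail
import Pool.Agent.H999.Ep3.EpTT

/-!
# From the theta functions to the Epstein zeta function
-/

set_option autoImplicit false

open Matrix MeasureTheory Set

namespace Pool.Agent.H999.Ep3

/-- the theorem of the problem, from the inequalities for theta functions -/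
theorem part4
    (h : ∀ β : ℝ, 0 < β → β < 1 → ∀ A : Matrix (Fin 3) (Fin 3) ℝ, |A.det| = 1 → th AB β ≤ th A β)
    (h1 : TT → ∀ A : Matrix (Fin 3) (Fin 3) ℝ, |A.det| = 1 → U1 A)
    (h2 : TT → ∀ A : Matrix (Fin 3) (Fin 3) ℝ, |A.det| = 1 → U2 A) :
    (∀ A : Matrix (Fin 3) (Fin 3) ℝ, |A.det| = 1 → ∃ Z : ℂ → ℂ, IsEpstein A Z) ∧
    ∀ A : Matrix (Fin 3) (Fin 3) ℝ, |A.det| = 1 → ∀ Z ZF ZB : ℂ → ℂ,
      IsEpstein A Z → IsEpstein AF ZF → IsEpstein AB ZB →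
      (∀ s : ℝ, 0 < s → s ≠ 3 → (Z s).im = 0) ∧
      (∀ s : ℝ, 3 / 2 ≤ s → s ≠ 3 → (ZF s).re ≤ (Z s).re) ∧
      (∀ s : ℝ, 0 < s → s ≤ 3 / 2 → (ZB s).re ≤ (Z s).re) := by
  have hT : TT := tt_of dual_facts theta_facts h
  have ht := tails dual_facts theta_facts
  exact epstein_of dual_facts (exists_epstein dual_facts theta_facts)
    (la_le dual_facts theta_facts hT (h1 hT) (h2 hT) ht.1 ht.2)

end Pool.Agent.H999.Ep3
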