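import Pool.Agent.H999.Ep3.LBase
import Pool.Agent.H999.Ep3.Bridge
import Pool.Agent.H999.Ep3.Part4

set_option autoImplicit false

open Matrix

namespace Pool.Agent.H999.Ep3

open Pool.Agent.K1H99.FCC (N0 rv nsq qf af dt PD rad Fp Qm pp tot al be sd)
open Pool.Agent.H999.Theta3 (Th RF RB Bp bb psi dx)

/-- the theta series and the dual theta series determine each other -/
theorem dualFE : DualFE := by
  intro p q hp hq hrp hrq h t ht
  obtain ⟨A, hA, hA1, hA2⟩ := bridge_form hp hrp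
  obtain ⟨B, hB, hB1, hB2⟩ := bridge_form hq hrq
  have ht' : 0 < 1 / t := by positivity
  have e1 := (theta_facts A hA).2.2.1 t ht
  obtain ⟨hB3, hB4⟩ := dual_facts.2.2.2.2 B hB
  have e2 := (theta_facts (dl B) hB3).2.2.1 t ht
  rw [hB4] at e2
  have e3 : th (dl A) (1 / t) = th B (1 / t) := by
    rw [hA2 _ ht', hB1 _ ht', h _ ht']
  rw [e3, ← e2, hA1 t ht, hB2 t ht] at e1
  linarith

/-- the face-centred cubic lattice minimises the theta series -/
theorem th_ok (hTT : TT) : ThOK := by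
  intro p hp hr
  have hr0 : 0 < rad p := by linarith
  have hd := Pool.Agent.K1H99.FCC.dt_pos hp
  have h1 : PD ((rad p)⁻¹ • p) := g13_PD_smul (inv_pos.2 hr0) hp
  have h2 : rad ((rad p)⁻¹ • p) = 1 := by
    rw [g13_rad_smul (inv_pos.2 hr0) hd, inv_mul_cancel₀ hr0.ne']
  obtain ⟨A, hA, h3, _⟩ := bridge_form h1 h2
  have h4 := h3 (rad p) hr0
  rw [smul_smul, mul_inv_cancel₀ hr0.ne', one_smul] at h4
  have h5 := hTT A hA (rad p) hr
  rw [h4, bridge_F _ hr0] at h5
  linarith

end Pool.Agent.H999.Ep3
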