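import Pool.Agent.H999.Ep3.LBase

set_option autoImplicit false

open Matrix

namespace Pool.Agent.H999.Ep3

open Pool.Agent.K1H99.FCC (N0 rv nsq qf af dt PD rad Fp Qm pp tot al be sd)
open Pool.Agent.H999.Theta3 (Th RF RB Bp bb psi dx)

theorem l4_hasDeriv (y : ℝ) :
    HasDerivAt (fun y : ℝ => Real.exp y * (1 - y + y ^ 2 / 2 - y ^ 3 / 6))
      (-(y ^ 3 / 6) * Real.exp y) y := by
  have h1 := Real.hasDerivAt_exp y
  have h2 : HasDerivAt (fun y : ℝ => 1 - y + y ^ 2 / 2 - y ^ 3 / 6)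
      (0 - 1 + (2 : ℕ) * y ^ (2 - 1) / 2 - (3 : ℕ) * y ^ (3 - 1) / 6) y :=
    ((((hasDerivAt_const y (1 : ℝ)).sub (hasDerivAt_id y)).add ((hasDerivAt_pow 2 y).div_const 2)).sub
      ((hasDerivAt_pow 3 y).div_const 6))
  refine (h1.mul h2).congr_deriv ?_
  push_cast
  ring

theorem l4_exp_mul_le (y : ℝ) : Real.exp y * (1 - y + y ^ 2 / 2 - y ^ 3 / 6) ≤ 1 := by
  set G : ℝ → ℝ := fun y => Real.exp y * (1 - y + y ^ 2 / 2 - y ^ 3 / 6) with hG
  have h0 : G 0 = 1 := by simp [hG]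
  have hd : Differentiable ℝ G := fun z => (l4_hasDeriv z).differentiableAt
  have hc : Continuous G := hd.continuous
  rcases le_total 0 y with hy | hy
  · have ha : AntitoneOn G (Set.Ici 0) := by
      apply antitoneOn_of_deriv_nonpos (convex_Ici 0) hc.continuousOn hd.differentiableOn
      intro z hz
      rw [interior_Ici] at hz
      rw [(l4_hasDeriv z).deriv]
      have hz' : 0 < z := hz
      have : 0 ≤ z ^ 3 / 6 * Real.exp z := by positivity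
      linarith
    have h := ha Set.self_mem_Ici (Set.mem_Ici.2 hy) hy
    rw [h0] at h
    exact h
  · have ha : MonotoneOn G (Set.Iic 0) := by
      apply monotoneOn_of_deriv_nonneg (convex_Iic 0) hc.continuousOn hd.differentiableOn
      intro z hz
      rw [interior_Iic] at hz
      rw [(l4_hasDeriv z).deriv]
      have hz' : z < 0 := hz
      have h3 : z ^ 3 ≤ 0 := by
        have : z ^ 3 = z * z ^ 2 := by ring
        rw [this]
        exact mul_nonpos_of_nonpos_of_nonneg hz'.le (sq_nonneg z)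
      have h4 : 0 ≤ -(z ^ 3 / 6) := by linarith
      exact mul_nonneg h4 (Real.exp_pos z).le
    have h := ha (Set.mem_Iic.2 hy) Set.self_mem_Iic hy
    rw [h0] at h
    exact h

theorem l4_psi (y : ℝ) : y ^ 2 / 2 - y ^ 3 / 6 ≤ psi y := by
  have h1 := l4_exp_mul_le y
  have h2 : Real.exp (-y) * (Real.exp y * (1 - y + y ^ 2 / 2 - y ^ 3 / 6)) ≤ Real.exp (-y) * 1 :=
    mul_le_mul_of_nonneg_left h1 (Real.exp_pos _).le
  rw [← mul_assoc, ← Real.exp_add, neg_add_cancel, Real.exp_zero, one_mul, mul_one] at h2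
  unfold psi
  linarith

theorem l4_expneg (y : ℝ) : 1 - y + y ^ 2 / 2 - y ^ 3 / 6 ≤ Real.exp (-y) := by
  have h := l4_psi y
  unfold psi at h
  linarith

theorem l4_Q {d1 d2 d3 : ℝ} (hd : d1 + d2 + d3 = 0) (b1 : |d1| ≤ 11 / 100) (b2 : |d2| ≤ 11 / 100)
    (b3 : |d3| ≤ 11 / 100) : d1 ^ 2 + d2 ^ 2 + d3 ^ 2 ≤ 242 / 10000 := by
  rw [abs_le] at b1 b2 b3
  have h1 : d3 = -(d1 + d2) := by linarith
  subst h1
  by_cases h : 0 ≤ d1 * d2
  · nlinarith [mul_nonneg (show (0:ℝ) ≤ 11 / 100 - (d1 + d2) by linarith) (show (0:ℝ) ≤ 11 / 100 + (d1 + d2) by linarith)]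
  · push Not at h
    rcases le_total 0 d1 with g | g
    · have g2 : d2 ≤ 0 := by
        by_contra g2
        push Not at g2
        nlinarith
      rcases le_total 0 (d1 + d2) with k | k <;>
      nlinarith [mul_nonneg (show (0:ℝ) ≤ 11 / 100 - d1 by linarith) (show (0:ℝ) ≤ 11 / 100 + d1 by linarith),
        mul_nonneg (show (0:ℝ) ≤ 11 / 100 - d2 by linarith) (show (0:ℝ) ≤ 11 / 100 + d2 by linarith),
        mul_nonneg (show (0:ℝ) ≤ 11 / 100 + d2 by linarith) (show (0:ℝ) ≤ 11 / 100 - d1 by linarith)]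
    · have g2 : 0 ≤ d2 := by
        by_contra g2
        push Not at g2
        nlinarith
      rcases le_total 0 (d1 + d2) with k | k <;>
      nlinarith [mul_nonneg (show (0:ℝ) ≤ 11 / 100 - d1 by linarith) (show (0:ℝ) ≤ 11 / 100 + d1 by linarith),
        mul_nonneg (show (0:ℝ) ≤ 11 / 100 - d2 by linarith) (show (0:ℝ) ≤ 11 / 100 + d2 by linarith),
        mul_nonneg (show (0:ℝ) ≤ 11 / 100 - d2 by linarith) (show (0:ℝ) ≤ 11 / 100 + d1 by linarith)]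

theorem l4_W {w : ℝ} (c : |w| ≤ 7 / 100) : w ^ 2 ≤ 49 / 10000 := by
  rw [← sq_abs]
  nlinarith [abs_nonneg w]

/-- squares -/
theorem l4_sq {σ r : ℝ} (h1 : 3958 / 1000 ≤ σ) (h2 : σ ≤ 254 / 10) (h3 : 0 ≤ r)
    (h4 : r ≤ 101 / 10000) : 1 - (σ - 199 / 100) * r ≤ Real.exp (-(σ * r)) * (1 + r) ^ 2 := by
  have h5 := l4_expneg (σ * r)
  have hy1 : 3958 / 1000 * r ≤ σ * r := mul_le_mul_of_nonneg_right h1 h3
  have hy2 : σ * r ≤ 2566 / 10000 := by nlinarith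
  have hy0 : 0 ≤ σ * r := by nlinarith
  have e : (σ - 199 / 100) * r = σ * r - 199 / 100 * r := by ring
  rw [e]
  generalize σ * r = y at *
  have h6 : (1 - y + y ^ 2 / 2 - y ^ 3 / 6) * (1 + r) ^ 2 ≤ Real.exp (-y) * (1 + r) ^ 2 :=
    mul_le_mul_of_nonneg_right h5 (sq_nonneg _)
  refine le_trans ?_ h6
  have hyy : 0 ≤ y ^ 2 := sq_nonneg y
  have a1 : y ^ 3 / 6 ≤ 428 / 10000 * y ^ 2 := by
    have : y ^ 3 = y * y ^ 2 := by ring
    rw [this]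
    nlinarith
  have a2 : 0 ≤ r * (2 * y ^ 2 / 2 - 2 * y ^ 3 / 6) := mul_nonneg h3 (by linarith)
  have a3 : 0 ≤ r ^ 2 * (y ^ 2 / 2 - y ^ 3 / 6) := mul_nonneg (sq_nonneg _) (by linarith)
  have a4 : r ^ 2 * y ≤ 2566 / 10000 * r ^ 2 := by
    have := mul_le_mul_of_nonneg_left hy2 (sq_nonneg r)
    linarith
  have a5 : 99 * r ^ 2 ≤ r := by nlinarith
  have a6 : 0 ≤ 4572 / 10000 * y ^ 2 - 2 * r * y + 17334 / 10000 * r ^ 2 := by
    nlinarith [sq_nonneg (y - 3958 / 1000 * r), mul_nonneg h3 (sub_nonneg.2 hy1), sq_nonneg r]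
  nlinarith

/-- cubes -/
theorem l4_cu {σ r : ℝ} (h1 : 3958 / 1000 ≤ σ) (h2 : σ ≤ 254 / 10) (h3 : 0 ≤ r)
    (h4 : r ≤ 101 / 10000) : 1 - (σ - 298 / 100) * r ≤ Real.exp (-(σ * r)) * (1 + r) ^ 3 := by
  have h5 := l4_expneg (σ * r)
  have hy1 : 3958 / 1000 * r ≤ σ * r := mul_le_mul_of_nonneg_right h1 h3
  have hy2 : σ * r ≤ 2566 / 10000 := by nlinarith
  have hy0 : 0 ≤ σ * r := by nlinarith
  have e : (σ - 298 / 100) * r = σ * r - 298 / 100 * r := by ring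
  rw [e]
  have hcase : σ * r ≤ 82 / 10 * r ∨ 82 / 10 * r ≤ σ * r := le_total _ _
  generalize σ * r = y at *
  have h6 : (1 - y + y ^ 2 / 2 - y ^ 3 / 6) * (1 + r) ^ 3 ≤ Real.exp (-y) * (1 + r) ^ 3 :=
    mul_le_mul_of_nonneg_right h5 (by positivity)
  refine le_trans ?_ h6
  have hyy : 0 ≤ y ^ 2 := sq_nonneg y
  have a1 : y ^ 3 / 6 ≤ 428 / 10000 * y ^ 2 := by
    have : y ^ 3 = y * y ^ 2 := by ring
    rw [this]
    nlinarith
  have a2 : 0 ≤ r * (y ^ 2 * (4572 / 10000 * 3) - 1371 / 1000 * y ^ 2) :=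
    mul_nonneg h3 (by linarith)
  have a2' : 1371 / 1000 * (r * y ^ 2) ≤ 3 * r * (y ^ 2 / 2 - y ^ 3 / 6) := by
    have := mul_le_mul_of_nonneg_left (show 4572 / 10000 * y ^ 2 ≤ y ^ 2 / 2 - y ^ 3 / 6 by linarith) h3
    linarith
  have a3 : 0 ≤ (3 * r ^ 2 + r ^ 3) * (y ^ 2 / 2 - y ^ 3 / 6) :=
    mul_nonneg (by positivity) (by linarith)
  have a3' : 0 ≤ r ^ 3 * (1 - y) := mul_nonneg (by positivity) (by linarith)
  have a5 : 99 * r ^ 2 ≤ r := by nlinarith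
  have a6 : 0 ≤ y ^ 2 / 2 - y ^ 3 / 6 + 2 / 100 * r - 3 * r * y + 1371 / 1000 * (r * y ^ 2) +
      3 * r ^ 2 - 3 * (r ^ 2 * y) := by
    rcases hcase with hc | hc
    · have b1 : y ^ 3 / 6 ≤ 1371 / 1000 * (r * y ^ 2) := by
        have : y ^ 3 = y * y ^ 2 := by ring
        rw [this]
        nlinarith [mul_le_mul_of_nonneg_right hc hyy, mul_nonneg h3 hyy]
      have b2 : r ^ 2 * y ≤ 83 / 1000 * r ^ 2 := by
        have := mul_le_mul_of_nonneg_left (show y ≤ 83 / 1000 by linarith) (sq_nonneg r)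
        linarith
      nlinarith [sq_nonneg (y - 3 * r), sq_nonneg r]
    · have b0 : 0 ≤ r * y ^ 2 := mul_nonneg h3 hyy
      have b2 : r ^ 2 * y ≤ 2566 / 10000 * r ^ 2 := by
        have := mul_le_mul_of_nonneg_left hy2 (sq_nonneg r)
        linarith
      nlinarith [sq_nonneg (y - 82 / 10 * r), mul_nonneg h3 (sub_nonneg.2 hc), sq_nonneg r]
  nlinarith

theorem l4_cu1 {σ r : ℝ} (h1 : 3958 / 1000 ≤ σ) (h3 : 0 ≤ r) :
    Real.exp (-(σ * r)) * (1 + r) ^ 3 ≤ 1 := by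
  have h2 : 1 + r ≤ Real.exp r := by
    have := Real.add_one_le_exp r
    linarith
  have h4 : (1 + r) ^ 3 ≤ Real.exp r ^ 3 := pow_le_pow_left₀ (by linarith) h2 3
  calc Real.exp (-(σ * r)) * (1 + r) ^ 3 ≤ Real.exp (-(σ * r)) * Real.exp r ^ 3 :=
        mul_le_mul_of_nonneg_left h4 (Real.exp_pos _).le
    _ = Real.exp (-(σ * r) + 3 * r) := by
        rw [Real.exp_add]
        congr 1
        rw [← Real.exp_nat_mul]
        norm_num
    _ ≤ 1 := by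
        rw [Real.exp_le_one_iff]
        nlinarith

/-- the lemma at the face-centred cubic form -/
theorem flem (h : RBd) : FLem := by
  intro τ r s d1 d2 d3 w1 w2 w3 hB hR h1 h2
  obtain ⟨hX0, hrX, hXX, hrQ, hr1⟩ := h r s d1 d2 d3 w1 w2 w3 hB hR
  have hr0 := hR.nn
  have hQ : sq3 d1 d2 d3 ≤ 242 / 10000 := l4_Q hB.sum hB.hd1 hB.hd2 hB.hd3
  have hW : sq3 w1 w2 w3 ≤ 147 / 10000 := by
    have a1 := l4_W hB.hw1
    have a2 := l4_W hB.hw2
    have a3 := l4_W hB.hw3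
    unfold sq3
    linarith
  have hQ0 : 0 ≤ sq3 d1 d2 d3 := by unfold sq3; positivity
  have hW0 : 0 ≤ sq3 w1 w2 w3 := by unfold sq3; positivity
  have hsum := hB.sum
  have hXe : dx d1 d2 d3 w1 w2 w3 = sq3 d1 d2 d3 / 2 + sq3 w1 w2 w3 - d1 * d2 * d3 -
      2 * (w1 * w2 * w3) + fdw d1 d2 d3 w1 w2 w3 := by
    unfold dx sq3 fdw
    ring
  have hcube : d1 ^ 3 + d2 ^ 3 + d3 ^ 3 = 3 * (d1 * d2 * d3) := by
    have : d3 = -(d1 + d2) := by linarith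
    rw [this]; ring
  have hτ0 : 0 < τ := by linarith
  -- the sums
  have s1 : ∀ x : ℝ, x ^ 2 * (sq3 d1 d2 d3 / 4 + sq3 w1 w2 w3) +
      x ^ 3 * (d1 * d2 * d3 / 8 + fdw d1 d2 d3 w1 w2 w3 / 2) ≤ S1 x d1 d2 d3 w1 w2 w3 := by
    intro x
    have p1 := l4_psi (x * (-d1 / 2 + w1))
    have p2 := l4_psi (x * (-d1 / 2 - w1))
    have p3 := l4_psi (x * (-d2 / 2 + w2))
    have p4 := l4_psi (x * (-d2 / 2 - w2))
    have p5 := l4_psi (x * (-d3 / 2 + w3))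
    have p6 := l4_psi (x * (-d3 / 2 - w3))
    have h8 : x ^ 2 * (sq3 d1 d2 d3 / 4 + sq3 w1 w2 w3) +
      x ^ 3 * (d1 * d2 * d3 / 8 + fdw d1 d2 d3 w1 w2 w3 / 2) =
      ((x * (-d1 / 2 + w1)) ^ 2 / 2 - (x * (-d1 / 2 + w1)) ^ 3 / 6) +
      ((x * (-d1 / 2 - w1)) ^ 2 / 2 - (x * (-d1 / 2 - w1)) ^ 3 / 6) +
      ((x * (-d2 / 2 + w2)) ^ 2 / 2 - (x * (-d2 / 2 + w2)) ^ 3 / 6) +
      ((x * (-d2 / 2 - w2)) ^ 2 / 2 - (x * (-d2 / 2 - w2)) ^ 3 / 6) +
      ((x * (-d3 / 2 + w3)) ^ 2 / 2 - (x * (-d3 / 2 + w3)) ^ 3 / 6) +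
      ((x * (-d3 / 2 - w3)) ^ 2 / 2 - (x * (-d3 / 2 - w3)) ^ 3 / 6) := by
      unfold sq3 fdw
      linear_combination (-(x ^ 3) / 24) * hcube
    unfold S1
    linarith
  have s2 : ∀ x : ℝ, 2 * x ^ 2 * sq3 d1 d2 d3 - 4 * x ^ 3 * (d1 * d2 * d3) ≤ S2 x d1 d2 d3 := by
    intro x
    have q1 := l4_psi (2 * x * d1)
    have q2 := l4_psi (2 * x * d2)
    have q3 := l4_psi (2 * x * d3)
    have h8 : 2 * x ^ 2 * sq3 d1 d2 d3 - 4 * x ^ 3 * (d1 * d2 * d3) =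
      ((2 * x * d1) ^ 2 / 2 - (2 * x * d1) ^ 3 / 6) +
      ((2 * x * d2) ^ 2 / 2 - (2 * x * d2) ^ 3 / 6) + ((2 * x * d3) ^ 2 / 2 - (2 * x * d3) ^ 3 / 6) := by
      unfold sq3
      linear_combination (4 * x ^ 3 / 3) * hcube
    unfold S2
    linarith
  -- the exponentials
  have ha2 : Real.exp (-(2 * τ * r)) = Real.exp (-(τ * r)) ^ 2 := by
    rw [← Real.exp_nat_mul]
    congr 1
    push_cast
    ring
  have hx : Real.exp (-(τ * (1 + r))) = Real.exp (-τ) * Real.exp (-(τ * r)) := by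
    rw [← Real.exp_add]
    congr 1
    ring
  have k3l := l4_cu (σ := τ) (r := r) h1 (by linarith) hr0 hr1
  have k4l := l4_cu (σ := 2 * τ) (r := r) (by linarith) (by linarith) hr0 hr1
  have k3u := l4_cu1 (σ := τ) (r := r) h1 hr0
  have k4u := l4_cu1 (σ := 2 * τ) (r := r) (by linarith) hr0
  have q2l := l4_sq (σ := τ) (r := r) h1 (by linarith) hr0 hr1
  have q4l := l4_sq (σ := 2 * τ) (r := r) (by linarith) (by linarith) hr0 hr1
  have hone : 1 - Real.exp (-(τ * r)) ≤ τ * r := by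
    have := Real.add_one_le_exp (-(τ * r))
    linarith
  refine ⟨Real.exp (-(τ * r)) * (1 + r) ^ 3, Real.exp (-(2 * τ * r)) * (1 + r) ^ 3, ?_, k3u, ?_,
    k4u, ?_⟩
  · refine le_trans ?_ k3l
    have := mul_le_mul_of_nonneg_left hr1 (show 0 ≤ τ - 298 / 100 by linarith)
    linarith
  · refine le_trans ?_ k4l
    have := mul_le_mul_of_nonneg_left hr1 (show 0 ≤ 2 * τ - 298 / 100 by linarith)
    linarith
  have t1 := s1 (τ * (1 + r))
  have t2 := s2 (τ * (1 + r))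
  rw [hx]
  rw [ha2] at q4l ⊢
  unfold FQ FW FE FF FG
  have ha0 : 0 < Real.exp (-(τ * r)) := Real.exp_pos _
  have hE0 : 0 < Real.exp (-τ) := Real.exp_pos _
  clear s1 s2 hcube hB hR h k3l k4l k3u k4u ha2 hx hsum
  generalize S1 (τ * (1 + r)) d1 d2 d3 w1 w2 w3 = A1 at *
  generalize S2 (τ * (1 + r)) d1 d2 d3 = A2 at *
  generalize dx d1 d2 d3 w1 w2 w3 = X at *
  generalize sq3 d1 d2 d3 = Q at *
  generalize sq3 w1 w2 w3 = W at *
  generalize fdw d1 d2 d3 w1 w2 w3 = f at *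
  generalize d1 * d2 * d3 = e at *
  generalize w1 * w2 * w3 = g at *
  generalize Real.exp (-(τ * r)) = a at *
  generalize Real.exp (-τ) = E at *
  -- step one: insert the lower bounds of the sums
  have u1 : a * (2 * ((τ * (1 + r)) ^ 2 * (Q / 4 + W) + (τ * (1 + r)) ^ 3 * (e / 8 + f / 2)) +
      2 * (E * a) * (2 * (τ * (1 + r)) ^ 2 * Q - 4 * (τ * (1 + r)) ^ 3 * e)) ≤
      a * (2 * A1 + 2 * (E * a) * A2) := by
    refine mul_le_mul_of_nonneg_left ?_ ha0.le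
    have hEa : 0 ≤ 2 * (E * a) := by positivity
    have := mul_le_mul_of_nonneg_left t2 hEa
    linarith
  have hrr : 2 * (r * (Q / 4 + W)) ≤ 214 / 100000 * Q + 2489 / 100000 * W := by
    have v1 : r * (Q / 4 + W) ≤ (1765 / 10000 * Q + 3938 / 10000 * W) * (Q / 4 + W) :=
      mul_le_mul_of_nonneg_right hrQ (by positivity)
    have v2 : Q * Q ≤ 242 / 10000 * Q := mul_le_mul_of_nonneg_right hQ hQ0
    have v3 : Q * W ≤ 242 / 10000 * W := mul_le_mul_of_nonneg_right hQ hW0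
    have v4 : W * W ≤ 147 / 10000 * W := mul_le_mul_of_nonneg_right hW hW0
    linarith
  have hrr4 : 4 * (r * Q) ≤ 171 / 10000 * Q + 382 / 10000 * W := by
    have v1 : r * Q ≤ (1765 / 10000 * Q + 3938 / 10000 * W) * Q :=
      mul_le_mul_of_nonneg_right hrQ hQ0
    have v2 : Q * Q ≤ 242 / 10000 * Q := mul_le_mul_of_nonneg_right hQ hQ0
    have v3 : Q * W ≤ 242 / 10000 * W := mul_le_mul_of_nonneg_right hQ hW0
    linarith
  have u2 : τ ^ 2 * (Q / 2 + 2 * W) - τ ^ 2 * (τ - 199 / 100) * (214 / 100000 * Q + 2489 / 100000 * W) ≤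
      2 * τ ^ 2 * (a * (1 + r) ^ 2) * (Q / 4 + W) := by
    have v1 : 2 * τ ^ 2 * (Q / 4 + W) * (1 - (τ - 199 / 100) * r) ≤
        2 * τ ^ 2 * (Q / 4 + W) * (a * (1 + r) ^ 2) := mul_le_mul_of_nonneg_left q2l (by positivity)
    have v2 : τ ^ 2 * (τ - 199 / 100) * (2 * (r * (Q / 4 + W))) ≤
        τ ^ 2 * (τ - 199 / 100) * (214 / 100000 * Q + 2489 / 100000 * W) :=
      mul_le_mul_of_nonneg_left hrr (mul_nonneg (sq_nonneg _) (by linarith))
    linarith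
  have u3 : 4 * E * τ ^ 2 * Q - E * τ ^ 2 * (2 * τ - 199 / 100) * (171 / 10000 * Q + 382 / 10000 * W) ≤
      4 * E * τ ^ 2 * (a ^ 2 * (1 + r) ^ 2) * Q := by
    have v1 : 4 * E * τ ^ 2 * Q * (1 - (2 * τ - 199 / 100) * r) ≤
        4 * E * τ ^ 2 * Q * (a ^ 2 * (1 + r) ^ 2) := mul_le_mul_of_nonneg_left q4l (by positivity)
    have v2 : E * τ ^ 2 * (2 * τ - 199 / 100) * (4 * (r * Q)) ≤
        E * τ ^ 2 * (2 * τ - 199 / 100) * (171 / 10000 * Q + 382 / 10000 * W) :=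
      mul_le_mul_of_nonneg_left hrr4 (mul_nonneg (by positivity) (by linarith))
    linarith
  have u4 : 12258 / 1000 * (1 - a) ≤ 12258 / 1000 * τ * (X / 3) +
      τ * (1913 / 100000 * Q + 14323 / 100000 * W) := by
    have v1 : τ * r ≤ τ * (X / 3 + 24 / 100 * X ^ 2) := mul_le_mul_of_nonneg_left hrX hτ0.le
    have v2 : τ * (24 / 100 * X ^ 2) ≤ τ * (24 / 100 * (6502 / 1000000 * Q + 48685 / 1000000 * W)) :=
      mul_le_mul_of_nonneg_left (by linarith) hτ0.le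
    have v3 : 0 ≤ τ * Q := by positivity
    have v4 : 0 ≤ τ * W := by positivity
    linarith
  rw [hXe] at u4
  have id1 : a * (2 * ((τ * (1 + r)) ^ 2 * (Q / 4 + W) + (τ * (1 + r)) ^ 3 * (e / 8 + f / 2)) +
      2 * (E * a) * (2 * (τ * (1 + r)) ^ 2 * Q - 4 * (τ * (1 + r)) ^ 3 * e)) =
      2 * τ ^ 2 * (a * (1 + r) ^ 2) * (Q / 4 + W) + (a * (1 + r) ^ 3) * τ ^ 3 * (e / 4 + f) +
        4 * E * τ ^ 2 * (a ^ 2 * (1 + r) ^ 2) * Q - 8 * (a ^ 2 * (1 + r) ^ 3) * τ ^ 3 * E * e := by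
    ring
  rw [id1] at u1
  linarith

end Pool.Agent.H999.Ep3
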