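import Pool.Agent.H999.Ep3.LBase
import Pool.Agent.H999.Ep3.Bridge

set_option autoImplicit false

open Matrix

namespace Pool.Agent.H999.Ep3

open Pool.Agent.K1H99.FCC (N0 rv nsq qf af dt PD rad Fp Qm pp tot al be sd)
open Pool.Agent.H999.Theta3 (Th RF RB Bp bb psi dx)

lemma l16_smul (t s1 d1 s2 d2 s3 d3 : ℝ) : t • sd s1 d1 s2 d2 s3 d3 =
    sd (t * s1) (t * d1) (t * s2) (t * d2) (t * s3) (t * d3) := by
  funext i
  fin_cases i <;> simp [sd] <;> ring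

lemma l16_InG {t : ℝ} (ht : 0 < t) {p : Fin 6 → ℝ} (h : InG (t • p)) : InG p := by
  obtain ⟨h1, h2, h3, h4, h5, h6, h7, h8, h9, h10, h11⟩ := h
  simp only [Pool.Agent.H999.Theta3.tF, Pi.smul_apply, smul_eq_mul] at h1 h2 h3 h4 h5 h6 h7 h8 h9 h10 h11
  refine ⟨?_, ?_, ?_, ?_, ?_, ?_, ?_, ?_, ?_, ?_, ?_⟩ <;>
    refine le_of_mul_le_mul_left ?_ ht <;> simp only [Pool.Agent.H999.Theta3.tF] <;> linarith

lemma l16_InH2 {t : ℝ} (ht : 0 < t) {S x y S' x' y' : ℝ} (h : InH2 S' x' y') (hS : S' = t * S)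
    (hx : x' = t * x) (hy : y' = t * y) : InH2 S x y := by
  subst hS hx hy
  obtain ⟨h1, h2, h3, h4⟩ := h
  refine ⟨?_, ?_, ?_, ?_⟩ <;> refine le_of_mul_le_mul_left ?_ ht <;> linarith

lemma l16_InH {t : ℝ} (ht : 0 < t) {p : Fin 6 → ℝ} (h : InH (t • p)) : InH p := by
  have hS : tot (t • p) = t * tot p := by
    unfold tot
    simp only [Pi.smul_apply, smul_eq_mul]
    ring
  obtain ⟨h1, h2, h3⟩ := h
  exact ⟨l16_InH2 ht h1 hS rfl rfl, l16_InH2 ht h2 hS rfl rfl, l16_InH2 ht h3 hS rfl rfl⟩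

/-- the statement for reduced forms -/
theorem fl_of (hF : LocFs) (hB : LocBs) (hG : CoordG) (hH : CoordH)
    (hcert : ∀ s1 d1 s2 d2 s3 d3 : ℝ, s2 ≤ s1 → s3 ≤ s2 → 0 ≤ d1 → d1 ≤ s1 → 0 ≤ d2 →
      d2 ≤ s2 → d3 ≤ s3 → -d3 ≤ s3 → PD (sd s1 d1 s2 d2 s3 d3) → 1 ≤ rad (sd s1 d1 s2 d2 s3 d3) →
      rad (sd s1 d1 s2 d2 s3 d3) ≤ 819 / 256 → Con (sd s1 d1 s2 d2 s3 d3)) :
    ∀ s1 d1 s2 d2 s3 d3 : ℝ, s2 ≤ s1 → s3 ≤ s2 → 0 ≤ d1 → d1 ≤ s1 → 0 ≤ d2 →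
      d2 ≤ s2 → d3 ≤ s3 → -d3 ≤ s3 → PD (sd s1 d1 s2 d2 s3 d3) → rad (sd s1 d1 s2 d2 s3 d3) = 1 →
      FLc (sd s1 d1 s2 d2 s3 d3) := by
  intro s1 d1 s2 d2 s3 d3 c1 c2 c3 c4 c5 c6 c7 c8 hPD hrad
  have hn : ∀ i, 0 ≤ sd s1 d1 s2 d2 s3 d3 i := by
    intro i
    fin_cases i <;> simp [sd] <;> linarith
  by_cases hg : InG (sd s1 d1 s2 d2 s3 d3)
  · obtain ⟨T, e1, e2, e3, w1, w2, w3, hT, hBx, hp⟩ := hG _ hn hPD hg
    rw [hp] at hPD hrad ⊢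
    exact hF T e1 e2 e3 w1 w2 w3 hT hBx hPD hrad
  by_cases hh : InH (sd s1 d1 s2 d2 s3 d3)
  · obtain ⟨T, e1, e2, e3, w1, w2, w3, hT, hBx, hp⟩ := hH _ hn hPD hh
    rw [hp] at hPD hrad ⊢
    exact hB T e1 e2 e3 w1 w2 w3 hT hBx hPD hrad
  have key : ∀ t : ℝ, 1 ≤ t → t ≤ 819 / 256 → RF t + RB t + ee t ≤
      Th (t • sd s1 d1 s2 d2 s3 d3) + Td (t • sd s1 d1 s2 d2 s3 d3) := by
    intro t ht1 ht2
    have ht : 0 < t := by linarith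
    have h1 : PD (t • sd s1 d1 s2 d2 s3 d3) := g13_PD_smul ht hPD
    have h2 : rad (t • sd s1 d1 s2 d2 s3 d3) = t := by
      rw [g13_rad_smul ht (Pool.Agent.K1H99.FCC.dt_pos hPD), hrad, mul_one]
    have h3 : Con (t • sd s1 d1 s2 d2 s3 d3) := by
      rw [l16_smul] at h1 h2 ⊢
      have h0 := ht.le
      refine hcert _ _ _ _ _ _ (mul_le_mul_of_nonneg_left c1 h0)
        (mul_le_mul_of_nonneg_left c2 h0) (mul_nonneg h0 c3) (mul_le_mul_of_nonneg_left c4 h0)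
        (mul_nonneg h0 c5) (mul_le_mul_of_nonneg_left c6 h0) (mul_le_mul_of_nonneg_left c7 h0)
        ?_ h1 ?_ ?_
      · have := mul_le_mul_of_nonneg_left c8 h0
        linarith
      · rw [h2]
        exact ht1
      · rw [h2]
        exact ht2
    rcases h3 with h3 | h3 | h3
    · rw [h2] at h3
      exact h3
    · exact absurd (l16_InG ht h3) hg
    · exact absurd (l16_InH ht h3) hh
  refine ⟨fun t ht1 ht2 => ?_, Or.inl fun t ht1 ht2 => ?_⟩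
  · have h1 := key t ht1 ht2
    have h2 : 0 ≤ ee t := by
      unfold ee
      split_ifs <;> norm_num
    linarith
  · have h1 := key t ht1 (by linarith)
    unfold ee at h1
    rw [if_pos ht2] at h1
    exact h1

end Pool.Agent.H999.Ep3
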