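import Pool.Agent.H999.Ep3.LBase
import Pool.Agent.H999.Theta3.LossF
import Pool.Agent.H999.Theta3.LossB

set_option autoImplicit false

open Matrix

namespace Pool.Agent.H999.Ep3

open Pool.Agent.K1H99.FCC (N0 rv nsq qf af dt PD rad Fp Qm pp tot al be sd)
open Pool.Agent.H999.Theta3 (Th RF RB Bp bb psi dx)
open Pool.Agent.H999.Theta3 (lb_J lb_J_inj lb_nz lb_mem lb_ge_three lb_rad_pos lb_be lb_e1
  lb_exp_summable lb_dec RF_loss)
open Pool.Agent.K1H99.FCC (nz nz_cast theta_three theta_int theta_nat SH sum_SH expneg_le be_bounds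
  rad_Fp_pos)

/-- the loss at the face-centred cubic form -/
theorem lossF : LossF := by
  intro t r ht hr
  have h0 := rad_Fp_pos
  have hr1 : 0 < 1 + r := by linarith
  have hT : 0 < t * (1 + r) / rad Fp := by positivity
  have hD : 0 ≤ r / (1 + r) := by positivity
  have e1 : t * (1 + r) / rad Fp * rad Fp = t * (1 + r) := by field_simp
  have e2 : t * (1 + r) * (1 - r / (1 + r)) = t := by field_simp; ring
  have h := RF_loss hT hD (by rw [e1, e2]; exact ht)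
  rw [e1, e2] at h
  have e3 : 2 * Real.pi * (t * (1 + r) / rad Fp) = 2 * al * t * (1 + r) := by
    unfold Pool.Agent.K1H99.FCC.al
    ring
  have e4 : 12258 / 1000 * Real.exp (-(2 * Real.pi * (t * (1 + r) / rad Fp))) *
      (Real.exp (2 * Real.pi * (t * (1 + r) / rad Fp) * (r / (1 + r))) - 1) =
      12258 / 1000 * (Real.exp (-(2 * al * t)) - Real.exp (-(2 * al * t * (1 + r)))) := by
    rw [e3, mul_assoc, mul_sub, ← Real.exp_add, mul_one]
    congr 3
    field_simp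
    ring
  rw [e4] at h
  exact h

/-- the theta series of the integers, better bound -/
lemma l10_nat : ∑' n : ℕ, Real.exp (-(1 / 8 : ℝ) * ((n : ℝ) + 1) ^ 2) ≤ 21114 / 10000 := by
  have hs := (theta_nat (μ := 1 / 8) (by norm_num)).1
  set q := Real.exp (-(1 / 8 : ℝ)) with hq
  have hq0 : 0 < q := Real.exp_pos _
  have hq1 : q ≤ 883 / 1000 :=
    expneg_le (s := 10078430 / 10000000) (by norm_num) (by norm_num) (by norm_num) (by norm_num)
  have q6 : q ^ 6 ≤ (883 / 1000) ^ 6 := pow_le_pow_left₀ hq0.le hq1 6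
  have q61 : q ^ 6 < 1 := lt_of_le_of_lt q6 (by norm_num)
  have q4 : q ^ 4 ≤ (883 / 1000) ^ 4 := pow_le_pow_left₀ hq0.le hq1 4
  have q9 : q ^ 9 ≤ (883 / 1000) ^ 9 := pow_le_pow_left₀ hq0.le hq1 9
  have hg : HasSum (fun n : ℕ => q ^ 9 * (q ^ 6) ^ n) (q ^ 9 * (1 - q ^ 6)⁻¹) :=
    (hasSum_geometric_of_lt_one (by positivity) q61).mul_left _
  have hs2 := (summable_nat_add_iff (f := fun n : ℕ => Real.exp (-(1 / 8 : ℝ) * ((n : ℝ) + 1) ^ 2)) 2).2 hs
  have hle : ∀ n : ℕ, Real.exp (-(1 / 8 : ℝ) * (((n + 2 : ℕ) : ℝ) + 1) ^ 2) ≤ q ^ 9 * (q ^ 6) ^ n := by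
    intro n
    rw [hq, ← pow_mul, ← Real.exp_nat_mul, ← Real.exp_nat_mul, ← Real.exp_add, Real.exp_le_exp]
    push_cast
    nlinarith [sq_nonneg (n : ℝ)]
  have h1 := hs2.tsum_le_tsum hle hg.summable
  rw [hg.tsum_eq] at h1
  rw [← hs.sum_add_tsum_nat_add 2]
  have e0 : ∑ i ∈ Finset.range 2, Real.exp (-(1 / 8 : ℝ) * ((i : ℝ) + 1) ^ 2) = q + q ^ 4 := by
    rw [Finset.sum_range_succ, Finset.sum_range_one]
    congr 1
    · rw [hq]
      norm_num
    · rw [hq, ← Real.exp_nat_mul]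
      norm_num
  rw [e0]
  have h2 : q ^ 9 * (1 - q ^ 6)⁻¹ ≤ 6204 / 10000 := by
    rw [← div_eq_mul_inv, div_le_iff₀ (by linarith)]
    norm_num at q6 q9 ⊢
    linarith
  have q4' : q ^ 4 ≤ 6080 / 10000 := q4.trans (by norm_num)
  linarith

lemma l10_int : ∑' k : ℤ, Real.exp (-(1 / 8 : ℝ) * (k : ℝ) ^ 2) ≤ 52228 / 10000 := by
  have hs := (theta_nat (μ := 1 / 8) (by norm_num)).1
  have hle := l10_nat
  have h1 : Summable fun n : ℕ => Real.exp (-(1 / 8 : ℝ) * (((n : ℕ) : ℤ) : ℝ) ^ 2) := by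
    rw [← summable_nat_add_iff 1]
    refine hs.congr fun n => ?_
    push_cast
    rfl
  have h2 : Summable fun n : ℕ => Real.exp (-(1 / 8 : ℝ) * ((-((n : ℤ) + 1) : ℤ) : ℝ) ^ 2) := by
    refine hs.congr fun n => ?_
    push_cast
    congr 1
    ring
  have h3 := HasSum.of_nat_of_neg_add_one (f := fun k : ℤ => Real.exp (-(1 / 8 : ℝ) * (k : ℝ) ^ 2))
    h1.hasSum h2.hasSum
  rw [h3.tsum_eq, h1.tsum_eq_zero_add]
  have e1 : ∑' b : ℕ, Real.exp (-(1 / 8 : ℝ) * (((b + 1 : ℕ) : ℤ) : ℝ) ^ 2) =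
      ∑' n : ℕ, Real.exp (-(1 / 8 : ℝ) * ((n : ℝ) + 1) ^ 2) := tsum_congr fun n => by push_cast; rfl
  have e2 : ∑' n : ℕ, Real.exp (-(1 / 8 : ℝ) * ((-((n : ℤ) + 1) : ℤ) : ℝ) ^ 2) =
      ∑' n : ℕ, Real.exp (-(1 / 8 : ℝ) * ((n : ℝ) + 1) ^ 2) := tsum_congr fun n => by
    push_cast
    congr 1
    ring
  have e0 : Real.exp (-(1 / 8 : ℝ) * (((0 : ℕ) : ℤ) : ℝ) ^ 2) = 1 := by simp
  rw [e1, e2, e0]
  linarith

lemma l10_three : ∑' c : ℤ × ℤ × ℤ, Real.exp (-(1 / 8 : ℝ) * (nz c : ℝ)) ≤ 1425 / 10 := by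
  have hs := (theta_int (μ := 1 / 8) (by norm_num)).1
  have hle := l10_int
  have h0 : ∀ k : ℤ, 0 ≤ Real.exp (-(1 / 8 : ℝ) * (k : ℝ) ^ 2) := fun _ => (Real.exp_pos _).le
  have hs2 := hs.mul_of_nonneg hs h0 h0
  have h02 : ∀ c : ℤ × ℤ, 0 ≤ Real.exp (-(1 / 8 : ℝ) * (c.1 : ℝ) ^ 2) *
      Real.exp (-(1 / 8 : ℝ) * (c.2 : ℝ) ^ 2) :=
    fun c => mul_nonneg (h0 _) (h0 _)
  have hs3 := hs.mul_of_nonneg hs2 h0 h02
  have e : ∀ c : ℤ × ℤ × ℤ, Real.exp (-(1 / 8 : ℝ) * (nz c : ℝ)) =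
      Real.exp (-(1 / 8 : ℝ) * (c.1 : ℝ) ^ 2) *
      (Real.exp (-(1 / 8 : ℝ) * (c.2.1 : ℝ) ^ 2) * Real.exp (-(1 / 8 : ℝ) * (c.2.2 : ℝ) ^ 2)) := by
    intro c
    rw [nz_cast, ← Real.exp_add, ← Real.exp_add]
    congr 1
    ring
  have t2 := hs.tsum_mul_tsum hs hs2
  have t3 := hs.tsum_mul_tsum hs2 hs3
  rw [tsum_congr e, ← t3, ← t2]
  have h1 : 0 ≤ ∑' k : ℤ, Real.exp (-(1 / 8 : ℝ) * (k : ℝ) ^ 2) := tsum_nonneg h0
  calc _ = (∑' k : ℤ, Real.exp (-(1 / 8 : ℝ) * (k : ℝ) ^ 2)) ^ 3 := by ring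
    _ ≤ (52228 / 10000) ^ 3 := pow_le_pow_left₀ h1 hle 3
    _ ≤ _ := by norm_num

/-- the shell lemma -/
lemma l10_shell (J : N0 → ℤ × ℤ × ℤ) (hJ : Function.Injective J) (S : Finset (ℤ × ℤ × ℤ)) (M : ℕ)
    (hS : ∀ n, nz (J n) < M → J n ∈ S) (f : ℕ → ℝ) (hf : ∀ m, 0 ≤ f m)
    (hsum : Summable fun n : N0 => f (nz (J n))) {K : ℝ} (hK : 0 ≤ K)
    (ht : ∀ m, M ≤ m → f m ≤ K * Real.exp (-(1 / 8 : ℝ) * m)) :
    ∑' n : N0, f (nz (J n)) ≤ ∑ c ∈ S, f (nz c) + K * (1425 / 10) := by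
  classical
  have hθ := (theta_three (μ := 1 / 8) (by norm_num)).1
  have hθ' := l10_three
  set g : ℤ × ℤ × ℤ → ℝ := fun c => if c ∈ S then f (nz c) else 0 with hg
  have hgs : HasSum g (∑ c ∈ S, f (nz c)) := by
    have h1 : ∑ c ∈ S, f (nz c) = ∑ c ∈ S, g c :=
      Finset.sum_congr rfl fun c hc => by simp [hg, hc]
    rw [h1]
    exact hasSum_sum_of_ne_finset_zero fun c hc => by simp [hg, hc]
  have hh : HasSum (fun c => g c + K * Real.exp (-(1 / 8 : ℝ) * (nz c : ℝ))) (∑ c ∈ S, f (nz c) +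
      K * ∑' c : ℤ × ℤ × ℤ, Real.exp (-(1 / 8 : ℝ) * (nz c : ℝ))) := hgs.add (hθ.hasSum.mul_left K)
  have hh0 : ∀ c, 0 ≤ g c + K * Real.exp (-(1 / 8 : ℝ) * (nz c : ℝ)) := by
    intro c
    refine add_nonneg ?_ (mul_nonneg hK (Real.exp_pos _).le)
    simp only [hg]
    split
    · exact hf _
    · exact le_rfl
  have h1 : ∑' n : N0, f (nz (J n)) ≤
      ∑' n : N0, (g (J n) + K * Real.exp (-(1 / 8 : ℝ) * (nz (J n) : ℝ))) := by
    refine hsum.tsum_le_tsum (fun n => ?_) (hh.summable.comp_injective hJ)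
    by_cases hn : nz (J n) < M
    · have : g (J n) = f (nz (J n)) := by simp [hg, hS n hn]
      rw [this]
      have : 0 ≤ K * Real.exp (-(1 / 8 : ℝ) * (nz (J n) : ℝ)) := mul_nonneg hK (Real.exp_pos _).le
      linarith
    · push Not at hn
      have h2 := ht _ hn
      have h3 : 0 ≤ g (J n) := by
        simp only [hg]
        split
        · exact hf _
        · exact le_rfl
      linarith
  refine h1.trans ((tsum_comp_le_tsum_of_inj hh.summable hh0 hJ).trans ?_)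
  rw [hh.tsum_eq]
  exact add_le_add le_rfl (mul_le_mul_of_nonneg_left hθ' hK)

/-- the weight -/
noncomputable def l10_f (c : ℝ) (m : ℕ) : ℝ := m * Real.exp (-(c * ((m : ℝ) - 3)))

lemma l10_f_nonneg (c : ℝ) (m : ℕ) : 0 ≤ l10_f c m := mul_nonneg (Nat.cast_nonneg m) (Real.exp_pos _).le

lemma l10_cast (m : ℕ) : (m : ℝ) ≤ 16 * Real.exp ((m : ℝ) / 16 - 1) := by
  have := Real.add_one_le_exp ((m : ℝ) / 16 - 1)
  linarith

lemma l10_f_le (c : ℝ) (m : ℕ) :
    l10_f c m ≤ 16 * Real.exp (3 * c - 1) * Real.exp (-(c - 1 / 16) * m) := by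
  unfold l10_f
  calc (m : ℝ) * Real.exp (-(c * ((m : ℝ) - 3)))
      ≤ (16 * Real.exp ((m : ℝ) / 16 - 1)) * Real.exp (-(c * ((m : ℝ) - 3))) :=
        mul_le_mul_of_nonneg_right (l10_cast m) (Real.exp_pos _).le
    _ = 16 * Real.exp (3 * c - 1) * Real.exp (-(c - 1 / 16) * m) := by
        rw [mul_assoc, mul_assoc, ← Real.exp_add, ← Real.exp_add]
        congr 2
        ring

lemma l10_f_summable {c : ℝ} (hc : be ≤ c) : Summable fun n : N0 => l10_f c (nz (lb_J n)) := by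
  have h1 := be_bounds.1
  refine Summable.of_nonneg_of_le (fun n => l10_f_nonneg _ _) (fun n => l10_f_le _ _) ?_
  exact (lb_exp_summable (μ := c - 1 / 16) (by linarith)).mul_left _

lemma l10_tail {c : ℝ} (hc : be ≤ c) (m : ℕ) (hm : 16 ≤ m) :
    l10_f c m ≤ (56 / 10000 * Real.exp (-c) ^ 5) * Real.exp (-(1 / 8 : ℝ) * m) := by
  have hm' : (16 : ℝ) ≤ m := by exact_mod_cast hm
  have h1 := be_bounds.1
  have e1 : l10_f c m = Real.exp (-c) ^ 5 * (m * Real.exp (-(c * ((m : ℝ) - 8)))) := by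
    unfold l10_f
    rw [← Real.exp_nat_mul]
    have : Real.exp (-(c * ((m : ℝ) - 3))) = Real.exp (((5 : ℕ) : ℝ) * -c) *
        Real.exp (-(c * ((m : ℝ) - 8))) := by
      rw [← Real.exp_add]
      congr 1
      push_cast
      ring
    rw [this]
    ring
  have h2 : Real.exp (-(c * ((m : ℝ) - 8))) ≤ Real.exp (-(be * ((m : ℝ) - 8))) := by
    rw [Real.exp_le_exp]
    nlinarith
  have h3 : (m : ℝ) * Real.exp (-(c * ((m : ℝ) - 8))) ≤ 56 / 10000 * Real.exp (-(1 / 8 : ℝ) * m) := by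
    calc (m : ℝ) * Real.exp (-(c * ((m : ℝ) - 8)))
        ≤ (16 * Real.exp ((m : ℝ) / 16 - 1)) * Real.exp (-(be * ((m : ℝ) - 8))) :=
          mul_le_mul (l10_cast m) h2 (Real.exp_pos _).le (by positivity)
      _ = 16 * Real.exp ((m : ℝ) / 16 - 1 - be * (m - 8) + 1 / 8 * m) *
          Real.exp (-(1 / 8 : ℝ) * m) := by
          rw [mul_assoc, mul_assoc, ← Real.exp_add, ← Real.exp_add]
          congr 2
          ring
      _ ≤ 56 / 10000 * Real.exp (-(1 / 8 : ℝ) * m) := by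
          refine mul_le_mul_of_nonneg_right ?_ (Real.exp_pos _).le
          have h4 : (m : ℝ) / 16 - 1 - be * (m - 8) + 1 / 8 * m ≤ -(797 / 100) := by nlinarith
          have h5 : Real.exp (-(797 / 100)) ≤ 3459 / 10000000 :=
            expneg_le (s := 16456 / 10000) (by norm_num) (by norm_num) (by norm_num) (by norm_num)
          have h6 := (Real.exp_le_exp.2 h4).trans h5
          linarith
  rw [e1]
  have h7 := mul_le_mul_of_nonneg_left h3 (show 0 ≤ Real.exp (-c) ^ 5 by positivity)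
  linarith

lemma l10_fsum {c : ℝ} (hc : be ≤ c) : ∑' n : N0, l10_f c (nz (lb_J n)) ≤
    24 + 24 * Real.exp (-c) + 105 * Real.exp (-c) ^ 5 := by
  have h := l10_shell lb_J lb_J_inj SH 16 lb_mem (l10_f c) (l10_f_nonneg c) (l10_f_summable hc)
    (K := 56 / 10000 * Real.exp (-c) ^ 5) (by positivity) (l10_tail hc)
  refine h.trans ?_
  rw [sum_SH (l10_f c)]
  have h1 := be_bounds.1
  have hx : Real.exp (-c) ≤ 28744 / 100000 + 2 / 1000000 :=
    (Real.exp_le_exp.2 (by linarith)).trans lb_e1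
  set r := Real.exp (-c) with hr
  have hr0 : 0 < r := Real.exp_pos _
  have ek : ∀ k : ℕ, Real.exp (-(c * (((k + 3 : ℕ) : ℝ) - 3))) = r ^ k := by
    intro k
    rw [hr, ← Real.exp_nat_mul]
    congr 1
    push_cast
    ring
  have f3 : l10_f c 3 = 3 := by
    unfold l10_f
    have := ek 0
    norm_num at this ⊢
  have f4 : l10_f c 4 = 4 * r ^ 1 := by
    unfold l10_f
    rw [show ((4 : ℕ)) = 1 + 3 from rfl, ek 1]
    norm_num
  have f8 : l10_f c 8 = 8 * r ^ 5 := by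
    unfold l10_f
    rw [show ((8 : ℕ)) = 5 + 3 from rfl, ek 5]
    norm_num
  have f11 : l10_f c 11 = 11 * r ^ 8 := by
    unfold l10_f
    rw [show ((11 : ℕ)) = 8 + 3 from rfl, ek 8]
    norm_num
  have f12 : l10_f c 12 = 12 * r ^ 9 := by
    unfold l10_f
    rw [show ((12 : ℕ)) = 9 + 3 from rfl, ek 9]
    norm_num
  rw [f3, f4, f8, f11, f12]
  have r3 := pow_le_pow_left₀ hr0.le hx 3
  have r4 := pow_le_pow_left₀ hr0.le hx 4
  have r5 : 0 < r ^ 5 := by positivity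
  have r8 : r ^ 8 ≤ r ^ 5 * (28744 / 100000 + 2 / 1000000) ^ 3 := by
    have := mul_le_mul_of_nonneg_left r3 r5.le
    calc r ^ 8 = r ^ 5 * r ^ 3 := by ring
      _ ≤ _ := this
  have r9 : r ^ 9 ≤ r ^ 5 * (28744 / 100000 + 2 / 1000000) ^ 4 := by
    have := mul_le_mul_of_nonneg_left r4 r5.le
    calc r ^ 9 = r ^ 5 * r ^ 4 := by ring
      _ ≤ _ := this
  norm_num at r8 r9 ⊢
  linarith

/-- the loss at the body-centred cubic form -/
theorem lossB : LossB := by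
  intro t s ht hs
  have hr := lb_rad_pos
  have hp := Real.pi_pos
  have hb := be_bounds.1
  have hbe0 : 0 < be := by linarith
  set c : ℝ := be * t with hc
  have hcbe : be ≤ c := by
    rw [hc]
    nlinarith
  have hc0 : 0 < c := by linarith
  have e1 : RB t = ∑' n : N0, Real.exp (-c * (nz (lb_J n) : ℝ)) := by
    unfold Pool.Agent.H999.Theta3.RB
    refine tsum_congr fun n => ?_
    rw [lb_nz]
    congr 1
    rw [hc, lb_be]
    field_simp
  have e2 : RB (t * (1 + s)) = ∑' n : N0, Real.exp (-(c * (1 + s)) * (nz (lb_J n) : ℝ)) := by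
    unfold Pool.Agent.H999.Theta3.RB
    refine tsum_congr fun n => ?_
    rw [lb_nz]
    congr 1
    rw [hc, lb_be]
    field_simp
  rw [e1, e2]
  set B : ℝ := Real.exp (-(3 * c)) * (1 - Real.exp (-(3 * (c * s)))) with hB
  have hB0 : 0 ≤ B := by
    refine mul_nonneg (Real.exp_pos _).le ?_
    have : Real.exp (-(3 * (c * s))) ≤ 1 := by
      rw [Real.exp_le_one_iff]
      have : 0 ≤ c * s := by positivity
      linarith
    linarith
  have hBe : Real.exp (-(3 * c)) - Real.exp (-(3 * (c * (1 + s)))) = B := by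
    rw [hB, mul_sub, mul_one, ← Real.exp_add]
    congr 2
    ring
  have hterm : ∀ n : N0, Real.exp (-c * (nz (lb_J n) : ℝ)) ≤
      Real.exp (-(c * (1 + s)) * (nz (lb_J n) : ℝ)) + B / 3 * l10_f c (nz (lb_J n)) := by
    intro n
    have h3 : (3 : ℝ) ≤ nz (lb_J n) := by exact_mod_cast lb_ge_three n
    have h9' : l10_f c (nz (lb_J n)) = (nz (lb_J n) : ℝ) *
      Real.exp (-(c * ((nz (lb_J n) : ℝ) - 3))) := rfl
    rw [h9']
    set N : ℝ := (nz (lb_J n) : ℝ) with hN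
    have h4 := lb_dec (y := c * s) h3
    have h5 : Real.exp (-(c * (1 + s)) * N) = Real.exp (-c * N) * Real.exp (-(N * (c * s))) := by
      rw [← Real.exp_add]
      congr 1
      ring
    have h6 : Real.exp (-c * N) = Real.exp (-(3 * c)) * Real.exp (-(c * (N - 3))) := by
      rw [← Real.exp_add]
      congr 1
      ring
    have h8 : Real.exp (-c * N) * (1 - Real.exp (-(N * (c * s)))) ≤
        Real.exp (-c * N) * (N / 3 * (1 - Real.exp (-(3 * (c * s))))) :=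
      mul_le_mul_of_nonneg_left h4 (Real.exp_pos _).le
    have h9 : Real.exp (-c * N) * (N / 3 * (1 - Real.exp (-(3 * (c * s))))) =
        B / 3 * (N * Real.exp (-(c * (N - 3)))) := by
      rw [hB, h6]
      ring
    rw [h5]
    linarith
  have s1 := lb_exp_summable hc0
  have s2 := lb_exp_summable (μ := c * (1 + s)) (by positivity)
  have s3 := (l10_f_summable hcbe).mul_left (B / 3)
  have h := s1.tsum_le_tsum hterm (s2.add s3)
  rw [s2.tsum_add s3, tsum_mul_left] at h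
  refine h.trans ?_
  have hf := mul_le_mul_of_nonneg_left (l10_fsum hcbe) (show 0 ≤ B / 3 by positivity)
  have e3 : CB t * (Real.exp (-(3 * c)) - Real.exp (-(3 * (c * (1 + s))))) =
      (8 + 8 * Real.exp (-c) + 35 * Real.exp (-c) ^ 5) * B := by
    rw [hBe]
    rfl
  rw [e3]
  linarith

end Pool.Agent.H999.Ep3
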