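import Pool.Agent.H999.Ep3.LBase
import Pool.Agent.H999.Theta3.Coord
import Pool.Agent.H999.Theta3.ThF
import Pool.Agent.H999.Theta3.ThB

set_option autoImplicit false

open Matrix

namespace Pool.Agent.H999.Ep3

open Pool.Agent.K1H99.FCC (N0 rv nsq qf af dt PD rad Fp Qm pp tot al be sd)
open Pool.Agent.H999.Theta3 (Th RF RB Bp bb psi dx)

lemma l14_PD_smul {k : ℝ} (hk : 0 < k) {p : Fin 6 → ℝ} (hp : PD p) : PD (k • p) := by
  obtain ⟨A, hA, hd⟩ := hp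
  refine ⟨Real.sqrt k • A, ?_, ?_⟩
  · rw [Matrix.transpose_smul, Matrix.smul_mul, Matrix.mul_smul, smul_smul, Real.mul_self_sqrt hk.le,
      hA]
    unfold Qm
    ext i j
    fin_cases i <;> fin_cases j <;> simp [mul_add]
  · rw [Matrix.det_smul]
    exact mul_ne_zero (pow_ne_zero _ (Real.sqrt_pos.2 hk).ne') hd

lemma l14_psi (x : ℝ) : 0 ≤ psi x := by
  unfold psi
  have := Real.add_one_le_exp (-x)
  linarith

lemma l14_S3 (y d1 d2 d3 : ℝ) : 0 ≤ S3 y d1 d2 d3 := by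
  unfold S3
  have h1 := l14_psi (4 * y * d1)
  have h2 := l14_psi (4 * y * d2)
  have h3 := l14_psi (4 * y * d3)
  linarith

lemma l14_S4 (y w1 w2 w3 : ℝ) : 0 ≤ S4 y w1 w2 w3 := by
  unfold S4
  have h1 := l14_psi (2 * y * (w1 + w2 + w3))
  have h2 := l14_psi (2 * y * (w1 - w2 - w3))
  have h3 := l14_psi (2 * y * (-w1 + w2 - w3))
  have h4 := l14_psi (2 * y * (-w1 - w2 + w3))
  linarith

/-- the theta series near the face-centred cubic form -/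
lemma l14_F {T r d1 d2 d3 w1 w2 w3 : ℝ} (hT : 0 < T) (hd : d1 + d2 + d3 = 0)
    (hr : T * rad Fp = 1 + r) (hp : PD (T • pp d1 d2 d3 w1 w2 w3)) {t : ℝ} (ht : 0 < t) :
    RF (t * (1 + r)) + 2 * Real.exp (-(2 * al * t * (1 + r))) *
      S1 (2 * al * t * (1 + r)) d1 d2 d3 w1 w2 w3 +
    2 * Real.exp (-(2 * (2 * al * t * (1 + r)))) * S2 (2 * al * t * (1 + r)) d1 d2 d3 ≤
    Th (t • (T • pp d1 d2 d3 w1 w2 w3)) := by
  have hF := Pool.Agent.K1H99.FCC.rad_Fp_pos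
  have h1 := Pool.Agent.H999.Theta3.Th_pp_ge (T := t * T) (mul_pos ht hT) hd
    (by rw [← smul_smul]; exact l14_PD_smul ht hp)
  rw [← smul_smul] at h1
  have e1 : t * T * rad Fp = t * (1 + r) := by rw [← hr]; ring
  have e2 : 2 * Real.pi * (t * T) = 2 * al * t * (1 + r) := by
    rw [← hr]; unfold al; field_simp
  have e3 : 4 * Real.pi * (t * T) = 2 * (2 * al * t * (1 + r)) := by
    rw [← e2]; ring
  rw [e1, e2, e3] at h1
  unfold S1 S2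
  exact h1

/-- the theta series near the body-centred cubic form -/
lemma l14_B {s e1 e2 e3 v1 v2 v3 : ℝ} (hs : 0 ≤ s) (hd : e1 + e2 + e3 = 0) {t : ℝ} (ht : 0 < t)
    (hp : PD ((t * (1 + s) / rad Bp) • bb e1 e2 e3 v1 v2 v3)) :
    RB (t * (1 + s)) + 2 * Real.exp (-(3 * (be * t * (1 + s)))) * S4 (be * t * (1 + s)) v1 v2 v3 +
    2 * Real.exp (-(4 * (be * t * (1 + s)))) * S3 (be * t * (1 + s)) e1 e2 e3 ≤
    Th ((t * (1 + s) / rad Bp) • bb e1 e2 e3 v1 v2 v3) := by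
  have hF := Pool.Agent.K1H99.FCC.rad_Fp_pos
  have hB : 0 < rad Bp := by
    rw [Pool.Agent.H999.Theta3.rad_Bp]; positivity
  have h1 := Pool.Agent.H999.Theta3.Th_bb_ge (T := t * (1 + s) / rad Bp) (by positivity) hd hp
  have e1' : t * (1 + s) / rad Bp * rad Bp = t * (1 + s) := by field_simp
  have ebe : be * t * (1 + s) = Real.pi * (t * (1 + s) / rad Bp) := by
    rw [Pool.Agent.H999.Theta3.rad_Bp]; unfold be; field_simp
  have e3' : 3 * Real.pi * (t * (1 + s) / rad Bp) = 3 * (be * t * (1 + s)) := by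
    rw [ebe]; ring
  have e4' : 4 * Real.pi * (t * (1 + s) / rad Bp) = 4 * (be * t * (1 + s)) := by
    rw [ebe]; ring
  have e2' : 2 * Real.pi * (t * (1 + s) / rad Bp) = 2 * (be * t * (1 + s)) := by
    rw [ebe]; ring
  rw [e1', e3', e4', e2'] at h1
  unfold S4 S3
  exact h1

lemma l14_exp : 26 / 10000 ≤ Real.exp (-(59374 / 10000)) :=
  Pool.Agent.K1H99.FCC.le_expneg (s := 14494 / 10000) (by norm_num) (by norm_num) (by norm_num)
    (by norm_num) (by norm_num)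

/-- the parameters of the dual form -/
lemma l14_du {d1 d2 d3 w1 w2 w3 : ℝ} (h : 0 < 3 - (sq3 d1 d2 d3 / 2 + sq3 w1 w2 w3)) :
    ∃ e1 e2 e3 v1 v2 v3 : ℝ, Du d1 d2 d3 w1 w2 w3 e1 e2 e3 v1 v2 v3 := by
  have h0 := h.ne'
  have key : ∀ x : ℝ, (3 - (sq3 d1 d2 d3 / 2 + sq3 w1 w2 w3)) *
      (x / (3 - (sq3 d1 d2 d3 / 2 + sq3 w1 w2 w3))) = x := fun x => mul_div_cancel₀ x h0
  have key2 : ∀ x : ℝ, (3 - (sq3 d1 d2 d3 / 2 + sq3 w1 w2 w3)) *
      (1 + (x / (3 - (sq3 d1 d2 d3 / 2 + sq3 w1 w2 w3)) - 1)) = x := by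
    intro x
    rw [add_sub_cancel]
    exact key x
  exact ⟨_, _, _, _, _, _, ⟨key2 _, key2 _, key2 _, key _, key _, key _⟩⟩

lemma l14_sum {d1 d2 d3 w1 w2 w3 e1 e2 e3 v1 v2 v3 : ℝ} (hd : d1 + d2 + d3 = 0)
    (h : 0 < 3 - (sq3 d1 d2 d3 / 2 + sq3 w1 w2 w3))
    (hD : Du d1 d2 d3 w1 w2 w3 e1 e2 e3 v1 v2 v3) : e1 + e2 + e3 = 0 := by
  have h1 := hD.he1
  have h2 := hD.he2
  have h3 := hD.he3
  have h4 : (3 - (sq3 d1 d2 d3 / 2 + sq3 w1 w2 w3)) * (e1 + e2 + e3) = 0 := by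
    have hd3 : d3 = -(d1 + d2) := by linarith
    subst hd3
    have : (3 - (sq3 d1 d2 (-(d1 + d2)) / 2 + sq3 w1 w2 w3)) * (e1 + e2 + e3) =
      ((3 - (sq3 d1 d2 (-(d1 + d2)) / 2 + sq3 w1 w2 w3)) * (1 + e1)) +
      ((3 - (sq3 d1 d2 (-(d1 + d2)) / 2 + sq3 w1 w2 w3)) * (1 + e2)) +
      ((3 - (sq3 d1 d2 (-(d1 + d2)) / 2 + sq3 w1 w2 w3)) * (1 + e3)) -
      3 * (3 - (sq3 d1 d2 (-(d1 + d2)) / 2 + sq3 w1 w2 w3)) := by ring
    rw [this, h1, h2, h3]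
    unfold sq3
    ring
  rcases mul_eq_zero.mp h4 with h5 | h5
  · exact absurd h5 h.ne'
  · exact h5

/-- the local result at the face-centred cubic form -/
theorem locF_of (hmi : MI) (hF : LossF) (hB : LossB) (hd : DualF) (hs : SBd) (ht : ThOK) : LocFs := by
  intro T d1 d2 d3 w1 w2 w3 hT hbx hPD hrad
  have hF0 := Pool.Agent.K1H99.FCC.rad_Fp_pos
  have hal := Pool.Agent.K1H99.FCC.al_bounds
  have hdd := hbx.sum
  have b1 : |d1| ≤ 12 / 100 := hbx.hd1.trans (by norm_num)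
  have b2 : |d2| ≤ 12 / 100 := hbx.hd2.trans (by norm_num)
  have b3 : |d3| ≤ 12 / 100 := hbx.hd3.trans (by norm_num)
  have c1 : |w1| ≤ 12 / 100 := hbx.hw1.trans (by norm_num)
  have c2 : |w2| ≤ 12 / 100 := hbx.hw2.trans (by norm_num)
  have c3 : |w3| ≤ 12 / 100 := hbx.hw3.trans (by norm_num)
  obtain ⟨Δ, hΔ0, hΔ1, hΔ3, hΔr⟩ := Pool.Agent.H999.Theta3.rad_pp hT hdd b1 b2 b3 c1 c2 c3
  have hpos : 0 < 1 - Δ := by linarith
  rw [hrad] at hΔr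
  obtain ⟨r, hr⟩ : ∃ r, r = Δ / (1 - Δ) := ⟨_, rfl⟩
  have hr1 : (1 + r) * (1 - Δ) = 1 := by
    rw [hr]; field_simp; ring
  have hr0 : 0 ≤ r := by rw [hr]; positivity
  have hTr : T * rad Fp = 1 + r := by
    have h1 : (T * rad Fp) * (1 - Δ) = (1 + r) * (1 - Δ) := by rw [hr1]; exact hΔr.symm
    exact mul_right_cancel₀ hpos.ne' h1
  have hr3 : (1 + r) ^ 3 * (1 - dx d1 d2 d3 w1 w2 w3) = 1 := by
    rw [← hΔ3, ← mul_pow, hr1, one_pow]
  obtain ⟨s, hss⟩ : ∃ s, s = (1 - (sq3 d1 d2 d3 / 2 + sq3 w1 w2 w3) / 3) * (1 + r) ^ 2 - 1 := ⟨_, rfl⟩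
  have hRs : Rs r s d1 d2 d3 w1 w2 w3 := ⟨hr0, hr3, by rw [hss]; ring⟩
  have sq : ∀ x : ℝ, |x| ≤ 12 / 100 → x ^ 2 ≤ 144 / 10000 := by
    intro x hx
    rw [← sq_abs]
    nlinarith [abs_nonneg x]
  have hq3 : 0 < 3 - (sq3 d1 d2 d3 / 2 + sq3 w1 w2 w3) := by
    unfold sq3
    linarith [sq d1 b1, sq d2 b2, sq d3 b3, sq w1 c1, sq w2 c2, sq w3 c3]
  obtain ⟨e1, e2, e3, v1, v2, v3, hDu⟩ := l14_du hq3
  have hee := l14_sum hdd hq3 hDu
  obtain ⟨hs0, -, hs2, -⟩ := hs r s d1 d2 d3 w1 w2 w3 hbx hRs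
  have hdual := hd T r s d1 d2 d3 w1 w2 w3 e1 e2 e3 v1 v2 v3 hbx hDu hRs hT hTr hPD
  have hQ0 : 0 ≤ sq3 d1 d2 d3 := by unfold sq3; positivity
  have hW0 : 0 ≤ sq3 w1 w2 w3 := by unfold sq3; positivity
  -- the two series
  have hTh : ∀ t : ℝ, 0 < t → RF (t * (1 + r)) + 2 * Real.exp (-(2 * al * t * (1 + r))) *
      S1 (2 * al * t * (1 + r)) d1 d2 d3 w1 w2 w3 +
    2 * Real.exp (-(2 * (2 * al * t * (1 + r)))) * S2 (2 * al * t * (1 + r)) d1 d2 d3 ≤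
    Th (t • (T • pp d1 d2 d3 w1 w2 w3)) := fun t h0 => l14_F hT hdd hTr hPD h0
  have hTd : ∀ t : ℝ, 0 < t → RB (t * (1 + s)) +
    2 * Real.exp (-(3 * (be * t * (1 + s)))) * S4 (be * t * (1 + s)) v1 v2 v3 +
    2 * Real.exp (-(4 * (be * t * (1 + s)))) * S3 (be * t * (1 + s)) e1 e2 e3 ≤
    Td (t • (T • pp d1 d2 d3 w1 w2 w3)) := by
    intro t h0
    obtain ⟨h1, h2⟩ := hdual t h0
    rw [h2]
    exact l14_B hs0 hee h0 h1
  have hmain : ∀ t : ℝ, 1 ≤ t → t ≤ 819 / 256 →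
      RF t + RB t + 1 / 5 * Real.exp (-(2 * al * t)) * (sq3 d1 d2 d3 + sq3 w1 w2 w3) ≤
      Th (t • (T • pp d1 d2 d3 w1 w2 w3)) + Td (t • (T • pp d1 d2 d3 w1 w2 w3)) := by
    intro t h1 h2
    have a1 := hTh t (by linarith)
    have a2 := hTd t (by linarith)
    have a3 := hF t r h1 hr0
    have a4 := hB t s h1 hs0
    have a5 := hmi t r s d1 d2 d3 w1 w2 w3 e1 e2 e3 v1 v2 v3 hbx hDu hRs h1 h2
    linarith
  refine ⟨?_, Or.inr ⟨s, hs0, ?_, ?_⟩⟩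
  · intro t h1 h2
    have h3 := hmain t h1 h2
    have h4 : 0 ≤ 1 / 5 * Real.exp (-(2 * al * t)) * (sq3 d1 d2 d3 + sq3 w1 w2 w3) := by positivity
    linarith
  · intro t h1 h2
    have h3 := hmain t h1 (by linarith)
    have h4 : 26 / 10000 ≤ Real.exp (-(2 * al * t)) := by
      refine l14_exp.trans (Real.exp_le_exp.mpr ?_)
      have : al * t ≤ 19790794 / 10000000 * (3 / 2) :=
        mul_le_mul hal.2 h2 (by linarith) (by norm_num)
      linarith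
    have h5 : 26 / 10000 * (sq3 d1 d2 d3 + sq3 w1 w2 w3) ≤
      Real.exp (-(2 * al * t)) * (sq3 d1 d2 d3 + sq3 w1 w2 w3) :=
      mul_le_mul_of_nonneg_right h4 (by positivity)
    linarith
  · intro t h1
    have h0 : 0 < t := by linarith
    have a2 := hTd t h0
    have a3 : 0 ≤ 2 * Real.exp (-(3 * (be * t * (1 + s)))) * S4 (be * t * (1 + s)) v1 v2 v3 :=
      mul_nonneg (by positivity) (l14_S4 _ _ _ _)
    have a4 : 0 ≤ 2 * Real.exp (-(4 * (be * t * (1 + s)))) * S3 (be * t * (1 + s)) e1 e2 e3 :=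
      mul_nonneg (by positivity) (l14_S3 _ _ _ _)
    have hdt := Pool.Agent.K1H99.FCC.dt_pos hPD
    have hrt : rad (t • (T • pp d1 d2 d3 w1 w2 w3)) = t := by
      refine Pool.Agent.H999.Theta3.co_rad h0.le ?_
      rw [Pool.Agent.K1H99.FCC.dt_smul, ← Pool.Agent.K1H99.FCC.rad_cube hdt.le, hrad]
      ring
    have a5 := ht (t • (T • pp d1 d2 d3 w1 w2 w3)) (l14_PD_smul h0 hPD) (by rw [hrt]; linarith)
    rw [hrt] at a5
    linarith

/-- the local result at the body-centred cubic form -/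
theorem locB_of (h : LocFs) (hd : DualB) (hfe : DualFE) : LocBs := by
  intro T d1 d2 d3 w1 w2 w3 hT hbx hPD hrad
  obtain ⟨T', e1, e2, e3, v1, v2, v3, hT', hbx', hPD', hrad', hall⟩ :=
    hd T d1 d2 d3 w1 w2 w3 hT hbx hPD hrad
  have h2 := hfe _ _ hPD hPD' hrad hrad' hall
  obtain ⟨k1, k2⟩ := h T' e1 e2 e3 v1 v2 v3 hT' hbx' hPD' hrad'
  have he : ∀ t : ℝ, 0 < t → Th (t • (T' • pp e1 e2 e3 v1 v2 v3)) +
      Td (t • (T' • pp e1 e2 e3 v1 v2 v3)) =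
      Th (t • (T • bb d1 d2 d3 w1 w2 w3)) + Td (t • (T • bb d1 d2 d3 w1 w2 w3)) := by
    intro t h0
    rw [h2 t h0, hall t h0]
    ring
  refine ⟨fun t h3 h4 => ?_, ?_⟩
  · rw [← he t (by linarith)]
    exact k1 t h3 h4
  · rcases k2 with k2 | ⟨ε, h5, h6, h7⟩
    · left
      intro t h3 h4
      rw [← he t (by linarith)]
      exact k2 t h3 h4
    · right
      refine ⟨ε, h5, fun t h3 h4 => ?_, fun t h3 => ?_⟩
      · rw [← he t (by linarith)]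
        exact h6 t h3 h4
      · rw [← he t (by linarith)]
        exact h7 t h3

end Pool.Agent.H999.Ep3
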