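import Pool.Agent.H999.Ep3.LBase

set_option autoImplicit false

open Matrix

namespace Pool.Agent.H999.Ep3

open Pool.Agent.K1H99.FCC (N0 rv nsq qf af dt PD rad Fp Qm pp tot al be sd)
open Pool.Agent.H999.Theta3 (Th RF RB Bp bb psi dx)

theorem l9_R : 1587 / 1000 ≤ rad Fp ∧ rad Fp ≤ 158742 / 100000 := by
  have h3 := Pool.Agent.K1H99.FCC.rad_Fp
  have h0 := Pool.Agent.K1H99.FCC.rad_Fp_pos
  constructor
  · by_contra hc
    have h1 : rad Fp ^ 3 < (1587 / 1000 : ℝ) ^ 3 :=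
      pow_lt_pow_left₀ (not_le.1 hc) h0.le (by norm_num)
    rw [h3] at h1
    norm_num at h1
  · by_contra hc
    have h1 : (158742 / 100000 : ℝ) ^ 3 < rad Fp ^ 3 :=
      pow_lt_pow_left₀ (not_le.1 hc) (by norm_num) (by norm_num)
    rw [h3] at h1
    norm_num at h1

theorem l9_al : 3958 / 1000 ≤ 2 * al ∧ 2 * al ≤ 39695 / 10000 := by
  obtain ⟨h1, h2⟩ := l9_R
  have h0 := Pool.Agent.K1H99.FCC.rad_Fp_pos
  have hp1 := Real.pi_gt_d6
  have hp2 := Real.pi_lt_d6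
  have e : 2 * al = 2 * Real.pi / rad Fp := by
    unfold Pool.Agent.K1H99.FCC.al
    ring
  rw [e]
  constructor
  · rw [le_div_iff₀ h0]
    linarith
  · rw [div_le_iff₀ h0]
    linarith

theorem l9_be : 1246 / 1000 ≤ be ∧ be ≤ 12503 / 10000 := by
  obtain ⟨h1, h2⟩ := l9_R
  have h0 := Pool.Agent.K1H99.FCC.rad_Fp_pos
  have hp1 := Real.pi_gt_d6
  have hp2 := Real.pi_lt_d6
  have h3 : (1587 / 1000 : ℝ) ^ 2 ≤ rad Fp ^ 2 := pow_le_pow_left₀ (by norm_num) h1 2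
  have h4 : rad Fp ^ 2 ≤ (158742 / 100000 : ℝ) ^ 2 := pow_le_pow_left₀ h0.le h2 2
  have h5 : 0 < rad Fp ^ 2 := pow_pos h0 2
  unfold Pool.Agent.K1H99.FCC.be
  constructor
  · rw [le_div_iff₀ h5]
    norm_num at h4
    linarith
  · rw [div_le_iff₀ h5]
    norm_num at h3
    linarith

/-- the comparison of the coefficients -/
theorem l9_lin (L Q W e f g aQ aW aE aF aG bQ bW bE bF bG : ℝ) (hQ0 : 0 ≤ Q) (hW0 : 0 ≤ W)
    (he : |e| ≤ 11 / 600 * Q) (hf : |f| ≤ 11 / 100 * W) (hg : |g| ≤ 7 / 300 * W)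
    (h1 : 1 / 5 + 11 / 600 * |aE + L * bE| ≤ aQ + L * bQ)
    (h2 : 1 / 5 + 11 / 100 * |aF + L * bF| + 7 / 300 * |aG + L * bG| ≤ aW + L * bW) :
    1 / 5 * (Q + W) ≤ (aQ * Q + aW * W + aE * e + aF * f + aG * g) +
      L * (bQ * Q + bW * W + bE * e + bF * f + bG * g) := by
  have key : ∀ c x B : ℝ, |x| ≤ B → -(|c| * B) ≤ c * x := by
    intro c x B hx
    have h3 : |c * x| ≤ |c| * B := by
      rw [abs_mul]
      exact mul_le_mul_of_nonneg_left hx (abs_nonneg c)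
    have h4 := neg_abs_le (c * x)
    linarith
  have k1 := key (aE + L * bE) e _ he
  have k2 := key (aF + L * bF) f _ hf
  have k3 := key (aG + L * bG) g _ hg
  have k4 := mul_le_mul_of_nonneg_right h1 hQ0
  have k5 := mul_le_mul_of_nonneg_right h2 hW0
  have e1 : (aQ * Q + aW * W + aE * e + aF * f + aG * g) +
      L * (bQ * Q + bW * W + bE * e + bF * f + bG * g) =
      (aQ + L * bQ) * Q + (aW + L * bW) * W + (aE + L * bE) * e + (aF + L * bF) * f +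
        (aG + L * bG) * g := by ring
  have e2 : (1 / 5 + 11 / 600 * |aE + L * bE|) * Q =
      1 / 5 * Q + |aE + L * bE| * (11 / 600 * Q) := by ring
  have e3 : (1 / 5 + 11 / 100 * |aF + L * bF| + 7 / 300 * |aG + L * bG|) * W =
      1 / 5 * W + |aF + L * bF| * (11 / 100 * W) + |aG + L * bG| * (7 / 300 * W) := by ring
  rw [e2] at k4
  rw [e3] at k5
  rw [e1]
  linarith

/-- the main local inequality -/
theorem mi_of (hc : CBd) (hF : FLem) (hB : BLem) (hQ : NumQ) (hW : NumW) : MI := by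
  intro t r s d1 d2 d3 w1 w2 w3 e1 e2 e3 v1 v2 v3 hbx hdu hrs ht1 ht2
  obtain ⟨ha1, ha2⟩ := l9_al
  obtain ⟨hb1, hb2⟩ := l9_be
  have hτ1 : 3958 / 1000 ≤ 2 * al * t := by nlinarith
  have hτ2 : 2 * al * t ≤ 127 / 10 := by nlinarith
  have hυ1 : 1246 / 1000 ≤ be * t := by nlinarith
  have hυ2 : be * t ≤ 4 := by nlinarith
  have hC : 0 ≤ CB t := by
    unfold CB
    positivity
  obtain ⟨k3, k4, hk3, hk3', hk4, hk4', hFF⟩ :=
    hF (2 * al * t) r s d1 d2 d3 w1 w2 w3 hbx hrs hτ1 hτ2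
  have hBB := hB (be * t) (CB t) r s d1 d2 d3 w1 w2 w3 e1 e2 e3 v1 v2 v3 hbx hdu hrs hυ1 hυ2 hC
  have hq := hQ t k3 k4 ht1 ht2 hk3 hk3' hk4 hk4'
  have hw := hW t k3 ht1 ht2 hk3 hk3'
  obtain ⟨he, hf, hg⟩ := hc d1 d2 d3 w1 w2 w3 hbx
  have hQ0 : 0 ≤ sq3 d1 d2 d3 := by
    unfold sq3
    positivity
  have hW0 : 0 ≤ sq3 w1 w2 w3 := by
    unfold sq3
    positivity
  have hlin := l9_lin (LA t) (sq3 d1 d2 d3) (sq3 w1 w2 w3) (d1 * d2 * d3)
    (fdw d1 d2 d3 w1 w2 w3) (w1 * w2 * w3) _ _ _ _ _ _ _ _ _ _ hQ0 hW0 he hf hg hq hw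
  -- exponentials
  obtain ⟨E, hE⟩ : ∃ E : ℝ, E = Real.exp (-(2 * al * t)) := ⟨_, rfl⟩
  obtain ⟨Er, hEr⟩ : ∃ Er : ℝ, Er = Real.exp (-(2 * al * t * r)) := ⟨_, rfl⟩
  obtain ⟨Us, hUs⟩ : ∃ Us : ℝ, Us = Real.exp (-(3 * (be * t * s))) := ⟨_, rfl⟩
  obtain ⟨V, hV⟩ : ∃ V : ℝ, V = Real.exp (-(be * t * (1 + s))) := ⟨_, rfl⟩
  have hE0 : 0 < E := by rw [hE]; exact Real.exp_pos _
  have hL0 : 0 < LA t := Real.exp_pos _
  have x1 : Real.exp (-(2 * al * t * (1 + r))) = E * Er := by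
    rw [hE, hEr, ← Real.exp_add]
    congr 1
    ring
  have x2 : Real.exp (-(2 * (2 * al * t * (1 + r)))) = E * Er * (E * Er) := by
    rw [← x1, ← Real.exp_add]
    congr 1
    ring
  have x3 : Real.exp (-(3 * (be * t))) = E * LA t := by
    unfold LA
    rw [hE, ← Real.exp_add]
    congr 1
    ring
  have x4 : Real.exp (-(3 * (be * t * (1 + s)))) = E * LA t * Us := by
    rw [← x3, hUs, ← Real.exp_add]
    congr 1
    ring
  have x5 : Real.exp (-(4 * (be * t * (1 + s)))) = E * LA t * Us * V := by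
    rw [← x4, hV, ← Real.exp_add]
    congr 1
    ring
  rw [x1, ← hEr] at hFF
  rw [← hUs, ← hV] at hBB
  rw [x1, x2, x3, x4, x5, ← hE]
  have y1 := mul_le_mul_of_nonneg_left hFF hE0.le
  have y2 := mul_le_mul_of_nonneg_left hBB (mul_pos hE0 hL0).le
  have y3 := mul_le_mul_of_nonneg_left hlin hE0.le
  rw [mul_add E] at y3
  have y4 : ∀ x : ℝ, E * (LA t * x) = E * LA t * x := fun x => by ring
  rw [y4] at y3
  have y5 := y3.trans (add_le_add y1 y2)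
  refine le_trans (b := E * (1 / 5 * (sq3 d1 d2 d3 + sq3 w1 w2 w3)) +
    (12258 / 1000 * (E - E * Er) + CB t * (E * LA t - E * LA t * Us))) (le_of_eq (by ring)) ?_
  refine le_trans (add_le_add_left y5 _) (le_of_eq ?_)
  ring

end Pool.Agent.H999.Ep3
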