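import Pool.Agent.H999.Ep3.LBase

set_option autoImplicit false

open Matrix

namespace Pool.Agent.H999.Ep3

open Pool.Agent.K1H99.FCC (N0 rv nsq qf af dt PD rad Fp Qm pp tot al be sd)
open Pool.Agent.H999.Theta3 (Th RF RB Bp bb psi dx)

/-- lower bound for `exp (-s)` -/
theorem l6_e4 (s : ℝ) (h0 : 0 ≤ s) (h1 : s ≤ 1) :
    1 - s + s ^ 2 / 2 - s ^ 3 / 6 - 5 / 96 * s ^ 4 ≤ Real.exp (-s) := by
  have h := Real.exp_bound (x := -s) (by rw [abs_neg, abs_of_nonneg h0]; exact h1)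
    (n := 4) (by norm_num)
  rw [abs_neg, abs_of_nonneg h0] at h
  simp only [Finset.sum_range_succ, Finset.sum_range_zero, Nat.factorial, Nat.cast_ofNat,
    Nat.succ_eq_add_one] at h
  have h2 := (abs_le.1 h).1
  norm_num at h2
  nlinarith [h2]

/-- lower bound for `exp (-s)` -/
theorem l6_e3 (s : ℝ) (h0 : 0 ≤ s) (h1 : s ≤ 1) :
    1 - s + s ^ 2 / 2 - 2 / 9 * s ^ 3 ≤ Real.exp (-s) := by
  have h := Real.exp_bound (x := -s) (by rw [abs_neg, abs_of_nonneg h0]; exact h1)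
    (n := 3) (by norm_num)
  rw [abs_neg, abs_of_nonneg h0] at h
  simp only [Finset.sum_range_succ, Finset.sum_range_zero, Nat.factorial, Nat.cast_ofNat,
    Nat.succ_eq_add_one] at h
  have h2 := (abs_le.1 h).1
  norm_num at h2
  nlinarith [h2]

/-- upper bound for `exp s` -/
theorem l6_e2 (s : ℝ) (h0 : 0 ≤ s) (h1 : s ≤ 1) :
    Real.exp s ≤ 1 + s + 3 / 4 * s ^ 2 := by
  have h := Real.exp_bound (x := s) (by rw [abs_of_nonneg h0]; exact h1)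
    (n := 2) (by norm_num)
  rw [abs_of_nonneg h0] at h
  simp only [Finset.sum_range_succ, Finset.sum_range_zero, Nat.factorial, Nat.cast_ofNat,
    Nat.succ_eq_add_one] at h
  have h2 := (abs_le.1 h).2
  norm_num at h2
  nlinarith [h2]

/-- upper bound for `exp s` -/
theorem l6_e4u (s : ℝ) (h0 : 0 ≤ s) (h1 : s ≤ 1) :
    Real.exp s ≤ 1 + s + s ^ 2 / 2 + s ^ 3 / 6 + 5 / 96 * s ^ 4 := by
  have h := Real.exp_bound (x := s) (by rw [abs_of_nonneg h0]; exact h1)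
    (n := 4) (by norm_num)
  rw [abs_of_nonneg h0] at h
  simp only [Finset.sum_range_succ, Finset.sum_range_zero, Nat.factorial, Nat.cast_ofNat,
    Nat.succ_eq_add_one] at h
  have h2 := (abs_le.1 h).2
  norm_num at h2
  nlinarith [h2]

theorem l6_c1 : 190 / 10000 ≤ Real.exp (-(39582 / 10000)) := by
  have e1 : Real.exp (-(39582 / 10000)) = Real.exp (-1) ^ 4 * Real.exp (418 / 10000) := by
    rw [← Real.exp_nat_mul, ← Real.exp_add]
    congr 1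
    norm_num
  rw [e1]
  have h1 : (0.36787944116 : ℝ) ≤ Real.exp (-1) := Real.exp_neg_one_gt_d9.le
  have h2 : (418 / 10000 : ℝ) + 1 ≤ Real.exp (418 / 10000) := Real.add_one_le_exp _
  have h3 : (0.36787944116 : ℝ) ^ 4 ≤ Real.exp (-1) ^ 4 := pow_le_pow_left₀ (by norm_num) h1 4
  calc (190 / 10000 : ℝ) ≤ (0.36787944116 : ℝ) ^ 4 * (418 / 10000 + 1) := by norm_num
    _ ≤ Real.exp (-1) ^ 4 * Real.exp (418 / 10000) :=
      mul_le_mul h3 h2 (by norm_num) (by positivity)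

theorem l6_c2 : 3573 / 10000 ≤ Real.exp (-(10289 / 10000)) := by
  have e1 : Real.exp (-(10289 / 10000)) = Real.exp (-1) * Real.exp (-(289 / 10000)) := by
    rw [← Real.exp_add]
    congr 1
    norm_num
  rw [e1]
  have h1 : (0.36787944116 : ℝ) ≤ Real.exp (-1) := Real.exp_neg_one_gt_d9.le
  have h2 := l6_e3 (289 / 10000) (by norm_num) (by norm_num)
  calc (3573 / 10000 : ℝ) ≤ (0.36787944116 : ℝ) *
        (1 - 289 / 10000 + (289 / 10000) ^ 2 / 2 - 2 / 9 * (289 / 10000) ^ 3) := by norm_num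
    _ ≤ Real.exp (-1) * Real.exp (-(289 / 10000)) :=
      mul_le_mul h1 h2 (by norm_num) (by positivity)

theorem l6_c3 : Real.exp (21794 / 100000) ≤ 12436 / 10000 := by
  refine le_trans (l6_e4u (21794 / 100000) (by norm_num) (by norm_num)) ?_
  norm_num

theorem l6_c4 : Real.exp (-6) ≤ 25 / 10000 := by
  have e1 : Real.exp (-6) = Real.exp (-1) ^ 6 := by
    rw [← Real.exp_nat_mul]
    congr 1
    norm_num
  rw [e1]
  have h1 : Real.exp (-1) ≤ (0.3678794412 : ℝ) := Real.exp_neg_one_lt_d9.le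
  calc Real.exp (-1) ^ 6 ≤ (0.3678794412 : ℝ) ^ 6 :=
        pow_le_pow_left₀ (Real.exp_pos _).le h1 6
    _ ≤ 25 / 10000 := by norm_num

theorem l6_X (τ u : ℝ) (hu0 : 0 ≤ u) (hu1 : u ≤ 1 / 4) (h : τ ≤ 39582 / 10000 * (1 + u)) :
    190 / 10000 * (1 - (39582 / 10000 * u) + (39582 / 10000 * u) ^ 2 / 2 -
      (39582 / 10000 * u) ^ 3 / 6 - 5 / 96 * (39582 / 10000 * u) ^ 4) ≤ Real.exp (-τ) := by
  have h1 := l6_e4 (39582 / 10000 * u) (by positivity) (by linarith)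
  calc 190 / 10000 * (1 - (39582 / 10000 * u) + (39582 / 10000 * u) ^ 2 / 2 -
      (39582 / 10000 * u) ^ 3 / 6 - 5 / 96 * (39582 / 10000 * u) ^ 4)
      ≤ 190 / 10000 * Real.exp (-(39582 / 10000 * u)) :=
        mul_le_mul_of_nonneg_left h1 (by norm_num)
    _ ≤ Real.exp (-(39582 / 10000)) * Real.exp (-(39582 / 10000 * u)) :=
        mul_le_mul_of_nonneg_right l6_c1 (Real.exp_pos _).le
    _ = Real.exp (-(39582 / 10000) + -(39582 / 10000 * u)) := (Real.exp_add _ _).symm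
    _ ≤ Real.exp (-τ) := Real.exp_le_exp.2 (by linarith)

theorem l6_M (x u : ℝ) (hu0 : 0 ≤ u) (hu1 : u ≤ 1 / 4) (h : -(10289 / 10000 * (1 + u)) ≤ x) :
    3573 / 10000 * (1 - (10289 / 10000 * u) + (10289 / 10000 * u) ^ 2 / 2 -
      2 / 9 * (10289 / 10000 * u) ^ 3) ≤ Real.exp x := by
  have h1 := l6_e3 (10289 / 10000 * u) (by positivity) (by linarith)
  calc 3573 / 10000 * (1 - (10289 / 10000 * u) + (10289 / 10000 * u) ^ 2 / 2 -
      2 / 9 * (10289 / 10000 * u) ^ 3)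
      ≤ 3573 / 10000 * Real.exp (-(10289 / 10000 * u)) :=
        mul_le_mul_of_nonneg_left h1 (by norm_num)
    _ ≤ Real.exp (-(10289 / 10000)) * Real.exp (-(10289 / 10000 * u)) :=
        mul_le_mul_of_nonneg_right l6_c2 (Real.exp_pos _).le
    _ = Real.exp (-(10289 / 10000) + -(10289 / 10000 * u)) := (Real.exp_add _ _).symm
    _ ≤ Real.exp x := Real.exp_le_exp.2 (by linarith)

theorem l6_L (x u : ℝ) (hu0 : 0 ≤ u) (hu1 : u ≤ 1 / 4) (h : x ≤ 21794 / 100000 * (1 + u)) :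
    Real.exp x ≤ 12436 / 10000 * (1 + (21794 / 100000 * u) +
      3 / 4 * (21794 / 100000 * u) ^ 2) := by
  have h1 := l6_e2 (21794 / 100000 * u) (by positivity) (by linarith)
  calc Real.exp x ≤ Real.exp (21794 / 100000 + 21794 / 100000 * u) :=
        Real.exp_le_exp.2 (by linarith)
    _ = Real.exp (21794 / 100000) * Real.exp (21794 / 100000 * u) := Real.exp_add _ _
    _ ≤ 12436 / 10000 * Real.exp (21794 / 100000 * u) :=
        mul_le_mul_of_nonneg_right l6_c3 (Real.exp_pos _).le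
    _ ≤ _ := mul_le_mul_of_nonneg_left h1 (by norm_num)

theorem l6_N (x : ℝ) (h : x ≤ -6) : Real.exp x ≤ 25 / 10000 :=
  le_trans (Real.exp_le_exp.2 h) l6_c4

/-! monotonicity -/

theorem l6_TP (x y : ℝ) (hx : 3958 / 1000 ≤ x) (hxy : x ≤ y) (hy : y ≤ 5) :
    x ^ 2 / 2 - 2043 / 1000 * x - 214 / 100000 * (x ^ 3 - 199 / 100 * x ^ 2) -
      1913 / 100000 * x - 11 / 600 * (x ^ 3 / 4 + 4086 / 1000 * x) ≤
    y ^ 2 / 2 - 2043 / 1000 * y - 214 / 100000 * (y ^ 3 - 199 / 100 * y ^ 2) -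
      1913 / 100000 * y - 11 / 600 * (y ^ 3 / 4 + 4086 / 1000 * y) := by
  have hq : 0 ≤ (x + y) / 2 - 2043 / 1000 -
      214 / 100000 * (x ^ 2 + x * y + y ^ 2 - 199 / 100 * (x + y)) - 1913 / 100000 -
      11 / 600 * ((x ^ 2 + x * y + y ^ 2) / 4 + 4086 / 1000) := by
    nlinarith [mul_nonneg (sub_nonneg.2 (hxy.trans hy)) (by linarith : (0:ℝ) ≤ x),
      mul_nonneg (sub_nonneg.2 hy) (by linarith : (0:ℝ) ≤ y),
      mul_nonneg (sub_nonneg.2 hy) (by linarith : (0:ℝ) ≤ x)]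
  nlinarith [mul_nonneg (sub_nonneg.2 hxy) hq]

theorem l6_TN (x y : ℝ) (hx : 3958 / 1000 ≤ x) (hxy : x ≤ y) (hy : y ≤ 5) :
    x ^ 2 / 2 - 2043 / 1000 * x - 214 / 100000 * (x ^ 3 - 199 / 100 * x ^ 2) -
      1913 / 100000 * x + 11 / 600 * ((1 - (x - 298 / 100) * (101 / 10000)) * x ^ 3 / 4 +
        4086 / 1000 * x) ≤
    y ^ 2 / 2 - 2043 / 1000 * y - 214 / 100000 * (y ^ 3 - 199 / 100 * y ^ 2) -
      1913 / 100000 * y + 11 / 600 * ((1 - (y - 298 / 100) * (101 / 10000)) * y ^ 3 / 4 +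
        4086 / 1000 * y) := by
  have h1 : x ^ 2 / 2 - 2043 / 1000 * x - 214 / 100000 * (x ^ 3 - 199 / 100 * x ^ 2) -
      1913 / 100000 * x - 11 / 600 * (x ^ 3 / 4 + 4086 / 1000 * x) ≤
    y ^ 2 / 2 - 2043 / 1000 * y - 214 / 100000 * (y ^ 3 - 199 / 100 * y ^ 2) -
      1913 / 100000 * y - 11 / 600 * (y ^ 3 / 4 + 4086 / 1000 * y) := l6_TP x y hx hxy hy
  have hx0 : (0:ℝ) ≤ x := by linarith
  have hy0 : (0:ℝ) ≤ y := by linarith
  have h2 : x ^ 3 ≤ y ^ 3 := pow_le_pow_left₀ hx0 hxy 3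
  -- the rest : (2 - (x - 2.98) * 0.0101) * x ^ 3 / 4 + 2 * 4.086 * x is increasing
  have h3 : (y - x) * (x ^ 3 + x ^ 2 * y + x * y ^ 2 + y ^ 3) = y ^ 4 - x ^ 4 := by ring
  have h4 : (y - x) * (x ^ 2 + x * y + y ^ 2) = y ^ 3 - x ^ 3 := by ring
  have h5 : x ^ 3 + x ^ 2 * y + x * y ^ 2 + y ^ 3 ≤ 10 * (x ^ 2 + x * y + y ^ 2) := by
    nlinarith [mul_nonneg (sub_nonneg.2 (hxy.trans hy)) (mul_nonneg hx0 hx0),
      mul_nonneg (sub_nonneg.2 hy) (mul_nonneg hx0 hx0),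
      mul_nonneg (sub_nonneg.2 hy) (mul_nonneg hx0 hy0),
      mul_nonneg (sub_nonneg.2 hy) (mul_nonneg hy0 hy0), mul_nonneg hx0 hy0]
  have h6 : y ^ 4 - x ^ 4 ≤ 10 * (y ^ 3 - x ^ 3) := by
    rw [← h3, ← h4]
    nlinarith [mul_nonneg (sub_nonneg.2 hxy) (sub_nonneg.2 h5)]
  nlinarith [h1, h2, h6, hxy]

theorem l6_pP (x y : ℝ) (hx : 3958 / 1000 ≤ x) (hxy : x ≤ y) (hy : y ≤ 5) :
    4 * x ^ 2 - 171 / 10000 * (2 * x ^ 3 - 199 / 100 * x ^ 2) +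
      88 / 600 * ((1 - (2 * x - 298 / 100) * (101 / 10000)) * x ^ 3) ≤
    4 * y ^ 2 - 171 / 10000 * (2 * y ^ 3 - 199 / 100 * y ^ 2) +
      88 / 600 * ((1 - (2 * y - 298 / 100) * (101 / 10000)) * y ^ 3) := by
  have hx0 : (0:ℝ) ≤ x := by linarith
  have hy0 : (0:ℝ) ≤ y := by linarith
  have h2 : x ^ 3 ≤ y ^ 3 := pow_le_pow_left₀ hx0 hxy 3
  have h2' : x ^ 2 ≤ y ^ 2 := pow_le_pow_left₀ hx0 hxy 2
  have h3 : (y - x) * (x ^ 3 + x ^ 2 * y + x * y ^ 2 + y ^ 3) = y ^ 4 - x ^ 4 := by ring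
  have h4 : (y - x) * (x ^ 2 + x * y + y ^ 2) = y ^ 3 - x ^ 3 := by ring
  have h5 : x ^ 3 + x ^ 2 * y + x * y ^ 2 + y ^ 3 ≤ 10 * (x ^ 2 + x * y + y ^ 2) := by
    nlinarith [mul_nonneg (sub_nonneg.2 (hxy.trans hy)) (mul_nonneg hx0 hx0),
      mul_nonneg (sub_nonneg.2 hy) (mul_nonneg hx0 hx0),
      mul_nonneg (sub_nonneg.2 hy) (mul_nonneg hx0 hy0),
      mul_nonneg (sub_nonneg.2 hy) (mul_nonneg hy0 hy0), mul_nonneg hx0 hy0]
  have h6 : y ^ 4 - x ^ 4 ≤ 10 * (y ^ 3 - x ^ 3) := by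
    rw [← h3, ← h4]
    nlinarith [mul_nonneg (sub_nonneg.2 hxy) (sub_nonneg.2 h5)]
  nlinarith [h2, h2', h6, hxy]

theorem l6_pN (x y : ℝ) (hx : 3958 / 1000 ≤ x) (hxy : x ≤ y) (hy : y ≤ 5) :
    4 * x ^ 2 - 171 / 10000 * (2 * x ^ 3 - 199 / 100 * x ^ 2) - 88 / 600 * x ^ 3 ≤
    4 * y ^ 2 - 171 / 10000 * (2 * y ^ 3 - 199 / 100 * y ^ 2) - 88 / 600 * y ^ 3 := by
  have hq : 0 ≤ 4 * (x + y) - 171 / 10000 * (2 * (x ^ 2 + x * y + y ^ 2) -
      199 / 100 * (x + y)) - 88 / 600 * (x ^ 2 + x * y + y ^ 2) := by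
    nlinarith [mul_nonneg (sub_nonneg.2 (hxy.trans hy)) (by linarith : (0:ℝ) ≤ x),
      mul_nonneg (sub_nonneg.2 hy) (by linarith : (0:ℝ) ≤ y),
      mul_nonneg (sub_nonneg.2 hy) (by linarith : (0:ℝ) ≤ x)]
  nlinarith [mul_nonneg (sub_nonneg.2 hxy) hq]

theorem l6_gP (x y : ℝ) (hx : 1246 / 1000 ≤ x) (hxy : x ≤ y) (hy : y ≤ 2) :
    16 * x ^ 2 * (99798 / 100000 * (1 - 804 / 10000 * x) - 55 / 10000 * (4 * x - 199 / 100)) +
      11 / 600 * 96 * x ^ 2 * (1 - 804 / 10000 * x) - 8 * (508 / 1000 + 11 / 300) * x ≤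
    16 * y ^ 2 * (99798 / 100000 * (1 - 804 / 10000 * y) - 55 / 10000 * (4 * y - 199 / 100)) +
      11 / 600 * 96 * y ^ 2 * (1 - 804 / 10000 * y) - 8 * (508 / 1000 + 11 / 300) * y := by
  have hq : 0 ≤ (16 * (99798 / 100000 + 55 / 10000 * (199 / 100)) + 11 / 600 * 96) * (x + y) -
      (16 * (99798 / 100000 * (804 / 10000) + 55 / 10000 * 4) + 11 / 600 * 96 * (804 / 10000)) *
        (x ^ 2 + x * y + y ^ 2) - 8 * (508 / 1000 + 11 / 300) := by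
    nlinarith [mul_nonneg (sub_nonneg.2 (hxy.trans hy)) (by linarith : (0:ℝ) ≤ x),
      mul_nonneg (sub_nonneg.2 hy) (by linarith : (0:ℝ) ≤ y),
      mul_nonneg (sub_nonneg.2 hy) (by linarith : (0:ℝ) ≤ x)]
  nlinarith [mul_nonneg (sub_nonneg.2 hxy) hq]

theorem l6_gN (x y : ℝ) (hx : 1246 / 1000 ≤ x) (hxy : x ≤ y) (hy : y ≤ 2) :
    16 * x ^ 2 * (99798 / 100000 * (1 - 804 / 10000 * x) - 55 / 10000 * (4 * x - 199 / 100)) -
      11 / 600 * 96 * x ^ 2 * (1 - 804 / 10000 * x) - 8 * (508 / 1000 - 11 / 300) * x ≤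
    16 * y ^ 2 * (99798 / 100000 * (1 - 804 / 10000 * y) - 55 / 10000 * (4 * y - 199 / 100)) -
      11 / 600 * 96 * y ^ 2 * (1 - 804 / 10000 * y) - 8 * (508 / 1000 - 11 / 300) * y := by
  have hq : 0 ≤ (16 * (99798 / 100000 + 55 / 10000 * (199 / 100)) - 11 / 600 * 96) * (x + y) -
      (16 * (99798 / 100000 * (804 / 10000) + 55 / 10000 * 4) - 11 / 600 * 96 * (804 / 10000)) *
        (x ^ 2 + x * y + y ^ 2) - 8 * (508 / 1000 - 11 / 300) := by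
    nlinarith [mul_nonneg (sub_nonneg.2 (hxy.trans hy)) (by linarith : (0:ℝ) ≤ x),
      mul_nonneg (sub_nonneg.2 hy) (by linarith : (0:ℝ) ≤ y),
      mul_nonneg (sub_nonneg.2 hy) (by linarith : (0:ℝ) ≤ x)]
  nlinarith [mul_nonneg (sub_nonneg.2 hxy) hq]


/-! the polynomial inequalities -/

theorem l6_HP (u : ℝ) (h0 : 0 ≤ u) (h1 : u ≤ 1 / 4) :
    1 / 5 ≤ ((39581 / 10000 * (1 + u)) ^ 2 / 2 - 2043 / 1000 * (39581 / 10000 * (1 + u)) -
      214 / 100000 * ((39581 / 10000 * (1 + u)) ^ 3 - 199 / 100 * (39581 / 10000 * (1 + u)) ^ 2) -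
      1913 / 100000 * (39581 / 10000 * (1 + u)) -
      11 / 600 * ((39581 / 10000 * (1 + u)) ^ 3 / 4 + 4086 / 1000 * (39581 / 10000 * (1 + u)))) +
    190 / 10000 * (1 - (39582 / 10000 * u) + (39582 / 10000 * u) ^ 2 / 2 -
      (39582 / 10000 * u) ^ 3 / 6 - 5 / 96 * (39582 / 10000 * u) ^ 4) *
      (4 * (39581 / 10000 * (1 + u)) ^ 2 - 171 / 10000 * (2 * (39581 / 10000 * (1 + u)) ^ 3 -
        199 / 100 * (39581 / 10000 * (1 + u)) ^ 2) +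
      88 / 600 * ((1 - (2 * (39581 / 10000 * (1 + u)) - 298 / 100) * (101 / 10000)) *
        (39581 / 10000 * (1 + u)) ^ 3)) +
    3573 / 10000 * (1 - (10289 / 10000 * u) + (10289 / 10000 * u) ^ 2 / 2 -
      2 / 9 * (10289 / 10000 * u) ^ 3) *
      (16 * (12467 / 10000 * (1 + u)) ^ 2 * (99798 / 100000 *
        (1 - 804 / 10000 * (12467 / 10000 * (1 + u))) -
          55 / 10000 * (4 * (12467 / 10000 * (1 + u)) - 199 / 100)) +
      11 / 600 * 96 * (12467 / 10000 * (1 + u)) ^ 2 *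
        (1 - 804 / 10000 * (12467 / 10000 * (1 + u))) -
        8 * (508 / 1000 + 11 / 300) * (12467 / 10000 * (1 + u))) -
    8 * (508 / 1000 + 11 / 300) * (12436 / 10000 * (1 + (21794 / 100000 * u) +
      3 / 4 * (21794 / 100000 * u) ^ 2) * (12468 / 10000 * (1 + u))) -
    35 * (508 / 1000 + 11 / 300) * (25 / 10000 * (12468 / 10000 * (1 + u))) := by
  have p2 : 0 ≤ u ^ 2 := by positivity
  have p3 : 0 ≤ u ^ 3 := by positivity
  have p4 : 0 ≤ u ^ 4 := by positivity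
  have p5 : 0 ≤ u ^ 5 := by positivity
  have p6 : 0 ≤ u ^ 6 := by positivity
  have p7 : 0 ≤ u ^ 7 := by positivity
  have p8 : 0 ≤ u ^ 8 := by positivity
  have q2 : u ^ 2 ≤ 1 / 4 * u := by nlinarith
  have q3 : u ^ 3 ≤ 1 / 16 * u := by nlinarith
  have q4 : u ^ 4 ≤ 1 / 64 * u := by nlinarith
  have q5 : u ^ 5 ≤ 1 / 256 * u := by nlinarith
  have q6 : u ^ 6 ≤ 1 / 1024 * u := by nlinarith
  have q7 : u ^ 7 ≤ 1 / 4096 * u := by nlinarith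
  have q8 : u ^ 8 ≤ 1 / 16384 * u := by nlinarith
  linarith [p2, p3, p4, p5, p6, p7, p8, q2, q3, q4, q5, q6, q7, q8]

theorem l6_HN (u : ℝ) (h0 : 0 ≤ u) (h1 : u ≤ 1 / 4) :
    1 / 5 ≤ ((39581 / 10000 * (1 + u)) ^ 2 / 2 - 2043 / 1000 * (39581 / 10000 * (1 + u)) -
      214 / 100000 * ((39581 / 10000 * (1 + u)) ^ 3 - 199 / 100 * (39581 / 10000 * (1 + u)) ^ 2) -
      1913 / 100000 * (39581 / 10000 * (1 + u)) +
      11 / 600 * ((1 - ((39581 / 10000 * (1 + u)) - 298 / 100) * (101 / 10000)) *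
        (39581 / 10000 * (1 + u)) ^ 3 / 4 + 4086 / 1000 * (39581 / 10000 * (1 + u)))) +
    190 / 10000 * (1 - (39582 / 10000 * u) + (39582 / 10000 * u) ^ 2 / 2 -
      (39582 / 10000 * u) ^ 3 / 6 - 5 / 96 * (39582 / 10000 * u) ^ 4) *
      (4 * (39581 / 10000 * (1 + u)) ^ 2 - 171 / 10000 * (2 * (39581 / 10000 * (1 + u)) ^ 3 -
        199 / 100 * (39581 / 10000 * (1 + u)) ^ 2) -
      88 / 600 * (39581 / 10000 * (1 + u)) ^ 3) +
    3573 / 10000 * (1 - (10289 / 10000 * u) + (10289 / 10000 * u) ^ 2 / 2 -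
      2 / 9 * (10289 / 10000 * u) ^ 3) *
      (16 * (12467 / 10000 * (1 + u)) ^ 2 * (99798 / 100000 *
        (1 - 804 / 10000 * (12467 / 10000 * (1 + u))) -
          55 / 10000 * (4 * (12467 / 10000 * (1 + u)) - 199 / 100)) -
      11 / 600 * 96 * (12467 / 10000 * (1 + u)) ^ 2 *
        (1 - 804 / 10000 * (12467 / 10000 * (1 + u))) -
        8 * (508 / 1000 - 11 / 300) * (12467 / 10000 * (1 + u))) -
    8 * (508 / 1000 - 11 / 300) * (12436 / 10000 * (1 + (21794 / 100000 * u) +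
      3 / 4 * (21794 / 100000 * u) ^ 2) * (12468 / 10000 * (1 + u))) -
    35 * (508 / 1000 - 11 / 300) * (25 / 10000 * (12468 / 10000 * (1 + u))) := by
  have p2 : 0 ≤ u ^ 2 := by positivity
  have p3 : 0 ≤ u ^ 3 := by positivity
  have p4 : 0 ≤ u ^ 4 := by positivity
  have p5 : 0 ≤ u ^ 5 := by positivity
  have p6 : 0 ≤ u ^ 6 := by positivity
  have p7 : 0 ≤ u ^ 7 := by positivity
  have p8 : 0 ≤ u ^ 8 := by positivity
  have q2 : u ^ 2 ≤ 1 / 4 * u := by nlinarith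
  have q3 : u ^ 3 ≤ 1 / 16 * u := by nlinarith
  have q4 : u ^ 4 ≤ 1 / 64 * u := by nlinarith
  have q5 : u ^ 5 ≤ 1 / 256 * u := by nlinarith
  have q6 : u ^ 6 ≤ 1 / 1024 * u := by nlinarith
  have q7 : u ^ 7 ≤ 1 / 4096 * u := by nlinarith
  have q8 : u ^ 8 ≤ 1 / 16384 * u := by nlinarith
  linarith [p2, p3, p4, p5, p6, p7, p8, q2, q3, q4, q5, q6, q7, q8]

/-! positivity of the coefficients -/

theorem l6_pP0 (x : ℝ) (hx : 3958 / 1000 ≤ x) (hy : x ≤ 5) :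
    0 ≤ 4 * x ^ 2 - 171 / 10000 * (2 * x ^ 3 - 199 / 100 * x ^ 2) +
      88 / 600 * ((1 - (2 * x - 298 / 100) * (101 / 10000)) * x ^ 3) := by
  have e : 4 * x ^ 2 - 171 / 10000 * (2 * x ^ 3 - 199 / 100 * x ^ 2) +
      88 / 600 * ((1 - (2 * x - 298 / 100) * (101 / 10000)) * x ^ 3) =
      x ^ 2 * (4 - 171 / 10000 * (2 * x - 199 / 100) +
        88 / 600 * ((1 - (2 * x - 298 / 100) * (101 / 10000)) * x)) := by ring
  rw [e]
  have h1 : 0 ≤ (1 - (2 * x - 298 / 100) * (101 / 10000)) * x :=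
    mul_nonneg (by linarith) (by linarith)
  exact mul_nonneg (by positivity) (by linarith)

theorem l6_pN0 (x : ℝ) (hx : 3958 / 1000 ≤ x) (hy : x ≤ 5) :
    0 ≤ 4 * x ^ 2 - 171 / 10000 * (2 * x ^ 3 - 199 / 100 * x ^ 2) - 88 / 600 * x ^ 3 := by
  have e : 4 * x ^ 2 - 171 / 10000 * (2 * x ^ 3 - 199 / 100 * x ^ 2) - 88 / 600 * x ^ 3 =
      x ^ 2 * (4 - 171 / 10000 * (2 * x - 199 / 100) - 88 / 600 * x) := by ring
  rw [e]
  exact mul_nonneg (by positivity) (by linarith)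

theorem l6_gP0 (x : ℝ) (hx : 1246 / 1000 ≤ x) (hy : x ≤ 2) :
    0 ≤ 16 * x ^ 2 * (99798 / 100000 * (1 - 804 / 10000 * x) -
      55 / 10000 * (4 * x - 199 / 100)) +
      11 / 600 * 96 * x ^ 2 * (1 - 804 / 10000 * x) - 8 * (508 / 1000 + 11 / 300) * x := by
  have h1 := l6_gP (1246 / 1000) x le_rfl hx hy
  refine le_trans ?_ h1
  norm_num

theorem l6_gN0 (x : ℝ) (hx : 1246 / 1000 ≤ x) (hy : x ≤ 2) :
    0 ≤ 16 * x ^ 2 * (99798 / 100000 * (1 - 804 / 10000 * x) -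
      55 / 10000 * (4 * x - 199 / 100)) -
      11 / 600 * 96 * x ^ 2 * (1 - 804 / 10000 * x) - 8 * (508 / 1000 - 11 / 300) * x := by
  have h1 := l6_gN (1246 / 1000) x le_rfl hx hy
  refine le_trans ?_ h1
  norm_num

theorem l6_P (τ υ X L M N u : ℝ) (hu0 : 0 ≤ u) (hu1 : u ≤ 1 / 4)
    (ht0 : 39581 / 10000 * (1 + u) ≤ τ) (ht1 : τ ≤ 5)
    (hv0 : 12467 / 10000 * (1 + u) ≤ υ) (hv1 : υ ≤ 12468 / 10000 * (1 + u))
    (hX : 190 / 10000 * (1 - (39582 / 10000 * u) + (39582 / 10000 * u) ^ 2 / 2 -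
      (39582 / 10000 * u) ^ 3 / 6 - 5 / 96 * (39582 / 10000 * u) ^ 4) ≤ X)
    (hM : 3573 / 10000 * (1 - (10289 / 10000 * u) + (10289 / 10000 * u) ^ 2 / 2 -
      2 / 9 * (10289 / 10000 * u) ^ 3) ≤ M)
    (hL : L ≤ 12436 / 10000 * (1 + (21794 / 100000 * u) + 3 / 4 * (21794 / 100000 * u) ^ 2))
    (hN : N ≤ 25 / 10000) (hX0 : 0 ≤ X) (hM0 : 0 ≤ M) :
    1 / 5 ≤ (τ ^ 2 / 2 - 2043 / 1000 * τ - 214 / 100000 * (τ ^ 3 - 199 / 100 * τ ^ 2) -
      1913 / 100000 * τ - 11 / 600 * (τ ^ 3 / 4 + 4086 / 1000 * τ)) +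
      X * (4 * τ ^ 2 - 171 / 10000 * (2 * τ ^ 3 - 199 / 100 * τ ^ 2) +
        88 / 600 * ((1 - (2 * τ - 298 / 100) * (101 / 10000)) * τ ^ 3)) +
      M * (16 * υ ^ 2 * (99798 / 100000 * (1 - 804 / 10000 * υ) -
          55 / 10000 * (4 * υ - 199 / 100)) +
        11 / 600 * 96 * υ ^ 2 * (1 - 804 / 10000 * υ) - 8 * (508 / 1000 + 11 / 300) * υ) -
      8 * (508 / 1000 + 11 / 300) * (L * υ) - 35 * (508 / 1000 + 11 / 300) * (N * υ) := by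
  have a1 := l6_TP (39581 / 10000 * (1 + u)) τ (by linarith) ht0 ht1
  have a2 := mul_le_mul hX (l6_pP (39581 / 10000 * (1 + u)) τ (by linarith) ht0 ht1)
    (l6_pP0 _ (by linarith) (by linarith)) hX0
  have a3 := mul_le_mul hM (l6_gP (12467 / 10000 * (1 + u)) υ (by linarith) hv0 (by linarith))
    (l6_gP0 _ (by linarith) (by linarith)) hM0
  have a4 := mul_le_mul hL hv1 (by linarith) (by positivity)
  have a5 := mul_le_mul hN hv1 (by linarith) (by norm_num)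
  linarith [l6_HP u hu0 hu1, a1, a2, a3, a4, a5]

theorem l6_Nn (τ υ X L M N u : ℝ) (hu0 : 0 ≤ u) (hu1 : u ≤ 1 / 4)
    (ht0 : 39581 / 10000 * (1 + u) ≤ τ) (ht1 : τ ≤ 5)
    (hv0 : 12467 / 10000 * (1 + u) ≤ υ) (hv1 : υ ≤ 12468 / 10000 * (1 + u))
    (hX : 190 / 10000 * (1 - (39582 / 10000 * u) + (39582 / 10000 * u) ^ 2 / 2 -
      (39582 / 10000 * u) ^ 3 / 6 - 5 / 96 * (39582 / 10000 * u) ^ 4) ≤ X)
    (hM : 3573 / 10000 * (1 - (10289 / 10000 * u) + (10289 / 10000 * u) ^ 2 / 2 -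
      2 / 9 * (10289 / 10000 * u) ^ 3) ≤ M)
    (hL : L ≤ 12436 / 10000 * (1 + (21794 / 100000 * u) + 3 / 4 * (21794 / 100000 * u) ^ 2))
    (hN : N ≤ 25 / 10000) (hX0 : 0 ≤ X) (hM0 : 0 ≤ M) :
    1 / 5 ≤ (τ ^ 2 / 2 - 2043 / 1000 * τ - 214 / 100000 * (τ ^ 3 - 199 / 100 * τ ^ 2) -
      1913 / 100000 * τ + 11 / 600 * ((1 - (τ - 298 / 100) * (101 / 10000)) * τ ^ 3 / 4 +
        4086 / 1000 * τ)) +
      X * (4 * τ ^ 2 - 171 / 10000 * (2 * τ ^ 3 - 199 / 100 * τ ^ 2) - 88 / 600 * τ ^ 3) +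
      M * (16 * υ ^ 2 * (99798 / 100000 * (1 - 804 / 10000 * υ) -
          55 / 10000 * (4 * υ - 199 / 100)) -
        11 / 600 * 96 * υ ^ 2 * (1 - 804 / 10000 * υ) - 8 * (508 / 1000 - 11 / 300) * υ) -
      8 * (508 / 1000 - 11 / 300) * (L * υ) - 35 * (508 / 1000 - 11 / 300) * (N * υ) := by
  have a1 := l6_TN (39581 / 10000 * (1 + u)) τ (by linarith) ht0 ht1
  have a2 := mul_le_mul hX (l6_pN (39581 / 10000 * (1 + u)) τ (by linarith) ht0 ht1)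
    (l6_pN0 _ (by linarith) (by linarith)) hX0
  have a3 := mul_le_mul hM (l6_gN (12467 / 10000 * (1 + u)) υ (by linarith) hv0 (by linarith))
    (l6_gN0 _ (by linarith) (by linarith)) hM0
  have a4 := mul_le_mul hL hv1 (by linarith) (by positivity)
  have a5 := mul_le_mul hN hv1 (by linarith) (by norm_num)
  linarith [l6_HN u hu0 hu1, a1, a2, a3, a4, a5]

/-- the inequality with abstract exponentials -/
theorem l6_main (τ υ X E L u k3 k4 C : ℝ) (hu0 : 0 ≤ u) (hu1 : u ≤ 1 / 4)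
    (ht0 : 39581 / 10000 * (1 + u) ≤ τ) (ht1 : τ ≤ 5)
    (hv0 : 12467 / 10000 * (1 + u) ≤ υ) (hv1 : υ ≤ 12468 / 10000 * (1 + u))
    (hX : 190 / 10000 * (1 - (39582 / 10000 * u) + (39582 / 10000 * u) ^ 2 / 2 -
      (39582 / 10000 * u) ^ 3 / 6 - 5 / 96 * (39582 / 10000 * u) ^ 4) ≤ X)
    (hM : 3573 / 10000 * (1 - (10289 / 10000 * u) + (10289 / 10000 * u) ^ 2 / 2 -
      2 / 9 * (10289 / 10000 * u) ^ 3) ≤ L * E)
    (hL : L ≤ 12436 / 10000 * (1 + (21794 / 100000 * u) + 3 / 4 * (21794 / 100000 * u) ^ 2))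
    (hN : L * E ^ 5 ≤ 25 / 10000) (hX0 : 0 ≤ X) (hM0 : 0 ≤ L * E)
    (hC : C = 8 + 8 * E + 35 * E ^ 5)
    (h3a : 1 - (τ - 298 / 100) * (101 / 10000) ≤ k3) (h3b : k3 ≤ 1)
    (h4a : 1 - (2 * τ - 298 / 100) * (101 / 10000) ≤ k4) (h4b : k4 ≤ 1) :
    1 / 5 + 11 / 600 * |(k3 * τ ^ 3 / 4 - 8 * k4 * τ ^ 3 * X + 12258 / 1000 * τ / 3) +
        L * (-96 * E * υ ^ 2 * (1 - 804 / 10000 * υ) + 2 * C * υ)| ≤
      (τ ^ 2 / 2 - 12258 / 1000 * τ / 6 + 4 * τ ^ 2 * X -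
        214 / 100000 * τ ^ 2 * (τ - 199 / 100) -
        171 / 10000 * τ ^ 2 * (2 * τ - 199 / 100) * X - 1913 / 100000 * τ) +
      L * (16 * E * υ ^ 2 *
        ((1 - 804 / 10000 * υ) * (99798 / 100000) - 55 / 10000 * (4 * υ - 199 / 100)) -
          508 / 1000 * C * υ) := by
  have hP := l6_P τ υ X L (L * E) (L * E ^ 5) u hu0 hu1 ht0 ht1 hv0 hv1 hX hM hL hN hX0 hM0
  have hQ := l6_Nn τ υ X L (L * E) (L * E ^ 5) u hu0 hu1 ht0 ht1 hv0 hv1 hX hM hL hN hX0 hM0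
  have ht : 0 ≤ τ ^ 3 := pow_nonneg (by linarith) 3
  have b1 : k3 * τ ^ 3 ≤ 1 * τ ^ 3 := mul_le_mul_of_nonneg_right h3b ht
  have b2 : (1 - (τ - 298 / 100) * (101 / 10000)) * τ ^ 3 ≤ k3 * τ ^ 3 :=
    mul_le_mul_of_nonneg_right h3a ht
  have htX : 0 ≤ τ ^ 3 * X := mul_nonneg ht hX0
  have b3 : k4 * (τ ^ 3 * X) ≤ 1 * (τ ^ 3 * X) := mul_le_mul_of_nonneg_right h4b htX
  have b4 : (1 - (2 * τ - 298 / 100) * (101 / 10000)) * (τ ^ 3 * X) ≤ k4 * (τ ^ 3 * X) :=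
    mul_le_mul_of_nonneg_right h4a htX
  subst hC
  have key : |(k3 * τ ^ 3 / 4 - 8 * k4 * τ ^ 3 * X + 12258 / 1000 * τ / 3) +
        L * (-96 * E * υ ^ 2 * (1 - 804 / 10000 * υ) + 2 * (8 + 8 * E + 35 * E ^ 5) * υ)| ≤
      600 / 11 * ((τ ^ 2 / 2 - 12258 / 1000 * τ / 6 + 4 * τ ^ 2 * X -
        214 / 100000 * τ ^ 2 * (τ - 199 / 100) -
        171 / 10000 * τ ^ 2 * (2 * τ - 199 / 100) * X - 1913 / 100000 * τ) +
      L * (16 * E * υ ^ 2 *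
        ((1 - 804 / 10000 * υ) * (99798 / 100000) - 55 / 10000 * (4 * υ - 199 / 100)) -
          508 / 1000 * (8 + 8 * E + 35 * E ^ 5) * υ) - 1 / 5) := by
    rw [abs_le]
    constructor
    · linarith
    · linarith
  linarith

/-- the numerical inequality for the first coefficient, for `t` close to `1` -/
theorem numQ1 : ∀ t k3 k4 : ℝ, 1 ≤ t → t ≤ 5 / 4 →
    1 - (2 * al * t - 298 / 100) * (101 / 10000) ≤ k3 → k3 ≤ 1 →
    1 - (2 * (2 * al * t) - 298 / 100) * (101 / 10000) ≤ k4 → k4 ≤ 1 →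
    1 / 5 + 11 / 600 * |FE (2 * al * t) k3 k4 + LA t * BE (be * t) (CB t)| ≤
      FQ (2 * al * t) + LA t * BQ (be * t) (CB t) := by
  intro t k3 k4 ht1 ht2 h3a h3b h4a h4b
  obtain ⟨ha1, ha2⟩ := Pool.Agent.K1H99.FCC.al_bounds
  obtain ⟨hb1, hb2⟩ := Pool.Agent.K1H99.FCC.be_bounds
  have ht0 : (0:ℝ) ≤ t := by linarith
  have c1 : 19790793 / 10000000 * t ≤ al * t := mul_le_mul_of_nonneg_right ha1 ht0
  have c2 : al * t ≤ 19790794 / 10000000 * t := mul_le_mul_of_nonneg_right ha2 ht0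
  have c3 : 12467418 / 10000000 * t ≤ be * t := mul_le_mul_of_nonneg_right hb1 ht0
  have c4 : be * t ≤ 12467419 / 10000000 * t := mul_le_mul_of_nonneg_right hb2 ht0
  have hLE : LA t * Real.exp (-(be * t)) = Real.exp (2 * al * t - 4 * (be * t)) := by
    rw [LA, ← Real.exp_add]
    congr 1
    ring
  have hLE5 : LA t * Real.exp (-(be * t)) ^ 5 = Real.exp (2 * al * t - 8 * (be * t)) := by
    rw [LA, ← Real.exp_nat_mul, ← Real.exp_add]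
    congr 1
    push_cast
    ring
  have hu1 : t - 1 ≤ 1 / 4 := by linarith
  have hu0 : 0 ≤ t - 1 := by linarith
  exact l6_main (2 * al * t) (be * t) (Real.exp (-(2 * al * t))) (Real.exp (-(be * t))) (LA t)
    (t - 1) k3 k4 (CB t) hu0 hu1 (by nlinarith) (by nlinarith) (by linarith) (by linarith)
    (l6_X _ _ hu0 hu1 (by nlinarith))
    (hLE ▸ l6_M _ _ hu0 hu1 (by nlinarith))
    (l6_L _ _ hu0 hu1 (by nlinarith))
    (hLE5 ▸ l6_N _ (by nlinarith)) (Real.exp_pos _).le (hLE ▸ (Real.exp_pos _).le) rfl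
    h3a h3b h4a h4b

end Pool.Agent.H999.Ep3
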