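import Pool.Agent.H999.Ep3.LBase

set_option autoImplicit false

open Matrix

namespace Pool.Agent.H999.Ep3

open Pool.Agent.K1H99.FCC (N0 rv nsq qf af dt PD rad Fp Qm pp tot al be sd)
open Pool.Agent.H999.Theta3 (Th RF RB Bp bb psi dx)

/-- the algebraic identity for the first coefficient -/
theorem l7_id (τ υ x E z k3 k4 C : ℝ) (hC : C = 8 + 8 * E + 35 * E ^ 5) :
    (τ ^ 2 / 2 - 12258 / 1000 * τ / 6 + 4 * τ ^ 2 * z -
      214 / 100000 * τ ^ 2 * (τ - 199 / 100) -
      171 / 10000 * τ ^ 2 * (2 * τ - 199 / 100) * z - 1913 / 100000 * τ) +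
    x * (16 * E * υ ^ 2 *
      ((1 - 804 / 10000 * υ) * (99798 / 100000) - 55 / 10000 * (4 * υ - 199 / 100)) -
      508 / 1000 * C * υ) -
    11 / 600 * ((k3 * τ ^ 3 / 4 - 8 * k4 * τ ^ 3 * z + 12258 / 1000 * τ / 3) +
      x * (-96 * E * υ ^ 2 * (1 - 804 / 10000 * υ) + 2 * C * υ)) =
    ((1 / 2 + 214 / 100000 * (199 / 100)) * τ ^ 2 - (214 / 100000 + 11 / 2400) * τ ^ 3 -
      (12258 / 6000 + 1913 / 100000 + 11 / 600 * (12258 / 3000)) * τ) +
    (x * E) * (179028 / 10000 * υ ^ 2 - 1777305472 / 1000000000 * υ ^ 3 - 8 * (817 / 1500) * υ) -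
    8 * (817 / 1500) * υ * x - 35 * (817 / 1500) * υ * (x * E ^ 5) +
    z * τ ^ 2 * (4 - 171 / 10000 * (2 * τ - 199 / 100)) + 88 / 600 * (k4 * τ ^ 3 * z) +
    11 / 2400 * ((1 - k3) * τ ^ 3) := by
  subst hC
  ring

/-- upper bound for the exponential -/
theorem l7_exp {y : ℝ} (h0 : 0 ≤ y) (h1 : y ≤ 1) :
    Real.exp y ≤ 1 + y + y ^ 2 / 2 + y ^ 3 * (2 / 9) := by
  have h := Real.exp_bound' h0 h1 (n := 3) (by norm_num)
  simp only [Finset.sum_range_succ, Finset.sum_range_zero, Nat.factorial] at h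
  norm_num at h
  linarith

theorem l7_polyA {t : ℝ} (h1 : 5 / 4 ≤ t) (h2 : t ≤ 17 / 10) :
    0 ≤ ((1 / 2 + 214 / 100000 * (199 / 100)) * (39581586 / 10000000 * t) ^ 2 -
      (214 / 100000 + 11 / 2400) * (39581588 / 10000000 * t) ^ 3 -
      (12258 / 6000 + 1913 / 100000 + 11 / 600 * (12258 / 3000)) * (39581588 / 10000000 * t)) +
    (27637 / 100000 * (1 - 1028809 / 1000000 * (t - 5 / 4))) *
      (179028 / 10000 * (12467418 / 10000000 * t) ^ 2 -
        1777305472 / 1000000000 * (12467419 / 10000000 * t) ^ 3 -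
        8 * (817 / 1500) * (12467419 / 10000000 * t)) -
    8 * (817 / 1500) * (12467419 / 10000000 * t) * (1 + 2179334 / 10000000 * t +
      (2179334 / 10000000 * t) ^ 2 / 2 + (2179334 / 10000000 * t) ^ 3 * (2 / 9)) -
    35 * (817 / 1500) * (12467419 / 10000000 * t) * (545 / 1000000) - 1 / 5 := by
  have ha : 0 ≤ t - 5 / 4 := by linarith
  have hb : 0 ≤ 17 / 10 - t := by linarith
  have e0 : 0 ≤ (17 / 10 - t) ^ 4 := by positivity
  have e1 : 0 ≤ (t - 5 / 4) * (17 / 10 - t) ^ 3 := by positivity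
  have e2 : 0 ≤ (t - 5 / 4) ^ 2 * (17 / 10 - t) ^ 2 := by positivity
  have e3 : 0 ≤ (t - 5 / 4) ^ 3 * (17 / 10 - t) := by positivity
  have e4 : 0 ≤ (t - 5 / 4) ^ 4 := by positivity
  nlinarith [e0, e1, e2, e3, e4]

theorem l7_polyB {t : ℝ} (h1 : 17 / 10 ≤ t) (h2 : t ≤ 819 / 256) :
    0 ≤ ((1 / 2 + 214 / 100000 * (199 / 100)) * (39581586 / 10000000 * t) ^ 2 -
      (214 / 100000 + 11 / 2400) * (39581588 / 10000000 * t) ^ 3 -
      (12258 / 6000 + 1913 / 100000 + 11 / 600 * (12258 / 3000)) * (39581588 / 10000000 * t)) +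
    (9878 / 100000 * (1 - 1028809 / 1000000 * (t - 9 / 4))) *
      (179028 / 10000 * (12467418 / 10000000 * t) ^ 2 -
        1777305472 / 1000000000 * (12467419 / 10000000 * t) ^ 3 -
        8 * (817 / 1500) * (12467419 / 10000000 * t)) -
    8 * (817 / 1500) * (12467419 / 10000000 * t) * (1 + 2179334 / 10000000 * t +
      (2179334 / 10000000 * t) ^ 2 / 2 + (2179334 / 10000000 * t) ^ 3 * (2 / 9)) -
    35 * (817 / 1500) * (12467419 / 10000000 * t) * (545 / 1000000) - 1 / 5 := by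
  have ha : 0 ≤ t - 17 / 10 := by linarith
  have hb : 0 ≤ 819 / 256 - t := by linarith
  have e0 : 0 ≤ (819 / 256 - t) ^ 4 := by positivity
  have e1 : 0 ≤ (t - 17 / 10) * (819 / 256 - t) ^ 3 := by positivity
  have e2 : 0 ≤ (t - 17 / 10) ^ 2 * (819 / 256 - t) ^ 2 := by positivity
  have e3 : 0 ≤ (t - 17 / 10) ^ 3 * (819 / 256 - t) := by positivity
  have e4 : 0 ≤ (t - 17 / 10) ^ 4 := by positivity
  nlinarith [e0, e1, e2, e3, e4]

theorem l7_polyK {t : ℝ} (h1 : 5 / 4 ≤ t) (h2 : t ≤ 819 / 256) :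
    0 ≤ 179028 / 10000 * (12467418 / 10000000 * t) ^ 2 -
        1777305472 / 1000000000 * (12467419 / 10000000 * t) ^ 3 -
        8 * (817 / 1500) * (12467419 / 10000000 * t) := by
  have ha : 0 ≤ t - 5 / 4 := by linarith
  have hb : 0 ≤ 819 / 256 - t := by linarith
  have e0 : 0 ≤ (819 / 256 - t) ^ 3 := by positivity
  have e1 : 0 ≤ (t - 5 / 4) * (819 / 256 - t) ^ 2 := by positivity
  have e2 : 0 ≤ (t - 5 / 4) ^ 2 * (819 / 256 - t) := by positivity
  have e3 : 0 ≤ (t - 5 / 4) ^ 3 := by positivity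
  nlinarith [e0, e1, e2, e3]

theorem l7_polyC {t : ℝ} (h1 : 5 / 4 ≤ t) :
    0 ≤ 1686 / 10000 * (39581586 / 10000000 * t) ^ 3 +
      12258 / 3000 * (39581586 / 10000000 * t) + 16 * (12467418 / 10000000 * t) * (127 / 100) -
      96 * (2765 / 10000) * (875 / 1000) * (12467419 / 10000000 * t) ^ 2 := by
  have h0 : 0 ≤ t := by linarith
  have e1 : 0 ≤ t * (t - 17 / 10) ^ 2 := by positivity
  have e2 : 0 ≤ t ^ 2 := by positivity
  nlinarith [e1, e2]

/-- the numerical inequality for the first coefficient, for larger `t` -/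
theorem numQ2 : ∀ t k3 k4 : ℝ, 5 / 4 ≤ t → t ≤ 819 / 256 →
    1 - (2 * al * t - 298 / 100) * (101 / 10000) ≤ k3 → k3 ≤ 1 →
    1 - (2 * (2 * al * t) - 298 / 100) * (101 / 10000) ≤ k4 → k4 ≤ 1 →
    1 / 5 + 11 / 600 * |FE (2 * al * t) k3 k4 + LA t * BE (be * t) (CB t)| ≤
      FQ (2 * al * t) + LA t * BQ (be * t) (CB t) := by
  intro t k3 k4 ht1 ht2 hk3 hk3' hk4 hk4'
  obtain ⟨ha1, ha2⟩ := Pool.Agent.K1H99.FCC.al_bounds
  obtain ⟨hb1, hb2⟩ := Pool.Agent.K1H99.FCC.be_bounds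
  have ht0 : 0 < t := by linarith
  have hLA : LA t = Real.exp (2 * al * t - 3 * (be * t)) := rfl
  have hCB : CB t = 8 + 8 * Real.exp (-(be * t)) + 35 * Real.exp (-(be * t)) ^ 5 := rfl
  have hτ1 : 39581586 / 10000000 * t ≤ 2 * al * t := mul_le_mul_of_nonneg_right (by linarith) ht0.le
  have hτ2 : 2 * al * t ≤ 39581588 / 10000000 * t := mul_le_mul_of_nonneg_right (by linarith) ht0.le
  have hυ1 : 12467418 / 10000000 * t ≤ be * t := mul_le_mul_of_nonneg_right (by linarith) ht0.le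
  have hυ2 : be * t ≤ 12467419 / 10000000 * t := mul_le_mul_of_nonneg_right (by linarith) ht0.le
  rw [hCB]
  unfold FE FQ BE BQ
  set τ := 2 * al * t with hτ
  set υ := be * t with hυ
  set x := LA t with hx
  set E := Real.exp (-υ) with hE
  set z := Real.exp (-τ) with hz
  have hE0 : 0 < E := Real.exp_pos _
  have hz0 : 0 < z := Real.exp_pos _
  have hx0 : 0 < x := by rw [hLA]; exact Real.exp_pos _
  have hτ0 : 0 < τ := by linarith
  have hυ0 : 0 < υ := by linarith
  have hu : x * E = Real.exp (τ - 4 * υ) := by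
    rw [hLA, hE, ← Real.exp_add]
    congr 1
    ring
  have hw : x * E ^ 5 = Real.exp (τ - 8 * υ) := by
    rw [hLA, hE, ← Real.exp_nat_mul, ← Real.exp_add]
    congr 1
    push_cast
    ring
  -- bounds of the exponentials
  have hxl : 127 / 100 ≤ x := by
    rw [hLA]
    have := Real.add_one_le_exp (τ - 3 * υ)
    linarith
  have hxu : x ≤ 1 + 2179334 / 10000000 * t + (2179334 / 10000000 * t) ^ 2 / 2 +
      (2179334 / 10000000 * t) ^ 3 * (2 / 9) := by
    rw [hLA]
    refine (Real.exp_le_exp.2 (?_ : τ - 3 * υ ≤ 2179334 / 10000000 * t)).trans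
      (l7_exp (by positivity) (by linarith))
    linarith
  have hwu : x * E ^ 5 ≤ 545 / 1000000 := by
    rw [hw]
    refine (Real.exp_le_exp.2 (?_ : τ - 8 * υ ≤ -(75197 / 10000))).trans
      (Pool.Agent.K1H99.FCC.expneg_le (s := 15999 / 10000) (by norm_num) (by norm_num)
        (by norm_num) (by norm_num))
    linarith
  have huu : x * E ≤ 2765 / 10000 := by
    rw [hu]
    refine (Real.exp_le_exp.2 (?_ : τ - 4 * υ ≤ -(12860 / 10000))).trans
      (Pool.Agent.K1H99.FCC.expneg_le (s := 108369 / 100000) (by norm_num) (by norm_num)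
        (by norm_num) (by norm_num))
    linarith
  have hzu : z ≤ 711 / 100000 := by
    rw [hz]
    refine (Real.exp_le_exp.2 (?_ : -τ ≤ -(49476 / 10000))).trans
      (Pool.Agent.K1H99.FCC.expneg_le (s := 13623 / 10000) (by norm_num) (by norm_num)
        (by norm_num) (by norm_num))
    linarith
  have hul : ∀ m U : ℝ, U ≤ Real.exp (-(1028809 / 1000000 * m)) →
      0 ≤ 1 - 1028809 / 1000000 * (t - m) →
      U * (1 - 1028809 / 1000000 * (t - m)) ≤ x * E := by
    intro m U hU hpos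
    rw [hu]
    have h1 : Real.exp (-(1028809 / 1000000 * m)) * Real.exp (-(1028809 / 1000000 * (t - m))) ≤
        Real.exp (τ - 4 * υ) := by
      rw [← Real.exp_add]
      refine Real.exp_le_exp.2 ?_
      linarith
    have h2 := Real.add_one_le_exp (-(1028809 / 1000000 * (t - m)))
    refine le_trans ?_ h1
    refine (mul_le_mul_of_nonneg_right hU hpos).trans
      (mul_le_mul_of_nonneg_left (by linarith) (Real.exp_pos _).le)
  have hk4' : 0 ≤ k4 := by linarith
  have hk3l : 9 / 10 ≤ k3 := by linarith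
  -- the first inequality
  have hτ2' : (39581586 / 10000000 * t) ^ 2 ≤ τ ^ 2 := pow_le_pow_left₀ (by positivity) hτ1 2
  have hτ3' : τ ^ 3 ≤ (39581588 / 10000000 * t) ^ 3 := pow_le_pow_left₀ hτ0.le hτ2 3
  have hυ2' : (12467418 / 10000000 * t) ^ 2 ≤ υ ^ 2 := pow_le_pow_left₀ (by positivity) hυ1 2
  have hυ3' : υ ^ 3 ≤ (12467419 / 10000000 * t) ^ 3 := pow_le_pow_left₀ hυ0.le hυ2 3
  have hK := l7_polyK ht1 ht2
  have s2 : (x * E) * (179028 / 10000 * (12467418 / 10000000 * t) ^ 2 -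
        1777305472 / 1000000000 * (12467419 / 10000000 * t) ^ 3 -
        8 * (817 / 1500) * (12467419 / 10000000 * t)) ≤
      (x * E) * (179028 / 10000 * υ ^ 2 - 1777305472 / 1000000000 * υ ^ 3 -
        8 * (817 / 1500) * υ) := by
    refine mul_le_mul_of_nonneg_left ?_ (by positivity)
    linarith
  have s3 : υ * x ≤ (12467419 / 10000000 * t) * (1 + 2179334 / 10000000 * t +
      (2179334 / 10000000 * t) ^ 2 / 2 + (2179334 / 10000000 * t) ^ 3 * (2 / 9)) :=
    mul_le_mul hυ2 hxu hx0.le (by positivity)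
  have s4 : υ * (x * E ^ 5) ≤ (12467419 / 10000000 * t) * (545 / 1000000) :=
    mul_le_mul hυ2 hwu (by positivity) (by positivity)
  have s5 : 0 ≤ z * τ ^ 2 * (4 - 171 / 10000 * (2 * τ - 199 / 100)) :=
    mul_nonneg (by positivity) (by linarith)
  have s6 : 0 ≤ 88 / 600 * (k4 * τ ^ 3 * z) := by positivity
  have s7 : 0 ≤ 11 / 2400 * ((1 - k3) * τ ^ 3) :=
    mul_nonneg (by norm_num) (mul_nonneg (by linarith) (by positivity))
  have hG : 0 ≤ ((1 / 2 + 214 / 100000 * (199 / 100)) * (39581586 / 10000000 * t) ^ 2 -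
      (214 / 100000 + 11 / 2400) * (39581588 / 10000000 * t) ^ 3 -
      (12258 / 6000 + 1913 / 100000 + 11 / 600 * (12258 / 3000)) * (39581588 / 10000000 * t)) +
    (x * E) * (179028 / 10000 * (12467418 / 10000000 * t) ^ 2 -
        1777305472 / 1000000000 * (12467419 / 10000000 * t) ^ 3 -
        8 * (817 / 1500) * (12467419 / 10000000 * t)) -
    8 * (817 / 1500) * (12467419 / 10000000 * t) * (1 + 2179334 / 10000000 * t +
      (2179334 / 10000000 * t) ^ 2 / 2 + (2179334 / 10000000 * t) ^ 3 * (2 / 9)) -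
    35 * (817 / 1500) * (12467419 / 10000000 * t) * (545 / 1000000) - 1 / 5 := by
    rcases le_total t (17 / 10) with h | h
    · have h1 := l7_polyA ht1 h
      have h2 := hul (5 / 4) (27637 / 100000)
        (Pool.Agent.K1H99.FCC.le_expneg (s := 10836942 / 10000000) (by norm_num) (by norm_num)
          (by norm_num) (by norm_num) (by norm_num)) (by linarith)
      have h3 := mul_le_mul_of_nonneg_right h2 hK
      linarith
    · have h1 := l7_polyB h ht2
      have h2 := hul (9 / 4) (9878 / 100000)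
        (Pool.Agent.K1H99.FCC.le_expneg (s := 1155667 / 1000000) (by norm_num) (by norm_num)
          (by norm_num) (by norm_num) (by norm_num)) (by linarith)
      have h3 := mul_le_mul_of_nonneg_right h2 hK
      linarith
  have hid := l7_id τ υ x E z k3 k4 _ rfl
  have main1 : 1 / 5 + 11 / 600 * ((k3 * τ ^ 3 / 4 - 8 * k4 * τ ^ 3 * z + 12258 / 1000 * τ / 3) +
      x * (-96 * E * υ ^ 2 * (1 - 804 / 10000 * υ) +
        2 * (8 + 8 * E + 35 * E ^ 5) * υ)) ≤
      (τ ^ 2 / 2 - 12258 / 1000 * τ / 6 + 4 * τ ^ 2 * z -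
      214 / 100000 * τ ^ 2 * (τ - 199 / 100) -
      171 / 10000 * τ ^ 2 * (2 * τ - 199 / 100) * z - 1913 / 100000 * τ) +
    x * (16 * E * υ ^ 2 *
      ((1 - 804 / 10000 * υ) * (99798 / 100000) - 55 / 10000 * (4 * υ - 199 / 100)) -
      508 / 1000 * (8 + 8 * E + 35 * E ^ 5) * υ) := by
    linarith
  -- the coefficient is positive
  have main2 : 0 ≤ (k3 * τ ^ 3 / 4 - 8 * k4 * τ ^ 3 * z + 12258 / 1000 * τ / 3) +
      x * (-96 * E * υ ^ 2 * (1 - 804 / 10000 * υ) +
        2 * (8 + 8 * E + 35 * E ^ 5) * υ) := by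
    have g1 := l7_polyC ht1
    have g2 : (39581586 / 10000000 * t) ^ 3 ≤ τ ^ 3 := pow_le_pow_left₀ (by positivity) hτ1 3
    have g3 : υ ^ 2 ≤ (12467419 / 10000000 * t) ^ 2 := pow_le_pow_left₀ hυ0.le hυ2 2
    have g4 : 1686 / 10000 * (39581586 / 10000000 * t) ^ 3 ≤
        k3 * τ ^ 3 / 4 - 8 * k4 * τ ^ 3 * z := by
      have q1 : k4 * z ≤ 711 / 100000 := by
        have := mul_le_mul (‹k4 ≤ 1›) hzu hz0.le zero_le_one
        linarith
      have q2 : 1686 / 10000 ≤ k3 / 4 - 8 * (k4 * z) := by linarith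
      have q3 := mul_le_mul q2 g2 (by positivity) (by linarith)
      linarith
    have g5 : (12467418 / 10000000 * t) * (127 / 100) ≤ υ * x :=
      mul_le_mul hυ1 hxl (by norm_num) hυ0.le
    have g6 : (x * E) * (1 - 804 / 10000 * υ) * υ ^ 2 ≤
        2765 / 10000 * (875 / 1000) * (12467419 / 10000000 * t) ^ 2 := by
      refine mul_le_mul (mul_le_mul huu (by linarith) (by linarith) (by norm_num)) g3
        (by positivity) (by norm_num)
    have g7 : 0 ≤ x * (E * υ) := by positivity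
    have g8 : 0 ≤ x * (E ^ 5 * υ) := by positivity
    have g9 : (k3 * τ ^ 3 / 4 - 8 * k4 * τ ^ 3 * z + 12258 / 1000 * τ / 3) +
      x * (-96 * E * υ ^ 2 * (1 - 804 / 10000 * υ) +
        2 * (8 + 8 * E + 35 * E ^ 5) * υ) = (k3 * τ ^ 3 / 4 - 8 * k4 * τ ^ 3 * z) +
        12258 / 3000 * τ - 96 * ((x * E) * (1 - 804 / 10000 * υ) * υ ^ 2) + 16 * (υ * x) +
        16 * (x * (E * υ)) + 70 * (x * (E ^ 5 * υ)) := by ring
    rw [g9]
    linarith
  rw [abs_of_nonneg main2]
  exact main1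

end Pool.Agent.H999.Ep3
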