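import Pool.Agent.H999.Ep3.LBase

set_option autoImplicit false

open Matrix

namespace Pool.Agent.H999.Ep3

open Pool.Agent.K1H99.FCC (N0 rv nsq qf af dt PD rad Fp Qm pp tot al be sd)
open Pool.Agent.H999.Theta3 (Th RF RB Bp bb psi dx)

theorem l1_pair (a b c : ℝ) (hs : a + b + c = 0) (hc : |c| ≤ 11 / 100) (hab : 0 ≤ a * b) :
    |a * b * c| ≤ 11 / 600 * sq3 a b c ∧ sq3 a b c ≤ 242 / 10000 := by
  have hc' : c = -(a + b) := by linarith
  have h6 : 6 * (a * b) ≤ sq3 a b c := by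
    unfold sq3
    rw [hc']
    nlinarith [sq_nonneg (a - b)]
  have hc2 : c ^ 2 ≤ (11 / 100) ^ 2 := by
    rw [← sq_abs c]
    exact pow_le_pow_left₀ (abs_nonneg c) hc 2
  constructor
  · rw [abs_mul, abs_of_nonneg hab]
    have h1 : a * b * |c| ≤ a * b * (11 / 100) := mul_le_mul_of_nonneg_left hc hab
    linarith
  · have h2 : sq3 a b c = 2 * c ^ 2 - 2 * (a * b) := by
      unfold sq3
      rw [hc']
      ring
    rw [h2]
    linarith

theorem l1_e (d1 d2 d3 : ℝ) (hs : d1 + d2 + d3 = 0) (h1 : |d1| ≤ 11 / 100)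
    (h2 : |d2| ≤ 11 / 100) (h3 : |d3| ≤ 11 / 100) :
    |d1 * d2 * d3| ≤ 11 / 600 * sq3 d1 d2 d3 ∧ sq3 d1 d2 d3 ≤ 242 / 10000 := by
  by_cases hA : 0 ≤ d1 * d2
  · exact l1_pair d1 d2 d3 hs h3 hA
  · by_cases hB : 0 ≤ d2 * d3
    · have := l1_pair d2 d3 d1 (by linarith) h1 hB
      have e1 : d1 * d2 * d3 = d2 * d3 * d1 := by ring
      have e2 : sq3 d1 d2 d3 = sq3 d2 d3 d1 := by unfold sq3; ring
      rw [e1, e2]
      exact this
    · have hC : 0 ≤ d3 * d1 := by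
        by_contra hC
        push Not at hA hB hC
        have h : 0 < (d1 * d2) * (d2 * d3) := mul_pos_of_neg_of_neg hA hB
        have h' : (d1 * d2) * (d2 * d3) * (d3 * d1) < 0 := mul_neg_of_pos_of_neg h hC
        have h'' : (d1 * d2) * (d2 * d3) * (d3 * d1) = (d1 * d2 * d3) ^ 2 := by ring
        rw [h''] at h'
        exact absurd h' (not_lt.mpr (sq_nonneg _))
      have := l1_pair d3 d1 d2 (by linarith) h2 hC
      have e1 : d1 * d2 * d3 = d3 * d1 * d2 := by ring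
      have e2 : sq3 d1 d2 d3 = sq3 d3 d1 d2 := by unfold sq3; ring
      rw [e1, e2]
      exact this

theorem l1_g (w1 w2 w3 : ℝ) (h1 : |w1| ≤ 7 / 100) (h2 : |w2| ≤ 7 / 100) (h3 : |w3| ≤ 7 / 100) :
    |w1 * w2 * w3| ≤ 7 / 300 * sq3 w1 w2 w3 := by
  rw [abs_mul, abs_mul]
  unfold sq3
  rw [← sq_abs w1, ← sq_abs w2, ← sq_abs w3]
  have a1 := abs_nonneg w1
  have a2 := abs_nonneg w2
  have a3 := abs_nonneg w3
  generalize |w1| = a at *
  generalize |w2| = b at *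
  generalize |w3| = c at *
  have p1 : a * b * c ≤ 7 / 100 * (b * c) := by
    have := mul_le_mul_of_nonneg_right h1 (mul_nonneg a2 a3)
    linarith
  have p2 : a * b * c ≤ 7 / 100 * (a * c) := by
    have := mul_le_mul_of_nonneg_right h2 (mul_nonneg a1 a3)
    linarith
  have p3 : a * b * c ≤ 7 / 100 * (a * b) := by
    have := mul_le_mul_of_nonneg_right h3 (mul_nonneg a1 a2)
    linarith
  nlinarith [sq_nonneg (a - b), sq_nonneg (b - c), sq_nonneg (a - c)]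

theorem l1_f (b d1 d2 d3 w1 w2 w3 : ℝ) (h1 : |d1| ≤ b) (h2 : |d2| ≤ b) (h3 : |d3| ≤ b) :
    |fdw d1 d2 d3 w1 w2 w3| ≤ b * sq3 w1 w2 w3 := by
  unfold fdw sq3
  have h1' := abs_le.mp h1
  have h2' := abs_le.mp h2
  have h3' := abs_le.mp h3
  have s1 := sq_nonneg w1
  have s2 := sq_nonneg w2
  have s3 := sq_nonneg w3
  rw [abs_le]
  constructor
  · nlinarith [mul_nonneg (by linarith [h1'.1] : 0 ≤ d1 + b) s1,
      mul_nonneg (by linarith [h2'.1] : 0 ≤ d2 + b) s2,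
      mul_nonneg (by linarith [h3'.1] : 0 ≤ d3 + b) s3]
  · nlinarith [mul_nonneg (by linarith [h1'.2] : 0 ≤ b - d1) s1,
      mul_nonneg (by linarith [h2'.2] : 0 ≤ b - d2) s2,
      mul_nonneg (by linarith [h3'.2] : 0 ≤ b - d3) s3]

/-- bounds of the cubic terms -/
theorem cbd : CBd := by
  intro d1 d2 d3 w1 w2 w3 hb
  exact ⟨(l1_e d1 d2 d3 hb.sum hb.hd1 hb.hd2 hb.hd3).1,
    l1_f (11 / 100) d1 d2 d3 w1 w2 w3 hb.hd1 hb.hd2 hb.hd3,
    l1_g w1 w2 w3 hb.hw1 hb.hw2 hb.hw3⟩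

theorem l1_W (w1 w2 w3 : ℝ) (h1 : |w1| ≤ 7 / 100) (h2 : |w2| ≤ 7 / 100) (h3 : |w3| ≤ 7 / 100) :
    sq3 w1 w2 w3 ≤ 147 / 10000 := by
  have q1 : w1 ^ 2 ≤ (7 / 100) ^ 2 := by
    rw [← sq_abs w1]; exact pow_le_pow_left₀ (abs_nonneg _) h1 2
  have q2 : w2 ^ 2 ≤ (7 / 100) ^ 2 := by
    rw [← sq_abs w2]; exact pow_le_pow_left₀ (abs_nonneg _) h2 2
  have q3 : w3 ^ 2 ≤ (7 / 100) ^ 2 := by
    rw [← sq_abs w3]; exact pow_le_pow_left₀ (abs_nonneg _) h3 2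
  unfold sq3
  linarith

theorem l1_cube (X r : ℝ) (hX0 : 0 ≤ X) (hX : X ≤ 3 / 100) (_hr0 : 0 ≤ r)
    (hr : (1 + r) ^ 3 * (1 - X) = 1) : r ≤ X / 3 + 24 / 100 * X ^ 2 := by
  by_contra hlt
  push Not at hlt
  set u : ℝ := X / 3 + 24 / 100 * X ^ 2 with hu
  have hu0 : 0 ≤ u := by positivity
  have h1 : (1 + u) ^ 3 < (1 + r) ^ 3 := pow_lt_pow_left₀ (by linarith) (by linarith) (by norm_num)
  have h2 : (1 + u) ^ 3 * (1 - X) < (1 + r) ^ 3 * (1 - X) :=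
    mul_lt_mul_of_pos_right h1 (by linarith)
  rw [hr] at h2
  have h3 : 1 ≤ (1 + u) ^ 3 * (1 - X) := by
    have hc : 1 + X + 105 / 100 * X ^ 2 ≤ (1 + u) ^ 3 := by
      have e : (1 + u) ^ 3 = 1 + 3 * u + 3 * u ^ 2 + u ^ 3 := by ring
      rw [e]
      have hu2 : (X / 3) ^ 2 ≤ u ^ 2 := pow_le_pow_left₀ (by positivity) (by
        rw [hu]; nlinarith [sq_nonneg X]) 2
      have hu3 : 0 ≤ u ^ 3 := by positivity
      have : 3 * u = X + 72 / 100 * X ^ 2 := by rw [hu]; ring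
      nlinarith [sq_nonneg X]
    have hd : 1 ≤ (1 + X + 105 / 100 * X ^ 2) * (1 - X) := by
      have : (1 + X + 105 / 100 * X ^ 2) * (1 - X) = 1 + X ^ 2 * (5 / 100 - 105 / 100 * X) := by
        ring
      rw [this]
      have : 0 ≤ X ^ 2 * (5 / 100 - 105 / 100 * X) :=
        mul_nonneg (sq_nonneg X) (by linarith)
      linarith
    exact hd.trans (mul_le_mul_of_nonneg_right hc (by linarith))
  linarith

/-- bounds for `r` -/
theorem rbd : RBd := by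
  intro r s d1 d2 d3 w1 w2 w3 hb hr
  obtain ⟨he, hf, hg⟩ := cbd d1 d2 d3 w1 w2 w3 hb
  have hQ := (l1_e d1 d2 d3 hb.sum hb.hd1 hb.hd2 hb.hd3).2
  have hW := l1_W w1 w2 w3 hb.hw1 hb.hw2 hb.hw3
  have hr0 := hr.nn
  have hrr := hr.hr
  have hX : dx d1 d2 d3 w1 w2 w3 = sq3 d1 d2 d3 / 2 + sq3 w1 w2 w3 - d1 * d2 * d3 -
      2 * (w1 * w2 * w3) + fdw d1 d2 d3 w1 w2 w3 := by
    unfold dx sq3 fdw
    ring
  have hQ0 : 0 ≤ sq3 d1 d2 d3 := by unfold sq3; positivity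
  have hW0 : 0 ≤ sq3 w1 w2 w3 := by unfold sq3; positivity
  obtain ⟨he1, he2⟩ := abs_le.mp he
  obtain ⟨hf1, hf2⟩ := abs_le.mp hf
  obtain ⟨hg1, hg2⟩ := abs_le.mp hg
  generalize dx d1 d2 d3 w1 w2 w3 = X at *
  generalize sq3 d1 d2 d3 = Q at *
  generalize sq3 w1 w2 w3 = W at *
  generalize d1 * d2 * d3 = e at *
  generalize w1 * w2 * w3 = g at *
  generalize fdw d1 d2 d3 w1 w2 w3 = f at *
  have hX0 : 0 ≤ X := by linarith
  have hXu : X ≤ 311 / 600 * Q + 347 / 300 * W := by linarith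
  have hXm : X ≤ 2955 / 100000 := by linarith
  have h1 : r ≤ X / 3 + 24 / 100 * X ^ 2 := l1_cube X r hX0 (by linarith) hr0 hrr
  have h2 : X ^ 2 ≤ 6502 / 1000000 * Q + 48685 / 1000000 * W := by
    have a1 : X ^ 2 ≤ (311 / 600 * Q + 347 / 300 * W) ^ 2 := pow_le_pow_left₀ hX0 hXu 2
    have a2 : Q * Q ≤ 242 / 10000 * Q := mul_le_mul_of_nonneg_right hQ hQ0
    have a3 : Q * W ≤ 242 / 10000 * W := mul_le_mul_of_nonneg_right hQ hW0
    have a4 : W * W ≤ 147 / 10000 * W := mul_le_mul_of_nonneg_right hW hW0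
    have a5 : (311 / 600 * Q + 347 / 300 * W) ^ 2 =
        (311 / 600) ^ 2 * (Q * Q) + 2 * (311 / 600) * (347 / 300) * (Q * W) +
          (347 / 300) ^ 2 * (W * W) := by ring
    rw [a5] at a1
    linarith
  have h3 : X ^ 2 ≤ 2955 / 100000 * X := by
    rw [pow_two]
    exact mul_le_mul_of_nonneg_right hXm hX0
  refine ⟨hX0, h1, h2, ?_, ?_⟩
  · linarith
  · linarith

end Pool.Agent.H999.Ep3
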