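import Pool.Agent.H999.Ep3.LBase

set_option autoImplicit false

open Matrix

namespace Pool.Agent.H999.Ep3

open Pool.Agent.K1H99.FCC (N0 rv nsq qf af dt PD rad Fp Qm pp tot al be sd)
open Pool.Agent.H999.Theta3 (Th RF RB Bp bb psi dx)

theorem l2_core (Q W e f g X r s q : ℝ) (hq : q = Q / 2 + W) (hX : X = q - e - 2 * g + f)
    (hQ0 : 0 ≤ Q) (hW0 : 0 ≤ W) (hQ : Q ≤ 242 / 10000) (hW : W ≤ 147 / 10000)
    (he : |e| ≤ 11 / 600 * Q) (hf : |f| ≤ 11 / 100 * W) (hg : |g| ≤ 7 / 300 * W)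
    (hr0 : 0 ≤ r) (hr3 : (1 + r) ^ 3 * (1 - X) = 1) (hs : 1 + s = (1 - q / 3) * (1 + r) ^ 2)
    (hX0 : 0 ≤ X) (hr1 : r ≤ X / 3 + 24 / 100 * X ^ 2) :
    0 ≤ s ∧ s ≤ q / 3 + 2 / 3 * (f - e - 2 * g) + 41 / 100 * X ^ 2 ∧
    s ≤ 18517 / 100000 * Q + 45179 / 100000 * W ∧ s ≤ 1113 / 100000 := by
  obtain ⟨he1, he2⟩ := abs_le.1 he
  obtain ⟨hf1, hf2⟩ := abs_le.1 hf
  obtain ⟨hg1, hg2⟩ := abs_le.1 hg
  have hXu : X ≤ 311 / 600 * Q + 347 / 300 * W := by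
    rw [hX, hq]; linarith
  have hXl : 8 / 10 * q ≤ X := by
    rw [hX, hq]; linarith
  have hqX : 85 / 100 * X ≤ q := by
    have : 85 / 100 * X ≤ 85 / 100 * (311 / 600 * Q + 347 / 300 * W) := by linarith
    rw [hq]; linarith
  have hXc : X ≤ 311 / 600 * (242 / 10000) + 347 / 300 * (147 / 10000) := by linarith
  have hq0 : 0 ≤ q := by rw [hq]; linarith
  have hrX : X / 3 ≤ r := by
    by_contra hcon
    push Not at hcon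
    have h1 : (1 + r) ^ 3 < (1 + X / 3) ^ 3 := by
      apply pow_lt_pow_left₀ (by linarith) (by linarith) (by norm_num)
    have h2 : (0 : ℝ) < 1 - X := by linarith
    have h3 : (1 + r) ^ 3 * (1 - X) < (1 + X / 3) ^ 3 * (1 - X) := mul_lt_mul_of_pos_right h1 h2
    have h4 : (1 + X / 3) ^ 3 * (1 - X) ≤ 1 := by
      have : (1 + X / 3) ^ 3 * (1 - X) = 1 - (2 / 3 * X ^ 2 + 8 / 27 * X ^ 3 + 1 / 27 * X ^ 4) := by ring
      rw [this]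
      have : 0 ≤ 2 / 3 * X ^ 2 + 8 / 27 * X ^ 3 + 1 / 27 * X ^ 4 := by positivity
      linarith
    linarith
  have hs' : s = 2 * r + r ^ 2 - q / 3 - 2 / 3 * (q * r) - 1 / 3 * (q * r ^ 2) := by linear_combination hs
  have hr2 : r ≤ 34043 / 100000 * X := by
    have : X ^ 2 ≤ (29547 / 1000000) * X := by
      rw [pow_two]; exact mul_le_mul_of_nonneg_right (by linarith) hX0
    linarith
  have hqr : 85 / 300 * X ^ 2 ≤ q * r := by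
    have h1 : (85 / 100 * X) * (X / 3) ≤ q * r := mul_le_mul hqX hrX (by linarith) hq0
    linarith
  have hrr : r ^ 2 ≤ (34043 / 100000) ^ 2 * X ^ 2 := by
    rw [← mul_pow]; exact pow_le_pow_left₀ hr0 hr2 2
  have hX2 : 0 ≤ X ^ 2 := sq_nonneg X
  have hB : s ≤ q / 3 + 2 / 3 * (f - e - 2 * g) + 41 / 100 * X ^ 2 := by
    have h1 : 0 ≤ q * r ^ 2 := by positivity
    have h2 : X = q + (f - e - 2 * g) := by rw [hX]; ring
    have h3 : 2 / 3 * (f - e - 2 * g) = 2 / 3 * X - 2 / 3 * q := by rw [h2]; ring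
    rw [hs', h3]
    nlinarith
  have hC : s ≤ 18517 / 100000 * Q + 45179 / 100000 * W := by
    have h1 : X ^ 2 ≤ (311 / 600 * (242 / 10000) + 347 / 300 * (147 / 10000)) *
        (311 / 600 * Q + 347 / 300 * W) := by
      rw [pow_two]; exact mul_le_mul hXc hXu hX0 (by norm_num)
    rw [hq] at hB
    linarith
  refine ⟨?_, hB, hC, by linarith⟩
  have h1 : q * r ≤ q * (35 / 1000) := mul_le_mul_of_nonneg_left (by linarith) hq0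
  have h2 : q * r ^ 2 ≤ r ^ 2 := by
    have : q ≤ 1 := by rw [hq]; linarith
    exact mul_le_of_le_one_left (sq_nonneg r) this
  have h3 : 0 ≤ r ^ 2 := sq_nonneg r
  rw [hs']
  linarith

theorem l2_Q (d1 d2 d3 : ℝ) (h : d1 + d2 + d3 = 0) (b : ℝ) (h1 : |d1| ≤ b) (h2 : |d2| ≤ b) (h3 : |d3| ≤ b) :
    d1 ^ 2 + d2 ^ 2 + d3 ^ 2 ≤ 2 * b ^ 2 := by
  have e1 : d1 ^ 2 ≤ b ^ 2 := sq_le_sq' (abs_le.1 h1).1 (abs_le.1 h1).2
  have e2 : d2 ^ 2 ≤ b ^ 2 := sq_le_sq' (abs_le.1 h2).1 (abs_le.1 h2).2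
  have e3 : d3 ^ 2 ≤ b ^ 2 := sq_le_sq' (abs_le.1 h3).1 (abs_le.1 h3).2
  have f3 : d3 = -(d1 + d2) := by linarith
  subst f3
  rcases le_total 0 (d1 * d2) with h4 | h4
  · nlinarith
  · rcases le_total 0 (d1 * (-(d1 + d2))) with h5 | h5
    · nlinarith
    · nlinarith

/-- bounds for `s` -/
theorem sbd (h : RBd) (hc : CBd) : SBd := by
  intro r s d1 d2 d3 w1 w2 w3 hB hR
  obtain ⟨hX0, hr1, -, -, -⟩ := h r s d1 d2 d3 w1 w2 w3 hB hR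
  obtain ⟨he, hf, hg⟩ := hc d1 d2 d3 w1 w2 w3 hB
  have hQ : sq3 d1 d2 d3 ≤ 242 / 10000 := by
    have h1 := l2_Q d1 d2 d3 hB.sum (11 / 100) hB.hd1 hB.hd2 hB.hd3
    unfold sq3
    linarith
  have hW : sq3 w1 w2 w3 ≤ 147 / 10000 := by
    have e1 : w1 ^ 2 ≤ (7 / 100) ^ 2 := sq_le_sq' (abs_le.1 hB.hw1).1 (abs_le.1 hB.hw1).2
    have e2 : w2 ^ 2 ≤ (7 / 100) ^ 2 := sq_le_sq' (abs_le.1 hB.hw2).1 (abs_le.1 hB.hw2).2
    have e3 : w3 ^ 2 ≤ (7 / 100) ^ 2 := sq_le_sq' (abs_le.1 hB.hw3).1 (abs_le.1 hB.hw3).2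
    unfold sq3
    linarith
  have hQ0 : 0 ≤ sq3 d1 d2 d3 := by unfold sq3; positivity
  have hW0 : 0 ≤ sq3 w1 w2 w3 := by unfold sq3; positivity
  have hdx : dx d1 d2 d3 w1 w2 w3 = (sq3 d1 d2 d3 / 2 + sq3 w1 w2 w3) - d1 * d2 * d3 -
      2 * (w1 * w2 * w3) + fdw d1 d2 d3 w1 w2 w3 := by
    unfold dx sq3 fdw
    ring
  exact l2_core (sq3 d1 d2 d3) (sq3 w1 w2 w3) (d1 * d2 * d3) (fdw d1 d2 d3 w1 w2 w3) (w1 * w2 * w3)
    (dx d1 d2 d3 w1 w2 w3) r s (sq3 d1 d2 d3 / 2 + sq3 w1 w2 w3) rfl hdx hQ0 hW0 hQ hW he hf hg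
    hR.nn hR.hr hR.hs hX0 hr1

end Pool.Agent.H999.Ep3
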