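import Pool.Agent.H999.Ep3.LBase

set_option autoImplicit false

open Matrix

namespace Pool.Agent.H999.Ep3

open Pool.Agent.K1H99.FCC (N0 rv nsq qf af dt PD rad Fp Qm pp tot al be sd)
open Pool.Agent.H999.Theta3 (Th RF RB Bp bb psi dx)

theorem l8_exp_lo : Real.exp (-(12467418 / 10000000 : ℝ)) ≤ 2876 / 10000 := by
  have h := Real.sum_le_exp_of_nonneg (x := (12467418 / 10000000 : ℝ)) (by norm_num) 8
  rw [Real.exp_neg]
  have h2 : (34775 / 10000 : ℝ) ≤ Real.exp (12467418 / 10000000 : ℝ) := by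
    refine le_trans ?_ h
    simp only [Finset.sum_range_succ, Finset.sum_range_zero, Nat.factorial]
    norm_num
  have h3 : (Real.exp (12467418 / 10000000 : ℝ))⁻¹ ≤ (34775 / 10000 : ℝ)⁻¹ :=
    inv_anti₀ (by norm_num) h2
  refine h3.trans ?_
  norm_num

theorem l8_tau (τ : ℝ) (h : 3958 / 1000 ≤ τ) :
    τ ^ 2 * (2 * τ - 199 / 100) * Real.exp (-τ) ≤ 122 / 10 := by
  have h0 : 0 ≤ τ := by linarith
  have h1 := Real.sum_le_exp_of_nonneg h0 5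
  have h2 : τ ^ 4 / 24 ≤ Real.exp τ := by
    refine le_trans ?_ h1
    simp only [Finset.sum_range_succ, Finset.sum_range_zero, Nat.factorial]
    norm_num
    positivity
  have h3 : 0 < Real.exp τ := Real.exp_pos τ
  rw [Real.exp_neg, ← div_eq_mul_inv, div_le_iff₀ h3]
  have h4 : τ ^ 2 * (2 * τ - 199 / 100) ≤ 2 * τ ^ 3 := by nlinarith [sq_nonneg τ]
  have h5 : 2 * τ ^ 3 ≤ 122 / 10 * (τ ^ 4 / 24) := by
    have : 0 ≤ τ ^ 3 := by positivity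
    nlinarith [mul_nonneg this (sub_nonneg.mpr h)]
  linarith

/-- the first parts -/
theorem l8_F (τ k3 : ℝ) (h : 3958 / 1000 ≤ τ) (h' : τ ≤ 127 / 10)
    (hk : 1 - (τ - 298 / 100) * (101 / 10000) ≤ k3) (hk' : k3 ≤ 1) :
    0 ≤ FW τ - 1 / 5 - 11 / 100 * FF τ k3 - 7 / 300 * FG τ ∧
    0 ≤ FW τ - 1 / 5 - 11 / 100 * FF τ k3 + 7 / 300 * FG τ ∧
    0 ≤ FW τ - 1 / 5 + 11 / 100 * FF τ k3 - 7 / 300 * FG τ ∧
    0 ≤ FW τ - 1 / 5 + 11 / 100 * FF τ k3 + 7 / 300 * FG τ := by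
  have h0 : 0 ≤ τ := by linarith
  have hT := l8_tau τ h
  have hk2 : 9 / 10 ≤ k3 := by linarith
  have e1 : k3 * τ ^ 3 ≤ τ ^ 3 := by
    have : 0 ≤ τ ^ 3 := by positivity
    nlinarith
  have e2 : 9 / 10 * τ ^ 3 ≤ k3 * τ ^ 3 := by
    have : 0 ≤ τ ^ 3 := by positivity
    nlinarith
  have e3 : 0 ≤ τ * ((τ - 3958 / 1000) * (127 / 10 - τ)) :=
    mul_nonneg h0 (mul_nonneg (by linarith) (by linarith))
  have e4 : 0 ≤ (τ - 3958 / 1000) * (127 / 10 - τ) := mul_nonneg (by linarith) (by linarith)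
  have e5 : (FW τ) = 2 * τ ^ 2 - 12258 / 1000 * τ / 3 - 2489 / 100000 * τ ^ 2 * (τ - 199 / 100) -
      382 / 10000 * (τ ^ 2 * (2 * τ - 199 / 100) * Real.exp (-τ)) - 14323 / 100000 * τ := by
    unfold FW; ring
  rw [e5]
  unfold FF FG
  set T := τ ^ 2 * (2 * τ - 199 / 100) * Real.exp (-τ) with hTdef
  refine ⟨?_, ?_, ?_, ?_⟩
  · nlinarith
  · nlinarith
  · nlinarith
  · nlinarith

/-- the second parts -/
theorem l8_G (υ E C : ℝ) (h : 12467418 / 10000000 ≤ υ) (h' : υ ≤ 4) (hE : 0 ≤ E)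
    (hE' : E ≤ 2876 / 10000) (hC : 8 ≤ C) (hC' : C ≤ 1037 / 100) (BW' BF' BG' : ℝ)
    (eW : BW' = 16 * υ ^ 2 * (1 - 1454 / 10000 * υ) -
      16 * E * υ ^ 2 * (1297 / 100000 + 133 / 10000 * (4 * υ - 199 / 100)) - 10599 / 10000 * C * υ)
    (eF : BF' = 32 * υ ^ 2 * (1 - 1454 / 10000 * υ) +
      32 * E * υ ^ 2 * (1 - 804 / 10000 * υ) - 2 * C * υ)
    (eG : BG' = -96 * υ ^ 2 * (1 - 1454 / 10000 * υ) + 4 * C * υ) :
    0 ≤ BW' - 11 / 100 * BF' - 7 / 300 * BG' ∧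
    0 ≤ BW' - 11 / 100 * BF' + 7 / 300 * BG' ∧
    0 ≤ BW' + 11 / 100 * BF' - 7 / 300 * BG' ∧
    0 ≤ BW' + 11 / 100 * BF' + 7 / 300 * BG' := by
  have h0 : 0 ≤ υ := by linarith
  have a1 : 0 ≤ υ ^ 2 * (2876 / 10000 - E) := mul_nonneg (by positivity) (by linarith)
  have a2 : 0 ≤ υ ^ 3 * (2876 / 10000 - E) := mul_nonneg (by positivity) (by linarith)
  have a3 : 0 ≤ υ ^ 2 * E := mul_nonneg (by positivity) hE
  have a4 : 0 ≤ υ ^ 3 * E := mul_nonneg (by positivity) hE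
  have a5 : 0 ≤ υ * (1037 / 100 - C) := mul_nonneg h0 (by linarith)
  have a6 : 0 ≤ υ * (C - 8) := mul_nonneg h0 (by linarith)
  have a7 : 0 ≤ υ * ((υ - 12467418 / 10000000) * (4 - υ)) :=
    mul_nonneg h0 (mul_nonneg (by linarith) (by linarith))
  have a8 : 0 ≤ υ * (υ - 12467418 / 10000000) := mul_nonneg h0 (by linarith)
  have a9 : 0 ≤ υ * (4 - υ) := mul_nonneg h0 (by linarith)
  have b1 : υ ^ 3 * E ≤ 4 * (υ ^ 2 * E) := by
    have := mul_nonneg (mul_nonneg (mul_nonneg h0 h0) hE) (sub_nonneg.mpr h')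
    nlinarith
  rw [eW, eF, eG]
  refine ⟨?_, ?_, ?_, ?_⟩
  · nlinarith
  · nlinarith
  · nlinarith
  · nlinarith

theorem l8_abs (a b R : ℝ) (h1 : 0 ≤ R - a - b) (h2 : 0 ≤ R - a + b) (h3 : 0 ≤ R + a - b)
    (h4 : 0 ≤ R + a + b) : |a| + |b| ≤ R := by
  rcases abs_cases a with h | h <;> rcases abs_cases b with h' | h' <;> linarith

/-- the numerical inequality for the second coefficient -/
theorem numW : NumW := by
  intro t k3 ht ht' hk hk'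
  obtain ⟨ha1, ha2⟩ := Pool.Agent.K1H99.FCC.al_bounds
  obtain ⟨hb1, hb2⟩ := Pool.Agent.K1H99.FCC.be_bounds
  have hτ1 : 3958 / 1000 ≤ 2 * al * t := by nlinarith
  have hτ2 : 2 * al * t ≤ 127 / 10 := by nlinarith
  have hυ1 : 12467418 / 10000000 ≤ be * t := by nlinarith
  have hυ2 : be * t ≤ 4 := by nlinarith
  obtain ⟨f1, f2, f3, f4⟩ := l8_F (2 * al * t) k3 hτ1 hτ2 hk hk'
  have hE : 0 ≤ Real.exp (-(be * t)) := (Real.exp_pos _).le
  have hE' : Real.exp (-(be * t)) ≤ 2876 / 10000 :=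
    le_trans (Real.exp_le_exp.mpr (by linarith)) l8_exp_lo
  have hE5 : Real.exp (-(be * t)) ^ 5 ≤ (2876 / 10000) ^ 5 := pow_le_pow_left₀ hE hE' 5
  have hE50 : 0 ≤ Real.exp (-(be * t)) ^ 5 := pow_nonneg hE 5
  have hC : 8 ≤ CB t := by
    unfold CB
    linarith
  have hC' : CB t ≤ 1037 / 100 := by
    unfold CB
    norm_num at hE5
    linarith
  obtain ⟨g1, g2, g3, g4⟩ := l8_G (be * t) (Real.exp (-(be * t))) (CB t) hυ1 hυ2 hE hE' hC hC'
    (BW (be * t) (CB t)) (BF (be * t) (CB t)) (BG (be * t) (CB t)) rfl rfl rfl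
  have hL : 0 ≤ LA t := (Real.exp_pos _).le
  have m1 := mul_nonneg hL g1
  have m2 := mul_nonneg hL g2
  have m3 := mul_nonneg hL g3
  have m4 := mul_nonneg hL g4
  have key := l8_abs (11 / 100 * (FF (2 * al * t) k3 + LA t * BF (be * t) (CB t)))
    (7 / 300 * (FG (2 * al * t) + LA t * BG (be * t) (CB t)))
    (FW (2 * al * t) + LA t * BW (be * t) (CB t) - 1 / 5) (by nlinarith) (by nlinarith)
    (by nlinarith) (by nlinarith)
  rw [abs_mul, abs_mul, abs_of_pos (show (0 : ℝ) < 11 / 100 by norm_num),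
    abs_of_pos (show (0 : ℝ) < 7 / 300 by norm_num)] at key
  linarith

end Pool.Agent.H999.Ep3
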