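import Pool.Agent.H999.Ep3.Base
import Pool.Agent.H999.Theta3.Lines

set_option autoImplicit false

open Matrix

namespace Pool.Agent.H999.Ep3

open Pool.Agent.K1H99.FCC (N0 rv nsq qf af dt PD rad Fp Qm pp tot al be sd)
open Pool.Agent.H999.Theta3 (W Th RF RB Bp bb tF InF InB2 InB sc wv Val ZZ Line psi dx inF inB2 leafB
  rent lo RFb frc frz detN mid vt)

/-- comparison of the entries number `0, ..., f - 1` of the two tables -/
def g1_chk (T L : Nat) : Nat → Bool
  | 0 => true
  | f + 1 => Nat.beq (Nat.land (Nat.shiftRight L (Nat.mul 128 f)) 79228162514264337593543950335)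
      (Nat.land (Nat.shiftRight T (Nat.mul 96 f)) 79228162514264337593543950335) && g1_chk T L f

set_option maxRecDepth 30000 in
theorem g1_tab : g1_chk Pool.Agent.H999.Theta3.tab.T tabL 1024 = true := by
  decide +kernel

theorem g1_sound (T L : Nat) : ∀ f : Nat, g1_chk T L f = true → ∀ k < f,
    Nat.land (Nat.shiftRight L (Nat.mul 128 k)) 79228162514264337593543950335 =
      Nat.land (Nat.shiftRight T (Nat.mul 96 k)) 79228162514264337593543950335 := by
  intro f
  induction f with
  | zero => intro _ k hk; omega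
  | succ f ih =>
    intro h k hk
    unfold g1_chk at h
    rw [Bool.and_eq_true] at h
    rcases Nat.eq_or_lt_of_le (Nat.le_of_lt_succ hk) with h1 | h1
    · subst h1
      exact Nat.eq_of_beq_eq_true h.1
    · exact ih h.2 k h1

theorem g1_land (x n : Nat) : Nat.land x (2 ^ n - 1) = x % 2 ^ n := Nat.and_two_pow_sub_one_eq_mod x n

/-- the shift amount is a multiple of `128` -/
theorem g1_shift (x : Nat) : ∃ m, Nat.land x 72057594037927808 = 128 * m := by
  have h : (x &&& 72057594037927808) % 2 ^ 7 = 0 := by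
    rw [Nat.and_mod_two_pow]
    norm_num
  exact ⟨(x &&& 72057594037927808) / 2 ^ 7, by
    have := Nat.div_add_mod (x &&& 72057594037927808) (2 ^ 7)
    rw [h] at this
    exact this.symm⟩

theorem g1_lk (Q s : Nat) : ∃ k, k ≤ 1023 ∧
    lk Q s = Pool.Agent.H999.Theta3.tab.T / 2 ^ (96 * k) % 2 ^ 96 := by
  obtain ⟨m, hm⟩ := g1_shift (Nat.shiftRight Q s)
  refine ⟨1023 - m, by omega, ?_⟩
  have h1 : Nat.sub 130944 (Nat.land (Nat.shiftRight Q s) 72057594037927808) =
      Nat.mul 128 (1023 - m) := by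
    rw [hm]
    show 130944 - 128 * m = 128 * (1023 - m)
    omega
  unfold lk
  rw [h1, g1_sound _ _ 1024 g1_tab (1023 - m) (by omega)]
  have h2 := g1_land (Nat.shiftRight Pool.Agent.H999.Theta3.tab.T (Nat.mul 96 (1023 - m))) 96
  have h3 : (79228162514264337593543950335 : Nat) = 2 ^ 96 - 1 := by norm_num
  rw [h3, h2]
  congr 1
  exact Nat.shiftRight_eq_div_pow _ _

/-- every value of the look-up in the table is a valid line -/
theorem lk_ok : LKok := by
  intro Q s
  obtain ⟨k, hk, e⟩ := g1_lk Q s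
  have h := Pool.Agent.H999.Theta3.linesOK_tab k hk
  have h2 : lk Q s % 2 ^ 48 = Pool.Agent.H999.Theta3.tab.T / 2 ^ (96 * k) % 2 ^ 48 := by
    rw [e]
    exact Nat.mod_mod_of_dvd _ (pow_dvd_pow 2 (by norm_num))
  rw [h2, e]
  exact h

end Pool.Agent.H999.Ep3
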