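import Pool.Agent.H999.Ep3.Cert.Top

/-!
# The certificate covers the reduced cone
-/

set_option autoImplicit false

namespace Pool.Agent.H999.Ep3

open Pool.Agent.K1H99.FCC (N0 rv nsq qf af dt PD rad Fp Qm pp tot al be sd)
open Pool.Agent.H999.Theta3 (W wv sc)

lemma root0 (hTd : TdOK) {s1 s2 s3 e d1 d2 : ℝ}
    (h0 : d1 ≤ s1) (h1 : s2 ≤ d1) (h2 : d2 ≤ s2) (h3 : s3 ≤ d2) (h4 : e ≤ s3) (h5 : 0 ≤ e)
    (hp : PD ![s1 + d1, s2 + d2, s3 + e, s3 - e, s2 - d2, s1 - d1])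
    (hr : 1 ≤ rad ![s1 + d1, s2 + d2, s3 + e, s3 - e, s2 - d2, s1 - d1])
    (hr2 : rad ![s1 + d1, s2 + d2, s3 + e, s3 - e, s2 - d2, s1 - d1] ≤ 819 / 256) :
    Con ![s1 + d1, s2 + d2, s3 + e, s3 - e, s2 - d2, s1 - d1] := by
  have hg := tp0 hTd
  have hl : ∀ i, 0 ≤ (![(s1 - d1) / 6442450944, (d1 - s2) / 6442450944, (s2 - d2) / 3221225472, (d2 - s3) / 3221225472, (s3 - e) / 2147483648, e / 2147483648] : Fin 6 → ℝ) i := by
    intro i
    fin_cases i <;> simp only [Fin.zero_eta, Fin.mk_one, Fin.reduceFinMk, Matrix.cons_val] <;>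
      first | exact div_nonneg (sub_nonneg.2 ‹_›) (by norm_num) | exact div_nonneg ‹_› (by norm_num)
  have he : ∑ i, (![(s1 - d1) / 6442450944, (d1 - s2) / 6442450944, (s2 - d2) / 3221225472, (d2 - s3) / 3221225472, (s3 - e) / 2147483648, e / 2147483648] : Fin 6 → ℝ) i • wv ((![w0, w6, w2, w3, w4, w5] : Fin 6 → W) i) =
      ![s1 + d1, s2 + d2, s3 + e, s3 - e, s2 - d2, s1 - d1] := by
    funext k
    fin_cases k <;> simp [Fin.sum_univ_six, wv, w0, w2, w3, w4, w5, w6] <;> ring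
  have h := hg _ hl
  rw [he] at h
  exact h hp (by rw [sc]; norm_num; exact hr) hr2

lemma root1 (hTd : TdOK) {s1 s2 s3 e d1 d2 : ℝ}
    (h0 : d1 ≤ s1) (h1 : s2 ≤ d1) (h2 : d2 ≤ s2) (h3 : s3 ≤ d2) (h4 : e ≤ s3) (h5 : 0 ≤ e)
    (hp : PD ![s1 + d1, s2 + d2, s3 - e, s3 + e, s2 - d2, s1 - d1])
    (hr : 1 ≤ rad ![s1 + d1, s2 + d2, s3 - e, s3 + e, s2 - d2, s1 - d1])
    (hr2 : rad ![s1 + d1, s2 + d2, s3 - e, s3 + e, s2 - d2, s1 - d1] ≤ 819 / 256) :
    Con ![s1 + d1, s2 + d2, s3 - e, s3 + e, s2 - d2, s1 - d1] := by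
  have hg := tp2 hTd
  have hl : ∀ i, 0 ≤ (![(s1 - d1) / 6442450944, (d1 - s2) / 6442450944, (s2 - d2) / 3221225472, (d2 - s3) / 3221225472, (s3 - e) / 2147483648, e / 2147483648] : Fin 6 → ℝ) i := by
    intro i
    fin_cases i <;> simp only [Fin.zero_eta, Fin.mk_one, Fin.reduceFinMk, Matrix.cons_val] <;>
      first | exact div_nonneg (sub_nonneg.2 ‹_›) (by norm_num) | exact div_nonneg ‹_› (by norm_num)
  have he : ∑ i, (![(s1 - d1) / 6442450944, (d1 - s2) / 6442450944, (s2 - d2) / 3221225472, (d2 - s3) / 3221225472, (s3 - e) / 2147483648, e / 2147483648] : Fin 6 → ℝ) i • wv ((![w0, w6, w2, w3, w4, w8] : Fin 6 → W) i) =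
      ![s1 + d1, s2 + d2, s3 - e, s3 + e, s2 - d2, s1 - d1] := by
    funext k
    fin_cases k <;> simp [Fin.sum_univ_six, wv, w0, w2, w3, w4, w6, w8] <;> ring
  have h := hg _ hl
  rw [he] at h
  exact h hp (by rw [sc]; norm_num; exact hr) hr2

lemma root2 (hTd : TdOK) {s1 s2 s3 e d1 d2 : ℝ}
    (h0 : s2 ≤ s1) (h1 : d1 ≤ s2) (h2 : d2 ≤ d1) (h3 : s3 ≤ d2) (h4 : e ≤ s3) (h5 : 0 ≤ e)
    (hp : PD ![s1 + d1, s2 + d2, s3 + e, s3 - e, s2 - d2, s1 - d1])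
    (hr : 1 ≤ rad ![s1 + d1, s2 + d2, s3 + e, s3 - e, s2 - d2, s1 - d1])
    (hr2 : rad ![s1 + d1, s2 + d2, s3 + e, s3 - e, s2 - d2, s1 - d1] ≤ 819 / 256) :
    Con ![s1 + d1, s2 + d2, s3 + e, s3 - e, s2 - d2, s1 - d1] := by
  have hg := tp9 hTd
  have hl : ∀ i, 0 ≤ (![(s1 - s2) / 6442450944, (s2 - d1) / 3221225472, (d1 - d2) / 3221225472, (d2 - s3) / 3221225472, (s3 - e) / 2147483648, e / 2147483648] : Fin 6 → ℝ) i := by
    intro i
    fin_cases i <;> simp only [Fin.zero_eta, Fin.mk_one, Fin.reduceFinMk, Matrix.cons_val] <;>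
      first | exact div_nonneg (sub_nonneg.2 ‹_›) (by norm_num) | exact div_nonneg ‹_› (by norm_num)
  have he : ∑ i, (![(s1 - s2) / 6442450944, (s2 - d1) / 3221225472, (d1 - d2) / 3221225472, (d2 - s3) / 3221225472, (s3 - e) / 2147483648, e / 2147483648] : Fin 6 → ℝ) i • wv ((![w0, w12, w2, w3, w4, w5] : Fin 6 → W) i) =
      ![s1 + d1, s2 + d2, s3 + e, s3 - e, s2 - d2, s1 - d1] := by
    funext k
    fin_cases k <;> simp [Fin.sum_univ_six, wv, w0, w12, w2, w3, w4, w5] <;> ring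
  have h := hg _ hl
  rw [he] at h
  exact h hp (by rw [sc]; norm_num; exact hr) hr2

lemma root3 (hTd : TdOK) {s1 s2 s3 e d1 d2 : ℝ}
    (h0 : s2 ≤ s1) (h1 : d1 ≤ s2) (h2 : d2 ≤ d1) (h3 : s3 ≤ d2) (h4 : e ≤ s3) (h5 : 0 ≤ e)
    (hp : PD ![s1 + d1, s2 + d2, s3 - e, s3 + e, s2 - d2, s1 - d1])
    (hr : 1 ≤ rad ![s1 + d1, s2 + d2, s3 - e, s3 + e, s2 - d2, s1 - d1])
    (hr2 : rad ![s1 + d1, s2 + d2, s3 - e, s3 + e, s2 - d2, s1 - d1] ≤ 819 / 256) :
    Con ![s1 + d1, s2 + d2, s3 - e, s3 + e, s2 - d2, s1 - d1] := by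
  have hg := tp12 hTd
  have hl : ∀ i, 0 ≤ (![(s1 - s2) / 6442450944, (s2 - d1) / 3221225472, (d1 - d2) / 3221225472, (d2 - s3) / 3221225472, (s3 - e) / 2147483648, e / 2147483648] : Fin 6 → ℝ) i := by
    intro i
    fin_cases i <;> simp only [Fin.zero_eta, Fin.mk_one, Fin.reduceFinMk, Matrix.cons_val] <;>
      first | exact div_nonneg (sub_nonneg.2 ‹_›) (by norm_num) | exact div_nonneg ‹_› (by norm_num)
  have he : ∑ i, (![(s1 - s2) / 6442450944, (s2 - d1) / 3221225472, (d1 - d2) / 3221225472, (d2 - s3) / 3221225472, (s3 - e) / 2147483648, e / 2147483648] : Fin 6 → ℝ) i • wv ((![w0, w12, w2, w3, w4, w8] : Fin 6 → W) i) =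
      ![s1 + d1, s2 + d2, s3 - e, s3 + e, s2 - d2, s1 - d1] := by
    funext k
    fin_cases k <;> simp [Fin.sum_univ_six, wv, w0, w12, w2, w3, w4, w8] <;> ring
  have h := hg _ hl
  rw [he] at h
  exact h hp (by rw [sc]; norm_num; exact hr) hr2

lemma root4 (hTd : TdOK) {s1 s2 s3 e d1 d2 : ℝ}
    (h0 : s2 ≤ s1) (h1 : d2 ≤ s2) (h2 : d1 ≤ d2) (h3 : s3 ≤ d1) (h4 : e ≤ s3) (h5 : 0 ≤ e)
    (hp : PD ![s1 + d1, s2 + d2, s3 + e, s3 - e, s2 - d2, s1 - d1])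
    (hr : 1 ≤ rad ![s1 + d1, s2 + d2, s3 + e, s3 - e, s2 - d2, s1 - d1])
    (hr2 : rad ![s1 + d1, s2 + d2, s3 + e, s3 - e, s2 - d2, s1 - d1] ≤ 819 / 256) :
    Con ![s1 + d1, s2 + d2, s3 + e, s3 - e, s2 - d2, s1 - d1] := by
  have hg := tp19 hTd
  have hl : ∀ i, 0 ≤ (![(s1 - s2) / 6442450944, (s2 - d2) / 3221225472, (d2 - d1) / 3221225472, (d1 - s3) / 3221225472, (s3 - e) / 2147483648, e / 2147483648] : Fin 6 → ℝ) i := by
    intro i
    fin_cases i <;> simp only [Fin.zero_eta, Fin.mk_one, Fin.reduceFinMk, Matrix.cons_val] <;>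
      first | exact div_nonneg (sub_nonneg.2 ‹_›) (by norm_num) | exact div_nonneg ‹_› (by norm_num)
  have he : ∑ i, (![(s1 - s2) / 6442450944, (s2 - d2) / 3221225472, (d2 - d1) / 3221225472, (d1 - s3) / 3221225472, (s3 - e) / 2147483648, e / 2147483648] : Fin 6 → ℝ) i • wv ((![w0, w12, w19, w3, w4, w5] : Fin 6 → W) i) =
      ![s1 + d1, s2 + d2, s3 + e, s3 - e, s2 - d2, s1 - d1] := by
    funext k
    fin_cases k <;> simp [Fin.sum_univ_six, wv, w0, w12, w19, w3, w4, w5] <;> ring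
  have h := hg _ hl
  rw [he] at h
  exact h hp (by rw [sc]; norm_num; exact hr) hr2

lemma root5 (hTd : TdOK) {s1 s2 s3 e d1 d2 : ℝ}
    (h0 : s2 ≤ s1) (h1 : d2 ≤ s2) (h2 : d1 ≤ d2) (h3 : s3 ≤ d1) (h4 : e ≤ s3) (h5 : 0 ≤ e)
    (hp : PD ![s1 + d1, s2 + d2, s3 - e, s3 + e, s2 - d2, s1 - d1])
    (hr : 1 ≤ rad ![s1 + d1, s2 + d2, s3 - e, s3 + e, s2 - d2, s1 - d1])
    (hr2 : rad ![s1 + d1, s2 + d2, s3 - e, s3 + e, s2 - d2, s1 - d1] ≤ 819 / 256) :
    Con ![s1 + d1, s2 + d2, s3 - e, s3 + e, s2 - d2, s1 - d1] := by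
  have hg := tp22 hTd
  have hl : ∀ i, 0 ≤ (![(s1 - s2) / 6442450944, (s2 - d2) / 3221225472, (d2 - d1) / 3221225472, (d1 - s3) / 3221225472, (s3 - e) / 2147483648, e / 2147483648] : Fin 6 → ℝ) i := by
    intro i
    fin_cases i <;> simp only [Fin.zero_eta, Fin.mk_one, Fin.reduceFinMk, Matrix.cons_val] <;>
      first | exact div_nonneg (sub_nonneg.2 ‹_›) (by norm_num) | exact div_nonneg ‹_› (by norm_num)
  have he : ∑ i, (![(s1 - s2) / 6442450944, (s2 - d2) / 3221225472, (d2 - d1) / 3221225472, (d1 - s3) / 3221225472, (s3 - e) / 2147483648, e / 2147483648] : Fin 6 → ℝ) i • wv ((![w0, w12, w19, w3, w4, w8] : Fin 6 → W) i) =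
      ![s1 + d1, s2 + d2, s3 - e, s3 + e, s2 - d2, s1 - d1] := by
    funext k
    fin_cases k <;> simp [Fin.sum_univ_six, wv, w0, w12, w19, w3, w4, w8] <;> ring
  have h := hg _ hl
  rw [he] at h
  exact h hp (by rw [sc]; norm_num; exact hr) hr2

lemma root6 (hTd : TdOK) {s1 s2 s3 e d1 d2 : ℝ}
    (h0 : s2 ≤ s1) (h1 : d2 ≤ s2) (h2 : s3 ≤ d2) (h3 : d1 ≤ s3) (h4 : e ≤ d1) (h5 : 0 ≤ e)
    (hp : PD ![s1 + d1, s2 + d2, s3 + e, s3 - e, s2 - d2, s1 - d1])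
    (hr : 1 ≤ rad ![s1 + d1, s2 + d2, s3 + e, s3 - e, s2 - d2, s1 - d1])
    (hr2 : rad ![s1 + d1, s2 + d2, s3 + e, s3 - e, s2 - d2, s1 - d1] ≤ 819 / 256) :
    Con ![s1 + d1, s2 + d2, s3 + e, s3 - e, s2 - d2, s1 - d1] := by
  have hg := tp26 hTd
  have hl : ∀ i, 0 ≤ (![(s1 - s2) / 6442450944, (s2 - d2) / 3221225472, (d2 - s3) / 3221225472, (s3 - d1) / 2147483648, (d1 - e) / 2147483648, e / 2147483648] : Fin 6 → ℝ) i := by
    intro i
    fin_cases i <;> simp only [Fin.zero_eta, Fin.mk_one, Fin.reduceFinMk, Matrix.cons_val] <;>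
      first | exact div_nonneg (sub_nonneg.2 ‹_›) (by norm_num) | exact div_nonneg ‹_› (by norm_num)
  have he : ∑ i, (![(s1 - s2) / 6442450944, (s2 - d2) / 3221225472, (d2 - s3) / 3221225472, (s3 - d1) / 2147483648, (d1 - e) / 2147483648, e / 2147483648] : Fin 6 → ℝ) i • wv ((![w0, w12, w19, w22, w4, w5] : Fin 6 → W) i) =
      ![s1 + d1, s2 + d2, s3 + e, s3 - e, s2 - d2, s1 - d1] := by
    funext k
    fin_cases k <;> simp [Fin.sum_univ_six, wv, w0, w12, w19, w22, w4, w5] <;> ring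
  have h := hg _ hl
  rw [he] at h
  exact h hp (by rw [sc]; norm_num; exact hr) hr2

lemma root7 (hTd : TdOK) {s1 s2 s3 e d1 d2 : ℝ}
    (h0 : s2 ≤ s1) (h1 : d2 ≤ s2) (h2 : s3 ≤ d2) (h3 : d1 ≤ s3) (h4 : e ≤ d1) (h5 : 0 ≤ e)
    (hp : PD ![s1 + d1, s2 + d2, s3 - e, s3 + e, s2 - d2, s1 - d1])
    (hr : 1 ≤ rad ![s1 + d1, s2 + d2, s3 - e, s3 + e, s2 - d2, s1 - d1])
    (hr2 : rad ![s1 + d1, s2 + d2, s3 - e, s3 + e, s2 - d2, s1 - d1] ≤ 819 / 256) :
    Con ![s1 + d1, s2 + d2, s3 - e, s3 + e, s2 - d2, s1 - d1] := by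
  have hg := tp29 hTd
  have hl : ∀ i, 0 ≤ (![(s1 - s2) / 6442450944, (s2 - d2) / 3221225472, (d2 - s3) / 3221225472, (s3 - d1) / 2147483648, (d1 - e) / 2147483648, e / 2147483648] : Fin 6 → ℝ) i := by
    intro i
    fin_cases i <;> simp only [Fin.zero_eta, Fin.mk_one, Fin.reduceFinMk, Matrix.cons_val] <;>
      first | exact div_nonneg (sub_nonneg.2 ‹_›) (by norm_num) | exact div_nonneg ‹_› (by norm_num)
  have he : ∑ i, (![(s1 - s2) / 6442450944, (s2 - d2) / 3221225472, (d2 - s3) / 3221225472, (s3 - d1) / 2147483648, (d1 - e) / 2147483648, e / 2147483648] : Fin 6 → ℝ) i • wv ((![w0, w12, w19, w22, w4, w8] : Fin 6 → W) i) =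
      ![s1 + d1, s2 + d2, s3 - e, s3 + e, s2 - d2, s1 - d1] := by
    funext k
    fin_cases k <;> simp [Fin.sum_univ_six, wv, w0, w12, w19, w22, w4, w8] <;> ring
  have h := hg _ hl
  rw [he] at h
  exact h hp (by rw [sc]; norm_num; exact hr) hr2

lemma root8 (hTd : TdOK) {s1 s2 s3 e d1 d2 : ℝ}
    (h0 : s2 ≤ s1) (h1 : d2 ≤ s2) (h2 : s3 ≤ d2) (h3 : e ≤ s3) (h4 : d1 ≤ e) (h5 : 0 ≤ d1)
    (hp : PD ![s1 + d1, s2 + d2, s3 + e, s3 - e, s2 - d2, s1 - d1])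
    (hr : 1 ≤ rad ![s1 + d1, s2 + d2, s3 + e, s3 - e, s2 - d2, s1 - d1])
    (hr2 : rad ![s1 + d1, s2 + d2, s3 + e, s3 - e, s2 - d2, s1 - d1] ≤ 819 / 256) :
    Con ![s1 + d1, s2 + d2, s3 + e, s3 - e, s2 - d2, s1 - d1] := by
  have hg := tp36 hTd
  have hl : ∀ i, 0 ≤ (![(s1 - s2) / 6442450944, (s2 - d2) / 3221225472, (d2 - s3) / 3221225472, (s3 - e) / 2147483648, (e - d1) / 2147483648, d1 / 2147483648] : Fin 6 → ℝ) i := by
    intro i
    fin_cases i <;> simp only [Fin.zero_eta, Fin.mk_one, Fin.reduceFinMk, Matrix.cons_val] <;>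
      first | exact div_nonneg (sub_nonneg.2 ‹_›) (by norm_num) | exact div_nonneg ‹_› (by norm_num)
  have he : ∑ i, (![(s1 - s2) / 6442450944, (s2 - d2) / 3221225472, (d2 - s3) / 3221225472, (s3 - e) / 2147483648, (e - d1) / 2147483648, d1 / 2147483648] : Fin 6 → ℝ) i • wv ((![w0, w12, w19, w22, w25, w5] : Fin 6 → W) i) =
      ![s1 + d1, s2 + d2, s3 + e, s3 - e, s2 - d2, s1 - d1] := by
    funext k
    fin_cases k <;> simp [Fin.sum_univ_six, wv, w0, w12, w19, w22, w25, w5] <;> ring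
  have h := hg _ hl
  rw [he] at h
  exact h hp (by rw [sc]; norm_num; exact hr) hr2

lemma root9 (hTd : TdOK) {s1 s2 s3 e d1 d2 : ℝ}
    (h0 : s2 ≤ s1) (h1 : d2 ≤ s2) (h2 : s3 ≤ d2) (h3 : e ≤ s3) (h4 : d1 ≤ e) (h5 : 0 ≤ d1)
    (hp : PD ![s1 + d1, s2 + d2, s3 - e, s3 + e, s2 - d2, s1 - d1])
    (hr : 1 ≤ rad ![s1 + d1, s2 + d2, s3 - e, s3 + e, s2 - d2, s1 - d1])
    (hr2 : rad ![s1 + d1, s2 + d2, s3 - e, s3 + e, s2 - d2, s1 - d1] ≤ 819 / 256) :
    Con ![s1 + d1, s2 + d2, s3 - e, s3 + e, s2 - d2, s1 - d1] := by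
  have hg := tp41 hTd
  have hl : ∀ i, 0 ≤ (![(s1 - s2) / 6442450944, (s2 - d2) / 3221225472, (d2 - s3) / 3221225472, (s3 - e) / 2147483648, (e - d1) / 2147483648, d1 / 2147483648] : Fin 6 → ℝ) i := by
    intro i
    fin_cases i <;> simp only [Fin.zero_eta, Fin.mk_one, Fin.reduceFinMk, Matrix.cons_val] <;>
      first | exact div_nonneg (sub_nonneg.2 ‹_›) (by norm_num) | exact div_nonneg ‹_› (by norm_num)
  have he : ∑ i, (![(s1 - s2) / 6442450944, (s2 - d2) / 3221225472, (d2 - s3) / 3221225472, (s3 - e) / 2147483648, (e - d1) / 2147483648, d1 / 2147483648] : Fin 6 → ℝ) i • wv ((![w0, w12, w19, w22, w28, w8] : Fin 6 → W) i) =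
      ![s1 + d1, s2 + d2, s3 - e, s3 + e, s2 - d2, s1 - d1] := by
    funext k
    fin_cases k <;> simp [Fin.sum_univ_six, wv, w0, w12, w19, w22, w28, w8] <;> ring
  have h := hg _ hl
  rw [he] at h
  exact h hp (by rw [sc]; norm_num; exact hr) hr2

lemma root10 (hTd : TdOK) {s1 s2 s3 e d1 d2 : ℝ}
    (h0 : d1 ≤ s1) (h1 : s2 ≤ d1) (h2 : s3 ≤ s2) (h3 : d2 ≤ s3) (h4 : e ≤ d2) (h5 : 0 ≤ e)
    (hp : PD ![s1 + d1, s2 + d2, s3 + e, s3 - e, s2 - d2, s1 - d1])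
    (hr : 1 ≤ rad ![s1 + d1, s2 + d2, s3 + e, s3 - e, s2 - d2, s1 - d1])
    (hr2 : rad ![s1 + d1, s2 + d2, s3 + e, s3 - e, s2 - d2, s1 - d1] ≤ 819 / 256) :
    Con ![s1 + d1, s2 + d2, s3 + e, s3 - e, s2 - d2, s1 - d1] := by
  have hg := ch52 hTd
  have hl : ∀ i, 0 ≤ (![(s1 - d1) / 6442450944, (d1 - s2) / 6442450944, (s2 - s3) / 3221225472, (s3 - d2) / 2147483648, (d2 - e) / 2147483648, e / 2147483648] : Fin 6 → ℝ) i := by
    intro i
    fin_cases i <;> simp only [Fin.zero_eta, Fin.mk_one, Fin.reduceFinMk, Matrix.cons_val] <;>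
      first | exact div_nonneg (sub_nonneg.2 ‹_›) (by norm_num) | exact div_nonneg ‹_› (by norm_num)
  have he : ∑ i, (![(s1 - d1) / 6442450944, (d1 - s2) / 6442450944, (s2 - s3) / 3221225472, (s3 - d2) / 2147483648, (d2 - e) / 2147483648, e / 2147483648] : Fin 6 → ℝ) i • wv ((![w0, w6, w2, w32, w4, w5] : Fin 6 → W) i) =
      ![s1 + d1, s2 + d2, s3 + e, s3 - e, s2 - d2, s1 - d1] := by
    funext k
    fin_cases k <;> simp [Fin.sum_univ_six, wv, w0, w2, w32, w4, w5, w6] <;> ring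
  have h := hg _ hl
  rw [he] at h
  exact h hp (by rw [sc]; norm_num; exact hr) hr2

lemma root11 (hTd : TdOK) {s1 s2 s3 e d1 d2 : ℝ}
    (h0 : d1 ≤ s1) (h1 : s2 ≤ d1) (h2 : s3 ≤ s2) (h3 : d2 ≤ s3) (h4 : e ≤ d2) (h5 : 0 ≤ e)
    (hp : PD ![s1 + d1, s2 + d2, s3 - e, s3 + e, s2 - d2, s1 - d1])
    (hr : 1 ≤ rad ![s1 + d1, s2 + d2, s3 - e, s3 + e, s2 - d2, s1 - d1])
    (hr2 : rad ![s1 + d1, s2 + d2, s3 - e, s3 + e, s2 - d2, s1 - d1] ≤ 819 / 256) :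
    Con ![s1 + d1, s2 + d2, s3 - e, s3 + e, s2 - d2, s1 - d1] := by
  have hg := tp42 hTd
  have hl : ∀ i, 0 ≤ (![(s1 - d1) / 6442450944, (d1 - s2) / 6442450944, (s2 - s3) / 3221225472, (s3 - d2) / 2147483648, (d2 - e) / 2147483648, e / 2147483648] : Fin 6 → ℝ) i := by
    intro i
    fin_cases i <;> simp only [Fin.zero_eta, Fin.mk_one, Fin.reduceFinMk, Matrix.cons_val] <;>
      first | exact div_nonneg (sub_nonneg.2 ‹_›) (by norm_num) | exact div_nonneg ‹_› (by norm_num)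
  have he : ∑ i, (![(s1 - d1) / 6442450944, (d1 - s2) / 6442450944, (s2 - s3) / 3221225472, (s3 - d2) / 2147483648, (d2 - e) / 2147483648, e / 2147483648] : Fin 6 → ℝ) i • wv ((![w0, w6, w2, w32, w4, w8] : Fin 6 → W) i) =
      ![s1 + d1, s2 + d2, s3 - e, s3 + e, s2 - d2, s1 - d1] := by
    funext k
    fin_cases k <;> simp [Fin.sum_univ_six, wv, w0, w2, w32, w4, w6, w8] <;> ring
  have h := hg _ hl
  rw [he] at h
  exact h hp (by rw [sc]; norm_num; exact hr) hr2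

lemma root12 (hTd : TdOK) {s1 s2 s3 e d1 d2 : ℝ}
    (h0 : s2 ≤ s1) (h1 : d1 ≤ s2) (h2 : s3 ≤ d1) (h3 : d2 ≤ s3) (h4 : e ≤ d2) (h5 : 0 ≤ e)
    (hp : PD ![s1 + d1, s2 + d2, s3 + e, s3 - e, s2 - d2, s1 - d1])
    (hr : 1 ≤ rad ![s1 + d1, s2 + d2, s3 + e, s3 - e, s2 - d2, s1 - d1])
    (hr2 : rad ![s1 + d1, s2 + d2, s3 + e, s3 - e, s2 - d2, s1 - d1] ≤ 819 / 256) :
    Con ![s1 + d1, s2 + d2, s3 + e, s3 - e, s2 - d2, s1 - d1] := by
  have hg := tp45 hTd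
  have hl : ∀ i, 0 ≤ (![(s1 - s2) / 6442450944, (s2 - d1) / 3221225472, (d1 - s3) / 3221225472, (s3 - d2) / 2147483648, (d2 - e) / 2147483648, e / 2147483648] : Fin 6 → ℝ) i := by
    intro i
    fin_cases i <;> simp only [Fin.zero_eta, Fin.mk_one, Fin.reduceFinMk, Matrix.cons_val] <;>
      first | exact div_nonneg (sub_nonneg.2 ‹_›) (by norm_num) | exact div_nonneg ‹_› (by norm_num)
  have he : ∑ i, (![(s1 - s2) / 6442450944, (s2 - d1) / 3221225472, (d1 - s3) / 3221225472, (s3 - d2) / 2147483648, (d2 - e) / 2147483648, e / 2147483648] : Fin 6 → ℝ) i • wv ((![w0, w12, w2, w32, w4, w5] : Fin 6 → W) i) =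
      ![s1 + d1, s2 + d2, s3 + e, s3 - e, s2 - d2, s1 - d1] := by
    funext k
    fin_cases k <;> simp [Fin.sum_univ_six, wv, w0, w12, w2, w32, w4, w5] <;> ring
  have h := hg _ hl
  rw [he] at h
  exact h hp (by rw [sc]; norm_num; exact hr) hr2

lemma root13 (hTd : TdOK) {s1 s2 s3 e d1 d2 : ℝ}
    (h0 : s2 ≤ s1) (h1 : d1 ≤ s2) (h2 : s3 ≤ d1) (h3 : d2 ≤ s3) (h4 : e ≤ d2) (h5 : 0 ≤ e)
    (hp : PD ![s1 + d1, s2 + d2, s3 - e, s3 + e, s2 - d2, s1 - d1])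
    (hr : 1 ≤ rad ![s1 + d1, s2 + d2, s3 - e, s3 + e, s2 - d2, s1 - d1])
    (hr2 : rad ![s1 + d1, s2 + d2, s3 - e, s3 + e, s2 - d2, s1 - d1] ≤ 819 / 256) :
    Con ![s1 + d1, s2 + d2, s3 - e, s3 + e, s2 - d2, s1 - d1] := by
  have hg := tp48 hTd
  have hl : ∀ i, 0 ≤ (![(s1 - s2) / 6442450944, (s2 - d1) / 3221225472, (d1 - s3) / 3221225472, (s3 - d2) / 2147483648, (d2 - e) / 2147483648, e / 2147483648] : Fin 6 → ℝ) i := by
    intro i
    fin_cases i <;> simp only [Fin.zero_eta, Fin.mk_one, Fin.reduceFinMk, Matrix.cons_val] <;>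
      first | exact div_nonneg (sub_nonneg.2 ‹_›) (by norm_num) | exact div_nonneg ‹_› (by norm_num)
  have he : ∑ i, (![(s1 - s2) / 6442450944, (s2 - d1) / 3221225472, (d1 - s3) / 3221225472, (s3 - d2) / 2147483648, (d2 - e) / 2147483648, e / 2147483648] : Fin 6 → ℝ) i • wv ((![w0, w12, w2, w32, w4, w8] : Fin 6 → W) i) =
      ![s1 + d1, s2 + d2, s3 - e, s3 + e, s2 - d2, s1 - d1] := by
    funext k
    fin_cases k <;> simp [Fin.sum_univ_six, wv, w0, w12, w2, w32, w4, w8] <;> ring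
  have h := hg _ hl
  rw [he] at h
  exact h hp (by rw [sc]; norm_num; exact hr) hr2

lemma root14 (hTd : TdOK) {s1 s2 s3 e d1 d2 : ℝ}
    (h0 : s2 ≤ s1) (h1 : s3 ≤ s2) (h2 : d1 ≤ s3) (h3 : d2 ≤ d1) (h4 : e ≤ d2) (h5 : 0 ≤ e)
    (hp : PD ![s1 + d1, s2 + d2, s3 + e, s3 - e, s2 - d2, s1 - d1])
    (hr : 1 ≤ rad ![s1 + d1, s2 + d2, s3 + e, s3 - e, s2 - d2, s1 - d1])
    (hr2 : rad ![s1 + d1, s2 + d2, s3 + e, s3 - e, s2 - d2, s1 - d1] ≤ 819 / 256) :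
    Con ![s1 + d1, s2 + d2, s3 + e, s3 - e, s2 - d2, s1 - d1] := by
  have hg := tp240 hTd
  have hl : ∀ i, 0 ≤ (![(s1 - s2) / 6442450944, (s2 - s3) / 3221225472, (s3 - d1) / 2147483648, (d1 - d2) / 2147483648, (d2 - e) / 2147483648, e / 2147483648] : Fin 6 → ℝ) i := by
    intro i
    fin_cases i <;> simp only [Fin.zero_eta, Fin.mk_one, Fin.reduceFinMk, Matrix.cons_val] <;>
      first | exact div_nonneg (sub_nonneg.2 ‹_›) (by norm_num) | exact div_nonneg ‹_› (by norm_num)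
  have he : ∑ i, (![(s1 - s2) / 6442450944, (s2 - s3) / 3221225472, (s3 - d1) / 2147483648, (d1 - d2) / 2147483648, (d2 - e) / 2147483648, e / 2147483648] : Fin 6 → ℝ) i • wv ((![w0, w12, w34, w32, w4, w5] : Fin 6 → W) i) =
      ![s1 + d1, s2 + d2, s3 + e, s3 - e, s2 - d2, s1 - d1] := by
    funext k
    fin_cases k <;> simp [Fin.sum_univ_six, wv, w0, w12, w32, w34, w4, w5] <;> ring
  have h := hg _ hl
  rw [he] at h
  exact h hp (by rw [sc]; norm_num; exact hr) hr2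

lemma root15 (hTd : TdOK) {s1 s2 s3 e d1 d2 : ℝ}
    (h0 : s2 ≤ s1) (h1 : s3 ≤ s2) (h2 : d1 ≤ s3) (h3 : d2 ≤ d1) (h4 : e ≤ d2) (h5 : 0 ≤ e)
    (hp : PD ![s1 + d1, s2 + d2, s3 - e, s3 + e, s2 - d2, s1 - d1])
    (hr : 1 ≤ rad ![s1 + d1, s2 + d2, s3 - e, s3 + e, s2 - d2, s1 - d1])
    (hr2 : rad ![s1 + d1, s2 + d2, s3 - e, s3 + e, s2 - d2, s1 - d1] ≤ 819 / 256) :
    Con ![s1 + d1, s2 + d2, s3 - e, s3 + e, s2 - d2, s1 - d1] := by
  have hg := tp372 hTd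
  have hl : ∀ i, 0 ≤ (![(s1 - s2) / 6442450944, (s2 - s3) / 3221225472, (s3 - d1) / 2147483648, (d1 - d2) / 2147483648, (d2 - e) / 2147483648, e / 2147483648] : Fin 6 → ℝ) i := by
    intro i
    fin_cases i <;> simp only [Fin.zero_eta, Fin.mk_one, Fin.reduceFinMk, Matrix.cons_val] <;>
      first | exact div_nonneg (sub_nonneg.2 ‹_›) (by norm_num) | exact div_nonneg ‹_› (by norm_num)
  have he : ∑ i, (![(s1 - s2) / 6442450944, (s2 - s3) / 3221225472, (s3 - d1) / 2147483648, (d1 - d2) / 2147483648, (d2 - e) / 2147483648, e / 2147483648] : Fin 6 → ℝ) i • wv ((![w0, w12, w34, w32, w4, w8] : Fin 6 → W) i) =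
      ![s1 + d1, s2 + d2, s3 - e, s3 + e, s2 - d2, s1 - d1] := by
    funext k
    fin_cases k <;> simp [Fin.sum_univ_six, wv, w0, w12, w32, w34, w4, w8] <;> ring
  have h := hg _ hl
  rw [he] at h
  exact h hp (by rw [sc]; norm_num; exact hr) hr2

lemma root16 (hTd : TdOK) {s1 s2 s3 e d1 d2 : ℝ}
    (h0 : s2 ≤ s1) (h1 : s3 ≤ s2) (h2 : d2 ≤ s3) (h3 : d1 ≤ d2) (h4 : e ≤ d1) (h5 : 0 ≤ e)
    (hp : PD ![s1 + d1, s2 + d2, s3 + e, s3 - e, s2 - d2, s1 - d1])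
    (hr : 1 ≤ rad ![s1 + d1, s2 + d2, s3 + e, s3 - e, s2 - d2, s1 - d1])
    (hr2 : rad ![s1 + d1, s2 + d2, s3 + e, s3 - e, s2 - d2, s1 - d1] ≤ 819 / 256) :
    Con ![s1 + d1, s2 + d2, s3 + e, s3 - e, s2 - d2, s1 - d1] := by
  have hg := tp623 hTd
  have hl : ∀ i, 0 ≤ (![(s1 - s2) / 6442450944, (s2 - s3) / 3221225472, (s3 - d2) / 2147483648, (d2 - d1) / 2147483648, (d1 - e) / 2147483648, e / 2147483648] : Fin 6 → ℝ) i := by
    intro i
    fin_cases i <;> simp only [Fin.zero_eta, Fin.mk_one, Fin.reduceFinMk, Matrix.cons_val] <;>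
      first | exact div_nonneg (sub_nonneg.2 ‹_›) (by norm_num) | exact div_nonneg ‹_› (by norm_num)
  have he : ∑ i, (![(s1 - s2) / 6442450944, (s2 - s3) / 3221225472, (s3 - d2) / 2147483648, (d2 - d1) / 2147483648, (d1 - e) / 2147483648, e / 2147483648] : Fin 6 → ℝ) i • wv ((![w0, w12, w34, w22, w4, w5] : Fin 6 → W) i) =
      ![s1 + d1, s2 + d2, s3 + e, s3 - e, s2 - d2, s1 - d1] := by
    funext k
    fin_cases k <;> simp [Fin.sum_univ_six, wv, w0, w12, w22, w34, w4, w5] <;> ring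
  have h := hg _ hl
  rw [he] at h
  exact h hp (by rw [sc]; norm_num; exact hr) hr2

lemma root17 (hTd : TdOK) {s1 s2 s3 e d1 d2 : ℝ}
    (h0 : s2 ≤ s1) (h1 : s3 ≤ s2) (h2 : d2 ≤ s3) (h3 : d1 ≤ d2) (h4 : e ≤ d1) (h5 : 0 ≤ e)
    (hp : PD ![s1 + d1, s2 + d2, s3 - e, s3 + e, s2 - d2, s1 - d1])
    (hr : 1 ≤ rad ![s1 + d1, s2 + d2, s3 - e, s3 + e, s2 - d2, s1 - d1])
    (hr2 : rad ![s1 + d1, s2 + d2, s3 - e, s3 + e, s2 - d2, s1 - d1] ≤ 819 / 256) :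
    Con ![s1 + d1, s2 + d2, s3 - e, s3 + e, s2 - d2, s1 - d1] := by
  have hg := tp795 hTd
  have hl : ∀ i, 0 ≤ (![(s1 - s2) / 6442450944, (s2 - s3) / 3221225472, (s3 - d2) / 2147483648, (d2 - d1) / 2147483648, (d1 - e) / 2147483648, e / 2147483648] : Fin 6 → ℝ) i := by
    intro i
    fin_cases i <;> simp only [Fin.zero_eta, Fin.mk_one, Fin.reduceFinMk, Matrix.cons_val] <;>
      first | exact div_nonneg (sub_nonneg.2 ‹_›) (by norm_num) | exact div_nonneg ‹_› (by norm_num)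
  have he : ∑ i, (![(s1 - s2) / 6442450944, (s2 - s3) / 3221225472, (s3 - d2) / 2147483648, (d2 - d1) / 2147483648, (d1 - e) / 2147483648, e / 2147483648] : Fin 6 → ℝ) i • wv ((![w0, w12, w34, w22, w4, w8] : Fin 6 → W) i) =
      ![s1 + d1, s2 + d2, s3 - e, s3 + e, s2 - d2, s1 - d1] := by
    funext k
    fin_cases k <;> simp [Fin.sum_univ_six, wv, w0, w12, w22, w34, w4, w8] <;> ring
  have h := hg _ hl
  rw [he] at h
  exact h hp (by rw [sc]; norm_num; exact hr) hr2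

lemma root18 (hTd : TdOK) {s1 s2 s3 e d1 d2 : ℝ}
    (h0 : s2 ≤ s1) (h1 : s3 ≤ s2) (h2 : d2 ≤ s3) (h3 : e ≤ d2) (h4 : d1 ≤ e) (h5 : 0 ≤ d1)
    (hp : PD ![s1 + d1, s2 + d2, s3 + e, s3 - e, s2 - d2, s1 - d1])
    (hr : 1 ≤ rad ![s1 + d1, s2 + d2, s3 + e, s3 - e, s2 - d2, s1 - d1])
    (hr2 : rad ![s1 + d1, s2 + d2, s3 + e, s3 - e, s2 - d2, s1 - d1] ≤ 819 / 256) :
    Con ![s1 + d1, s2 + d2, s3 + e, s3 - e, s2 - d2, s1 - d1] := by
  have hg := tp1018 hTd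
  have hl : ∀ i, 0 ≤ (![(s1 - s2) / 6442450944, (s2 - s3) / 3221225472, (s3 - d2) / 2147483648, (d2 - e) / 2147483648, (e - d1) / 2147483648, d1 / 2147483648] : Fin 6 → ℝ) i := by
    intro i
    fin_cases i <;> simp only [Fin.zero_eta, Fin.mk_one, Fin.reduceFinMk, Matrix.cons_val] <;>
      first | exact div_nonneg (sub_nonneg.2 ‹_›) (by norm_num) | exact div_nonneg ‹_› (by norm_num)
  have he : ∑ i, (![(s1 - s2) / 6442450944, (s2 - s3) / 3221225472, (s3 - d2) / 2147483648, (d2 - e) / 2147483648, (e - d1) / 2147483648, d1 / 2147483648] : Fin 6 → ℝ) i • wv ((![w0, w12, w34, w22, w25, w5] : Fin 6 → W) i) =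
      ![s1 + d1, s2 + d2, s3 + e, s3 - e, s2 - d2, s1 - d1] := by
    funext k
    fin_cases k <;> simp [Fin.sum_univ_six, wv, w0, w12, w22, w25, w34, w5] <;> ring
  have h := hg _ hl
  rw [he] at h
  exact h hp (by rw [sc]; norm_num; exact hr) hr2

lemma root19 (hTd : TdOK) {s1 s2 s3 e d1 d2 : ℝ}
    (h0 : s2 ≤ s1) (h1 : s3 ≤ s2) (h2 : d2 ≤ s3) (h3 : e ≤ d2) (h4 : d1 ≤ e) (h5 : 0 ≤ d1)
    (hp : PD ![s1 + d1, s2 + d2, s3 - e, s3 + e, s2 - d2, s1 - d1])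
    (hr : 1 ≤ rad ![s1 + d1, s2 + d2, s3 - e, s3 + e, s2 - d2, s1 - d1])
    (hr2 : rad ![s1 + d1, s2 + d2, s3 - e, s3 + e, s2 - d2, s1 - d1] ≤ 819 / 256) :
    Con ![s1 + d1, s2 + d2, s3 - e, s3 + e, s2 - d2, s1 - d1] := by
  have hg := tp1194 hTd
  have hl : ∀ i, 0 ≤ (![(s1 - s2) / 6442450944, (s2 - s3) / 3221225472, (s3 - d2) / 2147483648, (d2 - e) / 2147483648, (e - d1) / 2147483648, d1 / 2147483648] : Fin 6 → ℝ) i := by
    intro i
    fin_cases i <;> simp only [Fin.zero_eta, Fin.mk_one, Fin.reduceFinMk, Matrix.cons_val] <;>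
      first | exact div_nonneg (sub_nonneg.2 ‹_›) (by norm_num) | exact div_nonneg ‹_› (by norm_num)
  have he : ∑ i, (![(s1 - s2) / 6442450944, (s2 - s3) / 3221225472, (s3 - d2) / 2147483648, (d2 - e) / 2147483648, (e - d1) / 2147483648, d1 / 2147483648] : Fin 6 → ℝ) i • wv ((![w0, w12, w34, w22, w28, w8] : Fin 6 → W) i) =
      ![s1 + d1, s2 + d2, s3 - e, s3 + e, s2 - d2, s1 - d1] := by
    funext k
    fin_cases k <;> simp [Fin.sum_univ_six, wv, w0, w12, w22, w28, w34, w8] <;> ring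
  have h := hg _ hl
  rw [he] at h
  exact h hp (by rw [sc]; norm_num; exact hr) hr2

lemma root20 (hTd : TdOK) {s1 s2 s3 e d1 d2 : ℝ}
    (h0 : d1 ≤ s1) (h1 : s2 ≤ d1) (h2 : s3 ≤ s2) (h3 : e ≤ s3) (h4 : d2 ≤ e) (h5 : 0 ≤ d2)
    (hp : PD ![s1 + d1, s2 + d2, s3 + e, s3 - e, s2 - d2, s1 - d1])
    (hr : 1 ≤ rad ![s1 + d1, s2 + d2, s3 + e, s3 - e, s2 - d2, s1 - d1])
    (hr2 : rad ![s1 + d1, s2 + d2, s3 + e, s3 - e, s2 - d2, s1 - d1] ≤ 819 / 256) :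
    Con ![s1 + d1, s2 + d2, s3 + e, s3 - e, s2 - d2, s1 - d1] := by
  have hg := ch1215 hTd
  have hl : ∀ i, 0 ≤ (![(s1 - d1) / 6442450944, (d1 - s2) / 6442450944, (s2 - s3) / 3221225472, (s3 - e) / 2147483648, (e - d2) / 2147483648, d2 / 2147483648] : Fin 6 → ℝ) i := by
    intro i
    fin_cases i <;> simp only [Fin.zero_eta, Fin.mk_one, Fin.reduceFinMk, Matrix.cons_val] <;>
      first | exact div_nonneg (sub_nonneg.2 ‹_›) (by norm_num) | exact div_nonneg ‹_› (by norm_num)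
  have he : ∑ i, (![(s1 - d1) / 6442450944, (d1 - s2) / 6442450944, (s2 - s3) / 3221225472, (s3 - e) / 2147483648, (e - d2) / 2147483648, d2 / 2147483648] : Fin 6 → ℝ) i • wv ((![w0, w6, w2, w32, w176, w5] : Fin 6 → W) i) =
      ![s1 + d1, s2 + d2, s3 + e, s3 - e, s2 - d2, s1 - d1] := by
    funext k
    fin_cases k <;> simp [Fin.sum_univ_six, wv, w0, w176, w2, w32, w5, w6] <;> ring
  have h := hg _ hl
  rw [he] at h
  exact h hp (by rw [sc]; norm_num; exact hr) hr2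

lemma root21 (hTd : TdOK) {s1 s2 s3 e d1 d2 : ℝ}
    (h0 : d1 ≤ s1) (h1 : s2 ≤ d1) (h2 : s3 ≤ s2) (h3 : e ≤ s3) (h4 : d2 ≤ e) (h5 : 0 ≤ d2)
    (hp : PD ![s1 + d1, s2 + d2, s3 - e, s3 + e, s2 - d2, s1 - d1])
    (hr : 1 ≤ rad ![s1 + d1, s2 + d2, s3 - e, s3 + e, s2 - d2, s1 - d1])
    (hr2 : rad ![s1 + d1, s2 + d2, s3 - e, s3 + e, s2 - d2, s1 - d1] ≤ 819 / 256) :
    Con ![s1 + d1, s2 + d2, s3 - e, s3 + e, s2 - d2, s1 - d1] := by
  have hg := tp1195 hTd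
  have hl : ∀ i, 0 ≤ (![(s1 - d1) / 6442450944, (d1 - s2) / 6442450944, (s2 - s3) / 3221225472, (s3 - e) / 2147483648, (e - d2) / 2147483648, d2 / 2147483648] : Fin 6 → ℝ) i := by
    intro i
    fin_cases i <;> simp only [Fin.zero_eta, Fin.mk_one, Fin.reduceFinMk, Matrix.cons_val] <;>
      first | exact div_nonneg (sub_nonneg.2 ‹_›) (by norm_num) | exact div_nonneg ‹_› (by norm_num)
  have he : ∑ i, (![(s1 - d1) / 6442450944, (d1 - s2) / 6442450944, (s2 - s3) / 3221225472, (s3 - e) / 2147483648, (e - d2) / 2147483648, d2 / 2147483648] : Fin 6 → ℝ) i • wv ((![w0, w6, w2, w32, w177, w8] : Fin 6 → W) i) =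
      ![s1 + d1, s2 + d2, s3 - e, s3 + e, s2 - d2, s1 - d1] := by
    funext k
    fin_cases k <;> simp [Fin.sum_univ_six, wv, w0, w177, w2, w32, w6, w8] <;> ring
  have h := hg _ hl
  rw [he] at h
  exact h hp (by rw [sc]; norm_num; exact hr) hr2

lemma root22 (hTd : TdOK) {s1 s2 s3 e d1 d2 : ℝ}
    (h0 : s2 ≤ s1) (h1 : d1 ≤ s2) (h2 : s3 ≤ d1) (h3 : e ≤ s3) (h4 : d2 ≤ e) (h5 : 0 ≤ d2)
    (hp : PD ![s1 + d1, s2 + d2, s3 + e, s3 - e, s2 - d2, s1 - d1])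
    (hr : 1 ≤ rad ![s1 + d1, s2 + d2, s3 + e, s3 - e, s2 - d2, s1 - d1])
    (hr2 : rad ![s1 + d1, s2 + d2, s3 + e, s3 - e, s2 - d2, s1 - d1] ≤ 819 / 256) :
    Con ![s1 + d1, s2 + d2, s3 + e, s3 - e, s2 - d2, s1 - d1] := by
  have hg := tp1204 hTd
  have hl : ∀ i, 0 ≤ (![(s1 - s2) / 6442450944, (s2 - d1) / 3221225472, (d1 - s3) / 3221225472, (s3 - e) / 2147483648, (e - d2) / 2147483648, d2 / 2147483648] : Fin 6 → ℝ) i := by
    intro i
    fin_cases i <;> simp only [Fin.zero_eta, Fin.mk_one, Fin.reduceFinMk, Matrix.cons_val] <;>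
      first | exact div_nonneg (sub_nonneg.2 ‹_›) (by norm_num) | exact div_nonneg ‹_› (by norm_num)
  have he : ∑ i, (![(s1 - s2) / 6442450944, (s2 - d1) / 3221225472, (d1 - s3) / 3221225472, (s3 - e) / 2147483648, (e - d2) / 2147483648, d2 / 2147483648] : Fin 6 → ℝ) i • wv ((![w0, w12, w2, w32, w176, w5] : Fin 6 → W) i) =
      ![s1 + d1, s2 + d2, s3 + e, s3 - e, s2 - d2, s1 - d1] := by
    funext k
    fin_cases k <;> simp [Fin.sum_univ_six, wv, w0, w12, w176, w2, w32, w5] <;> ring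
  have h := hg _ hl
  rw [he] at h
  exact h hp (by rw [sc]; norm_num; exact hr) hr2

lemma root23 (hTd : TdOK) {s1 s2 s3 e d1 d2 : ℝ}
    (h0 : s2 ≤ s1) (h1 : d1 ≤ s2) (h2 : s3 ≤ d1) (h3 : e ≤ s3) (h4 : d2 ≤ e) (h5 : 0 ≤ d2)
    (hp : PD ![s1 + d1, s2 + d2, s3 - e, s3 + e, s2 - d2, s1 - d1])
    (hr : 1 ≤ rad ![s1 + d1, s2 + d2, s3 - e, s3 + e, s2 - d2, s1 - d1])
    (hr2 : rad ![s1 + d1, s2 + d2, s3 - e, s3 + e, s2 - d2, s1 - d1] ≤ 819 / 256) :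
    Con ![s1 + d1, s2 + d2, s3 - e, s3 + e, s2 - d2, s1 - d1] := by
  have hg := tp1208 hTd
  have hl : ∀ i, 0 ≤ (![(s1 - s2) / 6442450944, (s2 - d1) / 3221225472, (d1 - s3) / 3221225472, (s3 - e) / 2147483648, (e - d2) / 2147483648, d2 / 2147483648] : Fin 6 → ℝ) i := by
    intro i
    fin_cases i <;> simp only [Fin.zero_eta, Fin.mk_one, Fin.reduceFinMk, Matrix.cons_val] <;>
      first | exact div_nonneg (sub_nonneg.2 ‹_›) (by norm_num) | exact div_nonneg ‹_› (by norm_num)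
  have he : ∑ i, (![(s1 - s2) / 6442450944, (s2 - d1) / 3221225472, (d1 - s3) / 3221225472, (s3 - e) / 2147483648, (e - d2) / 2147483648, d2 / 2147483648] : Fin 6 → ℝ) i • wv ((![w0, w12, w2, w32, w177, w8] : Fin 6 → W) i) =
      ![s1 + d1, s2 + d2, s3 - e, s3 + e, s2 - d2, s1 - d1] := by
    funext k
    fin_cases k <;> simp [Fin.sum_univ_six, wv, w0, w12, w177, w2, w32, w8] <;> ring
  have h := hg _ hl
  rw [he] at h
  exact h hp (by rw [sc]; norm_num; exact hr) hr2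

lemma root24 (hTd : TdOK) {s1 s2 s3 e d1 d2 : ℝ}
    (h0 : s2 ≤ s1) (h1 : s3 ≤ s2) (h2 : d1 ≤ s3) (h3 : e ≤ d1) (h4 : d2 ≤ e) (h5 : 0 ≤ d2)
    (hp : PD ![s1 + d1, s2 + d2, s3 + e, s3 - e, s2 - d2, s1 - d1])
    (hr : 1 ≤ rad ![s1 + d1, s2 + d2, s3 + e, s3 - e, s2 - d2, s1 - d1])
    (hr2 : rad ![s1 + d1, s2 + d2, s3 + e, s3 - e, s2 - d2, s1 - d1] ≤ 819 / 256) :
    Con ![s1 + d1, s2 + d2, s3 + e, s3 - e, s2 - d2, s1 - d1] := by
  have hg := tp1401 hTd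
  have hl : ∀ i, 0 ≤ (![(s1 - s2) / 6442450944, (s2 - s3) / 3221225472, (s3 - d1) / 2147483648, (d1 - e) / 2147483648, (e - d2) / 2147483648, d2 / 2147483648] : Fin 6 → ℝ) i := by
    intro i
    fin_cases i <;> simp only [Fin.zero_eta, Fin.mk_one, Fin.reduceFinMk, Matrix.cons_val] <;>
      first | exact div_nonneg (sub_nonneg.2 ‹_›) (by norm_num) | exact div_nonneg ‹_› (by norm_num)
  have he : ∑ i, (![(s1 - s2) / 6442450944, (s2 - s3) / 3221225472, (s3 - d1) / 2147483648, (d1 - e) / 2147483648, (e - d2) / 2147483648, d2 / 2147483648] : Fin 6 → ℝ) i • wv ((![w0, w12, w34, w32, w176, w5] : Fin 6 → W) i) =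
      ![s1 + d1, s2 + d2, s3 + e, s3 - e, s2 - d2, s1 - d1] := by
    funext k
    fin_cases k <;> simp [Fin.sum_univ_six, wv, w0, w12, w176, w32, w34, w5] <;> ring
  have h := hg _ hl
  rw [he] at h
  exact h hp (by rw [sc]; norm_num; exact hr) hr2

lemma root25 (hTd : TdOK) {s1 s2 s3 e d1 d2 : ℝ}
    (h0 : s2 ≤ s1) (h1 : s3 ≤ s2) (h2 : d1 ≤ s3) (h3 : e ≤ d1) (h4 : d2 ≤ e) (h5 : 0 ≤ d2)
    (hp : PD ![s1 + d1, s2 + d2, s3 - e, s3 + e, s2 - d2, s1 - d1])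
    (hr : 1 ≤ rad ![s1 + d1, s2 + d2, s3 - e, s3 + e, s2 - d2, s1 - d1])
    (hr2 : rad ![s1 + d1, s2 + d2, s3 - e, s3 + e, s2 - d2, s1 - d1] ≤ 819 / 256) :
    Con ![s1 + d1, s2 + d2, s3 - e, s3 + e, s2 - d2, s1 - d1] := by
  have hg := tp1535 hTd
  have hl : ∀ i, 0 ≤ (![(s1 - s2) / 6442450944, (s2 - s3) / 3221225472, (s3 - d1) / 2147483648, (d1 - e) / 2147483648, (e - d2) / 2147483648, d2 / 2147483648] : Fin 6 → ℝ) i := by
    intro i
    fin_cases i <;> simp only [Fin.zero_eta, Fin.mk_one, Fin.reduceFinMk, Matrix.cons_val] <;>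
      first | exact div_nonneg (sub_nonneg.2 ‹_›) (by norm_num) | exact div_nonneg ‹_› (by norm_num)
  have he : ∑ i, (![(s1 - s2) / 6442450944, (s2 - s3) / 3221225472, (s3 - d1) / 2147483648, (d1 - e) / 2147483648, (e - d2) / 2147483648, d2 / 2147483648] : Fin 6 → ℝ) i • wv ((![w0, w12, w34, w32, w177, w8] : Fin 6 → W) i) =
      ![s1 + d1, s2 + d2, s3 - e, s3 + e, s2 - d2, s1 - d1] := by
    funext k
    fin_cases k <;> simp [Fin.sum_univ_six, wv, w0, w12, w177, w32, w34, w8] <;> ring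
  have h := hg _ hl
  rw [he] at h
  exact h hp (by rw [sc]; norm_num; exact hr) hr2

lemma root26 (hTd : TdOK) {s1 s2 s3 e d1 d2 : ℝ}
    (h0 : s2 ≤ s1) (h1 : s3 ≤ s2) (h2 : e ≤ s3) (h3 : d1 ≤ e) (h4 : d2 ≤ d1) (h5 : 0 ≤ d2)
    (hp : PD ![s1 + d1, s2 + d2, s3 + e, s3 - e, s2 - d2, s1 - d1])
    (hr : 1 ≤ rad ![s1 + d1, s2 + d2, s3 + e, s3 - e, s2 - d2, s1 - d1])
    (hr2 : rad ![s1 + d1, s2 + d2, s3 + e, s3 - e, s2 - d2, s1 - d1] ≤ 819 / 256) :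
    Con ![s1 + d1, s2 + d2, s3 + e, s3 - e, s2 - d2, s1 - d1] := by
  have hg := tp1793 hTd
  have hl : ∀ i, 0 ≤ (![(s1 - s2) / 6442450944, (s2 - s3) / 3221225472, (s3 - e) / 2147483648, (e - d1) / 2147483648, (d1 - d2) / 2147483648, d2 / 2147483648] : Fin 6 → ℝ) i := by
    intro i
    fin_cases i <;> simp only [Fin.zero_eta, Fin.mk_one, Fin.reduceFinMk, Matrix.cons_val] <;>
      first | exact div_nonneg (sub_nonneg.2 ‹_›) (by norm_num) | exact div_nonneg ‹_› (by norm_num)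
  have he : ∑ i, (![(s1 - s2) / 6442450944, (s2 - s3) / 3221225472, (s3 - e) / 2147483648, (e - d1) / 2147483648, (d1 - d2) / 2147483648, d2 / 2147483648] : Fin 6 → ℝ) i • wv ((![w0, w12, w34, w213, w176, w5] : Fin 6 → W) i) =
      ![s1 + d1, s2 + d2, s3 + e, s3 - e, s2 - d2, s1 - d1] := by
    funext k
    fin_cases k <;> simp [Fin.sum_univ_six, wv, w0, w12, w176, w213, w34, w5] <;> ring
  have h := hg _ hl
  rw [he] at h
  exact h hp (by rw [sc]; norm_num; exact hr) hr2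

lemma root27 (hTd : TdOK) {s1 s2 s3 e d1 d2 : ℝ}
    (h0 : s2 ≤ s1) (h1 : s3 ≤ s2) (h2 : e ≤ s3) (h3 : d1 ≤ e) (h4 : d2 ≤ d1) (h5 : 0 ≤ d2)
    (hp : PD ![s1 + d1, s2 + d2, s3 - e, s3 + e, s2 - d2, s1 - d1])
    (hr : 1 ≤ rad ![s1 + d1, s2 + d2, s3 - e, s3 + e, s2 - d2, s1 - d1])
    (hr2 : rad ![s1 + d1, s2 + d2, s3 - e, s3 + e, s2 - d2, s1 - d1] ≤ 819 / 256) :
    Con ![s1 + d1, s2 + d2, s3 - e, s3 + e, s2 - d2, s1 - d1] := by
  have hg := tp1990 hTd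
  have hl : ∀ i, 0 ≤ (![(s1 - s2) / 6442450944, (s2 - s3) / 3221225472, (s3 - e) / 2147483648, (e - d1) / 2147483648, (d1 - d2) / 2147483648, d2 / 2147483648] : Fin 6 → ℝ) i := by
    intro i
    fin_cases i <;> simp only [Fin.zero_eta, Fin.mk_one, Fin.reduceFinMk, Matrix.cons_val] <;>
      first | exact div_nonneg (sub_nonneg.2 ‹_›) (by norm_num) | exact div_nonneg ‹_› (by norm_num)
  have he : ∑ i, (![(s1 - s2) / 6442450944, (s2 - s3) / 3221225472, (s3 - e) / 2147483648, (e - d1) / 2147483648, (d1 - d2) / 2147483648, d2 / 2147483648] : Fin 6 → ℝ) i • wv ((![w0, w12, w34, w253, w177, w8] : Fin 6 → W) i) =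
      ![s1 + d1, s2 + d2, s3 - e, s3 + e, s2 - d2, s1 - d1] := by
    funext k
    fin_cases k <;> simp [Fin.sum_univ_six, wv, w0, w12, w177, w253, w34, w8] <;> ring
  have h := hg _ hl
  rw [he] at h
  exact h hp (by rw [sc]; norm_num; exact hr) hr2

lemma root28 (hTd : TdOK) {s1 s2 s3 e d1 d2 : ℝ}
    (h0 : s2 ≤ s1) (h1 : s3 ≤ s2) (h2 : e ≤ s3) (h3 : d2 ≤ e) (h4 : d1 ≤ d2) (h5 : 0 ≤ d1)
    (hp : PD ![s1 + d1, s2 + d2, s3 + e, s3 - e, s2 - d2, s1 - d1])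
    (hr : 1 ≤ rad ![s1 + d1, s2 + d2, s3 + e, s3 - e, s2 - d2, s1 - d1])
    (hr2 : rad ![s1 + d1, s2 + d2, s3 + e, s3 - e, s2 - d2, s1 - d1] ≤ 819 / 256) :
    Con ![s1 + d1, s2 + d2, s3 + e, s3 - e, s2 - d2, s1 - d1] := by
  have hg := tp2260 hTd
  have hl : ∀ i, 0 ≤ (![(s1 - s2) / 6442450944, (s2 - s3) / 3221225472, (s3 - e) / 2147483648, (e - d2) / 2147483648, (d2 - d1) / 2147483648, d1 / 2147483648] : Fin 6 → ℝ) i := by
    intro i
    fin_cases i <;> simp only [Fin.zero_eta, Fin.mk_one, Fin.reduceFinMk, Matrix.cons_val] <;>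
      first | exact div_nonneg (sub_nonneg.2 ‹_›) (by norm_num) | exact div_nonneg ‹_› (by norm_num)
  have he : ∑ i, (![(s1 - s2) / 6442450944, (s2 - s3) / 3221225472, (s3 - e) / 2147483648, (e - d2) / 2147483648, (d2 - d1) / 2147483648, d1 / 2147483648] : Fin 6 → ℝ) i • wv ((![w0, w12, w34, w213, w25, w5] : Fin 6 → W) i) =
      ![s1 + d1, s2 + d2, s3 + e, s3 - e, s2 - d2, s1 - d1] := by
    funext k
    fin_cases k <;> simp [Fin.sum_univ_six, wv, w0, w12, w213, w25, w34, w5] <;> ring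
  have h := hg _ hl
  rw [he] at h
  exact h hp (by rw [sc]; norm_num; exact hr) hr2

lemma root29 (hTd : TdOK) {s1 s2 s3 e d1 d2 : ℝ}
    (h0 : s2 ≤ s1) (h1 : s3 ≤ s2) (h2 : e ≤ s3) (h3 : d2 ≤ e) (h4 : d1 ≤ d2) (h5 : 0 ≤ d1)
    (hp : PD ![s1 + d1, s2 + d2, s3 - e, s3 + e, s2 - d2, s1 - d1])
    (hr : 1 ≤ rad ![s1 + d1, s2 + d2, s3 - e, s3 + e, s2 - d2, s1 - d1])
    (hr2 : rad ![s1 + d1, s2 + d2, s3 - e, s3 + e, s2 - d2, s1 - d1] ≤ 819 / 256) :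
    Con ![s1 + d1, s2 + d2, s3 - e, s3 + e, s2 - d2, s1 - d1] := by
  have hg := tp2495 hTd
  have hl : ∀ i, 0 ≤ (![(s1 - s2) / 6442450944, (s2 - s3) / 3221225472, (s3 - e) / 2147483648, (e - d2) / 2147483648, (d2 - d1) / 2147483648, d1 / 2147483648] : Fin 6 → ℝ) i := by
    intro i
    fin_cases i <;> simp only [Fin.zero_eta, Fin.mk_one, Fin.reduceFinMk, Matrix.cons_val] <;>
      first | exact div_nonneg (sub_nonneg.2 ‹_›) (by norm_num) | exact div_nonneg ‹_› (by norm_num)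
  have he : ∑ i, (![(s1 - s2) / 6442450944, (s2 - s3) / 3221225472, (s3 - e) / 2147483648, (e - d2) / 2147483648, (d2 - d1) / 2147483648, d1 / 2147483648] : Fin 6 → ℝ) i • wv ((![w0, w12, w34, w253, w28, w8] : Fin 6 → W) i) =
      ![s1 + d1, s2 + d2, s3 - e, s3 + e, s2 - d2, s1 - d1] := by
    funext k
    fin_cases k <;> simp [Fin.sum_univ_six, wv, w0, w12, w253, w28, w34, w8] <;> ring
  have h := hg _ hl
  rw [he] at h
  exact h hp (by rw [sc]; norm_num; exact hr) hr2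

/-- the energy inequality on the reduced cone -/
theorem cone_all (hTd : TdOK) {s1 s2 s3 d3 d1 d2 : ℝ} (h12 : s2 ≤ s1) (h23 : s3 ≤ s2)
    (h3 : d3 ≤ s3) (h3' : -d3 ≤ s3) (p1 : 0 ≤ d1) (h1 : d1 ≤ s1) (p2 : 0 ≤ d2) (h2 : d2 ≤ s2)
    (hp : PD ![s1 + d1, s2 + d2, s3 + d3, s3 - d3, s2 - d2, s1 - d1])
    (hr : 1 ≤ rad ![s1 + d1, s2 + d2, s3 + d3, s3 - d3, s2 - d2, s1 - d1])
    (hr2 : rad ![s1 + d1, s2 + d2, s3 + d3, s3 - d3, s2 - d2, s1 - d1] ≤ 819 / 256) :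
    Con ![s1 + d1, s2 + d2, s3 + d3, s3 - d3, s2 - d2, s1 - d1] := by
  rcases le_total 0 d3 with p3 | p3
  · have pe := p3
    have h3e := h3
    rcases le_total s3 d2 with t1 | t1
    · skip
      rcases le_total s2 d1 with q1 | q1
      · skip
        exact root0 hTd h1 q1 h2 t1 h3e pe hp hr hr2
      · skip
        rcases le_total d2 d1 with q2 | q2
        · skip
          exact root2 hTd h12 q1 q2 t1 h3e pe hp hr hr2
        · skip
          rcases le_total s3 d1 with q3 | q3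
          · skip
            exact root4 hTd h12 h2 q2 q3 h3e pe hp hr hr2
          · skip
            rcases le_total d3 d1 with q4 | q4
            · skip
              exact root6 hTd h12 h2 t1 q3 q4 pe hp hr hr2
            · skip
              exact root8 hTd h12 h2 t1 h3e q4 p1 hp hr hr2
    · rcases le_total d3 d2 with t2 | t2
      · skip
        rcases le_total s2 d1 with q1 | q1
        · skip
          exact root10 hTd h1 q1 h23 t1 t2 pe hp hr hr2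
        · skip
          rcases le_total s3 d1 with q2 | q2
          · skip
            exact root12 hTd h12 q1 q2 t1 t2 pe hp hr hr2
          · skip
            rcases le_total d2 d1 with q3 | q3
            · skip
              exact root14 hTd h12 h23 q2 q3 t2 pe hp hr hr2
            · skip
              rcases le_total d3 d1 with q4 | q4
              · skip
                exact root16 hTd h12 h23 t1 q3 q4 pe hp hr hr2
              · skip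
                exact root18 hTd h12 h23 t1 t2 q4 p1 hp hr hr2
      · skip
        rcases le_total s2 d1 with q1 | q1
        · skip
          exact root20 hTd h1 q1 h23 h3e t2 p2 hp hr hr2
        · skip
          rcases le_total s3 d1 with q2 | q2
          · skip
            exact root22 hTd h12 q1 q2 h3e t2 p2 hp hr hr2
          · skip
            rcases le_total d3 d1 with q3 | q3
            · skip
              exact root24 hTd h12 h23 q2 q3 t2 p2 hp hr hr2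
            · skip
              rcases le_total d2 d1 with q4 | q4
              · skip
                exact root26 hTd h12 h23 h3e q3 q4 p2 hp hr hr2
              · skip
                exact root28 hTd h12 h23 h3e t2 q4 p1 hp hr hr2
  · obtain ⟨e, he⟩ : ∃ e, e = -d3 := ⟨_, rfl⟩
    have hd : d3 = -e := by rw [he, neg_neg]
    rw [hd] at hp hr hr2 ⊢
    have pe : 0 ≤ e := by rw [he]; linarith
    have h3e : e ≤ s3 := by rw [he]; exact h3'
    rw [← sub_eq_add_neg, sub_neg_eq_add] at hp hr hr2 ⊢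
    rcases le_total s3 d2 with t1 | t1
    · skip
      rcases le_total s2 d1 with q1 | q1
      · skip
        exact root1 hTd h1 q1 h2 t1 h3e pe hp hr hr2
      · skip
        rcases le_total d2 d1 with q2 | q2
        · skip
          exact root3 hTd h12 q1 q2 t1 h3e pe hp hr hr2
        · skip
          rcases le_total s3 d1 with q3 | q3
          · skip
            exact root5 hTd h12 h2 q2 q3 h3e pe hp hr hr2
          · skip
            rcases le_total e d1 with q4 | q4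
            · skip
              exact root7 hTd h12 h2 t1 q3 q4 pe hp hr hr2
            · skip
              exact root9 hTd h12 h2 t1 h3e q4 p1 hp hr hr2
    · rcases le_total e d2 with t2 | t2
      · skip
        rcases le_total s2 d1 with q1 | q1
        · skip
          exact root11 hTd h1 q1 h23 t1 t2 pe hp hr hr2
        · skip
          rcases le_total s3 d1 with q2 | q2
          · skip
            exact root13 hTd h12 q1 q2 t1 t2 pe hp hr hr2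
          · skip
            rcases le_total d2 d1 with q3 | q3
            · skip
              exact root15 hTd h12 h23 q2 q3 t2 pe hp hr hr2
            · skip
              rcases le_total e d1 with q4 | q4
              · skip
                exact root17 hTd h12 h23 t1 q3 q4 pe hp hr hr2
              · skip
                exact root19 hTd h12 h23 t1 t2 q4 p1 hp hr hr2
      · skip
        rcases le_total s2 d1 with q1 | q1
        · skip
          exact root21 hTd h1 q1 h23 h3e t2 p2 hp hr hr2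
        · skip
          rcases le_total s3 d1 with q2 | q2
          · skip
            exact root23 hTd h12 q1 q2 h3e t2 p2 hp hr hr2
          · skip
            rcases le_total e d1 with q3 | q3
            · skip
              exact root25 hTd h12 h23 q2 q3 t2 p2 hp hr hr2
            · skip
              rcases le_total d2 d1 with q4 | q4
              · skip
                exact root27 hTd h12 h23 h3e q3 q4 p2 hp hr hr2
              · skip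
                exact root29 hTd h12 h23 h3e t2 q4 p1 hp hr hr2

end Pool.Agent.H999.Ep3
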