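import Pool.Agent.H999.Ep3.Part4
import Pool.Agent.H999.Ep3.Roots
import Pool.Agent.H999.Ep3.Bridge
import Pool.Agent.H999.Ep3.LcR
import Pool.Agent.H999.Ep3.LcS
import Pool.Agent.H999.Ep3.LcD
import Pool.Agent.H999.Ep3.LcF
import Pool.Agent.H999.Ep3.LcB
import Pool.Agent.H999.Ep3.LcQ1
import Pool.Agent.H999.Ep3.LcQ2
import Pool.Agent.H999.Ep3.LcW
import Pool.Agent.H999.Ep3.LcM
import Pool.Agent.H999.Ep3.LcL
import Pool.Agent.H999.Ep3.LcDF
import Pool.Agent.H999.Ep3.LcDB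
import Pool.Agent.H999.Ep3.LcE
import Pool.Agent.H999.Ep3.LcLoc
import Pool.Agent.H999.Ep3.LcC
import Pool.Agent.H999.Ep3.LcFL
import Pool.Agent.H999.Theta3.Main

/-!
# Optimal three-dimensional lattices for the Epstein zeta function
-/

set_option autoImplicit false

open Matrix MeasureTheory Set

namespace Pool.Agent.H999.Ep3

open Pool.Agent.K1H99.FCC (N0 rv nsq qf af dt PD rad Fp Qm pp tot al be sd)

/-- the numerical inequality for the first coefficient -/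
theorem numQ : NumQ := by
  intro t k3 k4 h1 h2 a1 a2 a3 a4
  rcases le_total t (5 / 4) with h | h
  · exact numQ1 t k3 k4 h1 h a1 a2 a3 a4
  · exact numQ2 t k3 k4 h h2 a1 a2 a3 a4

/-- the main local inequality -/
theorem mi : MI := mi_of cbd (flem rbd) (blem rbd (sbd rbd cbd) dbd) numQ numW

/-- the local result at the face-centred cubic form -/
theorem locF (hTT : TT) : LocFs :=
  locF_of mi lossF lossB (dualF (sbd rbd cbd) dbd) (sbd rbd cbd) (th_ok hTT)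

/-- the local result at the body-centred cubic form -/
theorem locB (hTT : TT) : LocBs := locB_of (locF hTT) dualB dualFE

/-- the statement for reduced forms -/
theorem fl (hTT : TT) : ∀ s1 d1 s2 d2 s3 d3 : ℝ, s2 ≤ s1 → s3 ≤ s2 → 0 ≤ d1 → d1 ≤ s1 → 0 ≤ d2 →
    d2 ≤ s2 → d3 ≤ s3 → -d3 ≤ s3 → PD (sd s1 d1 s2 d2 s3 d3) → rad (sd s1 d1 s2 d2 s3 d3) = 1 →
    FLc (sd s1 d1 s2 d2 s3 d3) :=
  fl_of (locF hTT) (locB hTT) coordG coordH
    fun _ _ _ _ _ _ h12 h23 p1 h1 p2 h2 h3 h3' hp hr hr2 =>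
      cone_all (td_ok hTT) h12 h23 h3 h3' p1 h1 p2 h2 hp hr hr2

/-- the theorem of the problem -/
theorem main :
    (∀ A : Matrix (Fin 3) (Fin 3) ℝ, |A.det| = 1 → ∃ Z : ℂ → ℂ, IsEpstein A Z) ∧
    ∀ A : Matrix (Fin 3) (Fin 3) ℝ, |A.det| = 1 → ∀ Z ZF ZB : ℂ → ℂ,
      IsEpstein A Z → IsEpstein AF ZF → IsEpstein AB ZB →
      (∀ s : ℝ, 0 < s → s ≠ 3 → (Z s).im = 0) ∧
      (∀ s : ℝ, 3 / 2 ≤ s → s ≠ 3 → (ZF s).re ≤ (Z s).re) ∧
      (∀ s : ℝ, 0 < s → s ≤ 3 / 2 → (ZB s).re ≤ (Z s).re) :=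
  part4 (fun β h0 h1 A hA => (Theta3.main β h0 h1 A hA).1)
    (fun hTT A hA => (U_of_FL (fl hTT) A hA).1) (fun hTT A hA => (U_of_FL (fl hTT) A hA).2)

end Pool.Agent.H999.Ep3
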